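import Mathlib

set_option autoImplicit false

/-!
# Binary tag systems with deletion number `ν`
-/

namespace Pool.Agent.Lib.MP_b40757_lc

/-- the production of the symbol `b` in the binary tag system with rules `false ↦ u`, `true ↦ v` -/
def rule (u v : List Bool) : Bool → List Bool
  | false => u
  | true => v

/-- One step of the binary tag system with deletion number `ν` and rules `false ↦ u`, `true ↦ v`:
a word of length at least `ν` with leftmost symbol `b` becomes the word obtained by appending the
production of `b` and then deleting the first `ν` symbols. A word of length less than `ν` has no
successor. -/
def tagStep (ν : ℕ) (u v : List Bool) : List Bool → Option (List Bool)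
  | [] => none
  | b :: S => if (b :: S).length < ν then none else some (((b :: S) ++ rule u v b).drop ν)

/-- The same with Post's convention: every nonempty word has a successor (if there are fewer than
`ν` symbols to delete, all symbols are deleted). -/
def postStep (ν : ℕ) (u v : List Bool) : List Bool → Option (List Bool)
  | [] => none
  | b :: S => some (((b :: S) ++ rule u v b).drop ν)

/-- the word `T` occurs in the iteration from `S` -/
def Reach (ν : ℕ) (u v : List Bool) (S T : List Bool) : Prop :=
  Relation.ReflTransGen (fun a b => tagStep ν u v a = some b) S T

/-- the word `T` occurs in the iteration from `S`, with Post's convention -/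
def PostReach (ν : ℕ) (u v : List Bool) (S T : List Bool) : Prop :=
  Relation.ReflTransGen (fun a b => postStep ν u v a = some b) S T

/-- the iteration from `S` stops: a word of length less than `ν` occurs -/
def Halts (ν : ℕ) (u v : List Bool) (S : List Bool) : Prop :=
  ∃ T, Reach ν u v S T ∧ T.length < ν

end Pool.Agent.Lib.MP_b40757_lc
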