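import Pool.Agent.Lib.MP_b40757_lc.BitSim

set_option autoImplicit false

/-!
# Undecidability of the halting problem for binary tag systems with deletion number `ν > 2`
-/

namespace Pool.Agent.Lib.MP_b40757_lc

open Relation

private theorem Main_post_of_tag {ν : ℕ} {u v a b : List Bool} (h : tagStep ν u v a = some b) :
    postStep ν u v a = some b := by
  cases a with
  | nil => simp [tagStep] at h
  | cons x S =>
    rw [tagStep] at h
    split at h
    · simp at h
    · exact h

/-- if the iteration from `S` ends with the word of `ν - 1` zeros or does not end, then the system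
with Post's convention reaches the empty word iff the iteration from `S` ends -/
theorem postReach_iff (ν : ℕ) (hν : 2 < ν) (v S : List Bool)
    (h : Halts ν [false] v S → Reach ν [false] v S (List.replicate (ν - 1) false)) :
    PostReach ν [false] v S [] ↔ Halts ν [false] v S := by
  constructor
  · intro hp
    clear h
    unfold PostReach at hp
    induction hp using ReflTransGen.head_induction_on with
    | refl => exact ⟨[], ReflTransGen.refl, by simp; omega⟩
    | @head a b hab _ ih =>
      by_cases hl : a.length < ν
      · exact ⟨a, ReflTransGen.refl, hl⟩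
      · obtain ⟨T, hT, hTl⟩ := ih
        refine ⟨T, ReflTransGen.head ?_ hT, hTl⟩
        show tagStep ν [false] v a = some b
        cases a with
        | nil => simp [postStep] at hab
        | cons x S =>
          rw [tagStep, if_neg hl]
          exact hab
  · intro hh
    have h1 : PostReach ν [false] v S (List.replicate (ν - 1) false) := by
      have h2 := h hh
      unfold Reach at h2
      unfold PostReach
      exact ReflTransGen.mono (fun a b hab => Main_post_of_tag hab) _ _ h2
    refine ReflTransGen.tail h1 ?_
    show postStep ν [false] v (List.replicate (ν - 1) false) = some []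
    obtain ⟨k, rfl⟩ : ∃ k, ν = k + 2 := ⟨ν - 2, by omega⟩
    have : List.replicate (k + 2 - 1) false = false :: List.replicate k false := by
      rw [show k + 2 - 1 = k + 1 by omega, List.replicate_succ]
    rw [this, postStep]
    congr 1
    apply List.drop_eq_nil_of_le
    simp [rule]

private theorem Main_rep_primrec (c2 : List Bool) :
    Primrec fun x : ℕ => (List.replicate x c2).flatten := by
  have h : Primrec fun x : ℕ => Nat.rec (motive := fun _ => List Bool) []
      (fun _ l => c2 ++ l) x :=
    Primrec.nat_rec₁ (f := fun _ l => c2 ++ l) []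
      (Primrec.list_append.comp (Primrec.const c2) Primrec.snd)
  refine h.of_eq fun x => ?_
  induction x with
  | zero => rfl
  | succ x ih =>
    rw [List.replicate_succ, List.flatten_cons, ← ih]

private theorem Main_word {ν : ℕ} {Q : Type} (M : BM Q) (enc : Sy Q → List Bool) (q₀ : Q) :
    ∃ c1 c2 c3 : List Bool, ∀ x, (word1 ν M (q₀, start x)).flatMap enc =
      c1 ++ (List.replicate x c2).flatten ++ c3 := by
  let g : Lt → List Bool := fun y =>
    (List.replicate (mult ν (M.k q₀) y) (Sum.inl (q₀, y) : Sy Q)).flatMap enc
  refine ⟨g Lt.H, g (Lt.A 0), g (Lt.B 0) ++ g (Lt.B 1) ++ g (Lt.B 2) ++ g (Lt.B 3), fun x => ?_⟩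
  have h1 : lw (start x) = Lt.H :: (List.replicate x (Lt.A 0) ++
      [Lt.B 0, Lt.B 1, Lt.B 2, Lt.B 3]) := by
    simp [lw, List.finRange_succ, start]
  have h2 : (word1 ν M (q₀, start x)).flatMap enc = (lw (start x)).flatMap g := by
    rw [word1, List.flatMap_assoc]
  have h3 : ∀ n : ℕ, (List.replicate n (Lt.A 0)).flatMap g = (List.replicate n (g (Lt.A 0))).flatten := by
    intro n
    induction n with
    | zero => rfl
    | succ n ih =>
      rw [List.replicate_succ, List.flatMap_cons, ih, List.replicate_succ, List.flatten_cons]
  rw [h2, h1, List.flatMap_cons, List.flatMap_append, h3]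
  simp [List.flatMap_cons, List.append_assoc]

theorem main (ν : ℕ) (hν : 2 < ν) :
    ∃ v : List Bool, ¬ ComputablePred (fun S => Halts ν [false] v S) ∧
      ¬ ComputablePred (fun S => PostReach ν [false] v S []) ∧
      ¬ ComputablePred (fun S => Reach ν [false] v S (List.replicate (ν - 1) false)) := by
  obtain ⟨Q, hQ, M, q₀, f, Inv, hmul, hinv, h1, h2, hf, hnc⟩ := source ν (by omega)
  have : Nonempty (Sy Q) := ⟨Sum.inl (q₀, Lt.H)⟩
  obtain ⟨v, Enc, enc, hs⟩ := exists_system ν (by omega) (Sy Q) (bprod ν M) btl
  have hν' : 3 ≤ ν := by omega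
  set wd : ℕ → List Bool := fun n => (word1 ν M (q₀, start (f n))).flatMap enc with hwd
  have hcomp : Computable wd := by
    obtain ⟨c1, c2, c3, hc⟩ := Main_word (ν := ν) M enc q₀
    have : Primrec fun n => c1 ++ (List.replicate (f n) c2).flatten ++ c3 :=
      Primrec.list_append.comp
        (Primrec.list_append.comp (Primrec.const c1) ((Main_rep_primrec c2).comp hf))
        (Primrec.const c3)
    exact (this.of_eq fun n => (hc (f n)).symm).to_comp
  have hH : ∀ n, Halts ν [false] v (wd n) ↔ M.Halts ν (q₀, start (f n)) := fun n =>
    halts_iff hν' hmul hs Inv h1 h2 _ (hinv n)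
  have hR : ∀ n, Halts ν [false] v (wd n) →
      Reach ν [false] v (wd n) (List.replicate (ν - 1) false) := fun n =>
    halts_word hν' hmul hs Inv h1 h2 _ (hinv n)
  have key : ∀ P : List Bool → Prop, (∀ n, P (wd n) ↔ M.Halts ν (q₀, start (f n))) →
      ¬ ComputablePred P := by
    intro P hP hc
    exact hnc (ComputablePred.computable_of_manyOneReducible
      (p := fun n => M.Halts ν (q₀, start (f n))) (q := P) ⟨wd, hcomp, fun n => (hP n).symm⟩ hc)
  refine ⟨v, key _ hH, key _ fun n => ?_, key _ fun n => ?_⟩
  · exact (postReach_iff ν hν v (wd n) (hR n)).trans (hH n)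
  · constructor
    · intro h
      exact (hH n).1 ⟨_, h, by simp; omega⟩
    · intro h
      exact hR n ((hH n).2 h)

end Pool.Agent.Lib.MP_b40757_lc
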