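import Mathlib

set_option autoImplicit false
set_option linter.unusedSectionVars false

/-!
# A machine with four stacks of bits (given by numbers) and undecidable halting problem
-/

namespace Pool.Agent.Lib.MP_b40757_lc

open Relation

/-- A machine with four registers. In the state `q` the last digit `b` (in base `ν`) of the
register `k q` is removed, where this digit is supposed to be `0` or `1`. Then affine maps with
coefficients depending on `q` and `b` are applied to all registers. -/
structure BM (Q : Type) where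
  /-- the register whose last digit is removed -/
  k : Q → Fin 4
  /-- the next state -/
  next : Q → Bool → Option Q
  /-- slopes of the affine maps -/
  mul : Q → Bool → Fin 4 → ℕ
  /-- constant terms of the affine maps -/
  add : Q → Bool → Fin 4 → ℕ

/-- a step of the machine -/
def BM.step {Q : Type} (ν : ℕ) (M : BM Q) (c : Q × (Fin 4 → ℕ)) : Option (Q × (Fin 4 → ℕ)) :=
  let b := decide (c.2 (M.k c.1) % ν = 1)
  (M.next c.1 b).map fun q' => (q', fun i =>
    M.mul c.1 b i * (if i = M.k c.1 then c.2 i / ν else c.2 i) + M.add c.1 b i)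

/-- the machine halts from the configuration `c` -/
def BM.Halts {Q : Type} (ν : ℕ) (M : BM Q) (c : Q × (Fin 4 → ℕ)) : Prop :=
  ∃ c', ReflTransGen (fun a b => M.step ν a = some b) c c' ∧ M.step ν c' = none

/-- the registers at the beginning -/
def start (x : ℕ) : Fin 4 → ℕ := fun i => if i = 0 then x else 0

namespace Source

open Turing Turing.PartrecToTM2

/-- statements of the stack machine -/
abbrev TStmt : Type := TM2.Stmt (fun _ : K' => Γ') Λ' (Option Γ')

/-- configurations of the stack machine -/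
abbrev TCfg : Type := TM2.Cfg (fun _ : K' => Γ') Λ' (Option Γ')

/-- the transition function of the stack machine -/
def trs : Λ' → TStmt := tr

/-- control states of the machine -/
inductive Ctl : Type
  | run (s : TStmt) (v : Option Γ') : Ctl
  | mid (s : TStmt) (v : Option Γ') : Ctl
  | top (s : TStmt) (v : Option Γ') (b : Bool) : Ctl
  | fin : Ctl

/-- index of a stack -/
def kf : K' → Fin 4
  | K'.main => 0
  | K'.rev => 1
  | K'.aux => 2
  | K'.stack => 3

/-- stack of an index -/
def fk : Fin 4 → K'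
  | 0 => K'.main
  | 1 => K'.rev
  | 2 => K'.aux
  | 3 => K'.stack

lemma kf_fk (i : Fin 4) : kf (fk i) = i := by
  fin_cases i <;> rfl

lemma fk_kf (k : K') : fk (kf k) = k := by
  cases k <;> rfl

/-- second digit of a symbol -/
def b1 : Γ' → Bool
  | Γ'.consₗ => false
  | Γ'.cons => true
  | Γ'.bit0 => false
  | Γ'.bit1 => true

/-- third digit of a symbol -/
def b2 : Γ' → Bool
  | Γ'.consₗ => false
  | Γ'.cons => false
  | Γ'.bit0 => true
  | Γ'.bit1 => true

/-- the symbol with given digits -/
def sym : Bool → Bool → Γ'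
  | false, false => Γ'.consₗ
  | true, false => Γ'.cons
  | false, true => Γ'.bit0
  | true, true => Γ'.bit1

lemma sym_b (c : Γ') : sym (b1 c) (b2 c) = c := by
  cases c <;> rfl

/-- pushing a symbol -/
def psh (ν : ℕ) (c : Γ') (x : ℕ) : ℕ :=
  ν * (ν * (ν * x + (b2 c).toNat) + (b1 c).toNat) + 1

/-- encoding of a stack -/
def val (ν : ℕ) : List Γ' → ℕ
  | [] => 0
  | c :: l => psh ν c (val ν l)

/-- the register used by a statement -/
def sreg : TStmt → Fin 4
  | TM2.Stmt.push k _ _ => kf k
  | TM2.Stmt.peek k _ _ => kf k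
  | TM2.Stmt.pop k _ _ => kf k
  | _ => 0

/-- the register used by a control state -/
def kreg : Ctl → Fin 4
  | Ctl.run s _ => sreg s
  | Ctl.mid s _ => sreg s
  | Ctl.top s _ _ => sreg s
  | Ctl.fin => 0

/-- the next control state -/
def nxt : Ctl → Bool → Option Ctl
  | Ctl.run (TM2.Stmt.push _ _ q) v, _ => some (Ctl.run q v)
  | Ctl.run (TM2.Stmt.peek k f q) v, true => some (Ctl.mid (TM2.Stmt.peek k f q) v)
  | Ctl.run (TM2.Stmt.peek _ f q) v, false => some (Ctl.run q (f v none))
  | Ctl.run (TM2.Stmt.pop k f q) v, true => some (Ctl.mid (TM2.Stmt.pop k f q) v)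
  | Ctl.run (TM2.Stmt.pop _ f q) v, false => some (Ctl.run q (f v none))
  | Ctl.run (TM2.Stmt.load a q) v, _ => some (Ctl.run q (a v))
  | Ctl.run (TM2.Stmt.branch f q₁ q₂) v, _ => some (Ctl.run (cond (f v) q₁ q₂) v)
  | Ctl.run (TM2.Stmt.goto l) v, _ => some (Ctl.run (trs (l v)) v)
  | Ctl.run TM2.Stmt.halt _, _ => some Ctl.fin
  | Ctl.mid s v, b => some (Ctl.top s v b)
  | Ctl.top (TM2.Stmt.peek _ f q) v b, b' => some (Ctl.run q (f v (some (sym b b'))))
  | Ctl.top (TM2.Stmt.pop _ f q) v b, b' => some (Ctl.run q (f v (some (sym b b'))))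
  | Ctl.top _ _ _, _ => none
  | Ctl.fin, _ => none

/-- slope and constant term of the map applied to the register which is read -/
def aff (ν : ℕ) : Ctl → Bool → ℕ × ℕ
  | Ctl.run (TM2.Stmt.push _ f _) v, b =>
      (ν ^ 4, ν ^ 3 * b.toNat + ν ^ 2 * (b2 (f v)).toNat + ν * (b1 (f v)).toNat + 1)
  | Ctl.run (TM2.Stmt.peek _ _ _) _, _ => (1, 0)
  | Ctl.run (TM2.Stmt.pop _ _ _) _, _ => (1, 0)
  | Ctl.run _ _, b => (ν, b.toNat)
  | Ctl.mid _ _, _ => (1, 0)
  | Ctl.top (TM2.Stmt.peek _ _ _) _ b, b' => (ν ^ 3, ν ^ 2 * b'.toNat + ν * b.toNat + 1)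
  | Ctl.top _ _ _, _ => (1, 0)
  | Ctl.fin, _ => (1, 0)

/-- the machine -/
def mach (ν : ℕ) : BM Ctl where
  k := kreg
  next := nxt
  mul q b i := if i = kreg q then (aff ν q b).1 else 1
  add q b i := if i = kreg q then (aff ν q b).2 else 0

lemma step_eq {ν : ℕ} {q q' : Ctl} {x x' : Fin 4 → ℕ} {b : Bool} {r : Fin 4} {y : ℕ}
    (hr : kreg q = r) (hy : x r = y)
    (hb : decide (y % ν = 1) = b) (hq : nxt q b = some q')
    (hx : Function.update x r ((aff ν q b).1 * (y / ν) + (aff ν q b).2) = x') :
    (mach ν).step ν (q, x) = some (q', x') := by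
  subst hr hy
  have h1 : (mach ν).step ν (q, x) = (nxt q (decide (x (kreg q) % ν = 1))).map fun q' => (q',
      fun i => (if i = kreg q then (aff ν q (decide (x (kreg q) % ν = 1))).1 else 1) *
      (if i = kreg q then x i / ν else x i) +
      (if i = kreg q then (aff ν q (decide (x (kreg q) % ν = 1))).2 else 0)) := rfl
  rw [h1, hb, hq, Option.map_some, ← hx]
  congr 2
  funext i
  by_cases hi : i = kreg q
  · subst hi
    simp
  · rw [Function.update_of_ne hi]
    simp [hi]

/-- the registers for a family of stacks -/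
def X (ν : ℕ) (S : K' → List Γ') (i : Fin 4) : ℕ := val ν (S (fk i))

lemma X_kf (ν : ℕ) (S : K' → List Γ') (k : K') : X ν S (kf k) = val ν (S k) := by
  unfold X
  rw [fk_kf]

lemma X_update (ν : ℕ) (S : K' → List Γ') (k : K') (l : List Γ') (y : ℕ) (h : y = val ν l) :
    Function.update (X ν S) (kf k) y = X ν (Function.update S k l) := by
  subst h
  funext i
  unfold X
  by_cases hi : i = kf k
  · subst hi
    rw [fk_kf, Function.update_self, Function.update_self]
  · rw [Function.update_of_ne hi, Function.update_of_ne]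
    intro h'
    apply hi
    rw [← h', kf_fk]

lemma X_self (ν : ℕ) (S : K' → List Γ') (i : Fin 4) (y : ℕ) (h : y = X ν S i) :
    Function.update (X ν S) i y = X ν S := by
  subst h
  exact Function.update_eq_self _ _

section

variable {ν : ℕ} (hν : 2 ≤ ν)

include hν

lemma dig_div (b : Bool) (y : ℕ) : (ν * y + b.toNat) / ν = y := by
  have h1 : b.toNat < ν := lt_of_le_of_lt (Bool.toNat_le b) (by omega)
  rw [Nat.mul_add_div (by omega), Nat.div_eq_of_lt h1, add_zero]

lemma dig_mod (b : Bool) (y : ℕ) : (ν * y + b.toNat) % ν = b.toNat := by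
  have h1 : b.toNat < ν := lt_of_le_of_lt (Bool.toNat_le b) (by omega)
  rw [Nat.mul_add_mod, Nat.mod_eq_of_lt h1]

lemma dig_dec (b : Bool) (y : ℕ) : decide ((ν * y + b.toNat) % ν = 1) = b := by
  rw [dig_mod hν]
  cases b <;> rfl

lemma psh_div (c : Γ') (x : ℕ) :
    psh ν c x / ν = ν * (ν * x + (b2 c).toNat) + (b1 c).toNat :=
  dig_div hν true _

lemma psh_dec (c : Γ') (x : ℕ) : decide (psh ν c x % ν = 1) = true :=
  dig_dec hν true _

lemma val_mod (l : List Γ') : val ν l % ν ≤ 1 := by
  cases l with
  | nil => simp [val]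
  | cons c l => exact (dig_mod hν true _).le

lemma restore {x : ℕ} (hx : x % ν ≤ 1) :
    ν * (x / ν) + (decide (x % ν = 1)).toNat = x := by
  have h1 : (decide (x % ν = 1)).toNat = x % ν := by
    have h2 : x % ν = 0 ∨ x % ν = 1 := by omega
    rcases h2 with h2 | h2 <;> rw [h2] <;> rfl
  rw [h1]
  exact Nat.div_add_mod x ν

/-- one step of the machine which does not change the registers -/
lemma step_keep {q q' : Ctl} (S : K' → List Γ') (h1 : ∀ b, nxt q b = some q')
    (h2 : ∀ b, aff ν q b = (ν, b.toNat)) :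
    (mach ν).step ν (q, X ν S) = some (q', X ν S) := by
  refine step_eq rfl rfl rfl (h1 _) (X_self _ _ _ _ ?_)
  rw [h2]
  exact restore hν (val_mod hν _)

open StateTransition

/-- reading the top of a stack -/
lemma read_top {s : TStmt} {v : Option Γ'} (S : K' → List Γ') {k : K'} {q : TStmt}
    {f : Option Γ' → Option Γ' → Option Γ'} {S' : K' → List Γ'}
    (hk : sreg s = kf k) (h0 : nxt (Ctl.run s v) false = some (Ctl.run q (f v none)))
    (h1 : nxt (Ctl.run s v) true = some (Ctl.mid s v))
    (ha : ∀ b, aff ν (Ctl.run s v) b = (1, 0))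
    (h2 : ∀ b b', nxt (Ctl.top s v b) b' = some (Ctl.run q (f v (some (sym b b')))))
    (hS0 : S k = [] → S' = S)
    (hS1 : ∀ c l, S k = c :: l → Function.update (X ν S) (kf k)
      ((aff ν (Ctl.top s v (b1 c)) (b2 c)).1 * val ν l + (aff ν (Ctl.top s v (b1 c)) (b2 c)).2)
      = X ν S') :
    Reaches₁ ((mach ν).step ν) (Ctl.run s v, X ν S) (Ctl.run q (f v (S k).head?), X ν S') := by
  cases hl : S k with
  | nil =>
    refine TransGen.single ?_
    have hx : X ν S (kf k) = 0 := by rw [X_kf, hl]; rfl
    refine step_eq (b := false) hk hx (by simp) h0 ?_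
    rw [hS0 hl, ha]
    refine X_self _ _ _ _ ?_
    rw [hx]
    simp
  | cons c l =>
    have hx : X ν S (kf k) = psh ν c (val ν l) := by rw [X_kf, hl]; rfl
    refine TransGen.head (b := (Ctl.mid s v, Function.update (X ν S) (kf k)
      (ν * (ν * val ν l + (b2 c).toNat) + (b1 c).toNat))) ?_ ?_
    · refine step_eq (b := true) hk hx (psh_dec hν _ _) h1 ?_
      rw [ha, psh_div hν]
      simp
    · refine TransGen.head (b := (Ctl.top s v (b1 c), Function.update (X ν S) (kf k)
        (ν * val ν l + (b2 c).toNat))) ?_ ?_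
      · refine step_eq (b := b1 c) hk (Function.update_self _ _ _) (dig_dec hν _ _) rfl ?_
        rw [Function.update_idem, dig_div hν]
        congr 1
        change 1 * (ν * val ν l + (b2 c).toNat) + 0 = _
        ring
      · refine TransGen.single ?_
        refine step_eq (b := b2 c) hk (Function.update_self _ _ _) (dig_dec hν _ _) ?_ ?_
        · rw [h2, sym_b]
          rfl
        · rw [Function.update_idem, dig_div hν]
          exact hS1 c l hl

omit hν in
/-- the configuration of the machine for a configuration of the stack machine -/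
def cfg (ν : ℕ) : TCfg → Ctl × (Fin 4 → ℕ)
  | ⟨some l, v, S⟩ => (Ctl.run (trs l) v, X ν S)
  | ⟨none, _, S⟩ => (Ctl.fin, X ν S)

lemma reach (s : TStmt) : ∀ v S, Reaches₁ ((mach ν).step ν) (Ctl.run s v, X ν S)
    (cfg ν (TM2.stepAux s v S)) := by
  induction s with
  | push k f q ih =>
    intro v S
    refine TransGen.head (b := (Ctl.run q v, X ν (Function.update S k (f v :: S k)))) ?_
      (ih v _)
    obtain ⟨b, hb⟩ : ∃ b, decide (val ν (S k) % ν = 1) = b := ⟨_, rfl⟩
    refine step_eq rfl (X_kf ν S k) hb rfl ?_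
    refine X_update _ _ _ _ _ ?_
    change ν ^ 4 * (val ν (S k) / ν) + (ν ^ 3 * b.toNat +
      ν ^ 2 * (b2 (f v)).toNat + ν * (b1 (f v)).toNat + 1) = _
    have h1 := restore hν (val_mod hν (S k))
    rw [hb] at h1
    have h2 : val ν (f v :: S k) = ν * (ν * (ν * val ν (S k) + (b2 (f v)).toNat) +
      (b1 (f v)).toNat) + 1 := rfl
    rw [h2]
    generalize val ν (S k) / ν = y at h1 ⊢
    rw [← h1]
    ring
  | peek k f q ih =>
    intro v S
    refine TransGen.trans (read_top hν (s := TM2.Stmt.peek k f q) (v := v) S (k := k) (q := q)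
      (f := f) (S' := S) rfl rfl rfl (fun b => rfl) (fun b b' => rfl) (fun _ => rfl) ?_) (ih _ S)
    intro c l hl
    refine X_self _ _ _ _ ?_
    rw [X_kf, hl]
    change ν ^ 3 * val ν l + (ν ^ 2 * (b2 c).toNat + ν * (b1 c).toNat + 1) =
      ν * (ν * (ν * val ν l + (b2 c).toNat) + (b1 c).toNat) + 1
    ring
  | pop k f q ih =>
    intro v S
    refine TransGen.trans (read_top hν (s := TM2.Stmt.pop k f q) (v := v) S (k := k) (q := q)
      (f := f) (S' := Function.update S k (S k).tail) rfl rfl rfl (fun b => rfl)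
      (fun b b' => rfl) ?_ ?_) (ih _ _)
    · intro hl
      rw [hl, List.tail_nil, ← hl, Function.update_eq_self]
    · intro c l hl
      refine X_update _ _ _ _ _ ?_
      rw [hl, List.tail_cons]
      change 1 * val ν l + 0 = val ν l
      ring
  | load a q ih =>
    intro v S
    exact TransGen.head (step_keep hν S (q' := Ctl.run q (a v)) (fun _ => rfl) fun _ => rfl)
      (ih _ _)
  | branch f q₁ q₂ ih₁ ih₂ =>
    intro v S
    refine TransGen.head (step_keep hν S (q' := Ctl.run (cond (f v) q₁ q₂) v) (fun _ => rfl)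
      fun _ => rfl) ?_
    rw [TM2.stepAux]
    cases f v
    · exact ih₂ _ _
    · exact ih₁ _ _
  | goto l =>
    intro v S
    exact TransGen.single (step_keep hν S (q' := Ctl.run (trs (l v)) v) (fun _ => rfl)
      fun _ => rfl)
  | halt =>
    intro v S
    exact TransGen.single (step_keep hν S (q' := Ctl.fin) (fun _ => rfl) fun _ => rfl)

lemma respects : Respects (TM2.step trs) ((mach ν).step ν) fun a b => cfg ν a = b := by
  rw [fun_respects]
  rintro ⟨l, v, S⟩
  cases l with
  | none => rfl
  | some l => exact reach hν (trs l) v S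

end

/-! ### restriction to finitely many states -/

open Classical in
/-- the restricted machine -/
noncomputable def rst (A : Set Ctl) (M : BM Ctl) : BM A where
  k q := M.k q.1
  next q b := (M.next q.1 b).bind fun q' => if h : q' ∈ A then some ⟨q', h⟩ else none
  mul q b := M.mul q.1 b
  add q b := M.add q.1 b

lemma rst_step {A : Set Ctl} {M : BM Ctl} (hA : ∀ q ∈ A, ∀ b q', M.next q b = some q' → q' ∈ A)
    (ν : ℕ) (c : A × (Fin 4 → ℕ)) :
    ((rst A M).step ν c).map (fun c => ((c.1 : Ctl), c.2)) = M.step ν ((c.1 : Ctl), c.2) := by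
  obtain ⟨⟨q, hq⟩, x⟩ := c
  unfold BM.step rst
  simp only [Option.map_map]
  cases h : M.next q (decide (x (M.k q) % ν = 1)) with
  | none => simp
  | some q' =>
    have h1 := hA q hq _ q' h
    simp [h1]

open StateTransition in
lemma rst_respects {A : Set Ctl} {M : BM Ctl}
    (hA : ∀ q ∈ A, ∀ b q', M.next q b = some q' → q' ∈ A) (ν : ℕ) :
    Respects (M.step ν) ((rst A M).step ν) fun a b => ((b.1 : Ctl), b.2) = a := by
  rintro a b rfl
  have h := rst_step hA ν b
  cases h1 : (rst A M).step ν b with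
  | none =>
    rw [h1, Option.map_none] at h
    rw [← h]
  | some c =>
    rw [h1, Option.map_some] at h
    rw [← h]
    exact ⟨c, rfl, TransGen.single h1⟩

open StateTransition in
lemma halts_iff {Q : Type} (ν : ℕ) (M : BM Q) (c : Q × (Fin 4 → ℕ)) :
    M.Halts ν c ↔ (eval (M.step ν) c).Dom := by
  rw [Part.dom_iff_mem]
  refine exists_congr fun c' => ?_
  rw [mem_eval]
  rfl

/-- the control states reachable for a code -/
def ctls (U : Finset Λ') : Set Ctl :=
  {c | c = Ctl.fin ∨ ∃ l ∈ U, ∃ s ∈ TM2.stmts₁ (trs l), ∃ v,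
    c = Ctl.run s v ∨ c = Ctl.mid s v ∨ ∃ b, c = Ctl.top s v b}

lemma ctls_finite (U : Finset Λ') : (ctls U).Finite := by
  have h : ctls U ⊆ ({Ctl.fin} : Set Ctl) ∪
      ⋃ l ∈ U, ⋃ s ∈ TM2.stmts₁ (trs l), (Set.range (Ctl.run s) ∪ (Set.range (Ctl.mid s) ∪
        Set.range fun p : Option Γ' × Bool => Ctl.top s p.1 p.2)) := by
    rintro c (rfl | ⟨l, hl, s, hs, v, h⟩)
    · left; simp
    · right
      simp only [Set.mem_iUnion]
      refine ⟨l, hl, s, hs, ?_⟩
      rcases h with rfl | rfl | ⟨b, rfl⟩
      · exact Or.inl ⟨v, rfl⟩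
      · exact Or.inr (Or.inl ⟨v, rfl⟩)
      · exact Or.inr (Or.inr ⟨(v, b), rfl⟩)
  refine Set.Finite.subset ?_ h
  refine Set.Finite.union (by simp) ?_
  refine Set.Finite.biUnion (Finset.finite_toSet U) fun l _ => ?_
  refine Set.Finite.biUnion (Finset.finite_toSet _) fun s _ => ?_
  exact (Set.finite_range _).union ((Set.finite_range _).union (Set.finite_range _))

lemma ctls_closed {U : Finset Λ'} (hU : ∀ l ∈ U, TM2.SupportsStmt U (trs l)) :
    ∀ q ∈ ctls U, ∀ b q', nxt q b = some q' → q' ∈ ctls U := by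
  classical
  rintro q (rfl | ⟨l, hl, s, hs, v, hq⟩) b q' h
  · cases h
  · have key : ∀ s' v', s' ∈ TM2.stmts₁ s → Ctl.run s' v' ∈ ctls U := fun s' v' h =>
      Or.inr ⟨l, hl, s', TM2.stmts₁_trans hs h, v', Or.inl rfl⟩
    rcases hq with rfl | rfl | ⟨b', rfl⟩
    · cases s with
      | push k f q =>
        simp only [nxt, Option.some.injEq] at h
        subst h
        exact key q v (by rw [TM2.stmts₁]; exact Finset.mem_insert_of_mem TM2.stmts₁_self)
      | peek k f q =>
        cases b
        · simp only [nxt, Option.some.injEq] at h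
          subst h
          exact key q _ (by rw [TM2.stmts₁]; exact Finset.mem_insert_of_mem TM2.stmts₁_self)
        · simp only [nxt, Option.some.injEq] at h
          subst h
          exact Or.inr ⟨l, hl, _, hs, v, Or.inr (Or.inl rfl)⟩
      | pop k f q =>
        cases b
        · simp only [nxt, Option.some.injEq] at h
          subst h
          exact key q _ (by rw [TM2.stmts₁]; exact Finset.mem_insert_of_mem TM2.stmts₁_self)
        · simp only [nxt, Option.some.injEq] at h
          subst h
          exact Or.inr ⟨l, hl, _, hs, v, Or.inr (Or.inl rfl)⟩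
      | load a q =>
        simp only [nxt, Option.some.injEq] at h
        subst h
        exact key q _ (by rw [TM2.stmts₁]; exact Finset.mem_insert_of_mem TM2.stmts₁_self)
      | branch f q₁ q₂ =>
        simp only [nxt, Option.some.injEq] at h
        subst h
        refine key _ _ ?_
        rw [TM2.stmts₁]
        refine Finset.mem_insert_of_mem ?_
        cases f v
        · exact Finset.mem_union_right _ TM2.stmts₁_self
        · exact Finset.mem_union_left _ TM2.stmts₁_self
      | goto l' =>
        simp only [nxt, Option.some.injEq] at h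
        subst h
        have h1 := TM2.stmts₁_supportsStmt_mono hs (hU l hl)
        exact Or.inr ⟨l' v, h1 v, trs (l' v), TM2.stmts₁_self, v, Or.inl rfl⟩
      | halt =>
        simp only [nxt, Option.some.injEq] at h
        subst h
        exact Or.inl rfl
    · simp only [nxt, Option.some.injEq] at h
      subst h
      exact Or.inr ⟨l, hl, s, hs, v, Or.inr (Or.inr ⟨b, rfl⟩)⟩
    · cases s with
      | peek k f q =>
        simp only [nxt, Option.some.injEq] at h
        subst h
        exact key q _ (by rw [TM2.stmts₁]; exact Finset.mem_insert_of_mem TM2.stmts₁_self)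
      | pop k f q =>
        simp only [nxt, Option.some.injEq] at h
        subst h
        exact key q _ (by rw [TM2.stmts₁]; exact Finset.mem_insert_of_mem TM2.stmts₁_self)
      | push k f q => cases h
      | load a q => cases h
      | branch f q₁ q₂ => cases h
      | goto l' => cases h
      | halt => cases h

/-! ### the input -/

/-- the initial contents of the main stack -/
def inp (n : ℕ) : List Γ' := trList [n]

lemma inp_eq (n : ℕ) : inp n = trNat n ++ [Γ'.cons] := rfl

lemma trNat_bit (b : Bool) (n : ℕ) (h : Nat.bit b n ≠ 0) :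
    trNat (Nat.bit b n) = (if b then Γ'.bit1 else Γ'.bit0) :: trNat n := by
  unfold trNat
  rw [← Num.ofNat'_eq, Num.ofNat'_bit, Num.ofNat'_eq]
  cases b
  · have hn : n ≠ 0 := by
      rintro rfl
      exact h rfl
    simp only [cond_false, Bool.false_eq_true, if_false]
    cases hn' : (n : Num) with
    | zero =>
      exfalso
      apply hn
      have : ((n : Num) : ℕ) = n := Num.to_of_nat n
      rw [hn'] at this
      exact this.symm
    | pos p => rfl
  · simp only [cond_true, if_true]
    cases (n : Num) with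
    | zero => rfl
    | pos p => rfl

lemma inp_succ (n : ℕ) (h : n ≠ 0) :
    inp n = (if n % 2 = 0 then Γ'.bit0 else Γ'.bit1) :: inp (n / 2) := by
  have h1 := trNat_bit (decide (n % 2 = 1)) (n / 2)
  have h2 : Nat.bit (decide (n % 2 = 1)) (n / 2) = n := by
    rw [Nat.bit_val]
    rcases Nat.mod_two_eq_zero_or_one n with h3 | h3
    · simp only [h3]
      simp
      omega
    · simp only [h3]
      simp
      omega
  rw [h2] at h1
  rw [inp_eq, inp_eq, h1 h]
  rcases Nat.mod_two_eq_zero_or_one n with h3 | h3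
  · simp [h3]
  · simp [h3]

/-- the initial content of the first register -/
def f (ν n : ℕ) : ℕ := val ν (inp n)

lemma f_zero (ν : ℕ) : f ν 0 = ν + 1 := by
  unfold f
  rw [inp_eq, trNat_zero]
  simp [val, psh, b1, b2]

lemma f_succ (ν n : ℕ) (h : n ≠ 0) : f ν n = ν * (ν * (ν * f ν (n / 2) + 1) + n % 2) + 1 := by
  unfold f
  rw [inp_succ n h]
  rcases Nat.mod_two_eq_zero_or_one n with h3 | h3
  · simp [h3, val, psh, b1, b2]
  · simp [h3, val, psh, b1, b2]

lemma primrec_f (ν : ℕ) : Primrec (f ν) := by
  have hg : Primrec₂ (fun (_ : Unit) (L : List ℕ) =>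
      if L.length = 0 then some (ν + 1) else
        (L[L.length / 2]?).map fun u => ν * (ν * (ν * u + 1) + L.length % 2) + 1) := by
    have hlen : Primrec (fun p : Unit × List ℕ => p.2.length) :=
      Primrec.list_length.comp Primrec.snd
    refine Primrec.ite (PrimrecRel.comp Primrec.eq hlen (Primrec.const 0)) (Primrec.const _) ?_
    refine Primrec.option_map ?_ ?_
    · exact Primrec.list_getElem?.comp Primrec.snd
        (Primrec.nat_div.comp hlen (Primrec.const 2))
    · have h1 : Primrec (fun q : (Unit × List ℕ) × ℕ => q.2) := Primrec.snd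
      have h3 : Primrec (fun q : (Unit × List ℕ) × ℕ => q.1.2.length % 2) :=
        Primrec.nat_mod.comp (hlen.comp Primrec.fst) (Primrec.const 2)
      exact Primrec.succ.comp (Primrec.nat_mul.comp (Primrec.const ν)
        (Primrec.nat_add.comp (Primrec.nat_mul.comp (Primrec.const ν)
          (Primrec.succ.comp (Primrec.nat_mul.comp (Primrec.const ν) h1))) h3))
  have h := Primrec.nat_strong_rec (fun (_ : Unit) n => f ν n) hg (by
    intro _ n
    simp only [List.length_map, List.length_range]
    by_cases hn : n = 0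
    · subst hn
      rw [if_pos rfl, f_zero]
    · rw [if_neg hn, f_succ ν n hn]
      have h1 : n / 2 < n := Nat.div_lt_self (Nat.pos_of_ne_zero hn) (by norm_num)
      rw [List.getElem?_map, List.getElem?_range h1]
      rfl)
  exact h.comp (Primrec.const ()) Primrec.id

lemma X_init (ν n : ℕ) : X ν (K'.elim (inp n) [] [] []) = start (f ν n) := by
  funext i
  fin_cases i <;> simp [X, fk, start, f, val]

/-! ### digits -/

/-- all digits are `0` or `1` -/
def Dig (ν x : ℕ) : Prop := ∀ j, x / ν ^ j % ν ≤ 1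

lemma Dig.div {ν x : ℕ} (h : Dig ν x) : Dig ν (x / ν) := by
  intro j
  rw [Nat.div_div_eq_div_mul, ← pow_succ']
  exact h (j + 1)

lemma Dig.mul {ν x : ℕ} (hν : 2 ≤ ν) (h : Dig ν x) (b : Bool) : Dig ν (ν * x + b.toNat) := by
  intro j
  cases j with
  | zero =>
    rw [pow_zero, Nat.div_one, dig_mod hν]
    exact Bool.toNat_le b
  | succ j =>
    rw [pow_succ', ← Nat.div_div_eq_div_mul, dig_div hν]
    exact h j

lemma Dig.zero (ν : ℕ) : Dig ν 0 := by
  intro j
  simp

lemma Dig.val {ν : ℕ} (hν : 2 ≤ ν) (l : List Γ') : Dig ν (val ν l) := by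
  induction l with
  | nil => exact Dig.zero ν
  | cons c l ih => exact ((ih.mul hν _).mul hν _).mul hν true

lemma Dig.aff {ν x : ℕ} (hν : 2 ≤ ν) (h : Dig ν x) (q : Ctl) (b : Bool) :
    Dig ν ((aff ν q b).1 * x + (aff ν q b).2) := by
  have h1 : Dig ν (1 * x + 0) := by
    rw [one_mul, add_zero]; exact h
  cases q with
  | fin => exact h1
  | mid s v => exact h1
  | run s v =>
    cases s with
    | push k f q =>
      have h2 := (((h.mul hν b).mul hν (b2 (f v))).mul hν (b1 (f v))).mul hν true
      convert h2 using 1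
      change ν ^ 4 * x + (ν ^ 3 * b.toNat + ν ^ 2 * (b2 (f v)).toNat +
        ν * (b1 (f v)).toNat + 1) = _ + 1
      ring
    | peek k f q => exact h1
    | pop k f q => exact h1
    | load a q => exact h.mul hν b
    | branch f q₁ q₂ => exact h.mul hν b
    | goto l => exact h.mul hν b
    | halt => exact h.mul hν b
  | top s v b' =>
    cases s with
    | peek k f q =>
      have h2 := ((h.mul hν b).mul hν b').mul hν true
      convert h2 using 1
      change ν ^ 3 * x + (ν ^ 2 * b.toNat + ν * b'.toNat + 1) = _ + 1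
      ring
    | pop k f q => exact h1
    | push k f q => exact h1
    | load a q => exact h1
    | branch f q₁ q₂ => exact h1
    | goto l => exact h1
    | halt => exact h1

lemma aff_pos {ν : ℕ} (hν : 2 ≤ ν) (q : Ctl) (b : Bool) : 1 ≤ (aff ν q b).1 := by
  cases q with
  | fin => exact le_rfl
  | mid s v => exact le_rfl
  | run s v =>
    cases s <;> first | exact le_rfl | exact (by omega : 1 ≤ ν) |
      exact Nat.one_le_pow _ _ (by omega)
  | top s v b' =>
    cases s <;> first | exact le_rfl | exact Nat.one_le_pow _ _ (by omega)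

open StateTransition in
theorem reduction (ν : ℕ) (hν : 2 ≤ ν) (c : ToPartrec.Code) :
    ∃ (Q : Type) (_ : Fintype Q) (M : BM Q) (q₀ : Q) (f : ℕ → ℕ) (Inv : Q × (Fin 4 → ℕ) → Prop),
      (∀ q b i, 1 ≤ M.mul q b i) ∧ (∀ n, Inv (q₀, start (f n))) ∧
      (∀ c c', Inv c → M.step ν c = some c' → Inv c') ∧
      (∀ c, Inv c → c.2 (M.k c.1) % ν ≤ 1) ∧ Primrec f ∧
      ∀ n, (M.Halts ν (q₀, start (f n)) ↔ (c.eval [n]).Dom) := by
  classical
  set U := codeSupp c Cont'.halt with hUdef
  have hU : ∀ l ∈ U, TM2.SupportsStmt U (trs l) := codeSupp_supports (Finset.Subset.refl _)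
  set A := ctls U with hAdef
  have hA : ∀ q ∈ A, ∀ b q', (mach ν).next q b = some q' → q' ∈ A := ctls_closed hU
  have hAf : Fintype A := (ctls_finite U).fintype
  set l0 := trNormal c Cont'.halt with hl0
  have hl0U : l0 ∈ U := codeSupp_self _ _ (trStmts₁_self _)
  have hq0 : Ctl.run (trs l0) none ∈ A := Or.inr ⟨l0, hl0U, _, TM2.stmts₁_self, _, Or.inl rfl⟩
  refine ⟨A, hAf, rst A (mach ν), ⟨_, hq0⟩, f ν, fun c => ∀ i, Dig ν (c.2 i), ?_, ?_, ?_, ?_,
    primrec_f ν, fun n => ?_⟩
  · intro q b i
    change 1 ≤ if i = kreg q.1 then (aff ν q.1 b).1 else 1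
    split_ifs
    · exact aff_pos hν _ _
    · exact le_rfl
  · intro n i
    change Dig ν (if i = 0 then f ν n else 0)
    split_ifs
    · exact Dig.val hν _
    · exact Dig.zero ν
  · intro c c' hc hs i
    obtain ⟨q', _, rfl⟩ := Option.map_eq_some_iff.1 hs
    change Dig ν ((if i = kreg c.1.1 then (aff ν c.1.1 _).1 else 1) *
      (if i = kreg c.1.1 then c.2 i / ν else c.2 i) +
      (if i = kreg c.1.1 then (aff ν c.1.1 _).2 else 0))
    by_cases hi : i = kreg c.1.1
    · rw [if_pos hi, if_pos hi, if_pos hi]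
      exact Dig.aff hν (hc i).div _ _
    · rw [if_neg hi, if_neg hi, if_neg hi, one_mul, add_zero]
      exact hc i
  · intro c hc
    have := hc ((rst A (mach ν)).k c.1) 0
    rwa [pow_zero, Nat.div_one] at this
  · rw [halts_iff]
    have h1 : (eval ((rst A (mach ν)).step ν) ((⟨_, hq0⟩ : A), start (f ν n))).Dom ↔
        (eval ((mach ν).step ν) (Ctl.run (trs l0) none, start (f ν n))).Dom :=
      tr_eval_dom (rst_respects hA ν) rfl
    rw [h1, ← X_init]
    have hinit : init c [n] = (⟨some l0, none, K'.elim (inp n) [] [] []⟩ : TCfg) := rfl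
    have h2 : (eval ((mach ν).step ν) (Ctl.run (trs l0) none,
        X ν (K'.elim (inp n) [] [] []))).Dom ↔ (eval (TM2.step trs) (init c [n])).Dom :=
      tr_eval_dom (respects hν) rfl
    rw [h2]
    have heval : eval (TM2.step trs) (init c [n]) = halt <$> c.eval [n] := tr_eval c [n]
    rw [heval]
    exact Iff.rfl

end Source

/-- there is a machine with undecidable halting problem -/
theorem source (ν : ℕ) (hν : 2 ≤ ν) :
    ∃ (Q : Type) (_ : Fintype Q) (M : BM Q) (q₀ : Q) (f : ℕ → ℕ) (Inv : Q × (Fin 4 → ℕ) → Prop),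
      (∀ q b i, 1 ≤ M.mul q b i) ∧ (∀ n, Inv (q₀, start (f n))) ∧
      (∀ c c', Inv c → M.step ν c = some c' → Inv c') ∧
      (∀ c, Inv c → c.2 (M.k c.1) % ν ≤ 1) ∧ Primrec f ∧
      ¬ ComputablePred fun n => M.Halts ν (q₀, start (f n)) := by
  have hre : REPred fun n : ℕ => (Nat.Partrec.Code.eval (Denumerable.ofNat Nat.Partrec.Code n)
      0).Dom := (Nat.Partrec.Code.eval_part.comp (Computable.ofNat _)
        (Computable.const 0)).dom_re
  have h1 : Partrec (fun n => (Part.assert ((Nat.Partrec.Code.eval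
      (Denumerable.ofNat Nat.Partrec.Code n) 0).Dom) fun _ => Part.some ()).map fun _ => 0 :
      ℕ →. ℕ) := Partrec.map hre (Computable.const 0).to₂
  obtain ⟨c, hc⟩ := Turing.ToPartrec.Code.exists_code (Nat.Partrec'.part_iff₁.2 h1)
  obtain ⟨Q, hQ, M, q₀, f, Inv, h2, h3, h4, h5, h6, h7⟩ := Source.reduction ν hν c
  refine ⟨Q, hQ, M, q₀, f, Inv, h2, h3, h4, h5, h6, ?_⟩
  intro hcomp
  have h8 : ∀ n, M.Halts ν (q₀, start (f n)) ↔ (Nat.Partrec.Code.eval
      (Denumerable.ofNat Nat.Partrec.Code n) 0).Dom := by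
    intro n
    rw [h7 n]
    have h9 := hc (n ::ᵥ List.Vector.nil)
    have h10 : (n ::ᵥ List.Vector.nil : List.Vector ℕ 1).1 = [n] := rfl
    rw [h10] at h9
    rw [h9]
    simp [Part.assert]
  apply ComputablePred.halting_problem 0
  rw [ComputablePred.computable_iff] at hcomp ⊢
  obtain ⟨g, hg, hg2⟩ := hcomp
  refine ⟨fun c => g (Encodable.encode c), hg.comp Computable.encode, ?_⟩
  funext c
  have h11 := congrFun hg2 (Encodable.encode c)
  have h12 := h8 (Encodable.encode c)
  rw [Denumerable.ofNat_encode] at h12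
  rw [← h11]
  exact propext h12.symm

end Pool.Agent.Lib.MP_b40757_lc
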