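import Pool.Agent.Lib.MP_b40757_lc.System
import Pool.Agent.Lib.MP_b40757_lc.Source

set_option autoImplicit false

/-!
# Simulation of a machine with four registers
-/

namespace Pool.Agent.Lib.MP_b40757_lc

open Relation

/-- letters of the words which represent the registers -/
inductive Lt : Type
  | H : Lt
  | A (i : Fin 4) : Lt
  | B (i : Fin 4) : Lt
  deriving DecidableEq, Fintype

/-- symbols of the abstract system: `Sum.inl (q, x)` in the first round of the simulation of a step
in the state `q`; `Sum.inr (false, q, ε, x)` in the second round, where the mode of the first round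
was `ε` (`true` = event); `Sum.inr (true, q, ε, x)` in the third round -/
abbrev Sy (Q : Type) : Type := (Q × Lt) ⊕ (Bool × Q × Bool × Lt)

/-- number of copies of the letter `x` in the first round if the register `k` is read -/
def mult (ν : ℕ) (k : Fin 4) : Lt → ℕ
  | Lt.H => ν
  | Lt.A i => if i = k then 1 else ν
  | Lt.B i => if i = k then ν - 1 else ν

/-- second round: the affine maps -/
def aff (mul add : Fin 4 → ℕ) : Lt → List Lt
  | Lt.H => [Lt.H]
  | Lt.A i => List.replicate (mul i) (Lt.A i)
  | Lt.B i => List.replicate (add i) (Lt.A i) ++ [Lt.B i]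

/-- every symbol `ν` times -/
def rep {α : Type} (ν : ℕ) (X : List α) : List α := X.flatMap fun x => List.replicate ν x

/-- the productions -/
def bprod (ν : ℕ) {Q : Type} (M : BM Q) (ε : Bool) : Sy Q → List (Sy Q)
  | Sum.inl (q, x) => List.replicate ν (Sum.inr (false, q, ε, x))
  | Sum.inr (false, q, ε', x) =>
    match M.next q (!ε') with
    | none => []
    | some _ => rep ν ((aff (M.mul q (!ε')) (M.add q (!ε')) x).map
        fun y => Sum.inr (true, q, ε', y))
  | Sum.inr (true, q, ε', x) =>
    match M.next q (!ε') with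
    | none => []
    | some q' => List.replicate (mult ν (M.k q') x) (Sum.inl (q', x))

/-- the symbols at the end of the word -/
def btl {Q : Type} : Sy Q → Bool
  | Sum.inl (_, Lt.B 3) => true
  | _ => false

/-- the word which represents the registers -/
def lw (c : Fin 4 → ℕ) : List Lt :=
  Lt.H :: (List.finRange 4).flatMap fun i => List.replicate (c i) (Lt.A i) ++ [Lt.B i]

/-- the word of the first round -/
def word1 (ν : ℕ) {Q : Type} (M : BM Q) (c : Q × (Fin 4 → ℕ)) : List (Sy Q) :=
  (lw c.2).flatMap fun x => List.replicate (mult ν (M.k c.1) x) (Sum.inl (c.1, x))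


section BitSimHelpers

private theorem bs_rep_flatten {α : Type} (ν : ℕ) (X : List α) :
    (X.map (List.replicate ν)).flatten = rep ν X := by
  simp [rep, List.flatMap_def]

private theorem bs_rep_append {α : Type} (ν : ℕ) (X Y : List α) :
    rep ν (X ++ Y) = rep ν X ++ rep ν Y := by
  simp [rep]

private theorem bs_rep_cons {α : Type} (ν : ℕ) (x : α) (Y : List α) :
    rep ν (x :: Y) = List.replicate ν x ++ rep ν Y := by
  simp [rep]

private theorem bs_rep_replicate {α : Type} (ν n : ℕ) (x : α) :
    rep ν (List.replicate n x) = List.replicate (n * ν) x := by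
  induction n with
  | zero => simp [rep]
  | succ n ih =>
    rw [List.replicate_succ, bs_rep_cons, ih, List.replicate_append_replicate]
    congr 1
    ring

private theorem bs_rep_map {α β : Type} (ν : ℕ) (f : α → β) (X : List α) :
    (rep ν X).map f = rep ν (X.map f) := by
  simp [rep, List.map_flatMap, List.flatMap_map, List.map_replicate]

/-- the productions of a list of groups, given by the list of the entries number `i` -/
private theorem bs_flatMap_cts {A : Type} (prod : Bool → A → List A) (ε : Bool) (i : ℕ)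
    (G : List (List A)) (L : List A) (h : G.map (fun g => g[i]?) = L.map some) :
    G.flatMap (cts prod ε i) = L.flatMap (prod ε) := by
  have h1 : G.flatMap (cts prod ε i) =
      (G.map (fun g => g[i]?)).flatMap (fun o => o.elim [] (prod ε)) := by
    rw [List.flatMap_map]
    rfl
  rw [h1, h, List.flatMap_map]
  rfl

private theorem bs_cts_mem {A : Type} (prod : Bool → A → List A) (ε : Bool) (i : ℕ)
    (G : List (List A)) (L : List A) (h : G.map (fun g => g[i]?) = L.map some)
    (g : List A) (hg : g ∈ G) : ∃ x ∈ L, g[i]? = some x ∧ cts prod ε i g = prod ε x := by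
  have h1 : g[i]? ∈ G.map (fun g => g[i]?) := List.mem_map.2 ⟨g, hg, rfl⟩
  rw [h] at h1
  obtain ⟨x, hx, hx'⟩ := List.mem_map.1 h1
  refine ⟨x, hx, hx'.symm, ?_⟩
  simp [cts, ← hx']

private theorem bs_map_replicate {A : Type} {ν : ℕ} (i : ℕ) (hi : i < ν) (L : List A) :
    (L.map (List.replicate ν)).map (fun g => g[i]?) = L.map some := by
  rw [List.map_map]
  apply List.map_congr_left
  intro x _
  simp [hi]

/-- `normal` for words of the form `rep ν L` -/
private theorem bs_normal {ν : ℕ} (hν : 3 ≤ ν) {A : Type} {prod : Bool → A → List A}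
    {tl : A → Bool} {v : List Bool} {Enc : List A → ℕ → List Bool → Prop} {enc : A → List Bool}
    (hs : Simulates ν A prod tl v Enc enc) (L : List A) (w : List Bool) (p : ℕ) (hL : L ≠ [])
    (h : ∀ x ∈ L, prod false x ≠ []) (hp : p = 0 ∨ p = 2) (hw : Enc (rep ν L) p w) :
    ∃ w', Enc (L.flatMap (prod false)) (p - 1) w' ∧ TransGen (Step ν v) w w' := by
  have hm := bs_map_replicate 1 (by omega : 1 < ν) L
  have := hs.normal (L.map (List.replicate ν)) w p (by simpa using hL) ?_ hp
    (by rw [bs_rep_flatten]; exact hw)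
  · rwa [bs_flatMap_cts prod false 1 _ L hm] at this
  · intro g hg
    obtain ⟨x, hx, -, hx'⟩ := bs_cts_mem prod false 1 _ L hm g hg
    obtain ⟨y, -, rfl⟩ := List.mem_map.1 hg
    exact ⟨by simp, by rw [hx']; exact h x hx⟩

private theorem bs_echo {ν : ℕ} (hν : 3 ≤ ν) {A : Type} {prod : Bool → A → List A}
    {tl : A → Bool} {v : List Bool} {Enc : List A → ℕ → List Bool → Prop} {enc : A → List Bool}
    (hs : Simulates ν A prod tl v Enc enc) (L : List A) (w : List Bool) (hL : L ≠ [])
    (h : ∀ x ∈ L, prod true x ≠ [] ∧ tl x = false) (hw : Enc (rep ν L) 1 w) :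
    ∃ w', Enc (L.flatMap (prod true)) 0 w' ∧ TransGen (Step ν v) w w' := by
  have hm := bs_map_replicate 0 (by omega : 0 < ν) L
  have := hs.echo (L.map (List.replicate ν)) w (by simpa using hL) ?_
    (by rw [bs_rep_flatten]; exact hw)
  · rwa [bs_flatMap_cts prod true 0 _ L hm] at this
  · intro g hg
    obtain ⟨x, hx, hx0, hx'⟩ := bs_cts_mem prod true 0 _ L hm g hg
    obtain ⟨y, -, rfl⟩ := List.mem_map.1 hg
    refine ⟨by simp, by rw [hx']; exact (h x hx).1, ?_⟩
    intro a ha
    rw [List.head?_eq_getElem?, hx0, Option.mem_some_iff] at ha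
    exact ha ▸ (h x hx).2

private theorem bs_halt {ν : ℕ} (hν : 3 ≤ ν) {A : Type} {prod : Bool → A → List A}
    {tl : A → Bool} {v : List Bool} {Enc : List A → ℕ → List Bool → Prop} {enc : A → List Bool}
    (hs : Simulates ν A prod tl v Enc enc) (L : List A) (w : List Bool) (p : ℕ)
    (h : ∀ x ∈ L, prod false x = []) (hp : p = 0 ∨ p = 2) (hw : Enc (rep ν L) p w) :
    ∃ r < ν, ReflTransGen (Step ν v) w (List.replicate r false) := by
  have hm := bs_map_replicate 1 (by omega : 1 < ν) L
  refine hs.halt (L.map (List.replicate ν)) w p ?_ hp (by rw [bs_rep_flatten]; exact hw)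
  intro g hg
  obtain ⟨x, hx, -, hx'⟩ := bs_cts_mem prod false 1 _ L hm g hg
  obtain ⟨y, -, rfl⟩ := List.mem_map.1 hg
  exact ⟨by simp, by rw [hx']; exact h x hx⟩

/-- the cutting of the end of the word in the mode `event` -/
private theorem bs_cut {α : Type} {ν : ℕ} (hν : 3 ≤ ν) (Y : List α) : ∀ b : α,
    ∃ (G : List (List α)) (t : List α), List.replicate (ν - 1) b ++ rep ν Y = G.flatten ++ t ∧
      t.length = ν - 1 ∧ (∀ g ∈ G, g.length = ν) ∧
      (G ++ [t]).map (fun g => g[0]?) = (b :: Y).map some := by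
  induction Y with
  | nil =>
    intro b
    refine ⟨[], List.replicate (ν - 1) b, by simp [rep], by simp, by simp, ?_⟩
    have : 0 < ν - 1 := by omega
    simp [this]
  | cons y Y ih =>
    intro b
    obtain ⟨G, t, h1, h2, h3, h4⟩ := ih y
    refine ⟨(List.replicate (ν - 1) b ++ [y]) :: G, t, ?_, h2, ?_, ?_⟩
    · rw [bs_rep_cons, List.flatten_cons, List.append_assoc, List.append_assoc, ← h1]
      congr 1
      rw [← List.append_assoc]
      congr 1
      obtain ⟨m, rfl⟩ : ∃ m, ν = m + 1 := ⟨ν - 1, by omega⟩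
      simp [List.replicate_succ]
    · intro g hg
      rcases List.mem_cons.1 hg with rfl | hg
      · simp; omega
      · exact h3 g hg
    · rw [List.cons_append, List.map_cons, h4]
      obtain ⟨m, rfl⟩ : ∃ m, ν = m + 2 := ⟨ν - 2, by omega⟩
      simp [List.replicate_succ]

private theorem bs_lw (c : Fin 4 → ℕ) : lw c =
    Lt.H :: (List.replicate (c 0) (Lt.A 0) ++ Lt.B 0 :: (List.replicate (c 1) (Lt.A 1) ++ Lt.B 1 ::
      (List.replicate (c 2) (Lt.A 2) ++ Lt.B 2 :: (List.replicate (c 3) (Lt.A 3) ++ [Lt.B 3])))) := by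
  simp [lw, List.finRange_succ]

/-- the word of the registers, cut at the register `k` -/
private theorem bs_split (k : Fin 4) (c : Fin 4 → ℕ) : ∃ P Y Z : List Lt,
    (∀ x ∈ P, (∀ ν, mult ν k x = ν) ∧ x ≠ Lt.B 3) ∧ (∀ x ∈ Y, ∀ ν, mult ν k x = ν) ∧
    Lt.B k :: Y = Z ++ [Lt.B 3] ∧ Lt.B 3 ∉ Z ∧
    ∀ c' : Fin 4 → ℕ, (∀ i, i ≠ k → c' i = c i) →
      lw c' = P ++ (List.replicate (c' k) (Lt.A k) ++ Lt.B k :: Y) := by
  have hk : k = 0 ∨ k = 1 ∨ k = 2 ∨ k = 3 := by
    fin_cases k <;> simp
  rcases hk with rfl | rfl | rfl | rfl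
  · refine ⟨[Lt.H],
      List.replicate (c 1) (Lt.A 1) ++ Lt.B 1 ::
      (List.replicate (c 2) (Lt.A 2) ++ Lt.B 2 :: (List.replicate (c 3) (Lt.A 3) ++ [Lt.B 3])),
      Lt.B 0 :: (List.replicate (c 1) (Lt.A 1) ++ Lt.B 1 ::
      (List.replicate (c 2) (Lt.A 2) ++ Lt.B 2 :: List.replicate (c 3) (Lt.A 3))),
      ?_, ?_, by simp, ?_, ?_⟩
    · intro x hx
      simp only [List.mem_singleton] at hx
      subst hx
      exact ⟨fun ν => rfl, by simp⟩
    · intro x hx ν
      simp only [List.mem_append, List.mem_cons, List.mem_replicate, List.not_mem_nil,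
        or_false] at hx
      rcases hx with ⟨_, rfl⟩ | rfl | ⟨_, rfl⟩ | rfl | ⟨_, rfl⟩ | rfl <;> simp [mult]
    · simp [List.mem_replicate]
    · intro c' h
      rw [bs_lw, h 1 (by decide), h 2 (by decide), h 3 (by decide)]
      simp
  · refine ⟨Lt.H :: (List.replicate (c 0) (Lt.A 0) ++ [Lt.B 0]),
      (List.replicate (c 2) (Lt.A 2) ++ Lt.B 2 :: (List.replicate (c 3) (Lt.A 3) ++ [Lt.B 3])),
      Lt.B 1 ::
      (List.replicate (c 2) (Lt.A 2) ++ Lt.B 2 :: List.replicate (c 3) (Lt.A 3)),
      ?_, ?_, by simp, ?_, ?_⟩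
    · intro x hx
      simp only [List.mem_append, List.mem_cons, List.mem_replicate, List.not_mem_nil,
        or_false] at hx
      rcases hx with rfl | ⟨_, rfl⟩ | rfl <;> simp [mult]
    · intro x hx ν
      simp only [List.mem_append, List.mem_cons, List.mem_replicate, List.not_mem_nil,
        or_false] at hx
      rcases hx with ⟨_, rfl⟩ | rfl | ⟨_, rfl⟩ | rfl <;> simp [mult]
    · simp [List.mem_replicate]
    · intro c' h
      rw [bs_lw, h 0 (by decide), h 2 (by decide), h 3 (by decide)]
      simp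
  · refine ⟨Lt.H :: (List.replicate (c 0) (Lt.A 0) ++ Lt.B 0 ::
        (List.replicate (c 1) (Lt.A 1) ++ [Lt.B 1])),
      (List.replicate (c 3) (Lt.A 3) ++ [Lt.B 3]),
      Lt.B 2 :: List.replicate (c 3) (Lt.A 3),
      ?_, ?_, by simp, ?_, ?_⟩
    · intro x hx
      simp only [List.mem_append, List.mem_cons, List.mem_replicate, List.not_mem_nil,
        or_false] at hx
      rcases hx with rfl | ⟨_, rfl⟩ | rfl | ⟨_, rfl⟩ | rfl <;> simp [mult]
    · intro x hx ν
      simp only [List.mem_append, List.mem_cons, List.mem_replicate, List.not_mem_nil,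
        or_false] at hx
      rcases hx with ⟨_, rfl⟩ | rfl <;> simp [mult]
    · simp [List.mem_replicate]
    · intro c' h
      rw [bs_lw, h 0 (by decide), h 1 (by decide), h 3 (by decide)]
      simp
  · refine ⟨Lt.H :: (List.replicate (c 0) (Lt.A 0) ++ Lt.B 0 ::
        (List.replicate (c 1) (Lt.A 1) ++ Lt.B 1 :: (List.replicate (c 2) (Lt.A 2) ++ [Lt.B 2]))),
      [], [],
      ?_, ?_, by simp, ?_, ?_⟩
    · intro x hx
      simp only [List.mem_append, List.mem_cons, List.mem_replicate, List.not_mem_nil,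
        or_false] at hx
      rcases hx with rfl | ⟨_, rfl⟩ | rfl | ⟨_, rfl⟩ | rfl | ⟨_, rfl⟩ | rfl <;> simp [mult]
    · simp
    · simp
    · intro c' h
      rw [bs_lw, h 0 (by decide), h 1 (by decide), h 2 (by decide)]
      simp

private theorem bs_flatMap_inl {ν : ℕ} {k : Fin 4} {Q : Type} (q : Q) (P : List Lt)
    (h : ∀ x ∈ P, mult ν k x = ν) :
    (P.flatMap fun x => List.replicate (mult ν k x) (Sum.inl (q, x) : Sy Q)) =
      rep ν (P.map fun x => Sum.inl (q, x)) := by
  rw [rep, List.flatMap_map]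
  induction P with
  | nil => rfl
  | cons x P ih =>
    rw [List.flatMap_cons, List.flatMap_cons, ih fun y hy => h y (List.mem_cons_of_mem _ hy),
      h x List.mem_cons_self]

private theorem bs_flatMap_A {ν : ℕ} {k : Fin 4} {Q : Type} (q : Q) (n : ℕ) :
    ((List.replicate n (Lt.A k)).flatMap
      fun x => List.replicate (mult ν k x) (Sum.inl (q, x) : Sy Q)) =
      List.replicate n (Sum.inl (q, Lt.A k)) := by
  induction n with
  | zero => simp
  | succ n ih =>
    rw [List.replicate_succ, List.flatMap_cons, ih]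
    simp [mult, List.replicate_succ]

private theorem bs_event {ν : ℕ} (hν : 3 ≤ ν) {A : Type} {prod : Bool → A → List A}
    {tl : A → Bool} {v : List Bool} {Enc : List A → ℕ → List Bool → Prop} {enc : A → List Bool}
    (hs : Simulates ν A prod tl v Enc enc) (L : List A) (G : List (List A)) (t Z : List A) (z : A)
    (w : List Bool) (hG : ∀ g ∈ G, g.length = ν) (ht : t.length = ν - 1)
    (hm : (G ++ [t]).map (fun g => g[0]?) = (Z ++ [z]).map some)
    (hL : ∀ x ∈ L, prod true x ≠ [] ∧ tl x = false) (hZ : ∀ x ∈ Z, prod true x ≠ [] ∧ tl x = false)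
    (hz : prod true z ≠ [] ∧ tl z = true) (hw : Enc (rep ν L ++ (G.flatten ++ t)) 0 w) :
    ∃ w', Enc ((L ++ (Z ++ [z])).flatMap (prod true)) 2 w' ∧ TransGen (Step ν v) w w' := by
  rw [List.map_append, List.map_append] at hm
  obtain ⟨h1, h2⟩ := List.append_inj' hm (by simp)
  simp only [List.map_cons, List.map_nil, List.cons.injEq, and_true] at h2
  have hmL := bs_map_replicate 0 (by omega : 0 < ν) L
  have hmG : (L.map (List.replicate ν) ++ G).map (fun g => g[0]?) = (L ++ Z).map some := by
    rw [List.map_append, hmL, h1, List.map_append]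
  have hct : cts prod true 0 t = prod true z := by simp [cts, h2]
  have := hs.event (L.map (List.replicate ν) ++ G) t w ?_ ht (by rw [hct]; exact hz.1) ?_
    (by rw [List.flatten_append, bs_rep_flatten, List.append_assoc]; exact hw)
  · rw [bs_flatMap_cts prod true 0 _ (L ++ Z) hmG, hct] at this
    simpa [List.flatMap_append] using this
  · intro g hg
    obtain ⟨x, hx, hx0, hx'⟩ := bs_cts_mem prod true 0 _ _ hmG g hg
    have hx2 : prod true x ≠ [] ∧ tl x = false := by
      rcases List.mem_append.1 hx with h | h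
      · exact hL x h
      · exact hZ x h
    refine ⟨?_, by rw [hx']; exact hx2.1, ?_⟩
    · rcases List.mem_append.1 hg with h | h
      · obtain ⟨y, -, rfl⟩ := List.mem_map.1 h
        simp
      · exact hG g h
    · intro a ha
      rw [List.head?_eq_getElem?, hx0, Option.mem_some_iff] at ha
      exact ha ▸ hx2.2
  · intro a ha
    rw [List.head?_eq_getElem?, h2, Option.mem_some_iff] at ha
    exact ha ▸ hz.2

private theorem bs_lw_aff (mul add r : Fin 4 → ℕ) :
    (lw r).flatMap (aff mul add) = lw fun i => mul i * r i + add i := by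
  have key : ∀ (i : Fin 4) (n : ℕ) (X : List Lt),
      (List.replicate n (Lt.A i)).flatMap (aff mul add) ++
        (List.replicate (add i) (Lt.A i) ++ X) =
      List.replicate (mul i * n + add i) (Lt.A i) ++ X := by
    intro i n X
    have : (List.replicate n (Lt.A i)).flatMap (aff mul add) =
        List.replicate (mul i * n) (Lt.A i) := by
      induction n with
      | zero => simp
      | succ n ih =>
        rw [List.replicate_succ, List.flatMap_cons, ih]
        simp only [aff]
        rw [List.replicate_append_replicate]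
        congr 1
        ring
    rw [this, ← List.append_assoc, List.replicate_append_replicate]
  rw [bs_lw, bs_lw]
  simp only [List.flatMap_cons, List.flatMap_append, List.flatMap_nil]
  simp only [aff, List.append_assoc, List.cons_append, List.nil_append, List.append_nil]
  rw [key, key, key, key]

private theorem bs_aff_ne {mul add : Fin 4 → ℕ} (hmul : ∀ i, 1 ≤ mul i) (x : Lt) :
    aff mul add x ≠ [] := by
  cases x with
  | H => simp [aff]
  | A i =>
    have := hmul i
    simp [aff]
    omega
  | B i => simp [aff]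

private theorem bs_rep_ne {α : Type} {ν : ℕ} (hν : 0 < ν) {X : List α} (h : X ≠ []) :
    rep ν X ≠ [] := by
  cases X with
  | nil => exact absurd rfl h
  | cons x X =>
    rw [bs_rep_cons]
    intro h'
    have := congrArg List.length h'
    simp at this
    omega

private theorem bs_lw_ne (c : Fin 4 → ℕ) : lw c ≠ [] := by
  simp [lw]

end BitSimHelpers

section

variable {ν : ℕ} {Q : Type} {M : BM Q} {v : List Bool}
  {Enc : List (Sy Q) → ℕ → List Bool → Prop} {enc : Sy Q → List Bool}

/-- the registers after the removal of the last digit -/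
def cut (ν : ℕ) (M : BM Q) (c : Q × (Fin 4 → ℕ)) : Fin 4 → ℕ :=
  fun i => if i = M.k c.1 then c.2 i / ν else c.2 i

/-- first round -/
theorem round1 (hν : 3 ≤ ν) (hs : Simulates ν (Sy Q) (bprod ν M) btl v Enc enc)
    (c : Q × (Fin 4 → ℕ)) (ε : Bool) (hc : c.2 (M.k c.1) % ν = if ε then 0 else 1)
    {w : List Bool} (hw : Enc (word1 ν M c) 0 w) :
    ∃ w', Enc (rep ν ((lw (cut ν M c)).map fun x => Sum.inr (false, c.1, ε, x)))
      (if ε then 2 else 0) w' ∧ TransGen (Step ν v) w w' := by
  obtain ⟨q, c⟩ := c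
  simp only at hc
  obtain ⟨P, Y, Z, hP, hY, hZ, hZ3, hlw⟩ := bs_split (M.k q) c
  have hcut : cut ν M (q, c) (M.k q) = c (M.k q) / ν := by simp [cut]
  have hlc := hlw (cut ν M (q, c)) (fun i hi => by simp [cut, hi])
  rw [hcut] at hlc
  have hword : word1 ν M (q, c) = rep ν (P.map fun x => Sum.inl (q, x)) ++
      (List.replicate (c (M.k q)) (Sum.inl (q, Lt.A (M.k q))) ++
      (List.replicate (ν - 1) (Sum.inl (q, Lt.B (M.k q))) ++
      rep ν (Y.map fun x => Sum.inl (q, x)))) := by
    rw [word1]
    simp only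
    rw [hlw c (fun _ _ => rfl), List.flatMap_append, List.flatMap_append, List.flatMap_cons,
      bs_flatMap_inl q P fun x hx => (hP x hx).1 ν, bs_flatMap_inl q Y fun x hx => hY x hx ν]
    congr 2
    · exact bs_flatMap_A q _
    · simp [mult]
  rw [hword] at hw
  have hprod : ∀ x : Lt, bprod ν M ε (Sum.inl (q, x)) =
      List.replicate ν (Sum.inr (false, q, ε, x)) := fun x => rfl
  have hprod_ne : ∀ x : Lt, bprod ν M ε (Sum.inl (q, x)) ≠ [] := by
    intro x
    rw [hprod]
    intro h
    have := congrArg List.length h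
    simp at this
    omega
  have hres : ((lw (cut ν M (q, c))).map fun x => Sum.inl (q, x)).flatMap (bprod ν M ε) =
      rep ν ((lw (cut ν M (q, c))).map fun x => Sum.inr (false, q, ε, x)) := by
    rw [List.flatMap_map, rep, List.flatMap_map]
    rfl
  have hdiv := Nat.div_add_mod (c (M.k q)) ν
  cases ε with
  | false =>
    simp only [Bool.false_eq_true, if_false] at hc ⊢
    set A' : Sy Q := Sum.inl (q, Lt.A (M.k q)) with hA'
    set B' : Sy Q := Sum.inl (q, Lt.B (M.k q)) with hB'
    set P' : List (Sy Q) := P.map fun x => Sum.inl (q, x) with hP'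
    set Y' : List (Sy Q) := Y.map fun x => Sum.inl (q, x) with hY'
    set m := c (M.k q) / ν with hm
    have hL : ((lw (cut ν M (q, c))).map fun x => (Sum.inl (q, x) : Sy Q)) =
        P' ++ (List.replicate m A' ++ (B' :: Y')) := by
      rw [hlc]
      simp [hP', hA', hB', hY']
    obtain ⟨G, hG⟩ : ∃ G, G = P'.map (List.replicate ν) ++
      ((List.replicate m A').map (List.replicate ν) ++
        ((A' :: List.replicate (ν - 1) B') :: Y'.map (List.replicate ν))) := ⟨_, rfl⟩
    have hfl : G.flatten = rep ν P' ++ (List.replicate (c (M.k q)) A' ++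
        (List.replicate (ν - 1) B' ++ rep ν Y')) := by
      rw [hG, List.flatten_append, List.flatten_append, List.flatten_cons, bs_rep_flatten,
        bs_rep_flatten, bs_rep_flatten, bs_rep_replicate]
      have : c (M.k q) = m * ν + 1 := by rw [← hdiv, hc]; ring
      rw [this, List.replicate_add]
      simp
    have hmap : G.map (fun g => g[1]?) =
        ((lw (cut ν M (q, c))).map fun x => (Sum.inl (q, x) : Sy Q)).map some := by
      rw [hL, hG, List.map_append, List.map_append, List.map_cons,
        bs_map_replicate 1 (by omega), bs_map_replicate 1 (by omega), bs_map_replicate 1 (by omega)]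
      have h1 : (A' :: List.replicate (ν - 1) B')[1]? = some B' := by
        rw [List.getElem?_cons_succ, List.getElem?_replicate_of_lt (by omega)]
      rw [h1, List.map_append, List.map_append, List.map_cons]
    have := hs.normal G w 0 ?_ ?_ (Or.inl rfl) (by rw [hfl]; exact hw)
    · rw [bs_flatMap_cts _ _ _ _ _ hmap, hres] at this
      exact this
    · rw [hG]
      simp
    · intro g hg
      obtain ⟨x, hx, -, hx'⟩ := bs_cts_mem (bprod ν M) false 1 _ _ hmap g hg
      obtain ⟨y, -, rfl⟩ := List.mem_map.1 hx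
      refine ⟨?_, by rw [hx']; exact hprod_ne y⟩
      rw [hG] at hg
      simp only [List.mem_append, List.mem_cons, List.mem_map] at hg
      rcases hg with ⟨_, _, rfl⟩ | ⟨_, _, rfl⟩ | rfl | ⟨_, _, rfl⟩
      · simp
      · simp
      · simp; omega
      · simp
  | true =>
    simp only [if_true] at hc ⊢
    obtain ⟨G, t, hc1, hc2, hc3, hc4⟩ := bs_cut hν (Y.map fun x => (Sum.inl (q, x) : Sy Q))
      (Sum.inl (q, Lt.B (M.k q)))
    rw [hc1] at hw
    have hL : ((lw (cut ν M (q, c))).map fun x => (Sum.inl (q, x) : Sy Q)) =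
        (P.map (fun x => Sum.inl (q, x)) ++
          List.replicate (c (M.k q) / ν) (Sum.inl (q, Lt.A (M.k q)))) ++
          (Z.map (fun x => Sum.inl (q, x)) ++ [Sum.inl (q, Lt.B 3)]) := by
      rw [hlc, hZ]
      simp
    rw [← hres, hL]
    refine bs_event hν hs _ G t _ _ w hc3 hc2 ?_ ?_ ?_ ?_ ?_
    · rw [hc4]
      have := congrArg (List.map fun x => (Sum.inl (q, x) : Sy Q)) hZ
      rw [List.map_cons, List.map_append] at this
      rw [this]
      rfl
    · intro x hx
      rcases List.mem_append.1 hx with h | h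
      · obtain ⟨y, hy, rfl⟩ := List.mem_map.1 h
        refine ⟨hprod_ne y, ?_⟩
        have := (hP y hy).2
        cases y with
        | H => rfl
        | A i => rfl
        | B i =>
          have hi : i ≠ 3 := fun h => this (by rw [h])
          simp only [btl]
          split <;> simp_all
      · obtain ⟨_, rfl⟩ := List.mem_replicate.1 h
        exact ⟨hprod_ne _, rfl⟩
    · intro x hx
      obtain ⟨y, hy, rfl⟩ := List.mem_map.1 hx
      refine ⟨hprod_ne y, ?_⟩
      have : y ≠ Lt.B 3 := fun h => hZ3 (h ▸ hy)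
      cases y with
      | H => rfl
      | A i => rfl
      | B i =>
        have hi : i ≠ 3 := fun h => this (by rw [h])
        simp only [btl]
        split <;> simp_all
    · exact ⟨hprod_ne _, rfl⟩
    · rw [bs_rep_append, bs_rep_replicate, List.append_assoc]
      have : c (M.k q) / ν * ν = c (M.k q) := by
        rw [mul_comm]
        omega
      rw [this]
      exact hw

/-- second round -/
theorem round2 (hν : 3 ≤ ν) (hmul : ∀ q b i, 1 ≤ M.mul q b i)
    (hs : Simulates ν (Sy Q) (bprod ν M) btl v Enc enc)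
    (q q' : Q) (r : Fin 4 → ℕ) (ε : Bool) (hn : M.next q (!ε) = some q')
    {w : List Bool}
    (hw : Enc (rep ν ((lw r).map fun x => Sum.inr (false, q, ε, x))) (if ε then 2 else 0) w) :
    ∃ w', Enc (rep ν ((lw fun i => M.mul q (!ε) i * r i + M.add q (!ε) i).map
      fun x => Sum.inr (true, q, ε, x))) (if ε then 1 else 0) w' ∧ TransGen (Step ν v) w w' := by
  have hprod : ∀ x : Lt, bprod ν M false (Sum.inr (false, q, ε, x)) =
      rep ν ((aff (M.mul q (!ε)) (M.add q (!ε)) x).map fun y => Sum.inr (true, q, ε, y)) := by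
    intro x
    simp [bprod, hn]
  have := bs_normal hν hs ((lw r).map fun x => Sum.inr (false, q, ε, x)) w
    (if ε then 2 else 0) (by simpa using bs_lw_ne r) ?_ (by cases ε <;> simp) hw
  · have h1 : (if ε then 2 else 0) - 1 = (if ε then 1 else 0) := by cases ε <;> rfl
    have h2 : ((lw r).map fun x => Sum.inr (false, q, ε, x)).flatMap (bprod ν M false) =
        rep ν ((lw fun i => M.mul q (!ε) i * r i + M.add q (!ε) i).map
          fun x => Sum.inr (true, q, ε, x)) := by
      rw [List.flatMap_map, ← bs_lw_aff, List.map_flatMap]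
      simp only [hprod]
      simp only [rep, List.flatMap_assoc]
    rw [h1, h2] at this
    exact this
  · intro x hx
    obtain ⟨y, -, rfl⟩ := List.mem_map.1 hx
    rw [hprod]
    refine bs_rep_ne (by omega) ?_
    simpa using bs_aff_ne (fun i => hmul q (!ε) i) y

/-- second round, halting -/
theorem round2_halt (hν : 3 ≤ ν)
    (hs : Simulates ν (Sy Q) (bprod ν M) btl v Enc enc)
    (q : Q) (r : Fin 4 → ℕ) (ε : Bool) (hn : M.next q (!ε) = none)
    {w : List Bool}
    (hw : Enc (rep ν ((lw r).map fun x => Sum.inr (false, q, ε, x))) (if ε then 2 else 0) w) :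
    ∃ r < ν, ReflTransGen (Step ν v) w (List.replicate r false) := by
  refine bs_halt hν hs _ w _ ?_ (by cases ε <;> simp) hw
  intro x hx
  obtain ⟨y, -, rfl⟩ := List.mem_map.1 hx
  simp [bprod, hn]

/-- third round -/
theorem round3 (hν : 3 ≤ ν) (hs : Simulates ν (Sy Q) (bprod ν M) btl v Enc enc)
    (q q' : Q) (r : Fin 4 → ℕ) (ε : Bool) (hn : M.next q (!ε) = some q')
    {w : List Bool}
    (hw : Enc (rep ν ((lw r).map fun x => Sum.inr (true, q, ε, x))) (if ε then 1 else 0) w) :
    ∃ w', Enc (word1 ν M (q', r)) 0 w' ∧ TransGen (Step ν v) w w' := by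
  have hprod : ∀ (b : Bool) (x : Lt), bprod ν M b (Sum.inr (true, q, ε, x)) =
      List.replicate (mult ν (M.k q') x) (Sum.inl (q', x)) := by
    intro b x
    simp [bprod, hn]
  have hmult : ∀ x : Lt, 1 ≤ mult ν (M.k q') x := by
    intro x
    cases x with
    | H => simp only [mult]; omega
    | A i => simp only [mult]; split <;> omega
    | B i => simp only [mult]; split <;> omega
  have hne : ∀ (b : Bool) (x : Lt), bprod ν M b (Sum.inr (true, q, ε, x)) ≠ [] := by
    intro b x
    rw [hprod]
    intro h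
    have h1 := congrArg List.length h
    have h2 := hmult x
    rw [List.length_replicate, List.length_nil] at h1
    omega
  have hres : ∀ b : Bool, ((lw r).map fun x => Sum.inr (true, q, ε, x)).flatMap (bprod ν M b) =
      word1 ν M (q', r) := by
    intro b
    rw [List.flatMap_map, word1]
    simp only [hprod]
  cases ε with
  | false =>
    have := bs_normal hν hs _ w 0 (by simpa using bs_lw_ne r) ?_ (Or.inl rfl) hw
    · rw [hres] at this
      exact this
    · intro x hx
      obtain ⟨y, -, rfl⟩ := List.mem_map.1 hx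
      exact hne _ _
  | true =>
    have := bs_echo hν hs _ w (by simpa using bs_lw_ne r) ?_ hw
    · rw [hres] at this
      exact this
    · intro x hx
      obtain ⟨y, -, rfl⟩ := List.mem_map.1 hx
      exact ⟨hne _ _, rfl⟩

end

/-- a step does not change the length modulo `ν - 1`, and words stay nonempty -/
private theorem BitSim_step_len {ν : ℕ} (hν : 3 ≤ ν) {v : List Bool}
    (hv : v.length ≡ 1 [MOD ν - 1]) (hv0 : v ≠ []) {w w' : List Bool} (h : Step ν v w w') :
    w' ≠ [] ∧ w'.length ≡ w.length [MOD ν - 1] := by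
  unfold Step at h
  cases w with
  | nil => simp [tagStep] at h
  | cons b S =>
    rw [tagStep] at h
    split at h
    · simp at h
    · rename_i hlen
      rw [Option.some.injEq] at h
      have hr : (rule [false] v b).length ≡ 1 [MOD ν - 1] := by
        cases b
        · simp [rule, Nat.ModEq]
        · simpa [rule] using hv
      have hr1 : 1 ≤ (rule [false] v b).length := by
        cases b
        · simp [rule]
        · simpa [rule, Nat.one_le_iff_ne_zero] using hv0
      have hl : w'.length + ν = (b :: S).length + (rule [false] v b).length := by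
        rw [← h, List.length_drop, List.length_append]
        omega
      constructor
      · intro h0
        rw [h0, List.length_nil] at hl
        omega
      · have h1 : w'.length + ν ≡ (b :: S).length + 1 [MOD ν - 1] := by
          rw [hl]
          exact Nat.ModEq.add_left _ hr
        have h2 : w'.length + ν = w'.length + 1 + (ν - 1) := by omega
        rw [h2] at h1
        have h3 : w'.length + 1 + (ν - 1) ≡ w'.length + 1 [MOD ν - 1] := by
          simp [Nat.ModEq]
        exact Nat.ModEq.add_right_cancel' 1 (h3.symm.trans h1)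

private theorem BitSim_run_len {ν : ℕ} (hν : 3 ≤ ν) {v : List Bool}
    (hv : v.length ≡ 1 [MOD ν - 1]) (hv0 : v ≠ []) {w w' : List Bool}
    (h : ReflTransGen (Step ν v) w w') (hw : w ≠ []) :
    w' ≠ [] ∧ w'.length ≡ w.length [MOD ν - 1] := by
  induction h with
  | refl => exact ⟨hw, Nat.ModEq.refl _⟩
  | tail _ h2 ih =>
    have := BitSim_step_len hν hv hv0 h2
    exact ⟨this.1, this.2.trans ih.2⟩

private theorem BitSim_terminal {ν : ℕ} {v w w' : List Bool} (hw : w.length < ν) :
    ¬ Step ν v w w' := by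
  unfold Step
  cases w with
  | nil => simp [tagStep]
  | cons b S => rw [tagStep, if_pos hw]; simp

/-- a word from which the system halts is accessible for the reversed step relation -/
private theorem BitSim_acc {ν : ℕ} {v w T : List Bool} (h : ReflTransGen (Step ν v) w T)
    (hT : T.length < ν) : Acc (Function.swap (Step ν v)) w := by
  induction h using ReflTransGen.head_induction_on with
  | refl => exact Acc.intro _ fun y hy => absurd hy (BitSim_terminal hT)
  | @head a b h1 _ ih =>
    refine Acc.intro _ fun y hy => ?_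
    have hy' : tagStep ν [false] v a = some y := hy
    have h1' : tagStep ν [false] v a = some b := h1
    rw [h1'] at hy'
    obtain rfl := Option.some.inj hy'
    exact ih

/-- a step of the machine in the tag system -/
private theorem BitSim_macro {ν : ℕ} (hν : 3 ≤ ν) {Q : Type} {M : BM Q} {v : List Bool}
    {Enc : List (Sy Q) → ℕ → List Bool → Prop} {enc : Sy Q → List Bool}
    (hmul : ∀ q b i, 1 ≤ M.mul q b i)
    (hs : Simulates ν (Sy Q) (bprod ν M) btl v Enc enc)
    (c : Q × (Fin 4 → ℕ)) (hc : c.2 (M.k c.1) % ν ≤ 1) {w : List Bool}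
    (hw : Enc (word1 ν M c) 0 w) :
    (∃ c' w', M.step ν c = some c' ∧ Enc (word1 ν M c') 0 w' ∧ TransGen (Step ν v) w w') ∨
      (M.step ν c = none ∧ ∃ r < ν, ReflTransGen (Step ν v) w (List.replicate r false)) := by
  obtain ⟨ε, hε⟩ : ∃ ε : Bool, ε = !(decide (c.2 (M.k c.1) % ν = 1)) := ⟨_, rfl⟩
  have hε' : decide (c.2 (M.k c.1) % ν = 1) = !ε := by rw [hε, Bool.not_not]
  have hdig : c.2 (M.k c.1) % ν = if ε then 0 else 1 := by
    cases hd : ε with
    | true =>
      rw [hd] at hε'
      have : ¬ c.2 (M.k c.1) % ν = 1 := by simpa using hε'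
      simp only [if_true]
      omega
    | false =>
      rw [hd] at hε'
      have : c.2 (M.k c.1) % ν = 1 := by simpa using hε'
      simpa using this
  obtain ⟨w1, hw1, hr1⟩ := round1 hν hs c ε hdig hw
  cases hn : M.next c.1 (!ε) with
  | none =>
    right
    obtain ⟨r, hr, hr2⟩ := round2_halt hν hs c.1 (cut ν M c) ε hn hw1
    refine ⟨?_, r, hr, hr1.to_reflTransGen.trans hr2⟩
    simp only [BM.step, hε', hn, Option.map_none]
  | some q' =>
    left
    obtain ⟨w2, hw2, hr2⟩ := round2 hν hmul hs c.1 q' (cut ν M c) ε hn hw1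
    obtain ⟨w3, hw3, hr3⟩ := round3 hν hs c.1 q' _ ε hn hw2
    refine ⟨_, w3, ?_, hw3, hr1.trans (hr2.trans hr3)⟩
    simp only [BM.step, hε', hn, Option.map_some, cut]

/-- the halting machine leads to a word of zeros -/
private theorem BitSim_zeros {ν : ℕ} (hν : 3 ≤ ν) {Q : Type} {M : BM Q} {v : List Bool}
    {Enc : List (Sy Q) → ℕ → List Bool → Prop} {enc : Sy Q → List Bool}
    (hmul : ∀ q b i, 1 ≤ M.mul q b i)
    (hs : Simulates ν (Sy Q) (bprod ν M) btl v Enc enc) (Inv : Q × (Fin 4 → ℕ) → Prop)
    (h1 : ∀ c c', Inv c → M.step ν c = some c' → Inv c')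
    (h2 : ∀ c, Inv c → c.2 (M.k c.1) % ν ≤ 1) (c : Q × (Fin 4 → ℕ)) (hc : Inv c)
    (hh : M.Halts ν c) {w : List Bool} (hw : Enc (word1 ν M c) 0 w) :
    ∃ r < ν, ReflTransGen (Step ν v) w (List.replicate r false) := by
  obtain ⟨cf, hrun, hcf⟩ := hh
  induction hrun using ReflTransGen.head_induction_on generalizing w with
  | refl =>
    rcases BitSim_macro hν hmul hs cf (h2 cf hc) hw with ⟨c', w', hst, -, -⟩ | ⟨-, h⟩
    · rw [hcf] at hst
      exact absurd hst (by simp)
    · exact h
  | @head a b hab _ ih =>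
    rcases BitSim_macro hν hmul hs a (h2 a hc) hw with ⟨c', w', hst, hw', hr⟩ | ⟨hst, -⟩
    · rw [hab] at hst
      obtain rfl := Option.some.inj hst
      obtain ⟨r, hr1, hr2⟩ := ih (h1 a b hc hab) hw'
      exact ⟨r, hr1, hr.to_reflTransGen.trans hr2⟩
    · rw [hab] at hst
      exact absurd hst (by simp)

private theorem BitSim_halts_of_acc {ν : ℕ} (hν : 3 ≤ ν) {Q : Type} {M : BM Q} {v : List Bool}
    {Enc : List (Sy Q) → ℕ → List Bool → Prop} {enc : Sy Q → List Bool}
    (hmul : ∀ q b i, 1 ≤ M.mul q b i)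
    (hs : Simulates ν (Sy Q) (bprod ν M) btl v Enc enc) (Inv : Q × (Fin 4 → ℕ) → Prop)
    (h1 : ∀ c c', Inv c → M.step ν c = some c' → Inv c')
    (h2 : ∀ c, Inv c → c.2 (M.k c.1) % ν ≤ 1) {w : List Bool}
    (hacc : Acc (TransGen (Function.swap (Step ν v))) w) (c : Q × (Fin 4 → ℕ)) (hc : Inv c)
    (hw : Enc (word1 ν M c) 0 w) : M.Halts ν c := by
  induction hacc generalizing c with
  | intro w _ ih =>
    rcases BitSim_macro hν hmul hs c (h2 c hc) hw with ⟨c', w', hst, hw', hr⟩ | ⟨hst, -⟩
    · obtain ⟨cf, hrun, hcf⟩ := ih w' (transGen_swap.2 hr) c' (h1 c c' hc hst) hw'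
      exact ⟨cf, ReflTransGen.head hst hrun, hcf⟩
    · exact ⟨c, ReflTransGen.refl, hst⟩

/-- the tag system halts from the word of a configuration iff the machine halts -/
theorem halts_iff {ν : ℕ} (hν : 3 ≤ ν) {Q : Type} {M : BM Q} {v : List Bool}
    {Enc : List (Sy Q) → ℕ → List Bool → Prop} {enc : Sy Q → List Bool}
    (hmul : ∀ q b i, 1 ≤ M.mul q b i)
    (hs : Simulates ν (Sy Q) (bprod ν M) btl v Enc enc) (Inv : Q × (Fin 4 → ℕ) → Prop)
    (h1 : ∀ c c', Inv c → M.step ν c = some c' → Inv c')
    (h2 : ∀ c, Inv c → c.2 (M.k c.1) % ν ≤ 1) (c : Q × (Fin 4 → ℕ)) (hc : Inv c) :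
    Halts ν [false] v ((word1 ν M c).flatMap enc) ↔ M.Halts ν c := by
  constructor
  · rintro ⟨T, hT, hTl⟩
    exact BitSim_halts_of_acc hν hmul hs Inv h1 h2 (BitSim_acc hT hTl).transGen c hc (hs.init _)
  · intro hh
    obtain ⟨r, hr, hrun⟩ := BitSim_zeros hν hmul hs Inv h1 h2 c hc hh (hs.init _)
    exact ⟨_, hrun, by simpa using hr⟩

/-- if the tag system halts, then it ends with the word of `ν - 1` zeros -/
theorem halts_word {ν : ℕ} (hν : 3 ≤ ν) {Q : Type} {M : BM Q} {v : List Bool}
    {Enc : List (Sy Q) → ℕ → List Bool → Prop} {enc : Sy Q → List Bool}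
    (hmul : ∀ q b i, 1 ≤ M.mul q b i)
    (hs : Simulates ν (Sy Q) (bprod ν M) btl v Enc enc) (Inv : Q × (Fin 4 → ℕ) → Prop)
    (h1 : ∀ c c', Inv c → M.step ν c = some c' → Inv c')
    (h2 : ∀ c, Inv c → c.2 (M.k c.1) % ν ≤ 1) (c : Q × (Fin 4 → ℕ)) (hc : Inv c)
    (h : Halts ν [false] v ((word1 ν M c).flatMap enc)) :
    Reach ν [false] v ((word1 ν M c).flatMap enc) (List.replicate (ν - 1) false) := by
  have hh := (halts_iff hν hmul hs Inv h1 h2 c hc).1 h
  obtain ⟨r, hr, hrun⟩ := BitSim_zeros hν hmul hs Inv h1 h2 c hc hh (hs.init _)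
  have hlen : ∀ X : List (Sy Q), (X.flatMap enc).length ≡ 0 [MOD ν - 1] := by
    intro X
    induction X with
    | nil => exact Nat.ModEq.refl _
    | cons a X ih =>
      rw [List.flatMap_cons, List.length_append]
      exact Nat.ModEq.add (hs.enc_len a) ih
  have hne : (word1 ν M c).flatMap enc ≠ [] := by
    have : ∃ a X, word1 ν M c = a :: X := by
      obtain ⟨k, hk⟩ : ∃ k, ν = k + 1 := ⟨ν - 1, by omega⟩
      rw [word1, lw, List.flatMap_cons]
      simp only [mult]
      rw [hk, List.replicate_succ, List.cons_append]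
      exact ⟨_, _, rfl⟩
    obtain ⟨a, X, hX⟩ := this
    rw [hX, List.flatMap_cons]
    intro h0
    exact hs.enc_ne a (List.append_eq_nil_iff.1 h0).1
  obtain ⟨hr0, hrm⟩ := BitSim_run_len hν hs.v_len hs.v_ne hrun hne
  rw [List.length_replicate] at hrm
  have hrm' : (ν - 1) ∣ r := (Nat.modEq_zero_iff_dvd).1 (hrm.trans (hlen _))
  have hr1 : r ≠ 0 := by
    rintro rfl
    exact hr0 rfl
  have : r = ν - 1 := by
    have h3 := Nat.le_of_dvd (by omega) hrm'
    omega
  rw [← this]
  exact hrun

end Pool.Agent.Lib.MP_b40757_lc
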