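import Pool.Agent.Lib.MP_b40757_lc.Trans

set_option autoImplicit false

/-!
# Evolution of a table

A *table* is a list of letters `V` at the positions `Y + ℓ e`, `e < N`. We follow it through passes
with state `0`. `life e` is the age at which the entry `e` is eliminated (so it is present at the
ages `≤ life e`); if `spw e` holds, it is replaced at this age by a full table (a *spurious table*)
all of whose entries die at age `lam`. Entries with `life e ≥ F` are present at the end `F`.
-/

namespace Pool.Agent.Lib.MP_b40757_lc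

open Finset

/-- number of letters at age `i` which stem from the entry `e` -/
def pop (N lam : ℕ) (life : ℕ → ℕ) (spw : ℕ → Bool) (e i : ℕ) : ℕ :=
  if i ≤ life e then 1 else if spw e && decide (i ≤ lam) then N else 0

/-- number of letters at age `i` which stem from the entries before `e` -/
def rk (N lam : ℕ) (life : ℕ → ℕ) (spw : ℕ → Bool) (e i : ℕ) : ℕ :=
  ∑ e' ∈ range e, pop N lam life spw e' i

/-- `ν ^ i` times the physical position of the entry `e` at age `i` -/
def SS (ν Q N : ℕ) (ℓ : ℕ → ℕ) (Y lam : ℕ) (life : ℕ → ℕ) (spw : ℕ → Bool) (e i : ℕ) : ℕ :=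
  Y + ℓ e + Q * ∑ j ∈ range (i + 1), ν ^ j * rk N lam life spw e j

/-- the same for the entry `e'` of the spurious table with offset `y` which stems from `e`;
`i` is the age of the spurious table -/
def ST (ν Q N : ℕ) (ℓ : ℕ → ℕ) (lam : ℕ) (life : ℕ → ℕ) (spw : ℕ → Bool) (y e e' i : ℕ) : ℕ :=
  y + ℓ e' + Q * ∑ j ∈ range (i + 1), ν ^ j * (rk N lam life spw e (life e + 1 + j) + e')

/-- the conditions which determine the evolution of the table with offset `Y` -/
structure Fate (ν Q N : ℕ) (ℓ : ℕ → ℕ) (Y lam F : ℕ) (life : ℕ → ℕ) (spw : ℕ → Bool) : Prop where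
  lt : lam < F
  idle : ∀ e < N, ∀ i, i < life e → i < F → ν ^ (i + 1) ∣ SS ν Q N ℓ Y lam life spw e i
  die : ∀ e < N, life e < F → spw e = false →
    ∃ t, SS ν Q N ℓ Y lam life spw e (life e) = ν ^ life e * t ∧ t % ν ≠ 0 ∧ (t + 1) % ν ≠ 0
  spawn : ∀ e < N, spw e = true → life e < lam ∧
    ∃ y, SS ν Q N ℓ Y lam life spw e (life e) + ν ^ life e = ν ^ (life e + 1) * y ∧
      ∀ e' < N, (∀ i, life e + 1 + i < lam → ν ^ (i + 1) ∣ ST ν Q N ℓ lam life spw y e e' i) ∧
        ∃ t, ST ν Q N ℓ lam life spw y e e' (lam - 1 - life e) = ν ^ (lam - 1 - life e) * t ∧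
          t % ν ≠ 0 ∧ (t + 1) % ν ≠ 0

theorem Evol_length_flatMap (D : ℕ → List ℕ) (n : ℕ) :
    ((List.range n).flatMap D).length = ∑ e ∈ range n, (D e).length := by
  induction n with
  | zero => simp
  | succ n ih => simp [List.range_succ, Finset.sum_range_succ, ih]

theorem Evol_nxtFrom_nil (ν Q : ℕ) (tab : List ℕ) (s r : ℕ) : nxtFrom ν Q tab s r [] = [] := rfl

theorem Evol_nxtFrom_singleton (ν Q : ℕ) (tab : List ℕ) (s r p : ℕ) :
    nxtFrom ν Q tab s r [p] = child ν tab s (p + Q * r) := by
  simp [nxtFrom]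

theorem Evol_nxtFrom_flatMap (ν Q : ℕ) (tab : List ℕ) (s r : ℕ) (D : ℕ → List ℕ) (n : ℕ) :
    nxtFrom ν Q tab s r ((List.range n).flatMap D) =
      (List.range n).flatMap fun e =>
        nxtFrom ν Q tab s (r + ∑ e' ∈ range e, (D e').length) (D e) := by
  induction n with
  | zero => rfl
  | succ n ih =>
    rw [List.range_succ, List.flatMap_append, List.flatMap_append, nxtFrom_append, ih,
      Evol_length_flatMap]
    simp

theorem Evol_nxtFrom_map (ν Q : ℕ) (tab : List ℕ) (s r : ℕ) (f : ℕ → ℕ) (n : ℕ) :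
    nxtFrom ν Q tab s r ((List.range n).map f) =
      (List.range n).flatMap fun e => child ν tab s (f e + Q * (r + e)) := by
  have h1 : (List.range n).map f = (List.range n).flatMap fun e => [f e] := by
    induction n with
    | zero => rfl
    | succ n ih => simp [List.range_succ, ih]
  rw [h1, Evol_nxtFrom_flatMap]
  congr 1
  funext e
  rw [Evol_nxtFrom_singleton]
  simp

theorem Evol_child_idle {ν : ℕ} (hν : 0 < ν) (tab : List ℕ) (c : ℕ) :
    child ν tab 0 (ν * c) = [c] := by
  unfold child
  rw [if_pos (Nat.mul_mod_right ν c), Nat.mul_div_cancel_left _ hν]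

theorem Evol_child_die {ν : ℕ} (tab : List ℕ) {t : ℕ} (h1 : t % ν ≠ 0) (h2 : (t + 1) % ν ≠ 0) :
    child ν tab 0 t = [] := by
  unfold child
  rw [if_neg h1, if_neg h2]

theorem Evol_child_spawn {ν : ℕ} (hν : 2 ≤ ν) (tab : List ℕ) {R y : ℕ} (h : R + 1 = ν * y) :
    child ν tab 0 R = tab.map (· + y) := by
  have h1 : R % ν ≠ 0 := by
    intro h0
    have h2 : ν ∣ R := Nat.dvd_of_mod_eq_zero h0
    have h3 : ν ∣ R + 1 := ⟨y, h⟩
    have h4 : ν ∣ 1 := (Nat.dvd_add_right h2).1 h3
    have := Nat.le_of_dvd one_pos h4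
    omega
  unfold child
  rw [if_neg h1, h, if_pos (Nat.mul_mod_right ν y), Nat.mul_div_cancel_left _ (by omega)]

/-- `ν ^ i` times the physical position from the letter position -/
theorem Evol_phys {ν Q i B r S : ℕ} (hν : 0 < ν) (hS : S = B + Q * (ν ^ i * r)) (hB : ν ^ i ∣ B) :
    ν ^ i * (B / ν ^ i + Q * r) = S := by
  obtain ⟨c, rfl⟩ := hB
  have : 0 < ν ^ i := Nat.pow_pos hν
  rw [Nat.mul_div_cancel_left _ this, hS]
  ring

section

variable {ν Q N : ℕ} {ℓ : ℕ → ℕ} {Y lam F : ℕ} {life : ℕ → ℕ} {spw : ℕ → Bool}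

/-- the letter positions of the descendants of the entry `e` at age `i` -/
def EvolD (ν Q N : ℕ) (ℓ : ℕ → ℕ) (Y lam : ℕ) (life : ℕ → ℕ) (spw : ℕ → Bool) (y : ℕ → ℕ)
    (i e : ℕ) : List ℕ :=
  if i ≤ life e then
    [(Y + ℓ e + Q * ∑ j ∈ range i, ν ^ j * rk N lam life spw e j) / ν ^ i]
  else if spw e && decide (i ≤ lam) then
    (List.range N).map fun e' =>
      (y e + ℓ e' + Q * ∑ j ∈ range (i - (life e + 1)),
        ν ^ j * (rk N lam life spw e (life e + 1 + j) + e')) / ν ^ (i - (life e + 1))
  else []

theorem EvolD_length (y : ℕ → ℕ) (i e : ℕ) :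
    (EvolD ν Q N ℓ Y lam life spw y i e).length = pop N lam life spw e i := by
  unfold EvolD pop
  split_ifs <;> simp

theorem Evol_dvd (h : Fate ν Q N ℓ Y lam F life spw) {e : ℕ} (he : e < N) {i : ℕ}
    (hi : i ≤ life e) (hiF : i ≤ F) :
    ν ^ i ∣ Y + ℓ e + Q * ∑ j ∈ range i, ν ^ j * rk N lam life spw e j := by
  cases i with
  | zero => simp
  | succ i => exact h.idle e he i (by omega) (by omega)

theorem Evol_SS (e i : ℕ) : SS ν Q N ℓ Y lam life spw e i =
    (Y + ℓ e + Q * ∑ j ∈ range i, ν ^ j * rk N lam life spw e j) +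
      Q * (ν ^ i * rk N lam life spw e i) := by
  unfold SS
  rw [Finset.sum_range_succ]
  ring

theorem Evol_ST (y e e' i : ℕ) : ST ν Q N ℓ lam life spw y e e' i =
    (y + ℓ e' + Q * ∑ j ∈ range i, ν ^ j * (rk N lam life spw e (life e + 1 + j) + e')) +
      Q * (ν ^ i * (rk N lam life spw e (life e + 1 + i) + e')) := by
  unfold ST
  rw [Finset.sum_range_succ]
  ring

theorem Evol_step (hν : 3 ≤ ν) (h : Fate ν Q N ℓ Y lam F life spw) (y : ℕ → ℕ)
    (hy : ∀ e < N, spw e = true →
      SS ν Q N ℓ Y lam life spw e (life e) + ν ^ life e = ν ^ (life e + 1) * y e ∧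
      ∀ e' < N, (∀ i, life e + 1 + i < lam → ν ^ (i + 1) ∣ ST ν Q N ℓ lam life spw (y e) e e' i) ∧
        ∃ t, ST ν Q N ℓ lam life spw (y e) e e' (lam - 1 - life e) = ν ^ (lam - 1 - life e) * t ∧
          t % ν ≠ 0 ∧ (t + 1) % ν ≠ 0) {i : ℕ} (hi : i < F) {e : ℕ} (he : e < N) :
    nxtFrom ν Q ((List.range N).map ℓ) 0 (rk N lam life spw e i)
      (EvolD ν Q N ℓ Y lam life spw y i e) = EvolD ν Q N ℓ Y lam life spw y (i + 1) e := by
  have hν0 : 0 < ν := by omega
  have hpow : ∀ k, 0 < ν ^ k := fun k => Nat.pow_pos hν0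
  rcases lt_trichotomy i (life e) with hlt | heq | hgt
  · -- idle
    have e1 : EvolD ν Q N ℓ Y lam life spw y i e =
        [(Y + ℓ e + Q * ∑ j ∈ range i, ν ^ j * rk N lam life spw e j) / ν ^ i] := by
      unfold EvolD
      rw [if_pos hlt.le]
    have e2 : EvolD ν Q N ℓ Y lam life spw y (i + 1) e =
        [(SS ν Q N ℓ Y lam life spw e i) / ν ^ (i + 1)] := by
      unfold EvolD
      rw [if_pos (by omega)]
      rfl
    rw [e1, e2, Evol_nxtFrom_singleton]
    have h1 := Evol_phys hν0 (Evol_SS (ν := ν) (Q := Q) (N := N) (ℓ := ℓ) (Y := Y) (lam := lam)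
      (life := life) (spw := spw) e i) (Evol_dvd h he hlt.le hi.le)
    obtain ⟨c, hc⟩ := h.idle e he i hlt hi
    rw [hc, pow_succ, mul_assoc] at h1
    have h2 := Nat.eq_of_mul_eq_mul_left (hpow i) h1
    rw [h2, Evol_child_idle hν0, hc, Nat.mul_div_cancel_left _ (hpow (i + 1))]
  · -- the end of the life
    subst heq
    have e1 : EvolD ν Q N ℓ Y lam life spw y (life e) e =
        [(Y + ℓ e + Q * ∑ j ∈ range (life e), ν ^ j * rk N lam life spw e j) / ν ^ (life e)] := by
      unfold EvolD
      rw [if_pos le_rfl]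
    have h1 := Evol_phys hν0 (Evol_SS (ν := ν) (Q := Q) (N := N) (ℓ := ℓ) (Y := Y) (lam := lam)
      (life := life) (spw := spw) e (life e)) (Evol_dvd h he le_rfl hi.le)
    rw [e1, Evol_nxtFrom_singleton]
    cases hs : spw e with
    | false =>
      have e2 : EvolD ν Q N ℓ Y lam life spw y (life e + 1) e = [] := by
        unfold EvolD
        rw [if_neg (by omega), if_neg (by simp [hs])]
      obtain ⟨t, ht, h2, h3⟩ := h.die e he hi hs
      rw [ht] at h1
      rw [Nat.eq_of_mul_eq_mul_left (hpow _) h1, e2, Evol_child_die _ h2 h3]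
    | true =>
      obtain ⟨hlam, -⟩ := h.spawn e he hs
      have e2 : EvolD ν Q N ℓ Y lam life spw y (life e + 1) e =
          (List.range N).map fun e' => y e + ℓ e' := by
        unfold EvolD
        rw [if_neg (by omega), if_pos (by rw [hs]; simpa using hlam)]
        simp
      have h2 := (hy e he hs).1
      rw [← h1, pow_succ, mul_assoc, ← mul_add_one] at h2
      rw [e2, Evol_child_spawn (by omega) _ (Nat.eq_of_mul_eq_mul_left (hpow _) h2),
        List.map_map]
      apply List.map_congr_left
      intro e' _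
      simp [add_comm]
  · -- after the end of the life
    by_cases hc : (spw e && decide (i ≤ lam)) = true
    · rw [Bool.and_eq_true, decide_eq_true_eq] at hc
      obtain ⟨hs, hil⟩ := hc
      obtain ⟨k, hk⟩ : ∃ k, i = life e + 1 + k := ⟨i - (life e + 1), by omega⟩
      obtain ⟨-, h2⟩ := hy e he hs
      have e1 : EvolD ν Q N ℓ Y lam life spw y i e = (List.range N).map fun e' =>
          (y e + ℓ e' + Q * ∑ j ∈ range k,
            ν ^ j * (rk N lam life spw e (life e + 1 + j) + e')) / ν ^ k := by
        unfold EvolD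
        rw [if_neg (by omega), if_pos (by rw [hs]; simpa using hil),
          show i - (life e + 1) = k by omega]
      rw [e1, Evol_nxtFrom_map]
      have h3 : ∀ e' < N, ν ^ k * ((y e + ℓ e' + Q * ∑ j ∈ range k,
            ν ^ j * (rk N lam life spw e (life e + 1 + j) + e')) / ν ^ k +
            Q * (rk N lam life spw e i + e')) = ST ν Q N ℓ lam life spw (y e) e e' k := by
        intro e' he'
        apply Evol_phys hν0
        · rw [Evol_ST, hk]
        · rcases Nat.eq_zero_or_pos k with h0 | h0
          · rw [h0]; simp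
          · obtain ⟨k', rfl⟩ : ∃ k', k = k' + 1 := ⟨k - 1, by omega⟩
            exact (h2 e' he').1 k' (by omega)
      by_cases hlt : i < lam
      · have e2 : EvolD ν Q N ℓ Y lam life spw y (i + 1) e = (List.range N).map fun e' =>
            ST ν Q N ℓ lam life spw (y e) e e' k / ν ^ (k + 1) := by
          unfold EvolD
          rw [if_neg (by omega), if_pos (by rw [hs]; simpa using hlt),
            show i + 1 - (life e + 1) = k + 1 by omega]
          rfl
        rw [e2]
        have h4 : (List.range N).map (fun e' =>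
            ST ν Q N ℓ lam life spw (y e) e e' k / ν ^ (k + 1)) =
            (List.range N).flatMap fun e' =>
            [ST ν Q N ℓ lam life spw (y e) e e' k / ν ^ (k + 1)] := by
          exact List.map_eq_flatMap
        rw [h4]
        apply List.flatMap_congr
        intro e' he'
        rw [List.mem_range] at he'
        have h5 := h3 e' he'
        obtain ⟨c, hc⟩ := (h2 e' he').1 k (by omega)
        rw [hc, pow_succ, mul_assoc] at h5
        rw [Nat.eq_of_mul_eq_mul_left (hpow k) h5, Evol_child_idle hν0, hc,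
          Nat.mul_div_cancel_left _ (hpow (k + 1))]
      · have hil' : i = lam := by omega
        have e2 : EvolD ν Q N ℓ Y lam life spw y (i + 1) e = [] := by
          unfold EvolD
          rw [if_neg (by omega), if_neg (by
            rw [hs]
            simp
            omega)]
        rw [e2, List.flatMap_eq_nil_iff]
        intro e' he'
        rw [List.mem_range] at he'
        have h5 := h3 e' he'
        obtain ⟨t, ht, h6, h7⟩ := (h2 e' he').2
        rw [show lam - 1 - life e = k by omega] at ht
        rw [ht] at h5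
        rw [Nat.eq_of_mul_eq_mul_left (hpow k) h5]
        exact Evol_child_die _ h6 h7
    · have e1 : EvolD ν Q N ℓ Y lam life spw y i e = [] := by
        unfold EvolD
        rw [if_neg (by omega), if_neg hc]
      have hc' : ¬ (spw e && decide (i + 1 ≤ lam)) = true := by
        rw [Bool.and_eq_true, decide_eq_true_eq] at hc ⊢
        intro h'
        exact hc ⟨h'.1, by omega⟩
      have e2 : EvolD ν Q N ℓ Y lam life spw y (i + 1) e = [] := by
        unfold EvolD
        rw [if_neg (by omega), if_neg hc']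
      rw [e1, e2]
      rfl

end

/-- the evolution of the table -/
theorem evol {ν Q N : ℕ} (hν : 3 ≤ ν) {ℓ : ℕ → ℕ} {Y lam F : ℕ} {life : ℕ → ℕ}
    {spw : ℕ → Bool} (h : Fate ν Q N ℓ Y lam F life spw) :
    (∀ i ≤ F, ((nxt ν Q ((List.range N).map ℓ) 0)^[i]
      ((List.range N).map fun e => Y + ℓ e)).length = ∑ e ∈ range N, pop N lam life spw e i) ∧
    (nxt ν Q ((List.range N).map ℓ) 0)^[F] ((List.range N).map fun e => Y + ℓ e) =
      ((List.range N).filter fun e => F ≤ life e).map fun e =>
        (Y + ℓ e + Q * ∑ j ∈ range F, ν ^ j * rk N lam life spw e j) / ν ^ F := by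
  choose! y hy using fun e (he : e < N) (hs : spw e = true) => (h.spawn e he hs).2
  have hD : ∀ i ≤ F, (nxt ν Q ((List.range N).map ℓ) 0)^[i]
      ((List.range N).map fun e => Y + ℓ e) =
        (List.range N).flatMap (EvolD ν Q N ℓ Y lam life spw y i) := by
    intro i
    induction i with
    | zero =>
      intro _
      rw [Function.iterate_zero, id]
      have h0 : (EvolD ν Q N ℓ Y lam life spw y 0) = fun e => [Y + ℓ e] := by
        funext e
        simp [EvolD]
      rw [h0]
      exact List.map_eq_flatMap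
    | succ i ih =>
      intro hi
      rw [Function.iterate_succ_apply', ih (by omega)]
      unfold nxt
      rw [Evol_nxtFrom_flatMap]
      apply List.flatMap_congr
      intro e he
      rw [List.mem_range] at he
      have h1 : 0 + ∑ e' ∈ range e, (EvolD ν Q N ℓ Y lam life spw y i e').length =
          rk N lam life spw e i := by
        rw [zero_add]
        exact Finset.sum_congr rfl fun e' _ => EvolD_length y i e'
      rw [h1]
      exact Evol_step hν h y hy (by omega) he
  refine ⟨fun i hi => ?_, ?_⟩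
  · rw [hD i hi, Evol_length_flatMap]
    exact Finset.sum_congr rfl fun e' _ => EvolD_length y i e'
  · rw [hD F le_rfl]
    have hlt := h.lt
    generalize hn : List.range N = l
    clear hn
    induction l with
    | nil => rfl
    | cons a l ih =>
      rw [List.flatMap_cons, ih]
      by_cases ha : F ≤ life a
      · rw [List.filter_cons_of_pos (by simpa using ha), List.map_cons]
        unfold EvolD
        rw [if_pos ha]
        rfl
      · rw [List.filter_cons_of_neg (by simpa using ha)]
        unfold EvolD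
        rw [if_neg ha, if_neg (by simp; intro _; omega)]
        rfl

end Pool.Agent.Lib.MP_b40757_lc
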