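import Pool.Agent.Lib.MP_b40757_lc.Main

set_option autoImplicit false

/-!
# The halting problem and the reachability problem for the classes of binary tag systems
-/

namespace Pool.Agent.Lib.MP_b40757_lc

theorem halting (ν : ℕ) (hν : 2 < ν) :
    (¬ ComputablePred fun x : (List Bool × List Bool) × List Bool =>
      Halts ν x.1.1 x.1.2 x.2) ∧
    (¬ ComputablePred fun x : (List Bool × List Bool) × List Bool =>
      PostReach ν x.1.1 x.1.2 x.2 []) ∧
    ∃ v : List Bool, (¬ ComputablePred fun S : List Bool => Halts ν [false] v S) ∧
      ¬ ComputablePred fun S : List Bool => PostReach ν [false] v S [] := by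
  obtain ⟨v, h1, h2, _⟩ := main ν hν
  have hf : Computable fun S : List Bool => ((([false], v), S) :
      (List Bool × List Bool) × List Bool) :=
    (Computable.const _).pair Computable.id
  refine ⟨fun h => h1 ?_, fun h => h2 ?_, v, h1, h2⟩
  · exact ComputablePred.computable_iff.2 (by
      obtain ⟨f, hfc, hfe⟩ := ComputablePred.computable_iff.1 h
      refine ⟨fun S => f (([false], v), S), hfc.comp hf, ?_⟩
      funext S
      exact congrFun hfe (([false], v), S))
  · exact ComputablePred.computable_iff.2 (by
      obtain ⟨f, hfc, hfe⟩ := ComputablePred.computable_iff.1 h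
      refine ⟨fun S => f (([false], v), S), hfc.comp hf, ?_⟩
      funext S
      exact congrFun hfe (([false], v), S))

theorem reachability (ν : ℕ) (hν : 2 < ν) :
    (¬ ComputablePred fun x : (List Bool × List Bool) × (List Bool × List Bool) =>
      Reach ν x.1.1 x.1.2 x.2.1 x.2.2) ∧
    ∃ v : List Bool, ¬ ComputablePred fun S : List Bool =>
      Reach ν [false] v S (List.replicate (ν - 1) false) := by
  obtain ⟨v, _, _, h3⟩ := main ν hν
  have hf : Computable fun S : List Bool => ((([false], v), (S, List.replicate (ν - 1) false)) :
      (List Bool × List Bool) × (List Bool × List Bool)) :=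
    (Computable.const _).pair (Computable.id.pair (Computable.const _))
  refine ⟨fun h => h3 ?_, v, h3⟩
  exact ComputablePred.computable_iff.2 (by
    obtain ⟨f, hfc, hfe⟩ := ComputablePred.computable_iff.1 h
    refine ⟨fun S => f (([false], v), (S, List.replicate (ν - 1) false)), hfc.comp hf, ?_⟩
    funext S
    exact congrFun hfe (([false], v), (S, List.replicate (ν - 1) false)))

end Pool.Agent.Lib.MP_b40757_lc
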