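import Pool.Agent.Lib.MP_b40757_lc.Evol

set_option autoImplicit false

/-!
# Cells, good tables
-/

namespace Pool.Agent.Lib.MP_b40757_lc

open Finset

/-- `q - 1` -/
def Qd (ν M : ℕ) : ℕ := (ν - 1) * (ν ^ (2 * M) + 1)

/-- number of blocks of the word `v` -/
def md (ν M : ℕ) : ℕ := (ν - 1) * ν ^ (2 * M - 1) + 1

theorem md_Qd {ν M : ℕ} (hν : 3 ≤ ν) (hM : 1 ≤ M) : ν * md ν M - 1 = Qd ν M := by
  obtain ⟨k, rfl⟩ : ∃ k, ν = k + 1 := ⟨ν - 1, by omega⟩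
  obtain ⟨m, hm⟩ : ∃ m, 2 * M = m + 1 := ⟨2 * M - 1, by omega⟩
  unfold md Qd
  rw [hm]
  have h1 : m + 1 - 1 = m := rfl
  rw [h1]
  simp only [Nat.add_sub_cancel]
  have h2 : (k + 1) * (k * (k + 1) ^ m + 1) = k * ((k + 1) ^ (m + 1) + 1) + 1 := by ring
  rw [h2, Nat.add_sub_cancel]

/-- a cell: a word of letters with one letter `V`, at the position `Q + p` -/
def cell (Q X0 p : ℕ) : List Bool :=
  List.replicate (Q + p) false ++ true :: List.replicate (Q * (X0 - 1) - (Q + p) - 1) false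

/-- a word of cells -/
def cells {n : ℕ} (Q X0 : ℕ) (ψ : Fin n → ℕ) (x : List (Fin n)) : List Bool :=
  x.flatMap fun a => cell Q X0 (ψ a)

/-- The table with offset `Y` evolves during `F` passes into the cells `bs`. -/
def Produces {n : ℕ} (ν Q X0 N : ℕ) (ψ : Fin n → ℕ) (ℓ : ℕ → ℕ) (Y F E : ℕ)
    (bs : List (Fin n)) : Prop :=
  ∃ (lam : ℕ) (life : ℕ → ℕ) (spw : ℕ → Bool), Fate ν Q N ℓ Y lam F life spw ∧
    ((List.range N).filter fun e => decide (F ≤ life e)).map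
      (fun e => SS ν Q N ℓ Y lam life spw e F) =
      bs.zipIdx.map (fun x => ν ^ F * (x.2 * (Q * X0) + Q + ψ x.1)) ∧
    E + ∑ i ∈ range (F + 1), ν ^ i * ∑ e ∈ range N, pop N lam life spw e i =
      ν ^ F * (bs.length * X0)

/-- All letters `V` of the table with offset `Y` disappear during `F` passes. -/
def Dies (ν Q N : ℕ) (ℓ : ℕ → ℕ) (Y F E : ℕ) : Prop :=
  ∃ (lam : ℕ) (life : ℕ → ℕ) (spw : ℕ → Bool), Fate ν Q N ℓ Y lam F life spw ∧
    (∀ e < N, life e < F) ∧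
    ∀ i < F, ν ^ (i + 1) ∣ E + ∑ j ∈ range (i + 1), ν ^ j * ∑ e ∈ range N, pop N lam life spw e j

/-- offset of the table of the symbol with parameter `p` in the mode `event` -/
def Ye (ν M p : ℕ) : ℕ := md ν M + p / ν - 1

/-- offset of the table of the symbol with parameter `p` in the mode `normal` -/
def Yn (ν M X0 N p : ℕ) : ℕ := (Qd ν M * (X0 + 1 + ν * N) + p + ν) / ν ^ 2

/-- A table which realizes the productions `cont`. -/
structure Good (ν n : ℕ) (cont : Bool → Fin n → List (Fin n)) (trail : Fin n → Bool)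
    (M X0 N h : ℕ) (ψ : Fin n → ℕ) (ℓ : ℕ → ℕ) : Prop where
  hM : 3 ≤ M
  hh : h + 2 ≤ M
  mono : ∀ e e', e < e' → e' < N → ℓ e < ℓ e'
  lt : ∀ e < N, ℓ e < md ν M
  dvdN : ν ^ 2 ∣ N
  dvdX : ν ^ 3 ∣ X0 + 1
  X0_ge : 4 ≤ X0
  psi_dvd : ∀ a, ν ^ 2 ∣ ψ a + ν
  psi_lt : ∀ a, ψ a < Qd ν M
  res : ∀ e < N, ℓ e ≡ e + 1 [MOD ν]
  normal : ∀ a, cont false a ≠ [] →
    Produces ν (Qd ν M) X0 N ψ ℓ (Yn ν M X0 N (ψ a)) (M - 2) ((X0 + N + 1) / ν) (cont false a)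
  event : ∀ a, cont true a ≠ [] → trail a = false →
    Produces ν (Qd ν M) X0 N ψ ℓ (Ye ν M (ψ a)) (M - 1) (X0 + 1) (cont true a)
  trailing : ∀ a, cont true a ≠ [] → trail a = true →
    Produces ν (Qd ν M) X0 N ψ ℓ (Ye ν M (ψ a)) (M - 1) ((ν - 1) * (X0 + 1) / ν) (cont true a)
  dies : ∀ a, cont false a = [] →
    Dies ν (Qd ν M) N ℓ (Yn ν M X0 N (ψ a)) h ((X0 + N + 1) / ν)

end Pool.Agent.Lib.MP_b40757_lc
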