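import Pool.Agent.Lib.MP_b40757_lc.Run

set_option autoImplicit false

/-!
# Evolution of a group of `ν` cells
-/

namespace Pool.Agent.Lib.MP_b40757_lc

open Finset

/-! words with given positions -/

/-- the word of length `L` with the letters `V` at the positions `ps` -/
def Group_mkW (ps : List ℕ) (L : ℕ) : List Bool := (List.range L).map fun i => decide (i ∈ ps)

theorem Group_mkW_length (ps : List ℕ) (L : ℕ) : (Group_mkW ps L).length = L := by
  simp [Group_mkW]

theorem Group_pos_map_range (f : ℕ → Bool) (L : ℕ) :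
    pos ((List.range L).map f) = (List.range L).filter f := by
  induction L generalizing f with
  | zero => rfl
  | succ L ih =>
    rw [List.range_succ_eq_map, List.map_cons, List.map_map, pos, ih, List.filter_cons]
    rw [List.filter_map]
    cases f 0 <;> simp

theorem Group_filter_range {ps : List ℕ} {L : ℕ} (hs : ps.Pairwise (· < ·))
    (hlt : ∀ x ∈ ps, x < L) : (List.range L).filter (fun i => decide (i ∈ ps)) = ps := by
  have h1 : ((List.range L).filter (fun i => decide (i ∈ ps))).Pairwise (· < ·) :=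
    List.Pairwise.filter _ List.pairwise_lt_range
  have hperm : ((List.range L).filter (fun i => decide (i ∈ ps))).Perm ps := by
    rw [List.perm_ext_iff_of_nodup (h1.imp fun h => h.ne) (hs.imp fun h => h.ne)]
    intro a
    simp only [List.mem_filter, List.mem_range, decide_eq_true_eq]
    exact ⟨fun h => h.2, fun h => ⟨hlt a h, h⟩⟩
  exact hperm.eq_of_pairwise (fun a b _ _ h1 h2 => absurd h1 (not_lt.2 h2.le)) h1 hs

theorem Group_mkW_pos {ps : List ℕ} {L : ℕ} (hs : ps.Pairwise (· < ·))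
    (hlt : ∀ x ∈ ps, x < L) : pos (Group_mkW ps L) = ps := by
  rw [Group_mkW, Group_pos_map_range, Group_filter_range hs hlt]

/-! cells -/

theorem Group_pos_cell (Q X0 p : ℕ) : pos (cell Q X0 p) = [Q + p] := by
  rw [cell, pos_append, pos_replicate, List.nil_append, List.length_replicate, pos, pos_replicate]
  simp

theorem Group_cell_length {Q X0 p : ℕ} (hX : 4 ≤ X0) (hp : p < Q) :
    (cell Q X0 p).length = Q * (X0 - 1) := by
  rw [cell, List.length_append, List.length_replicate, List.length_cons, List.length_replicate]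
  have h1 : Q * 3 ≤ Q * (X0 - 1) := Nat.mul_le_mul le_rfl (by omega)
  omega

theorem Group_cells_length {n Q X0 : ℕ} {ψ : Fin n → ℕ} (hX : 4 ≤ X0) (hp : ∀ a, ψ a < Q)
    (x : List (Fin n)) : (cells Q X0 ψ x).length = x.length * (Q * (X0 - 1)) := by
  induction x with
  | nil => simp [cells]
  | cons a x ih =>
    have h1 : cells Q X0 ψ (a :: x) = cell Q X0 (ψ a) ++ cells Q X0 ψ x := by
      simp [cells]
    rw [h1, List.length_append, Group_cell_length hX (hp a), ih, List.length_cons]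
    ring

theorem Group_pos_cells_cons {n Q X0 : ℕ} {ψ : Fin n → ℕ} (hX : 4 ≤ X0) (hp : ∀ a, ψ a < Q)
    (a : Fin n) (x : List (Fin n)) :
    pos (cells Q X0 ψ (a :: x)) = (Q + ψ a) :: (pos (cells Q X0 ψ x)).map (· + Q * (X0 - 1)) := by
  have h1 : cells Q X0 ψ (a :: x) = cell Q X0 (ψ a) ++ cells Q X0 ψ x := by
    simp [cells]
  rw [h1, pos_append, Group_pos_cell, Group_cell_length hX (hp a)]
  rfl

theorem Group_pos_cells_length {n Q X0 : ℕ} {ψ : Fin n → ℕ} (hX : 4 ≤ X0) (hp : ∀ a, ψ a < Q)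
    (x : List (Fin n)) : (pos (cells Q X0 ψ x)).length = x.length := by
  induction x with
  | nil => simp [cells, pos]
  | cons a x ih => rw [Group_pos_cells_cons hX hp]; simp [ih]

theorem Group_nxt_cells {n Q X0 : ℕ} {ψ : Fin n → ℕ} (hX : 4 ≤ X0) (hp : ∀ a, ψ a < Q)
    (ν : ℕ) (tab : List ℕ) (s : ℕ) (x : List (Fin n)) (j : ℕ) :
    nxtFrom ν Q tab s j ((pos (cells Q X0 ψ x)).map (· + j * (Q * (X0 - 1)))) =
      (x.zipIdx j).flatMap fun y => child ν tab s (y.2 * (Q * X0) + Q + ψ y.1) := by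
  induction x generalizing j with
  | nil => simp [cells, pos, nxtFrom]
  | cons a x ih =>
    rw [Group_pos_cells_cons hX hp, List.map_cons, List.map_map]
    have h1 : ((fun y => y + j * (Q * (X0 - 1))) ∘ fun y => y + Q * (X0 - 1)) =
        fun y => y + (j + 1) * (Q * (X0 - 1)) := by
      ext y
      simp only [Function.comp]
      ring
    rw [h1]
    have h2 := ih (j + 1)
    simp only [nxtFrom] at h2 ⊢
    rw [List.zipIdx_cons, List.zipIdx_cons, List.flatMap_cons, List.flatMap_cons, h2]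
    congr 2
    obtain ⟨k, rfl⟩ : ∃ k, X0 = k + 1 := ⟨X0 - 1, by omega⟩
    simp only [Nat.add_sub_cancel]
    ring

theorem Group_nxt_range (ν Q : ℕ) (tab : List ℕ) (s r N : ℕ) (f : ℕ → ℕ) :
    nxtFrom ν Q tab s r ((List.range N).map f) =
      (List.range N).flatMap fun e => child ν tab s (f e + Q * (r + e)) := by
  induction N with
  | zero => simp [nxtFrom]
  | succ N ih =>
    rw [List.range_succ, List.map_append, nxtFrom_append, ih, List.flatMap_append]
    simp [nxtFrom]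

/-! children -/

theorem Group_child_spawn {ν R q : ℕ} (hν : 3 ≤ ν) (tab : List ℕ) (h : R + 1 = ν * q) :
    child ν tab 0 R = tab.map (· + q) := by
  have hq : 0 < q := by
    rcases Nat.eq_zero_or_pos q with rfl | h'
    · simp at h
    · exact h'
  obtain ⟨k, rfl⟩ : ∃ k, q = k + 1 := ⟨q - 1, by omega⟩
  have h1 : R = ν * k + (ν - 1) := by
    have : ν * (k + 1) = ν * k + ν := by ring
    omega
  have h2 : R % ν = ν - 1 := by
    rw [h1, Nat.mul_add_mod, Nat.mod_eq_of_lt (by omega)]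
  have h3 : (R + 1) % ν = 0 := by rw [h, Nat.mul_mod_right]
  have h4 : (R + 1) / ν = k + 1 := by rw [h, Nat.mul_div_cancel_left _ (by omega)]
  rw [child, if_neg (by omega), if_pos h3, h4]

theorem Group_child_idle {ν R q s : ℕ} (hs : s < ν) (tab : List ℕ) (h : R = ν * q + s) :
    child ν tab s R = [q] := by
  have h2 : R % ν = s := by rw [h, Nat.mul_add_mod, Nat.mod_eq_of_lt hs]
  have h3 : R / ν = q := by
    rw [h, Nat.mul_add_div (by omega), Nat.div_eq_of_lt hs, add_zero]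
  rw [child, if_pos h2, h3]

theorem Group_child_die {ν R q j : ℕ} (hj : 1 ≤ j) (hj' : j + 1 < ν) (tab : List ℕ)
    (h : R = ν * q + j) : child ν tab 0 R = [] := by
  have h2 : R % ν = j := by rw [h, Nat.mul_add_mod, Nat.mod_eq_of_lt (by omega)]
  have h3 : (R + 1) % ν = j + 1 := by
    rw [h, add_assoc, Nat.mul_add_mod, Nat.mod_eq_of_lt hj']
  rw [child, if_neg (by omega), if_neg (by omega)]

theorem Group_child_die1 {ν R q : ℕ} (hν : 3 ≤ ν) (tab : List ℕ)
    (h : R + 1 = ν * q) : child ν tab 1 R = [] := by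
  have hq : 0 < q := by
    rcases Nat.eq_zero_or_pos q with rfl | h'
    · simp at h
    · exact h'
  obtain ⟨k, rfl⟩ : ∃ k, q = k + 1 := ⟨q - 1, by omega⟩
  have h1 : R = ν * k + (ν - 1) := by
    have : ν * (k + 1) = ν * k + ν := by ring
    omega
  have h2 : R % ν = ν - 1 := by
    rw [h1, Nat.mul_add_mod, Nat.mod_eq_of_lt (by omega)]
  have h3 : (R + 1) % ν = 0 := by rw [h, Nat.mul_mod_right]
  rw [child, if_neg (by omega), if_neg (by omega)]

/-! lengths and states -/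

theorem Group_len {ν l s L o t o' : ℕ} (h : ν * l + s = L + o) (ho : o < ν)
    (h' : L + o' = ν * t + s) (ho' : o' < ν) : o = o' ∧ l = t := by
  have h1 : ν * l + o' = ν * t + o := by omega
  have h2 : o' = o := by
    have := congrArg (· % ν) h1
    simp only [Nat.mul_add_mod, Nat.mod_eq_of_lt ho, Nat.mod_eq_of_lt ho'] at this
    exact this
  subst h2
  refine ⟨rfl, ?_⟩
  have h3 : ν * l = ν * t := by omega
  exact Nat.eq_of_mul_eq_mul_left (by omega) h3

section

variable {ν n : ℕ} {cont : Bool → Fin n → List (Fin n)} {trail : Fin n → Bool}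
  {M X0 N h : ℕ} {ψ : Fin n → ℕ} {ℓ : ℕ → ℕ}

theorem Group_tab_pairwise (hg : Good ν n cont trail M X0 N h ψ ℓ) :
    ((List.range N).map ℓ).Pairwise (· < ·) := by
  rw [List.pairwise_map]
  refine List.Pairwise.imp_of_mem ?_ (List.pairwise_lt_range (n := N))
  intro a b _ hb hab
  exact hg.mono a b hab (List.mem_range.1 hb)

theorem Group_map_pairwise (hg : Good ν n cont trail M X0 N h ψ ℓ) (Y : ℕ) :
    ((List.range N).map fun e => Y + ℓ e).Pairwise (· < ·) := by
  rw [List.pairwise_map]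
  refine List.Pairwise.imp_of_mem ?_ (List.pairwise_lt_range (n := N))
  intro a b _ hb hab
  have := hg.mono a b hab (List.mem_range.1 hb)
  omega

theorem Group_tr (hν : 3 ≤ ν) (hg : Good ν n cont trail M X0 N h ψ ℓ) {s : ℕ} (hs : s < ν)
    (W : List Bool) :
    pos (tr ν (vw ν M N ℓ) s W) = nxt ν (Qd ν M) ((List.range N).map ℓ) s (pos W) ∧
    ν * (tr ν (vw ν M N ℓ) s W).length + s =
      (W.length + Qd ν M * (pos W).length) + ost ν (vw ν M N ℓ) s W ∧
    ost ν (vw ν M N ℓ) s W < ν := by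
  have h1 := trans ν hν (md ν M) (by simp [md]) ((List.range N).map ℓ) (Group_tab_pairwise hg)
    (by
      intro x hx
      obtain ⟨e, he, rfl⟩ := List.mem_map.1 hx
      exact hg.lt e (List.mem_range.1 he)) s hs W
  rw [md_Qd hν (by have := hg.hM; omega)] at h1
  exact h1

/-- arithmetic of the parameters -/
theorem Group_arith (hν : 3 ≤ ν) (hg : Good ν n cont trail M X0 N h ψ ℓ) :
    Qd ν M + 1 = ν * md ν M ∧ (∃ k, md ν M = ν * k + 1) ∧ (∃ x, 0 < x ∧ X0 + 1 = ν * (ν * (ν * x)))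
      ∧ (∃ w, N = ν * (ν * w)) ∧ ∀ a, ∃ c, 0 < c ∧ ψ a + ν = ν * (ν * c) ∧ ψ a / ν + 1 = ν * c := by
  have hM := hg.hM
  refine ⟨?_, ?_, ?_, ?_, ?_⟩
  · have h1 := md_Qd (ν := ν) (M := M) hν (by omega)
    have h2 : 0 < ν * md ν M := Nat.mul_pos (by omega) (by simp [md])
    omega
  · refine ⟨(ν - 1) * ν ^ (2 * M - 2), ?_⟩
    rw [md]
    have h1 : 2 * M - 1 = (2 * M - 2) + 1 := by omega
    rw [h1, pow_succ]
    ring
  · obtain ⟨x, hx⟩ := hg.dvdX
    refine ⟨x, ?_, ?_⟩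
    · rcases Nat.eq_zero_or_pos x with rfl | h'
      · simp at hx
      · exact h'
    · rw [hx]; ring
  · obtain ⟨w, hw⟩ := hg.dvdN
    exact ⟨w, by rw [hw]; ring⟩
  · intro a
    obtain ⟨c, hc⟩ := hg.psi_dvd a
    have hc0 : 0 < c := by
      rcases Nat.eq_zero_or_pos c with rfl | h'
      · simp at hc
        omega
      · exact h'
    have h1 : ψ a + ν = ν * (ν * c) := by rw [hc]; ring
    refine ⟨c, hc0, h1, ?_⟩
    have h2 : ψ a = ν * (ν * c - 1) := by
      rw [Nat.mul_sub, mul_one]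
      omega
    have h3 : 0 < ν * c := Nat.mul_pos (by omega) hc0
    rw [h2, Nat.mul_div_cancel_left _ (by omega)]
    omega

theorem Group_QX (hν : 3 ≤ ν) (hg : Good ν n cont trail M X0 N h ψ ℓ) :
    ∃ s, Qd ν M * X0 = ν * s + 1 := by
  obtain ⟨hQ, -, ⟨x, hx, hX⟩, -, -⟩ := Group_arith hν hg
  have hX0 := hg.X0_ge
  have hQ0 : 0 < Qd ν M := by
    rw [Qd]
    exact Nat.mul_pos (by omega) (by omega)
  set m := md ν M
  set Q := Qd ν M
  have h1 : Q * X0 + ν * (m + ν * (ν * x)) = ν * (m * (ν * (ν * (ν * x)))) + 1 := by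
    have h2 : (Q + 1) * (X0 + 1) = ν * m * (ν * (ν * (ν * x))) := by rw [hQ, hX]
    nlinarith
  have h3 : 0 < Q * X0 := Nat.mul_pos hQ0 (by omega)
  have h4 : m + ν * (ν * x) ≤ m * (ν * (ν * (ν * x))) := by
    have h5 : ν * (m + ν * (ν * x)) ≤ ν * (m * (ν * (ν * (ν * x)))) := by omega
    exact Nat.le_of_mul_le_mul_left h5 (by omega)
  refine ⟨m * (ν * (ν * (ν * x))) - (m + ν * (ν * x)), ?_⟩
  rw [Nat.mul_sub]
  have h6 : ν * (m + ν * (ν * x)) ≤ ν * (m * (ν * (ν * (ν * x)))) := Nat.mul_le_mul le_rfl h4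
  omega

/-- positions after the first pass -/
theorem Group_pos1 (hν : 3 ≤ ν) (hg : Good ν n cont trail M X0 N h ψ ℓ) {a b : Fin n}
    {r : List (Fin n)} (hr : r.length + 2 ≤ ν) :
    ∃ g, pos (tr ν (vw ν M N ℓ) 0 (cells (Qd ν M) X0 ψ (a :: b :: r))) =
      ((List.range N).map fun e => (md ν M + ψ a / ν) + ℓ e) ++ [g] ∧
      ν * g = Qd ν M * (X0 + 1) + ψ b := by
  obtain ⟨hQ, -, -, -, hψ⟩ := Group_arith hν hg
  obtain ⟨s, hs⟩ := Group_QX hν hg
  have hX0 := hg.X0_ge
  have hR : ∀ (c : Fin n) (j : ℕ), j * (Qd ν M * X0) + Qd ν M + ψ c + 1 =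
      ν * (j * s + md ν M + ψ c / ν) + j := by
    intro c j
    obtain ⟨c', -, h1, h2⟩ := hψ c
    have h3 : ψ c = ν * (ψ c / ν) := by
      have h4 : ν * (ψ c / ν) + ν = ν * (ν * c') := by rw [← h2]; ring
      omega
    rw [hs]
    have h5 : j * (ν * s + 1) + Qd ν M + ψ c + 1 = j * (ν * s + 1) + (Qd ν M + 1) + ψ c := by ring
    rw [h5, hQ]
    conv_lhs => rw [h3]
    ring
  refine ⟨s + md ν M + ψ b / ν, ?_, ?_⟩
  · rw [(Group_tr hν hg (by omega) _).1, nxt]
    have h1 := Group_nxt_cells hX0 hg.psi_lt ν ((List.range N).map ℓ) 0 (a :: b :: r) 0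
    simp only [zero_mul, add_zero, List.map_id'] at h1
    rw [h1, List.zipIdx_cons, List.zipIdx_cons, List.flatMap_cons, List.flatMap_cons]
    have h2 : ((r.zipIdx (0 + 1 + 1)).flatMap fun y =>
        child ν ((List.range N).map ℓ) 0 (y.2 * (Qd ν M * X0) + Qd ν M + ψ y.1)) = [] := by
      rw [List.flatMap_eq_nil_iff]
      rintro ⟨c, j⟩ hcj
      have h3 := List.mem_zipIdx hcj
      obtain ⟨h4, h5, -⟩ := h3
      obtain ⟨i, rfl⟩ : ∃ i, j = i + 1 := ⟨j - 1, by omega⟩
      refine Group_child_die (q := (i + 1) * s + md ν M + ψ c / ν) (j := i) (by omega) (by omega)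
        _ ?_
      have h6 := hR c (i + 1)
      simp only
      omega
    rw [h2, List.append_nil]
    congr 1
    · rw [Group_child_spawn hν _ (q := md ν M + ψ a / ν) (by have := hR a 0; simpa using this),
        List.map_map]
      apply List.map_congr_left
      intro e _
      simp only [Function.comp]
      ring
    · refine Group_child_idle (by omega) _ ?_
      have h6 := hR b 1
      simp only [zero_add, one_mul] at h6 ⊢
      omega
  · have h6 := hR b 1
    simp only [one_mul] at h6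
    have : Qd ν M * (X0 + 1) = Qd ν M * X0 + Qd ν M := by ring
    omega

theorem Group_QdX (hX0 : 4 ≤ X0) (Q : ℕ) : Q * (X0 - 1) + Q = Q * X0 := by
  obtain ⟨k, rfl⟩ : ∃ k, X0 = k + 1 := ⟨X0 - 1, by omega⟩
  simp only [Nat.add_sub_cancel]
  ring

/-- the first pass of a full group -/
theorem Group_len1 (hν : 3 ≤ ν) (hg : Good ν n cont trail M X0 N h ψ ℓ) {x : List (Fin n)}
    (hx : x.length = ν) :
    ost ν (vw ν M N ℓ) 0 (cells (Qd ν M) X0 ψ x) = 0 ∧
      (tr ν (vw ν M N ℓ) 0 (cells (Qd ν M) X0 ψ x)).length = Qd ν M * X0 := by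
  obtain ⟨-, h2, h3⟩ := Group_tr hν hg (s := 0) (by omega) (cells (Qd ν M) X0 ψ x)
  rw [Group_cells_length hg.X0_ge hg.psi_lt, Group_pos_cells_length hg.X0_ge hg.psi_lt, hx] at h2
  refine Group_len h2 h3 ?_ (by omega)
  rw [← Group_QdX hg.X0_ge]
  ring

/-- the first pass of the last group -/
theorem Group_len1' (hν : 3 ≤ ν) (hg : Good ν n cont trail M X0 N h ψ ℓ) {x : List (Fin n)}
    (hx : x.length = ν - 1) :
    ost ν (vw ν M N ℓ) 0 (cells (Qd ν M) X0 ψ x) = 1 ∧
      ν * (tr ν (vw ν M N ℓ) 0 (cells (Qd ν M) X0 ψ x)).length = (ν - 1) * (Qd ν M * X0) + 1 := by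
  obtain ⟨-, h2, h3⟩ := Group_tr hν hg (s := 0) (by omega) (cells (Qd ν M) X0 ψ x)
  rw [Group_cells_length hg.X0_ge hg.psi_lt, Group_pos_cells_length hg.X0_ge hg.psi_lt, hx] at h2
  obtain ⟨s, hs⟩ := Group_QX hν hg
  have h4 : (ν - 1) * (Qd ν M * (X0 - 1)) + Qd ν M * (ν - 1) = (ν - 1) * (Qd ν M * X0) := by
    rw [← Group_QdX hg.X0_ge]
    ring
  rw [h4] at h2
  have h5 : (ν - 1) * (Qd ν M * X0) + 1 = ν * ((ν - 1) * s + 1) + 0 := by
    rw [hs]
    obtain ⟨k, rfl⟩ : ∃ k, ν = k + 1 := ⟨ν - 1, by omega⟩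
    simp only [Nat.add_sub_cancel]
    ring
  obtain ⟨h6, h7⟩ := Group_len h2 h3 h5 (by omega)
  refine ⟨h6, ?_⟩
  rw [h7, h5, add_zero]

/-- residues of the table in the second pass -/
theorem Group_res (hν : 3 ≤ ν) (hg : Good ν n cont trail M X0 N h ψ ℓ) (a : Fin n) {e : ℕ}
    (he : e < N) : ∃ q, (md ν M + ψ a / ν) + ℓ e + Qd ν M * e = ν * q + 1 := by
  obtain ⟨hQ, ⟨k, hk⟩, -, -, hψ⟩ := Group_arith hν hg
  obtain ⟨c, hc, -, h2⟩ := hψ a
  have h3 : (md ν M + ψ a / ν) + ℓ e + Qd ν M * e ≡ 1 [MOD ν] := by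
    have h4 : md ν M + ψ a / ν = ν * (k + c) := by rw [hk, mul_add, ← h2]; ring
    rw [h4]
    calc ν * (k + c) + ℓ e + Qd ν M * e ≡ 0 + (e + 1) + Qd ν M * e [MOD ν] := by
          refine Nat.ModEq.add_right _ (Nat.ModEq.add ?_ (hg.res e he))
          exact (Nat.modEq_zero_iff_dvd).2 (Dvd.intro _ rfl)
      _ = ν * (md ν M * e) + 1 := by
          have : 0 + (e + 1) + Qd ν M * e = (Qd ν M + 1) * e + 1 := by ring
          rw [this, hQ]
          ring
      _ ≡ 0 + 1 [MOD ν] := by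
          refine Nat.ModEq.add_right _ ?_
          exact (Nat.modEq_zero_iff_dvd).2 (Dvd.intro _ rfl)
      _ = 1 := by ring
  refine ⟨((md ν M + ψ a / ν) + ℓ e + Qd ν M * e) / ν, ?_⟩
  have h5 : ((md ν M + ψ a / ν) + ℓ e + Qd ν M * e) % ν = 1 := by
    have := h3
    rw [Nat.ModEq, Nat.mod_eq_of_lt (by omega : 1 < ν)] at this
    exact this
  have := Nat.div_add_mod ((md ν M + ψ a / ν) + ℓ e + Qd ν M * e) ν
  omega

theorem Group_nxt_split (ν Q : ℕ) (tab : List ℕ) (s N g : ℕ) (f : ℕ → ℕ) :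
    nxt ν Q tab s (((List.range N).map f) ++ [g]) =
      ((List.range N).flatMap fun e => child ν tab s (f e + Q * e)) ++
        child ν tab s (g + Q * N) := by
  rw [nxt, nxtFrom_append, Group_nxt_range]
  simp [nxtFrom]

/-- residue of the second letter in the second pass -/
theorem Group_resg (hν : 3 ≤ ν) (hg : Good ν n cont trail M X0 N h ψ ℓ) (b : Fin n) {g : ℕ}
    (hgg : ν * g = Qd ν M * (X0 + 1) + ψ b) :
    g + Qd ν M * N + 1 = ν * Yn ν M X0 N (ψ b) := by
  obtain ⟨hQ, ⟨k, hk⟩, ⟨x, hx, hX⟩, ⟨w, hw⟩, hψ⟩ := Group_arith hν hg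
  obtain ⟨c, hc, h1, h2⟩ := hψ b
  have h3 : Qd ν M * (X0 + 1 + ν * N) + ψ b + ν =
      ν ^ 2 * (Qd ν M * (ν * x) + Qd ν M * (ν * w) + c) := by
    have : Qd ν M * (X0 + 1 + ν * N) + ψ b + ν = Qd ν M * ((X0 + 1) + ν * N) + (ψ b + ν) := by
      ring
    rw [this, h1, hX, hw]
    ring
  have h4 : Yn ν M X0 N (ψ b) = Qd ν M * (ν * x) + Qd ν M * (ν * w) + c := by
    rw [Yn, h3, Nat.mul_div_cancel_left _ (by positivity)]
  rw [h4]
  have h5 : ν * (g + Qd ν M * N + 1) =
      ν * (ν * (Qd ν M * (ν * x) + Qd ν M * (ν * w) + c)) := by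
    have : ν * (g + Qd ν M * N + 1) = ν * g + Qd ν M * (ν * N) + ν := by ring
    rw [this, hgg]
    have h6 : Qd ν M * (X0 + 1) + ψ b + Qd ν M * (ν * N) + ν =
      Qd ν M * (X0 + 1 + ν * N) + ψ b + ν := by ring
    rw [h6, h3]
    ring
  exact Nat.eq_of_mul_eq_mul_left (by omega) h5

/-- the first two passes of a full group, mode `normal` -/
theorem start_normal (hν : 3 ≤ ν) (hg : Good ν n cont trail M X0 N h ψ ℓ) {a b : Fin n}
    {r : List (Fin n)} (hr : r.length = ν - 2) :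
    ∃ W, blockRun ν (vw ν M N ℓ) [0, 0] (cells (Qd ν M) X0 ψ (a :: b :: r)) W ∧
      (pos W = (List.range N).map fun e => Yn ν M X0 N (ψ b) + ℓ e) ∧
      W.length = Qd ν M * ((X0 + N + 1) / ν) := by
  obtain ⟨g, hpos, hgg⟩ := Group_pos1 hν hg (a := a) (b := b) (r := r) (by omega)
  obtain ⟨ho, hlen⟩ := Group_len1 hν hg (x := a :: b :: r) (by simp; omega)
  obtain ⟨hQ, ⟨k, hk⟩, ⟨x, hx, hX⟩, ⟨w, hw⟩, hψ⟩ := Group_arith hν hg
  set W1 := tr ν (vw ν M N ℓ) 0 (cells (Qd ν M) X0 ψ (a :: b :: r)) with hW1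
  obtain ⟨h1, h2, h3⟩ := Group_tr hν hg (s := 0) (by omega) W1
  have hdiv : X0 + N + 1 = ν * ((X0 + N + 1) / ν) := by
    have : X0 + N + 1 = ν * (ν * (ν * x) + ν * w) := by
      have h : X0 + N + 1 = (X0 + 1) + N := by ring
      rw [h, hX, hw]
      ring
    rw [this, Nat.mul_div_cancel_left _ (by omega)]
  have h4 : W1.length + Qd ν M * (pos W1).length + 0 =
      ν * (Qd ν M * ((X0 + N + 1) / ν)) + 0 := by
    rw [hlen, hpos]
    simp only [List.length_append, List.length_map, List.length_range, List.length_cons,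
      List.length_nil, add_zero, zero_add]
    have h5 : Qd ν M * X0 + Qd ν M * (N + 1) = Qd ν M * (X0 + N + 1) := by ring
    rw [h5]
    conv_lhs => rw [hdiv]
    ring
  obtain ⟨h5, h6⟩ := Group_len h2 h3 h4 (by omega)
  refine ⟨tr ν (vw ν M N ℓ) 0 W1, ⟨ho, h5, rfl⟩, ?_, h6⟩
  rw [h1, hpos, Group_nxt_split]
  have h7 : ((List.range N).flatMap fun e =>
      child ν ((List.range N).map ℓ) 0 (md ν M + ψ a / ν + ℓ e + Qd ν M * e)) = [] := by
    rw [List.flatMap_eq_nil_iff]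
    intro e he
    obtain ⟨q, hq⟩ := Group_res hν hg a (List.mem_range.1 he)
    exact Group_child_die le_rfl (by omega) _ hq
  rw [h7, List.nil_append, Group_child_spawn hν _ (Group_resg hν hg b hgg), List.map_map]
  apply List.map_congr_left
  intro e _
  simp only [Function.comp]
  ring

theorem Group_m_le (hν : 3 ≤ ν) (hg : Good ν n cont trail M X0 N h ψ ℓ) :
    md ν M ≤ Qd ν M := by
  obtain ⟨hQ, ⟨k, hk⟩, -, -, -⟩ := Group_arith hν hg
  have h1 : 3 * md ν M ≤ ν * md ν M := Nat.mul_le_mul hν le_rfl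
  omega

theorem Group_Ye_lt (hν : 3 ≤ ν) (hg : Good ν n cont trail M X0 N h ψ ℓ) (a : Fin n) {e L : ℕ}
    (he : e < N) (hL : 3 * Qd ν M ≤ L) : Ye ν M (ψ a) + ℓ e < L := by
  have h1 := Group_m_le hν hg
  have h2 := hg.lt e he
  have h3 := hg.psi_lt a
  have h4 : ψ a / ν ≤ ψ a := Nat.div_le_self _ _
  rw [Ye]
  omega

/-- the second pass in the mode `event` is one pass with state `0` of a table with offset `Ye` -/
theorem Group_event_core (hν : 3 ≤ ν) (hg : Good ν n cont trail M X0 N h ψ ℓ) (a b : Fin n)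
    {W W1 : List Bool} {g t o : ℕ}
    (hW : pos W = (List.range N).map fun e => Ye ν M (ψ a) + ℓ e)
    (hpos : pos W1 = ((List.range N).map fun e => (md ν M + ψ a / ν) + ℓ e) ++ [g])
    (hgg : ν * g = Qd ν M * (X0 + 1) + ψ b)
    (hlW : W.length + Qd ν M * N = ν * t)
    (hl1 : W1.length + Qd ν M * (N + 1) + o = ν * t + 1) (ho : o < ν) :
    ost ν (vw ν M N ℓ) 1 W1 = o ∧ ost ν (vw ν M N ℓ) 0 W = 0 ∧
      tr ν (vw ν M N ℓ) 1 W1 = tr ν (vw ν M N ℓ) 0 W := by
  obtain ⟨hQ, ⟨k, hk⟩, -, -, -⟩ := Group_arith hν hg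
  obtain ⟨h1, h2, h3⟩ := Group_tr hν hg (s := 1) (by omega) W1
  obtain ⟨h1', h2', h3'⟩ := Group_tr hν hg (s := 0) (by omega) W
  have h4 : W1.length + Qd ν M * (pos W1).length + o = ν * t + 1 := by
    rw [hpos]
    simp only [List.length_append, List.length_map, List.length_range, List.length_cons,
      List.length_nil, zero_add]
    exact hl1
  have h4' : W.length + Qd ν M * (pos W).length + 0 = ν * t + 0 := by
    rw [hW]
    simp only [List.length_map, List.length_range]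
    exact hlW
  obtain ⟨h5, h6⟩ := Group_len h2 h3 h4 ho
  obtain ⟨h5', h6'⟩ := Group_len h2' h3' h4' (by omega)
  refine ⟨h5, h5', ?_⟩
  apply eq_of_pos
  · rw [h1, h1', hpos, hW, Group_nxt_split, Group_child_die1 hν _ (Group_resg hν hg b hgg),
      List.append_nil, nxt, Group_nxt_range]
    apply List.flatMap_congr
    intro e he
    obtain ⟨q, hq⟩ := Group_res hν hg a (List.mem_range.1 he)
    rw [Group_child_idle (by omega) _ hq, Group_child_idle (q := q) (by omega)]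
    rw [Ye]
    simp only [zero_add, add_zero]
    generalize ψ a / ν = p at hq ⊢
    omega
  · rw [h6, h6']

/-- the first two passes of a full group, mode `event`, lead to the same word as one pass with
state `0` of a table with offset `Ye` -/
theorem start_event (hν : 3 ≤ ν) (hg : Good ν n cont trail M X0 N h ψ ℓ) {a b : Fin n}
    {r : List (Fin n)} (hr : r.length = ν - 2) :
    ∃ W W', blockRun ν (vw ν M N ℓ) [0, 1] (cells (Qd ν M) X0 ψ (a :: b :: r)) W' ∧
      blockRun ν (vw ν M N ℓ) [0] W W' ∧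
      (pos W = (List.range N).map fun e => Ye ν M (ψ a) + ℓ e) ∧
      W.length = Qd ν M * (X0 + 1) := by
  obtain ⟨g, hpos, hgg⟩ := Group_pos1 hν hg (a := a) (b := b) (r := r) (by omega)
  obtain ⟨ho, hlen⟩ := Group_len1 hν hg (x := a :: b :: r) (by simp; omega)
  obtain ⟨hQ, ⟨k, hk⟩, ⟨x, hx, hX⟩, ⟨w, hw⟩, hψ⟩ := Group_arith hν hg
  have hposW : pos (Group_mkW ((List.range N).map fun e => Ye ν M (ψ a) + ℓ e)
      (Qd ν M * (X0 + 1))) = (List.range N).map fun e => Ye ν M (ψ a) + ℓ e := by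
    apply Group_mkW_pos (Group_map_pairwise hg _)
    intro y hy
    obtain ⟨e, he, rfl⟩ := List.mem_map.1 hy
    refine Group_Ye_lt hν hg a (List.mem_range.1 he) ?_
    rw [mul_comm]
    exact Nat.mul_le_mul le_rfl (by have := hg.X0_ge; omega)
  have h4 : Qd ν M * (X0 + 1) + Qd ν M * N =
      ν * (Qd ν M * (ν * (ν * x) + ν * w)) := by
    rw [hX, hw]
    ring
  obtain ⟨h5, h6, h7⟩ := Group_event_core hν hg a b (t := Qd ν M * (ν * (ν * x) + ν * w)) (o := 1)
    hposW hpos hgg (by rw [Group_mkW_length]; exact h4)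
    (by
      rw [hlen, ← h4]
      ring) (by omega)
  exact ⟨_, _, ⟨ho, h5, rfl⟩, ⟨h6, h7.symm⟩, hposW, Group_mkW_length _ _⟩

/-- the first two passes of the group of `ν - 1` cells at the end, mode `event` -/
theorem start_trailing (hν : 3 ≤ ν) (hg : Good ν n cont trail M X0 N h ψ ℓ) {a b : Fin n}
    {r : List (Fin n)} (hr : r.length = ν - 3) :
    ∃ W W', tailRun ν (vw ν M N ℓ) 0 [1, 0] (cells (Qd ν M) X0 ψ (a :: b :: r)) W' ∧
      blockRun ν (vw ν M N ℓ) [0] W W' ∧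
      (pos W = (List.range N).map fun e => Ye ν M (ψ a) + ℓ e) ∧
      W.length = Qd ν M * ((ν - 1) * (X0 + 1) / ν) + ν ^ (M - 1) * ((ν - 1) * ν ^ M) := by
  obtain ⟨g, hpos, hgg⟩ := Group_pos1 hν hg (a := a) (b := b) (r := r) (by omega)
  obtain ⟨ho, hlen⟩ := Group_len1' hν hg (x := a :: b :: r) (by simp; omega)
  obtain ⟨hQ, ⟨k, hk⟩, ⟨x, hx, hX⟩, ⟨w, hw⟩, hψ⟩ := Group_arith hν hg
  have hM := hg.hM
  have hdiv : (ν - 1) * (X0 + 1) / ν = (ν - 1) * (ν * (ν * x)) := by
    have : (ν - 1) * (X0 + 1) = ν * ((ν - 1) * (ν * (ν * x))) := by rw [hX]; ring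
    rw [this, Nat.mul_div_cancel_left _ (by omega)]
  have hpow : ν ^ (M - 1) * ((ν - 1) * ν ^ M) * ν = (ν - 1) * ν ^ (2 * M) := by
    have : 2 * M = (M - 1) + M + 1 := by omega
    rw [this, pow_succ, pow_add]
    ring
  have hQ2 : Qd ν M = (ν - 1) * ν ^ (2 * M) + (ν - 1) := by rw [Qd]; ring
  -- the exact identity of lengths
  have hid : Qd ν M * ((ν - 1) * (X0 + 1) / ν) + ν ^ (M - 1) * ((ν - 1) * ν ^ M) + 1 =
      (tr ν (vw ν M N ℓ) 0 (cells (Qd ν M) X0 ψ (a :: b :: r))).length + Qd ν M := by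
    apply Nat.eq_of_mul_eq_mul_left (show 0 < ν by omega)
    rw [mul_add ν (List.length _), hlen, hdiv]
    have e1 : ν * (Qd ν M * ((ν - 1) * (ν * (ν * x))) + ν ^ (M - 1) * ((ν - 1) * ν ^ M) + 1) =
        Qd ν M * ((ν - 1) * (ν * (ν * (ν * x)))) + ν ^ (M - 1) * ((ν - 1) * ν ^ M) * ν + ν := by
      ring
    rw [e1, hpow, ← hX]
    obtain ⟨p, rfl⟩ : ∃ p, ν = p + 1 := ⟨ν - 1, by omega⟩
    simp only [Nat.add_sub_cancel] at hQ2 ⊢
    have e2 : Qd (p + 1) M * (p * (X0 + 1)) + p * (p + 1) ^ (2 * M) + (p + 1) =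
        Qd (p + 1) M * (p * (X0 + 1)) + (p * (p + 1) ^ (2 * M) + p) + 1 := by ring
    rw [e2, ← hQ2]
    ring
  have hposW : pos (Group_mkW ((List.range N).map fun e => Ye ν M (ψ a) + ℓ e)
      (Qd ν M * ((ν - 1) * (X0 + 1) / ν) + ν ^ (M - 1) * ((ν - 1) * ν ^ M))) =
      (List.range N).map fun e => Ye ν M (ψ a) + ℓ e := by
    apply Group_mkW_pos (Group_map_pairwise hg _)
    intro y hy
    obtain ⟨e, he, rfl⟩ := List.mem_map.1 hy
    refine Group_Ye_lt hν hg a (List.mem_range.1 he) ?_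
    rw [hdiv]
    refine le_trans ?_ (Nat.le_add_right _ _)
    rw [mul_comm]
    refine Nat.mul_le_mul le_rfl ?_
    have e1 : 3 ≤ ν * (ν * x) := by
      calc 3 ≤ ν * 1 := by omega
        _ ≤ ν * (ν * x) := Nat.mul_le_mul le_rfl (Nat.mul_pos (by omega) hx)
    calc 3 ≤ 1 * (ν * (ν * x)) := by omega
      _ ≤ (ν - 1) * (ν * (ν * x)) := Nat.mul_le_mul (by omega) le_rfl
  -- divisibility of the length
  obtain ⟨t, ht⟩ : ∃ t, Qd ν M * ((ν - 1) * (X0 + 1) / ν) + ν ^ (M - 1) * ((ν - 1) * ν ^ M) +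
      Qd ν M * N = ν * t := by
    have e1 : ν ^ (M - 1) = ν * ν ^ (M - 2) := by
      have : M - 1 = (M - 2) + 1 := by omega
      rw [this, pow_succ]
      ring
    refine ⟨Qd ν M * ((ν - 1) * (ν * x)) + ν ^ (M - 2) * ((ν - 1) * ν ^ M) +
      Qd ν M * (ν * w), ?_⟩
    rw [hdiv, e1, hw]
    ring
  obtain ⟨h5, h6, h7⟩ := Group_event_core hν hg a b (t := t) (o := 0)
    hposW hpos hgg (by rw [Group_mkW_length]; exact ht)
    (by
      rw [← ht]
      have : Qd ν M * (N + 1) = Qd ν M * N + Qd ν M := by ring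
      omega) (by omega)
  exact ⟨_, _, ⟨ho, h5, rfl⟩, ⟨h6, h7.symm⟩, hposW, Group_mkW_length _ _⟩

/-- a full group of cells in the mode `normal` -/
theorem group_normal (hν : 3 ≤ ν) (hg : Good ν n cont trail M X0 N h ψ ℓ) {a b : Fin n}
    {r : List (Fin n)} (hr : r.length = ν - 2) (hb : cont false b ≠ []) :
    blockRun ν (vw ν M N ℓ) (List.replicate M 0) (cells (Qd ν M) X0 ψ (a :: b :: r))
      (cells (Qd ν M) X0 ψ (cont false b)) := by
  obtain ⟨W, h1, h2, h3⟩ := start_normal hν hg (a := a) (b := b) hr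
  have hM := hg.hM
  have h4 := run_produces hν hg (z := 0) (by omega) hb (hg.normal b hb) h2 (by rw [h3]; ring)
  rw [List.replicate_zero, List.append_nil] at h4
  have h5 := blockRun_trans h1 h4
  have h6 : [0, 0] ++ List.replicate (M - 2) 0 = List.replicate M 0 := by
    obtain ⟨k, rfl⟩ : ∃ k, M = k + 2 := ⟨M - 2, by omega⟩
    rfl
  rwa [h6] at h5

/-- a full group of cells in the mode `normal`, if nothing is produced -/
theorem group_dies (hν : 3 ≤ ν) (hg : Good ν n cont trail M X0 N h ψ ℓ) {a b : Fin n}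
    {r : List (Fin n)} (hr : r.length = ν - 2) (hb : cont false b = []) :
    ∃ L, blockRun ν (vw ν M N ℓ) (List.replicate (h + 2) 0)
      (cells (Qd ν M) X0 ψ (a :: b :: r)) (List.replicate L false) := by
  obtain ⟨W, h1, h2, h3⟩ := start_normal hν hg (a := a) (b := b) hr
  obtain ⟨L, h4⟩ := run_dies hν hg (hg.dies b hb) h2 h3
  have h5 := blockRun_trans h1 h4
  exact ⟨L, h5⟩

/-- a full group of cells in the mode `event` -/
theorem group_event (hν : 3 ≤ ν) (hg : Good ν n cont trail M X0 N h ψ ℓ) {a b : Fin n}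
    {r : List (Fin n)} (hr : r.length = ν - 2) (ha : cont true a ≠ []) (ht : trail a = false) :
    blockRun ν (vw ν M N ℓ) (0 :: 1 :: List.replicate (M - 2) 0)
      (cells (Qd ν M) X0 ψ (a :: b :: r)) (cells (Qd ν M) X0 ψ (cont true a)) := by
  obtain ⟨W, W', h1, h2, h3, h3'⟩ := start_event hν hg (a := a) (b := b) hr
  have hM := hg.hM
  have h4 := run_produces hν hg (z := 0) (by omega) ha (hg.event a ha ht) h3 (by rw [h3']; ring)
  rw [List.replicate_zero, List.append_nil] at h4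
  have h5 : M - 1 = (M - 2) + 1 := by omega
  rw [h5, List.replicate_succ] at h4
  obtain ⟨-, h6⟩ := h4
  obtain ⟨-, h7⟩ := h2
  rw [show tr ν (vw ν M N ℓ) 0 W = W' from h7] at h6
  exact blockRun_trans h1 h6

theorem Group_tailRun_of_blockRun (v : List Bool) (k : ℕ) {W W' : List Bool}
    (h : blockRun ν v (List.replicate k 0) W W') :
    tailRun ν v 0 (List.replicate k 0) W W' := by
  induction k generalizing W with
  | zero => exact h
  | succ k ih =>
    rw [List.replicate_succ] at h ⊢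
    exact ⟨h.1, ih h.2⟩

/-- the group of `ν - 1` cells at the end of the word, mode `event` -/
theorem group_trailing (hν : 3 ≤ ν) (hg : Good ν n cont trail M X0 N h ψ ℓ) {a b : Fin n}
    {r : List (Fin n)} (hr : r.length = ν - 3) (ha : cont true a ≠ []) (ht : trail a = true) :
    tailRun ν (vw ν M N ℓ) 0 (1 :: List.replicate (M - 1) 0)
      (cells (Qd ν M) X0 ψ (a :: b :: r))
      (cells (Qd ν M) X0 ψ (cont true a) ++ List.replicate ((ν - 1) * ν ^ M) false) := by
  obtain ⟨W, W', h1, h2, h3, h3'⟩ := start_trailing hν hg (a := a) (b := b) hr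
  have hM := hg.hM
  have h4 := run_produces hν hg (by omega) ha (hg.trailing a ha ht) h3 h3'
  have h5 : M - 1 = (M - 2) + 1 := by omega
  rw [h5, List.replicate_succ] at h4 ⊢
  obtain ⟨-, h6⟩ := h4
  obtain ⟨-, h7⟩ := h2
  rw [show tr ν (vw ν M N ℓ) 0 W = W' from h7] at h6
  obtain ⟨h8, h9, h10⟩ := h1
  refine ⟨h8, h9, ?_⟩
  rw [show tr ν (vw ν M N ℓ) 1 _ = W' from h10]
  exact Group_tailRun_of_blockRun _ _ h6

end

end Pool.Agent.Lib.MP_b40757_lc
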