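import Pool.Agent.Lib.MP_b40757_lc.Defs

set_option autoImplicit false

/-!
# Passes of a tag system

A *pass* reads the symbols of a word at the positions `s, s + ν, s + 2ν, ...`.
-/

namespace Pool.Agent.Lib.MP_b40757_lc

open Relation

/-- the symbols read in one pass which starts with `s` symbols to be skipped -/
def read (ν : ℕ) : ℕ → List Bool → List Bool
  | _, [] => []
  | 0, b :: w => b :: read ν (ν - 1) w
  | s + 1, _ :: w => read ν s w

/-- the number of symbols to be skipped at the beginning of the next pass -/
def out (ν : ℕ) : ℕ → List Bool → ℕ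
  | s, [] => s
  | 0, _ :: w => out ν (ν - 1) w
  | s + 1, _ :: w => out ν s w

/-- expansion of a word of letters -/
def phys (v : List Bool) (W : List Bool) : List Bool := W.flatMap (rule [false] v)

/-- the words read in one pass, starting from a word of letters -/
def tr (ν : ℕ) (v : List Bool) (s : ℕ) (W : List Bool) : List Bool := read ν s (phys v W)

/-- the state after one pass, starting from a word of letters -/
def ost (ν : ℕ) (v : List Bool) (s : ℕ) (W : List Bool) : ℕ := out ν s (phys v W)

/-- one step of the tag system with rules `false ↦ [false]`, `true ↦ v` -/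
def Step (ν : ℕ) (v : List Bool) (a b : List Bool) : Prop := tagStep ν [false] v a = some b

theorem read_append (ν s : ℕ) (w₁ w₂ : List Bool) :
    read ν s (w₁ ++ w₂) = read ν s w₁ ++ read ν (out ν s w₁) w₂ := by
  induction w₁ generalizing s with
  | nil => cases s <;> simp [read, out]
  | cons b w ih =>
    cases s with
    | zero => simp [read, out, ih]
    | succ s => simp [read, out, ih]

theorem out_append (ν s : ℕ) (w₁ w₂ : List Bool) :
    out ν s (w₁ ++ w₂) = out ν (out ν s w₁) w₂ := by
  induction w₁ generalizing s with
  | nil => cases s <;> simp [out]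
  | cons b w ih =>
    cases s with
    | zero => simp [out, ih]
    | succ s => simp [out, ih]

theorem phys_append (v W₁ W₂ : List Bool) : phys v (W₁ ++ W₂) = phys v W₁ ++ phys v W₂ := by
  simp [phys]

theorem tr_append (ν : ℕ) (v : List Bool) (s : ℕ) (W₁ W₂ : List Bool) :
    tr ν v s (W₁ ++ W₂) = tr ν v s W₁ ++ tr ν v (ost ν v s W₁) W₂ := by
  simp [tr, ost, phys_append, read_append]

theorem ost_append (ν : ℕ) (v : List Bool) (s : ℕ) (W₁ W₂ : List Bool) :
    ost ν v s (W₁ ++ W₂) = ost ν v (ost ν v s W₁) W₂ := by
  simp [ost, phys_append, out_append]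

private theorem Pass_rule_length (v : List Bool) (hv : v ≠ []) (b : Bool) :
    1 ≤ (rule [false] v b).length := by
  cases b
  · simp [rule]
  · exact List.length_pos_iff.mpr hv

private theorem Pass_step (ν : ℕ) (hν : 2 ≤ ν) (v : List Bool) (b : Bool) (u acc : List Bool)
    (h : ν ≤ (b :: u ++ acc).length) :
    Step ν v (b :: u ++ acc) ((u ++ (acc ++ rule [false] v b)).drop (ν - 1)) := by
  obtain ⟨k, rfl⟩ : ∃ k, ν = k + 1 := ⟨ν - 1, by omega⟩
  have h' : ¬ ((b :: (u ++ acc)).length < k + 1) := by
    have : (b :: u ++ acc) = b :: (u ++ acc) := rfl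
    rw [this] at h
    omega
  show tagStep (k + 1) [false] v (b :: (u ++ acc)) = _
  rw [tagStep, if_neg h']
  simp

private theorem Pass_aux (ν : ℕ) (hν : 2 ≤ ν) (v : List Bool) (hv : v ≠ []) (u : List Bool) :
    ∀ (s : ℕ) (acc : List Bool), ν * ν + s ≤ u.length + ν * acc.length →
      ReflTransGen (Step ν v) ((u ++ acc).drop s)
        ((acc ++ phys v (read ν s u)).drop (out ν s u)) ∧
      (s < u.length → TransGen (Step ν v) ((u ++ acc).drop s)
        ((acc ++ phys v (read ν s u)).drop (out ν s u))) := by
  induction u with
  | nil =>
    intro s acc _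
    refine ⟨?_, fun h => absurd h (by simp)⟩
    cases s <;> simp [read, out, phys] <;> exact ReflTransGen.refl
  | cons b u ih =>
    intro s acc h
    cases s with
    | zero =>
      have hlen : ν ≤ (b :: u ++ acc).length := by
        have h1 : ν * ν ≤ ν * (b :: u ++ acc).length := by
          calc ν * ν ≤ (b :: u).length + ν * acc.length := by simpa using h
            _ ≤ ν * (b :: u).length + ν * acc.length := by
              have : 1 * (b :: u).length ≤ ν * (b :: u).length :=
                Nat.mul_le_mul_right _ (by omega)
              omega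
            _ = ν * (b :: u ++ acc).length := by
              rw [List.length_append]; ring
        exact Nat.le_of_mul_le_mul_left h1 (by omega)
      have hst := Pass_step ν hν v b u acc hlen
      have hr := Pass_rule_length v hv b
      have hpot : ν * ν + (ν - 1) ≤ u.length + ν * (acc ++ rule [false] v b).length := by
        have h2 : ν * 1 ≤ ν * (rule [false] v b).length := Nat.mul_le_mul_left _ hr
        have h3 : ν * (acc ++ rule [false] v b).length
            = ν * acc.length + ν * (rule [false] v b).length := by
          rw [List.length_append]; ring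
        rw [h3]
        simp only [List.length_cons] at h
        omega
      obtain ⟨h4, -⟩ := ih (ν - 1) (acc ++ rule [false] v b) hpot
      have h5 : acc ++ rule [false] v b ++ phys v (read ν (ν - 1) u)
          = acc ++ phys v (read ν 0 (b :: u)) := by
        simp [read, phys]
      have h6 : out ν (ν - 1) u = out ν 0 (b :: u) := by simp [out]
      rw [h5, h6] at h4
      have h7 : TransGen (Step ν v) ((b :: u ++ acc).drop 0)
          ((acc ++ phys v (read ν 0 (b :: u))).drop (out ν 0 (b :: u))) := by
        rw [List.drop_zero]
        exact TransGen.head' hst h4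
      exact ⟨h7.to_reflTransGen, fun _ => h7⟩
    | succ s =>
      have hpot : ν * ν + s ≤ u.length + ν * acc.length := by
        simp only [List.length_cons] at h
        omega
      obtain ⟨h1, h2⟩ := ih s acc hpot
      have e1 : (b :: u ++ acc).drop (s + 1) = (u ++ acc).drop s := by simp
      have e2 : read ν (s + 1) (b :: u) = read ν s u := by simp [read]
      have e3 : out ν (s + 1) (b :: u) = out ν s u := by simp [out]
      rw [e1, e2, e3]
      refine ⟨h1, fun h => h2 ?_⟩
      simpa using h

/-- a pass consists of steps of the tag system -/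
theorem pass (ν : ℕ) (hν : 2 ≤ ν) (v : List Bool) (hv : v ≠ []) (w : List Bool) (s : ℕ)
    (hs : s < ν) (hw : ν * ν + s ≤ w.length) :
    TransGen (Step ν v) (w.drop s) ((phys v (read ν s w)).drop (out ν s w)) := by
  have h := (Pass_aux ν hν v hv w s [] (by simpa using hw)).2 (by nlinarith)
  simpa using h

/-- a word of zeros leads to a word of less than `ν` zeros -/
theorem zeros_halt (ν : ℕ) (hν : 2 ≤ ν) (v : List Bool) (L : ℕ) :
    ∃ r < ν, ReflTransGen (Step ν v) (List.replicate L false) (List.replicate r false) ∧
      r ≡ L [MOD ν - 1] := by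
  induction L using Nat.strong_induction_on with
  | _ L ih =>
    by_cases hL : L < ν
    · exact ⟨L, hL, ReflTransGen.refl, rfl⟩
    · obtain ⟨r, hr, h1, h2⟩ := ih (L + 1 - ν) (by omega)
      refine ⟨r, hr, ReflTransGen.head ?_ h1, ?_⟩
      · obtain ⟨M, rfl⟩ : ∃ M, L = M + 1 := ⟨L - 1, by omega⟩
        show tagStep ν [false] v (List.replicate (M + 1) false) = _
        rw [List.replicate_succ, tagStep, if_neg (by simpa using hL)]
        have e : false :: List.replicate M false ++ rule [false] v false
            = List.replicate (M + 2) false := by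
          simp only [rule]
          rw [← List.replicate_succ, ← List.replicate_succ']
        rw [e, List.drop_replicate]
      · have h3 : L = (L + 1 - ν) + (ν - 1) := by omega
        refine h2.trans ?_
        conv_rhs => rw [h3]
        exact (Nat.add_modEq_right).symm

end Pool.Agent.Lib.MP_b40757_lc
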