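import Mathlib

set_option autoImplicit false

/-!
# Numbers as sums of a prescribed number of powers
-/

namespace Pool.Agent.Lib.MP_b40757_lc

open Finset

/-- the expansion of `Z` in base `ν`, stopped at the exponent `E` -/
private theorem Rep_base (ν : ℕ) (hν : 2 ≤ ν) (E : ℕ) : ∀ Z : ℕ,
    ∃ l : List ℕ, (∀ e ∈ l, e ≤ E) ∧ (l.map (fun e => ν ^ e)).sum = Z ∧
      l.length ≤ Z / ν ^ E + (ν - 1) * E := by
  induction E with
  | zero =>
    intro Z
    refine ⟨List.replicate Z 0, ?_, ?_, ?_⟩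
    · intro e he
      have := List.eq_of_mem_replicate he
      omega
    · simp
    · simp
  | succ E ih =>
    intro Z
    obtain ⟨l, hl1, hl2, hl3⟩ := ih (Z / ν)
    refine ⟨l.map (fun e => e + 1) ++ List.replicate (Z % ν) 0, ?_, ?_, ?_⟩
    · intro e he
      rcases List.mem_append.1 he with h | h
      · obtain ⟨e', he', rfl⟩ := List.mem_map.1 h
        have := hl1 e' he'
        omega
      · have := List.eq_of_mem_replicate h
        omega
    · have h1 : ((l.map (fun e => e + 1)).map (fun e => ν ^ e)).sum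
          = ν * (l.map (fun e => ν ^ e)).sum := by
        rw [List.map_map, ← List.sum_map_mul_left]
        congr 1
        apply List.map_congr_left
        intro a _
        simp [pow_succ, mul_comm]
      rw [List.map_append, List.sum_append, h1, hl2]
      simp
      exact Nat.div_add_mod Z ν
    · have h2 : Z / ν / ν ^ E = Z / ν ^ (E + 1) := by
        rw [Nat.div_div_eq_div_mul, ← pow_succ']
      rw [h2] at hl3
      have h3 : Z % ν < ν := Nat.mod_lt _ (by omega)
      have h4 : (ν - 1) * (E + 1) = (ν - 1) * E + (ν - 1) := by ring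
      rw [List.length_append, List.length_map, List.length_replicate, h4]
      omega

/-- the number of terms can be increased by `ν - 1` -/
private theorem Rep_step (ν : ℕ) (hν : 2 ≤ ν) (E Z : ℕ) (l : List ℕ)
    (h1 : ∀ e ∈ l, e ≤ E) (h2 : (l.map (fun e => ν ^ e)).sum = Z) (h3 : l.length < Z) :
    ∃ l' : List ℕ, (∀ e ∈ l', e ≤ E) ∧ (l'.map (fun e => ν ^ e)).sum = Z ∧
      l'.length = l.length + (ν - 1) := by
  have hex : ∃ e ∈ l, 1 ≤ e := by
    by_contra hcon
    push Not at hcon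
    have h4 : ∀ e ∈ l, e = 0 := fun e he => by
      have := hcon e he
      omega
    have h5 : l = List.replicate l.length 0 := List.eq_replicate_of_mem h4
    rw [h5] at h2
    simp at h2
    omega
  obtain ⟨e, he, he1⟩ := hex
  obtain ⟨s, t, rfl⟩ := List.append_of_mem he
  obtain ⟨e', rfl⟩ : ∃ e', e = e' + 1 := ⟨e - 1, by omega⟩
  refine ⟨s ++ (List.replicate ν e' ++ t), ?_, ?_, ?_⟩
  · intro x hx
    rcases List.mem_append.1 hx with h | h
    · exact h1 x (List.mem_append.2 (Or.inl h))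
    · rcases List.mem_append.1 h with h | h
      · have := List.eq_of_mem_replicate h
        have h6 := h1 (e' + 1) he
        omega
      · exact h1 x (List.mem_append.2 (Or.inr (List.mem_cons_of_mem _ h)))
  · rw [← h2]
    simp only [List.map_append, List.sum_append, List.map_cons, List.sum_cons,
      List.map_replicate, List.sum_replicate, smul_eq_mul, pow_succ]
    ring
  · simp only [List.length_append, List.length_cons, List.length_replicate]
    omega

/-- the number of terms of a sum of powers is determined modulo `ν - 1` -/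
private theorem Rep_mod (ν : ℕ) (hν : 2 ≤ ν) (l : List ℕ) :
    (l.map (fun e => ν ^ e)).sum ≡ l.length [MOD ν - 1] := by
  induction l with
  | nil => exact Nat.ModEq.refl _
  | cons a l ih =>
    rw [List.map_cons, List.sum_cons, List.length_cons, add_comm l.length 1]
    refine Nat.ModEq.add ?_ ih
    have h1 : ν ≡ 1 [MOD ν - 1] := by
      have h2 : 1 ≡ ν [MOD ν - 1] := (Nat.modEq_iff_dvd' (by omega)).2 (dvd_refl _)
      exact h2.symm
    have := h1.pow a
    rwa [one_pow] at this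

private theorem Rep_exact (ν : ℕ) (hν : 2 ≤ ν) (E K Z : ℕ) (hK : K ≤ Z) : ∀ d : ℕ, ∀ l : List ℕ,
    (∀ e ∈ l, e ≤ E) → (l.map (fun e => ν ^ e)).sum = Z → l.length + (ν - 1) * d = K →
    ∃ l' : List ℕ, (∀ e ∈ l', e ≤ E) ∧ (l'.map (fun e => ν ^ e)).sum = Z ∧ l'.length = K := by
  intro d
  induction d with
  | zero =>
    intro l h1 h2 h3
    exact ⟨l, h1, h2, by simpa using h3⟩
  | succ d ih =>
    intro l h1 h2 h3
    have h4 : (ν - 1) * (d + 1) = (ν - 1) * d + (ν - 1) := by ring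
    rw [h4] at h3
    obtain ⟨l', h1', h2', h3'⟩ := Rep_step ν hν E Z l h1 h2 (by omega)
    exact ih l' h1' h2' (by omega)

/-- `Z` is a sum of exactly `K` powers of `ν` with exponents at most `E` -/
theorem exists_powers (ν : ℕ) (hν : 2 ≤ ν) (E K Z : ℕ) (hmod : Z ≡ K [MOD ν - 1])
    (h1 : Z / ν ^ E + (ν - 1) * E ≤ K) (h2 : K ≤ Z) :
    ∃ f : ℕ → ℕ, (∀ k < K, f k ≤ E) ∧ ∑ k ∈ range K, ν ^ f k = Z := by
  obtain ⟨l, hl1, hl2, hl3⟩ := Rep_base ν hν E Z
  have hm : l.length ≡ K [MOD ν - 1] := by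
    have := Rep_mod ν hν l
    rw [hl2] at this
    exact this.symm.trans hmod
  have hle : l.length ≤ K := le_trans hl3 h1
  obtain ⟨d, hd⟩ := (Nat.modEq_iff_dvd' hle).1 hm
  obtain ⟨l', h1', h2', h3'⟩ := Rep_exact ν hν E K Z h2 d l hl1 hl2 (by omega)
  refine ⟨fun k => l'.getD k 0, ?_, ?_⟩
  · intro k hk
    have hk' : k < l'.length := by omega
    show l'.getD k 0 ≤ E
    rw [List.getD_eq_getElem _ _ hk']
    exact h1' _ (List.getElem_mem hk')
  · rw [← h2', ← h3', Finset.sum_range, ← List.sum_ofFn]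
    congr 1
    apply List.ext_getElem
    · simp
    · intro i hi1 hi2
      simp at hi1
      simp

/-- `g t = 1 + ν + ... + ν ^ (t - 1)` -/
def g (ν t : ℕ) : ℕ := ∑ i ∈ range t, ν ^ i

private theorem Rep_g (ν : ℕ) (hν : 2 ≤ ν) (t : ℕ) : (ν - 1) * g ν t + 1 = ν ^ t := by
  unfold g
  induction t with
  | zero => simp
  | succ t ih =>
    rw [sum_range_succ, mul_add, pow_succ]
    have h1 : ν = (ν - 1) + 1 := by omega
    have h2 : ν ^ t * ν = (ν - 1) * ν ^ t + ν ^ t := by
      obtain ⟨m, rfl⟩ : ∃ m, ν = m + 1 := ⟨ν - 1, h1⟩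
      rw [Nat.add_sub_cancel]
      ring
    omega

/-- lives: a number `X` is the total weight of `K` entries with lives between `H` and `F - 1` -/
theorem exists_lives (ν : ℕ) (hν : 2 ≤ ν) (H F K X x₀ : ℕ) (hHF : H + 3 ≤ F)
    (hle : K * g ν (H + 1) ≤ X) (hdvd : ν ^ (H + 1) ∣ X - K * g ν (H + 1))
    (hX : X ≤ ν ^ F * x₀) (hK : (ν - 1) * x₀ + K / ν ^ 2 + (ν - 1) * F ≤ K) :
    ∃ L : ℕ → ℕ, (∀ k < K, H ≤ L k ∧ L k < F) ∧ ∑ k ∈ range K, g ν (L k + 1) = X := by
  obtain ⟨Y, hY⟩ := hdvd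
  obtain ⟨E, rfl⟩ : ∃ E, F = H + 1 + E := ⟨F - (H + 1), by omega⟩
  have hpos : 0 < ν := by omega
  have hXY : X = K * g ν (H + 1) + ν ^ (H + 1) * Y := by omega
  have hYle : Y ≤ ν ^ E * x₀ := by
    have h1 : ν ^ (H + 1) * Y ≤ ν ^ (H + 1) * (ν ^ E * x₀) := by
      calc ν ^ (H + 1) * Y ≤ X := by omega
        _ ≤ ν ^ (H + 1 + E) * x₀ := hX
        _ = ν ^ (H + 1) * (ν ^ E * x₀) := by rw [pow_add]; ring
    exact Nat.le_of_mul_le_mul_left h1 (pow_pos hpos _)
  have hE : 2 ≤ E := by omega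
  have hdiv : (K + (ν - 1) * Y) / ν ^ E + (ν - 1) * E ≤ K := by
    have h1 : (K + (ν - 1) * Y) / ν ^ E ≤ K / ν ^ 2 + (ν - 1) * x₀ := by
      calc (K + (ν - 1) * Y) / ν ^ E ≤ (K + ν ^ E * ((ν - 1) * x₀)) / ν ^ E := by
            apply Nat.div_le_div_right
            have : (ν - 1) * Y ≤ (ν - 1) * (ν ^ E * x₀) := Nat.mul_le_mul_left _ hYle
            have h2 : (ν - 1) * (ν ^ E * x₀) = ν ^ E * ((ν - 1) * x₀) := by ring
            omega
        _ = K / ν ^ E + (ν - 1) * x₀ := by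
            rw [Nat.add_mul_div_left _ _ (pow_pos hpos _)]
        _ ≤ K / ν ^ 2 + (ν - 1) * x₀ := by
            have : K / ν ^ E ≤ K / ν ^ 2 :=
              Nat.div_le_div_left (Nat.pow_le_pow_right hpos hE) (pow_pos hpos _)
            omega
    have h3 : (ν - 1) * E ≤ (ν - 1) * (H + 1 + E) := Nat.mul_le_mul_left _ (by omega)
    omega
  have hmod : K + (ν - 1) * Y ≡ K [MOD ν - 1] := by
    have : K + (ν - 1) * Y ≡ K + 0 [MOD ν - 1] :=
      Nat.ModEq.add_left _ (Nat.modEq_zero_iff_dvd.2 (Dvd.intro _ rfl))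
    rwa [add_zero] at this
  obtain ⟨f, hf1, hf2⟩ := exists_powers ν hν E K (K + (ν - 1) * Y) hmod hdiv (by omega)
  refine ⟨fun k => H + f k, ?_, ?_⟩
  · intro k hk
    have := hf1 k hk
    constructor
    · show H ≤ H + f k
      omega
    · show H + f k < H + 1 + E
      omega
  · have h1 : (ν - 1) * ∑ k ∈ range K, g ν (H + f k + 1) + K
        = ν ^ (H + 1) * (K + (ν - 1) * Y) := by
      have h2 : ∑ k ∈ range K, ((ν - 1) * g ν (H + f k + 1) + 1)
          = (ν - 1) * ∑ k ∈ range K, g ν (H + f k + 1) + K := by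
        rw [sum_add_distrib, mul_sum]
        simp
      rw [← hf2, ← h2, mul_sum]
      apply sum_congr rfl
      intro k _
      rw [Rep_g ν hν, ← pow_add]
      congr 1
      ring
    have h4 : (ν - 1) * X + K = ν ^ (H + 1) * (K + (ν - 1) * Y) := by
      rw [hXY, ← Rep_g ν hν (H + 1)]
      ring
    have h5 : (ν - 1) * ∑ k ∈ range K, g ν (H + f k + 1) = (ν - 1) * X := by omega
    exact Nat.eq_of_mul_eq_mul_left (by omega) h5

end Pool.Agent.Lib.MP_b40757_lc
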