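import Pool.Agent.Lib.MP_b40757_lc.Group

set_option autoImplicit false

/-!
# Macro-rounds of the tag system
-/

namespace Pool.Agent.Lib.MP_b40757_lc

open Relation

private theorem round_Qd_ge {ν M : ℕ} (hν : 3 ≤ ν) (hM : 3 ≤ M) : ν * ν + ν ≤ Qd ν M := by
  unfold Qd
  have h1 : ν ^ 2 ≤ ν ^ (2 * M) := Nat.pow_le_pow_right (by omega) (by omega)
  have h2 : 2 * (ν ^ (2 * M) + 1) ≤ (ν - 1) * (ν ^ (2 * M) + 1) :=
    Nat.mul_le_mul_right _ (by omega)
  have h3 : ν ≤ ν ^ 2 := by nlinarith
  have h4 : ν * ν = ν ^ 2 := by ring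
  omega

private theorem round_phys_replicate (v : List Bool) (n : ℕ) :
    phys v (List.replicate n false) = List.replicate n false := by
  induction n with
  | zero => rfl
  | succ n ih =>
    rw [List.replicate_succ]
    have : phys v (false :: List.replicate n false) =
        [false] ++ phys v (List.replicate n false) := by simp [phys, rule]
    rw [this, ih]
    rfl

private theorem round_phys_of_pos {v W : List Bool} (h : pos W = []) :
    phys v W = List.replicate W.length false := by
  have hW : W = List.replicate W.length false :=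
    eq_of_pos (by rw [h, pos_replicate]) (by simp)
  rw [hW, round_phys_replicate]
  simp

private theorem round_pos_ne {W : List Bool} (h : true ∈ W) : pos W ≠ [] := by
  induction W with
  | nil => simp at h
  | cons b W ih =>
    cases b with
    | true => simp [pos]
    | false =>
      have h' : true ∈ W := by simpa using h
      have := ih h'
      simpa [pos] using this

private theorem round_mem_cell (Q X0 p : ℕ) : true ∈ cell Q X0 p := by
  simp [cell]

private theorem round_mem_cells {n : ℕ} (Q X0 : ℕ) (ψ : Fin n → ℕ) {x : List (Fin n)}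
    (hx : x ≠ []) : true ∈ cells Q X0 ψ x := by
  obtain ⟨a, l, rfl⟩ := List.exists_cons_of_ne_nil hx
  simp only [cells, List.flatMap_cons, List.mem_append]
  exact Or.inl (round_mem_cell _ _ _)

private theorem round_cells_append {n : ℕ} (Q X0 : ℕ) (ψ : Fin n → ℕ) (x y : List (Fin n)) :
    cells Q X0 ψ (x ++ y) = cells Q X0 ψ x ++ cells Q X0 ψ y := by
  simp [cells]

private theorem round_cells_flatMap {n : ℕ} (Q X0 : ℕ) (ψ : Fin n → ℕ) {A : Type}
    (G : List A) (f : A → List (Fin n)) :
    cells Q X0 ψ (G.flatMap f) = G.flatMap fun g => cells Q X0 ψ (f g) := by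
  simp [cells, List.flatMap_assoc]

private theorem round_blockRun_nil (ν : ℕ) (v : List Bool) (ss : List ℕ) :
    blockRun ν v ss [] [] := by
  induction ss with
  | nil => rfl
  | cons s ss ih =>
    refine ⟨?_, ?_⟩
    · simp [ost, phys, out]
    · have : tr ν v s [] = [] := by cases s <;> simp [tr, phys, read]
      rw [this]
      exact ih

private theorem round_blockRun_flatMap {ν : ℕ} {v : List Bool} {ss : List ℕ} {A : Type}
    (G : List A) (f f' : A → List Bool) (h : ∀ g ∈ G, blockRun ν v ss (f g) (f' g)) :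
    blockRun ν v ss (G.flatMap f) (G.flatMap f') := by
  induction G with
  | nil => exact round_blockRun_nil ν v ss
  | cons g G ih =>
    rw [List.flatMap_cons, List.flatMap_cons]
    exact blockRun_append (h g (by simp)) (ih fun g' hg' => h g' (by simp [hg']))

section

variable {ν n : ℕ} {cont : Bool → Fin n → List (Fin n)} {trail : Fin n → Bool}
  {M X0 N h : ℕ} {ψ : Fin n → ℕ} {ℓ : ℕ → ℕ}

private theorem round_trans (hν : 3 ≤ ν) (hg : Good ν n cont trail M X0 N h ψ ℓ) {s : ℕ}
    (hs : s < ν) (W : List Bool) :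
    pos (tr ν (vw ν M N ℓ) s W) =
      nxt ν (ν * md ν M - 1) ((List.range N).map ℓ) s (pos W) ∧
    ost ν (vw ν M N ℓ) s W < ν := by
  have hpw : ((List.range N).map ℓ).Pairwise (· < ·) := by
    rw [List.pairwise_map]
    refine List.Pairwise.imp_of_mem ?_ (List.pairwise_lt_range (n := N))
    intro a b ha hb hab
    exact hg.mono a b hab (List.mem_range.1 hb)
  have hlt : ∀ x ∈ (List.range N).map ℓ, x < md ν M := by
    intro x hx
    obtain ⟨e, he, rfl⟩ := List.mem_map.1 hx
    exact hg.lt e (List.mem_range.1 he)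
  have := trans ν hν (md ν M) (by unfold md; omega) ((List.range N).map ℓ) hpw hlt s hs W
  exact ⟨this.1, this.2.2⟩

private theorem round_pos_nil (hν : 3 ≤ ν) (hg : Good ν n cont trail M X0 N h ψ ℓ) {s : ℕ}
    {ss : List ℕ} {W W' : List Bool} (hs : s < ν)
    (hr : tailRun ν (vw ν M N ℓ) s ss W W') (hpos : pos W = []) : pos W' = [] := by
  induction ss generalizing s W with
  | nil =>
    have : W = W' := hr
    rw [← this, hpos]
  | cons s1 ss ih =>
    obtain ⟨h1, h2⟩ := hr
    have ht := round_trans hν hg hs W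
    refine ih (by rw [← h1]; exact ht.2) h2 ?_
    rw [ht.1, hpos]
    rfl

private theorem round_pass (hν : 3 ≤ ν) (hg : Good ν n cont trail M X0 N h ψ ℓ) {s : ℕ}
    {W : List Bool} (hs : s < ν) (hpos : pos W ≠ []) :
    TransGen (Step ν (vw ν M N ℓ)) ((phys (vw ν M N ℓ) W).drop s)
      ((phys (vw ν M N ℓ) (tr ν (vw ν M N ℓ) s W)).drop (ost ν (vw ν M N ℓ) s W)) := by
  have hmd : 0 < md ν M := by unfold md; omega
  have hv : vw ν M N ℓ ≠ [] := by
    intro h0
    have h1 := mkv_length ν (md ν M) (by omega) ((List.range N).map ℓ)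
    unfold vw at h0
    rw [h0] at h1
    have : 0 < ν * md ν M := Nat.mul_pos (by omega) hmd
    simp at h1
    omega
  have hlen := phys_mkv_length ν (md ν M) (by omega) hmd ((List.range N).map ℓ) W
  have hM : 3 ≤ M := hg.hM
  have hQ := round_Qd_ge hν hM
  rw [md_Qd hν (by omega)] at hlen
  have hp : 1 ≤ (pos W).length := by
    have := List.length_pos_iff.2 hpos
    omega
  have hmul : Qd ν M * 1 ≤ Qd ν M * (pos W).length := Nat.mul_le_mul_left _ hp
  refine pass ν (by omega) (vw ν M N ℓ) hv (phys (vw ν M N ℓ) W) s hs ?_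
  unfold vw
  omega

private theorem round_zeros (hν : 3 ≤ ν) {s : ℕ} {W : List Bool} (hpos : pos W = []) :
    ∃ r < ν, ReflTransGen (Step ν (vw ν M N ℓ)) ((phys (vw ν M N ℓ) W).drop s)
      (List.replicate r false) := by
  rw [round_phys_of_pos hpos, List.drop_replicate]
  obtain ⟨r, hr, h1, _⟩ := zeros_halt ν (by omega) (vw ν M N ℓ) (W.length - s)
  exact ⟨r, hr, h1⟩

/-- a run of passes which does not end with a word of zeros is a run of the tag system -/
theorem tag_of_tailRun (hν : 3 ≤ ν) (hg : Good ν n cont trail M X0 N h ψ ℓ) {s s' : ℕ}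
    {ss : List ℕ} {W W' : List Bool} (hs : s < ν)
    (hr : tailRun ν (vw ν M N ℓ) s (ss ++ [s']) W W') (hpos : pos W' ≠ []) :
    TransGen (Step ν (vw ν M N ℓ)) ((phys (vw ν M N ℓ) W).drop s)
      ((phys (vw ν M N ℓ) W').drop s') := by
  induction ss generalizing s W with
  | nil =>
    obtain ⟨h1, h2⟩ := hr
    have h2' : tr ν (vw ν M N ℓ) s W = W' := h2
    have hW : pos W ≠ [] := by
      intro h0
      refine hpos (round_pos_nil (ss := [s']) hν hg hs ⟨h1, h2⟩ h0)
    have := round_pass hν hg hs hW
    rw [h1, h2'] at this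
    exact this
  | cons s1 ss ih =>
    have hW : pos W ≠ [] := fun h0 => hpos (round_pos_nil hν hg hs hr h0)
    obtain ⟨h1, h2⟩ := hr
    have ht := round_trans hν hg hs W
    have hp := round_pass hν hg hs hW
    rw [h1] at hp
    exact hp.trans (ih (by rw [← h1]; exact ht.2) h2)

/-- a run of passes which ends with a word of zeros: the tag system halts -/
theorem halt_of_tailRun (hν : 3 ≤ ν) (hg : Good ν n cont trail M X0 N h ψ ℓ) {s : ℕ}
    {ss : List ℕ} {W W' : List Bool} (hs : s < ν)
    (hr : tailRun ν (vw ν M N ℓ) s ss W W') (hpos : pos W' = []) :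
    ∃ r < ν, ReflTransGen (Step ν (vw ν M N ℓ)) ((phys (vw ν M N ℓ) W).drop s)
      (List.replicate r false) := by
  induction ss generalizing s W with
  | nil =>
    have h1 : W = W' := hr
    exact round_zeros hν (by rw [h1]; exact hpos)
  | cons s1 ss ih =>
    by_cases hW : pos W = []
    · exact round_zeros hν hW
    · obtain ⟨h1, h2⟩ := hr
      have ht := round_trans hν hg hs W
      have hp := round_pass hν hg hs hW
      rw [h1] at hp
      obtain ⟨r, hr1, hr2⟩ := ih (by rw [← h1]; exact ht.2) h2
      exact ⟨r, hr1, hp.to_reflTransGen.trans hr2⟩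

/-- the cells of a group -/
def flat (g : Fin n × Fin n × List (Fin n)) : List (Fin n) := g.1 :: g.2.1 :: g.2.2

theorem round_normal (hν : 3 ≤ ν) (hg : Good ν n cont trail M X0 N h ψ ℓ)
    (G : List (Fin n × Fin n × List (Fin n))) (hne : G ≠ [])
    (hG : ∀ g ∈ G, g.2.2.length = ν - 2 ∧ cont false g.2.1 ≠ []) (z : ℕ) :
    TransGen (Step ν (vw ν M N ℓ))
      (phys (vw ν M N ℓ) (cells (Qd ν M) X0 ψ (G.flatMap flat) ++
        List.replicate (ν ^ M * z) false))
      (phys (vw ν M N ℓ) (cells (Qd ν M) X0 ψ (G.flatMap fun g => cont false g.2.1) ++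
        List.replicate z false)) := by
  have hM : 3 ≤ M := hg.hM
  have hb : blockRun ν (vw ν M N ℓ) (List.replicate M 0)
      (cells (Qd ν M) X0 ψ (G.flatMap flat))
      (cells (Qd ν M) X0 ψ (G.flatMap fun g => cont false g.2.1)) := by
    rw [round_cells_flatMap, round_cells_flatMap]
    refine round_blockRun_flatMap G _ _ ?_
    intro g hgG
    exact group_normal hν hg (hG g hgG).1 (hG g hgG).2
  have hz := zeros_normal (M := M) (N := N) (ℓ := ℓ) hν z M
  have e1 : List.replicate M 0 = 0 :: List.replicate (M - 1) 0 := by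
    rw [← List.replicate_succ]
    congr 1
    omega
  have e2 : List.replicate M 0 = List.replicate (M - 1) 0 ++ [0] := by
    rw [← List.replicate_succ']
    congr 1
    omega
  rw [e1] at hb
  rw [e2] at hz
  have hr := tailRun_append hb hz
  have hp : pos (cells (Qd ν M) X0 ψ (G.flatMap fun g => cont false g.2.1) ++
      List.replicate z false) ≠ [] := by
    apply round_pos_ne
    rw [List.mem_append]
    left
    apply round_mem_cells
    obtain ⟨g, G', rfl⟩ := List.exists_cons_of_ne_nil hne
    have := (hG g (by simp)).2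
    simp [this]
  have := tag_of_tailRun hν hg (by omega) hr hp
  simpa only [List.drop_zero] using this

theorem round_event (hν : 3 ≤ ν) (hg : Good ν n cont trail M X0 N h ψ ℓ)
    (G : List (Fin n × Fin n × List (Fin n)))
    (hG : ∀ g ∈ G, g.2.2.length = ν - 2 ∧ cont true g.1 ≠ [] ∧ trail g.1 = false)
    (a b : Fin n) (r : List (Fin n)) (hr : r.length = ν - 3) (ha : cont true a ≠ [])
    (ht : trail a = true) :
    TransGen (Step ν (vw ν M N ℓ))
      (phys (vw ν M N ℓ) (cells (Qd ν M) X0 ψ (G.flatMap flat ++ a :: b :: r)))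
      (phys (vw ν M N ℓ) (cells (Qd ν M) X0 ψ ((G.flatMap fun g => cont true g.1) ++ cont true a) ++
        List.replicate ((ν - 1) * ν ^ M) false)) := by
  have hM : 3 ≤ M := hg.hM
  have hb : blockRun ν (vw ν M N ℓ) (0 :: 1 :: List.replicate (M - 2) 0)
      (cells (Qd ν M) X0 ψ (G.flatMap flat))
      (cells (Qd ν M) X0 ψ (G.flatMap fun g => cont true g.1)) := by
    rw [round_cells_flatMap, round_cells_flatMap]
    refine round_blockRun_flatMap G _ _ ?_
    intro g hgG
    exact group_event hν hg (hG g hgG).1 (hG g hgG).2.1 (hG g hgG).2.2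
  have hz := group_trailing (b := b) hν hg hr ha ht
  have e2 : 1 :: List.replicate (M - 1) 0 = (1 :: List.replicate (M - 2) 0) ++ [0] := by
    rw [List.cons_append, ← List.replicate_succ']
    congr 2
    omega
  rw [e2] at hz
  have hr' := tailRun_append hb hz
  rw [← List.append_assoc, ← round_cells_append, ← round_cells_append] at hr'
  have hp : pos (cells (Qd ν M) X0 ψ ((G.flatMap fun g => cont true g.1) ++ cont true a) ++
      List.replicate ((ν - 1) * ν ^ M) false) ≠ [] := by
    apply round_pos_ne
    rw [List.mem_append]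
    left
    apply round_mem_cells
    simp [ha]
  have := tag_of_tailRun hν hg (by omega) hr' hp
  simpa only [List.drop_zero] using this

theorem round_echo (hν : 3 ≤ ν) (hg : Good ν n cont trail M X0 N h ψ ℓ)
    (G : List (Fin n × Fin n × List (Fin n))) (hne : G ≠ [])
    (hG : ∀ g ∈ G, g.2.2.length = ν - 2 ∧ cont true g.1 ≠ [] ∧ trail g.1 = false) :
    TransGen (Step ν (vw ν M N ℓ))
      (phys (vw ν M N ℓ) (cells (Qd ν M) X0 ψ (G.flatMap flat) ++
        List.replicate (ν - 1) false))
      (phys (vw ν M N ℓ) (cells (Qd ν M) X0 ψ (G.flatMap fun g => cont true g.1))) := by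
  have hM : 3 ≤ M := hg.hM
  have hb : blockRun ν (vw ν M N ℓ) (0 :: 1 :: List.replicate (M - 2) 0)
      (cells (Qd ν M) X0 ψ (G.flatMap flat))
      (cells (Qd ν M) X0 ψ (G.flatMap fun g => cont true g.1)) := by
    rw [round_cells_flatMap, round_cells_flatMap]
    refine round_blockRun_flatMap G _ _ ?_
    intro g hgG
    exact group_event hν hg (hG g hgG).1 (hG g hgG).2.1 (hG g hgG).2.2
  have hz := zeros_event (M := M) (N := N) (ℓ := ℓ) hν (by omega)
  have e2 : 1 :: List.replicate (M - 1) 0 = (1 :: List.replicate (M - 2) 0) ++ [0] := by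
    rw [List.cons_append, ← List.replicate_succ']
    congr 2
    omega
  rw [e2] at hz
  have hr' := tailRun_append hb hz
  rw [List.append_nil] at hr'
  have hp : pos (cells (Qd ν M) X0 ψ (G.flatMap fun g => cont true g.1)) ≠ [] := by
    apply round_pos_ne
    apply round_mem_cells
    obtain ⟨g, G', rfl⟩ := List.exists_cons_of_ne_nil hne
    have := (hG g (by simp)).2.1
    simp [this]
  have := tag_of_tailRun hν hg (by omega) hr' hp
  simpa only [List.drop_zero] using this

theorem round_halt (hν : 3 ≤ ν) (hg : Good ν n cont trail M X0 N h ψ ℓ)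
    (G : List (Fin n × Fin n × List (Fin n)))
    (hG : ∀ g ∈ G, g.2.2.length = ν - 2 ∧ cont false g.2.1 = []) (z : ℕ) :
    ∃ r < ν, ReflTransGen (Step ν (vw ν M N ℓ))
      (phys (vw ν M N ℓ) (cells (Qd ν M) X0 ψ (G.flatMap flat) ++
        List.replicate (ν ^ M * z) false)) (List.replicate r false) := by
  have hM : 3 ≤ M := hg.hM
  have hh : h + 2 ≤ M := hg.hh
  have hb : ∃ L, blockRun ν (vw ν M N ℓ) (List.replicate (h + 2) 0)
      (cells (Qd ν M) X0 ψ (G.flatMap flat)) (List.replicate L false) := by
    rw [round_cells_flatMap]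
    clear hh hM
    induction G with
    | nil => exact ⟨0, round_blockRun_nil _ _ _⟩
    | cons g G ih =>
      obtain ⟨L, hL⟩ := ih fun g' hg' => hG g' (by simp [hg'])
      have h1 := hG g (by simp)
      obtain ⟨L', hL'⟩ := group_dies (a := g.1) hν hg h1.1 h1.2
      refine ⟨L' + L, ?_⟩
      rw [List.flatMap_cons, List.replicate_add L' L]
      exact blockRun_append hL' hL
  obtain ⟨L, hb⟩ := hb
  have hz := zeros_normal (M := M) (N := N) (ℓ := ℓ) hν (ν ^ (M - (h + 2)) * z) (h + 2)
  have e0 : ν ^ (h + 2) * (ν ^ (M - (h + 2)) * z) = ν ^ M * z := by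
    rw [← mul_assoc, ← pow_add]
    congr 2
    omega
  have e1 : List.replicate (h + 2) 0 = 0 :: List.replicate (h + 1) 0 := rfl
  have e2 : List.replicate (h + 2) 0 = List.replicate (h + 1) 0 ++ [0] :=
    List.replicate_succ'
  rw [e0, e2] at hz
  rw [e1] at hb
  have hr' := tailRun_append hb hz
  have := halt_of_tailRun hν hg (by omega) hr' (by
    rw [← List.replicate_add]
    exact pos_replicate _)
  simpa only [List.drop_zero] using this

end

end Pool.Agent.Lib.MP_b40757_lc
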