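import Pool.Agent.Lib.MP_b40757_lc.Good

set_option autoImplicit false

/-!
# Runs of words of letters, evolution of a table from age `0` on
-/

namespace Pool.Agent.Lib.MP_b40757_lc

open Finset

/-- `W` evolves into `W'` during passes with the states `ss`, where the state after the word is
in each pass the same as the state before the word -/
def blockRun (ν : ℕ) (v : List Bool) : List ℕ → List Bool → List Bool → Prop
  | [], W, W' => W = W'
  | s :: ss, W, W' => ost ν v s W = s ∧ blockRun ν v ss (tr ν v s W) W'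

/-- `W` evolves into `W'` during passes: the state before `W` in the first pass is `s`, the
following states are `ss`, where the state after the word `W` in one pass is the state
in the next pass -/
def tailRun (ν : ℕ) (v : List Bool) : ℕ → List ℕ → List Bool → List Bool → Prop
  | _, [], W, W' => W = W'
  | s, s' :: ss, W, W' => ost ν v s W = s' ∧ tailRun ν v s' ss (tr ν v s W) W'

theorem blockRun_append {ν : ℕ} {v : List Bool} {ss : List ℕ} {W₁ W₂ W₁' W₂' : List Bool}
    (h₁ : blockRun ν v ss W₁ W₁') (h₂ : blockRun ν v ss W₂ W₂') :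
    blockRun ν v ss (W₁ ++ W₂) (W₁' ++ W₂') := by
  induction ss generalizing W₁ W₂ with
  | nil =>
    simp only [blockRun] at h₁ h₂ ⊢
    rw [h₁, h₂]
  | cons s ss ih =>
    simp only [blockRun] at h₁ h₂ ⊢
    refine ⟨?_, ?_⟩
    · rw [ost_append, h₁.1, h₂.1]
    · rw [tr_append, h₁.1]
      exact ih h₁.2 h₂.2

/-- the states of the block run are the state before the word in each pass:
`s₁` and the states `ss` except the last one -/
theorem tailRun_append {ν : ℕ} {v : List Bool} {s : ℕ} {ss : List ℕ} {s' : ℕ}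
    {W₁ W₂ W₁' W₂' : List Bool} (h₁ : blockRun ν v (s :: ss) W₁ W₁')
    (h₂ : tailRun ν v s (ss ++ [s']) W₂ W₂') :
    tailRun ν v s (ss ++ [s']) (W₁ ++ W₂) (W₁' ++ W₂') := by
  induction ss generalizing W₁ W₂ s with
  | nil =>
    simp only [blockRun, tailRun, List.nil_append] at h₁ h₂ ⊢
    refine ⟨?_, ?_⟩
    · rw [ost_append, h₁.1, h₂.1]
    · rw [tr_append, h₁.1, h₁.2, h₂.2]
  | cons t ss ih =>
    rw [List.cons_append] at h₂ ⊢
    rw [tailRun] at h₂ ⊢
    have h₁' : ost ν v s W₁ = s ∧ blockRun ν v (t :: ss) (tr ν v s W₁) W₁' := h₁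
    refine ⟨?_, ?_⟩
    · rw [ost_append, h₁'.1, h₂.1]
    · rw [tr_append, h₁'.1]
      exact ih h₁'.2 h₂.2

theorem blockRun_trans {ν : ℕ} {v : List Bool} {ss ss' : List ℕ} {W W' W'' : List Bool}
    (h₁ : blockRun ν v ss W W') (h₂ : blockRun ν v ss' W' W'') :
    blockRun ν v (ss ++ ss') W W'' := by
  induction ss generalizing W with
  | nil =>
    simp only [blockRun, List.nil_append] at h₁ ⊢
    rw [h₁]
    exact h₂
  | cons s ss ih =>
    rw [List.cons_append]
    rw [blockRun] at h₁ ⊢
    exact ⟨h₁.1, ih h₁.2⟩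

private theorem Run_out_replicate (ν s : ℕ) : out ν s (List.replicate s false) = 0 ∧
    read ν s (List.replicate s false) = [] := by
  induction s with
  | zero => simp [out, read]
  | succ s ih =>
    rw [List.replicate_succ]
    exact ⟨ih.1, ih.2⟩

private theorem Run_phys_replicate (v : List Bool) (L : ℕ) :
    phys v (List.replicate L false) = List.replicate L false := by
  induction L with
  | zero => rfl
  | succ L ih =>
    rw [List.replicate_succ]
    have : phys v (false :: List.replicate L false) =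
      rule [false] v false ++ phys v (List.replicate L false) := rfl
    rw [this, ih]
    rfl

private theorem Run_zeros (ν : ℕ) (hν : 1 ≤ ν) (v : List Bool) (L : ℕ) :
    ost ν v 0 (List.replicate (ν * L) false) = 0 ∧
    tr ν v 0 (List.replicate (ν * L) false) = List.replicate L false := by
  unfold ost tr
  rw [Run_phys_replicate]
  induction L with
  | zero => simp [out, read]
  | succ L ih =>
    have h1 : List.replicate (ν * (L + 1)) false =
        List.replicate ν false ++ List.replicate (ν * L) false := by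
      rw [List.replicate_append_replicate]
      congr 1
      ring
    obtain ⟨k, rfl⟩ : ∃ k, ν = k + 1 := ⟨ν - 1, by omega⟩
    have h2 : out (k + 1) 0 (List.replicate (k + 1) false) = 0 := by
      rw [List.replicate_succ]
      exact (Run_out_replicate (k + 1) k).1
    have h3 : read (k + 1) 0 (List.replicate (k + 1) false) = [false] := by
      rw [List.replicate_succ]
      have := (Run_out_replicate (k + 1) k).2
      show false :: read (k + 1) (k + 1 - 1) (List.replicate k false) = [false]
      rw [Nat.add_sub_cancel, this]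
    rw [h1, out_append, read_append, h2, h3]
    refine ⟨ih.1, ?_⟩
    rw [ih.2]
    rfl

section

variable {ν n : ℕ} {cont : Bool → Fin n → List (Fin n)} {trail : Fin n → Bool}
  {M X0 N h : ℕ} {ψ : Fin n → ℕ} {ℓ : ℕ → ℕ}

/-- the word `v` of a table -/
def vw (ν M N : ℕ) (ℓ : ℕ → ℕ) : List Bool := mkv ν (md ν M) ((List.range N).map ℓ)

private theorem Run_tab_pairwise (hg : Good ν n cont trail M X0 N h ψ ℓ) :
    ((List.range N).map ℓ).Pairwise (· < ·) := by
  rw [List.pairwise_map]
  have h1 : (List.range N).Pairwise (· < ·) := List.pairwise_lt_range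
  refine h1.imp_of_mem ?_
  intro a b ha hb hab
  exact hg.mono a b hab (List.mem_range.1 hb)

private theorem Run_tab_lt (hg : Good ν n cont trail M X0 N h ψ ℓ) :
    ∀ x ∈ (List.range N).map ℓ, x < md ν M := by
  intro x hx
  obtain ⟨e, he, rfl⟩ := List.mem_map.1 hx
  exact hg.lt e (List.mem_range.1 he)

private theorem Run_md_pos (ν M : ℕ) : 0 < md ν M := by
  unfold md; omega

/-- one pass with state `0`, if the physical length is divisible by `ν` -/
private theorem Run_step (hν : 3 ≤ ν) (hg : Good ν n cont trail M X0 N h ψ ℓ) {W : List Bool}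
    (hd : ν ∣ W.length + Qd ν M * (pos W).length) :
    ost ν (vw ν M N ℓ) 0 W = 0 ∧
    ν * (tr ν (vw ν M N ℓ) 0 W).length = W.length + Qd ν M * (pos W).length ∧
    pos (tr ν (vw ν M N ℓ) 0 W) = nxt ν (Qd ν M) ((List.range N).map ℓ) 0 (pos W) := by
  have hM : 1 ≤ M := le_trans (by norm_num) hg.hM
  obtain ⟨h1, h2, h3⟩ := trans ν hν (md ν M) (Run_md_pos ν M) ((List.range N).map ℓ)
    (Run_tab_pairwise hg) (Run_tab_lt hg) 0 (by omega) W
  rw [md_Qd hν hM] at h1 h2
  change pos (tr ν (vw ν M N ℓ) 0 W) = _ at h1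
  change ν * (tr ν (vw ν M N ℓ) 0 W).length + 0 = _ + ost ν (vw ν M N ℓ) 0 W at h2
  change ost ν (vw ν M N ℓ) 0 W < ν at h3
  have h4 : ost ν (vw ν M N ℓ) 0 W = 0 := by
    have h5 : ν ∣ ost ν (vw ν M N ℓ) 0 W := by
      have h6 : ν ∣ (W.length + Qd ν M * (pos W).length) + ost ν (vw ν M N ℓ) 0 W := by
        rw [← h2, add_zero]
        exact Dvd.intro _ rfl
      exact (Nat.dvd_add_right hd).1 h6
    exact Nat.eq_zero_of_dvd_of_lt h5 h3
  refine ⟨h4, ?_, h1⟩
  rw [h4] at h2
  simpa using h2

private theorem Run_iter (hν : 3 ≤ ν) (hg : Good ν n cont trail M X0 N h ψ ℓ) {W : List Bool}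
    (F : ℕ) (hd : ∀ i < F, ν ^ (i + 1) ∣ W.length + Qd ν M * ∑ j ∈ range (i + 1),
      ν ^ j * ((nxt ν (Qd ν M) ((List.range N).map ℓ) 0)^[j] (pos W)).length) :
    ∃ W', blockRun ν (vw ν M N ℓ) (List.replicate F 0) W W' ∧
      pos W' = (nxt ν (Qd ν M) ((List.range N).map ℓ) 0)^[F] (pos W) ∧
      ν ^ F * W'.length = W.length + Qd ν M * ∑ j ∈ range F,
        ν ^ j * ((nxt ν (Qd ν M) ((List.range N).map ℓ) 0)^[j] (pos W)).length := by
  induction F with
  | zero =>
    refine ⟨W, rfl, rfl, ?_⟩
    simp
  | succ F ih =>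
    obtain ⟨W', h1, h2, h3⟩ := ih (fun i hi => hd i (by omega))
    have h4 : ν ^ F * (W'.length + Qd ν M * (pos W').length) =
        W.length + Qd ν M * ∑ j ∈ range (F + 1),
        ν ^ j * ((nxt ν (Qd ν M) ((List.range N).map ℓ) 0)^[j] (pos W)).length := by
      rw [Finset.sum_range_succ, Nat.mul_add, Nat.mul_add, h3, h2]
      ring
    have h5 : ν ∣ W'.length + Qd ν M * (pos W').length := by
      have h6 := hd F (by omega)
      rw [← h4, pow_succ] at h6
      exact (Nat.mul_dvd_mul_iff_left (pow_pos (by omega) F)).1 h6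
    obtain ⟨h7, h8, h9⟩ := Run_step hν hg h5
    refine ⟨tr ν (vw ν M N ℓ) 0 W', ?_, ?_, ?_⟩
    · rw [List.replicate_succ']
      exact blockRun_trans h1 ⟨h7, rfl⟩
    · rw [h9, h2, Function.iterate_succ_apply']
    · rw [pow_succ, mul_assoc, h8, h4]

private theorem Run_cell_length {Q p : ℕ} (hX : 4 ≤ X0) (hp : p < Q) :
    (cell Q X0 p).length = Q * (X0 - 1) := by
  unfold cell
  have h1 : Q * 3 ≤ Q * (X0 - 1) := Nat.mul_le_mul_left _ (by omega)
  simp only [List.length_append, List.length_replicate, List.length_cons]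
  omega

private theorem Run_pos_cell (Q X0 p : ℕ) : pos (cell Q X0 p) = [Q + p] := by
  unfold cell
  rw [pos_append, pos_replicate]
  simp only [pos, if_true, pos_replicate]
  simp

private theorem Run_cells_append (Q X0 : ℕ) (ψ : Fin n → ℕ) (bs : List (Fin n)) (b : Fin n) :
    cells Q X0 ψ (bs ++ [b]) = cells Q X0 ψ bs ++ cell Q X0 (ψ b) := by
  simp [cells]

private theorem Run_cells_length {Q : ℕ} (hX : 4 ≤ X0) (hψ : ∀ a, ψ a < Q)
    (bs : List (Fin n)) : (cells Q X0 ψ bs).length = bs.length * (Q * (X0 - 1)) := by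
  induction bs using List.reverseRecOn with
  | nil => simp [cells]
  | append_singleton bs b ih =>
    rw [Run_cells_append, List.length_append, ih, Run_cell_length hX (hψ b), List.length_append]
    simp only [List.length_cons, List.length_nil]
    ring

private theorem Run_pos_cells {Q : ℕ} (hX : 4 ≤ X0) (hψ : ∀ a, ψ a < Q)
    (bs : List (Fin n)) : pos (cells Q X0 ψ bs) =
      bs.zipIdx.map (fun x => x.2 * (Q * (X0 - 1)) + Q + ψ x.1) := by
  induction bs using List.reverseRecOn with
  | nil => simp [cells, pos]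
  | append_singleton bs b ih =>
    rw [Run_cells_append, pos_append, ih, Run_pos_cell, Run_cells_length hX hψ,
      List.zipIdx_append, List.map_append]
    congr 1
    simp only [List.map_cons, List.map_nil, List.zipIdx_cons, List.zipIdx_nil, zero_add]
    congr 1
    ring

/-- the rank of an element of a filtered range -/
private theorem Run_filter_zipIdx (p : ℕ → Bool) (N : ℕ) :
    ((List.range N).filter p).map (fun e => (e, ((List.range e).filter p).length)) =
      ((List.range N).filter p).zipIdx := by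
  induction N with
  | zero => rfl
  | succ N ih =>
    rw [List.range_succ, List.filter_append, List.map_append, ih, List.zipIdx_append]
    congr 1
    by_cases hp : p N
    · simp [hp]
    · simp [hp]

private theorem Run_filter_length (p : ℕ → Bool) (N : ℕ) :
    ((List.range N).filter p).length = ∑ e ∈ range N, if p e then 1 else 0 := by
  induction N with
  | zero => rfl
  | succ N ih =>
    rw [List.range_succ, List.filter_append, List.length_append, ih, Finset.sum_range_succ]
    congr 1
    by_cases hp : p N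
    · simp [hp]
    · simp [hp]

/-- evolution of a table from age `0` on -/
theorem run_produces (hν : 3 ≤ ν) (hg : Good ν n cont trail M X0 N h ψ ℓ) {Y F E z : ℕ}
    {bs : List (Fin n)} (hF : 1 ≤ F) (hb : bs ≠ [])
    (hp : Produces ν (Qd ν M) X0 N ψ ℓ Y F E bs) {W : List Bool}
    (hW : pos W = (List.range N).map fun e => Y + ℓ e)
    (hl : W.length = Qd ν M * E + ν ^ F * z) :
    blockRun ν (vw ν M N ℓ) (List.replicate F 0) W
      (cells (Qd ν M) X0 ψ bs ++ List.replicate z false) := by
  obtain ⟨lam, life, spw, hfate, hsurv, hpop⟩ := hp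
  obtain ⟨hlen, hfin⟩ := evol hν hfate
  rw [← hW] at hlen hfin
  set Q := Qd ν M with hQ
  set T := nxt ν Q ((List.range N).map ℓ) 0 with hT
  -- total physical length
  have hX := hg.X0_ge
  have hνF : 0 < ν ^ F := pow_pos (by omega) F
  have htot : W.length + Q * ∑ j ∈ range (F + 1), ν ^ j * (T^[j] (pos W)).length =
      ν ^ F * (Q * (bs.length * X0) + z) := by
    have h1 : ∑ j ∈ range (F + 1), ν ^ j * (T^[j] (pos W)).length =
        ∑ i ∈ range (F + 1), ν ^ i * ∑ e ∈ range N, pop N lam life spw e i := by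
      refine Finset.sum_congr rfl fun j hj => ?_
      rw [hlen j (by have := Finset.mem_range.1 hj; omega)]
    rw [h1, hl]
    calc Q * E + ν ^ F * z + Q * ∑ i ∈ range (F + 1), ν ^ i * ∑ e ∈ range N, pop N lam life spw e i
        = Q * (E + ∑ i ∈ range (F + 1), ν ^ i * ∑ e ∈ range N, pop N lam life spw e i)
          + ν ^ F * z := by ring
      _ = ν ^ F * (Q * (bs.length * X0) + z) := by rw [hpop]; ring
  have hdvd : ∀ i < F, ν ^ (i + 1) ∣ W.length + Q * ∑ j ∈ range (i + 1),
      ν ^ j * (T^[j] (pos W)).length := by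
    intro i hi
    have h1 : ν ^ (i + 1) ∣ W.length + Q * ∑ j ∈ range (F + 1),
        ν ^ j * (T^[j] (pos W)).length := by
      rw [htot]
      exact Dvd.dvd.mul_right (pow_dvd_pow ν (by omega)) _
    have h2 : ∑ j ∈ range (F + 1), ν ^ j * (T^[j] (pos W)).length =
        ∑ j ∈ range (i + 1), ν ^ j * (T^[j] (pos W)).length +
        ∑ j ∈ Finset.Ico (i + 1) (F + 1), ν ^ j * (T^[j] (pos W)).length :=
      (Finset.sum_range_add_sum_Ico _ (by omega)).symm
    have h3 : ν ^ (i + 1) ∣ ∑ j ∈ Finset.Ico (i + 1) (F + 1), ν ^ j * (T^[j] (pos W)).length := by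
      refine Finset.dvd_sum fun j hj => ?_
      exact Dvd.dvd.mul_right (pow_dvd_pow ν (Finset.mem_Ico.1 hj).1) _
    rw [h2, Nat.mul_add, ← Nat.add_assoc] at h1
    exact (Nat.dvd_add_left (Dvd.dvd.mul_left h3 _)).1 h1
  obtain ⟨W', h1, h2, h3⟩ := Run_iter hν hg F hdvd
  -- number of survivors
  set p : ℕ → Bool := fun e => decide (F ≤ life e) with hpdef
  have hnum : ((List.range N).filter p).length = bs.length := by
    have := congrArg List.length hsurv
    simpa using this
  have hrk : ∀ e, rk N lam life spw e F = ((List.range e).filter p).length := by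
    intro e
    rw [Run_filter_length]
    unfold rk
    refine Finset.sum_congr rfl fun e' _ => ?_
    unfold pop
    have hlt := hfate.lt
    by_cases hle : F ≤ life e'
    · simp [hpdef, hle]
    · have : ¬ (F ≤ lam) := by omega
      simp [hpdef, hle, this]
  have hfin2 : pos W' = ((List.range N).filter p).map fun e =>
        (Y + ℓ e + Q * ∑ j ∈ range F, ν ^ j * rk N lam life spw e j) / ν ^ F := by
    rw [h2, hfin]
  have hlenW' : (pos W').length = bs.length := by
    rw [hfin2, List.length_map, hnum]
  have hW'len : W'.length = bs.length * (Q * (X0 - 1)) + z := by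
    have h4 : ν ^ F * (W'.length + Q * (pos W').length) =
        ν ^ F * (Q * (bs.length * X0) + z) := by
      rw [← htot, Finset.sum_range_succ, Nat.mul_add, h3, ← h2]
      ring
    have h5 := Nat.eq_of_mul_eq_mul_left hνF h4
    rw [hlenW'] at h5
    obtain ⟨x, hx⟩ : ∃ x, X0 = x + 1 := ⟨X0 - 1, by omega⟩
    rw [hx] at h5 ⊢
    rw [Nat.add_sub_cancel]
    have h6 : Q * (bs.length * (x + 1)) = bs.length * (Q * x) + Q * bs.length := by ring
    rw [h6] at h5
    omega
  have hposW' : pos W' = bs.zipIdx.map (fun x => x.2 * (Q * (X0 - 1)) + Q + ψ x.1) := by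
    rw [hfin2]
    -- survivors in terms of positions and ranks
    have h4 : ((List.range N).filter p).map (fun e =>
        (Y + ℓ e + Q * ∑ j ∈ range F, ν ^ j * rk N lam life spw e j) / ν ^ F) =
        (((List.range N).filter p).map (fun e =>
          (SS ν Q N ℓ Y lam life spw e F, ((List.range e).filter p).length))).map
          (fun x => (x.1 - Q * (ν ^ F * x.2)) / ν ^ F) := by
      rw [List.map_map]
      refine List.map_congr_left fun e _ => ?_
      simp only [Function.comp]
      congr 1
      unfold SS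
      rw [Finset.sum_range_succ, Nat.mul_add, ← Nat.add_assoc, hrk e, Nat.add_sub_cancel]
    have h5 : ((List.range N).filter p).map (fun e =>
          (SS ν Q N ℓ Y lam life spw e F, ((List.range e).filter p).length)) =
        (((List.range N).filter p).map (fun e => SS ν Q N ℓ Y lam life spw e F)).zipIdx := by
      rw [List.zipIdx_map, ← Run_filter_zipIdx, List.map_map]
      rfl
    have h6 : (bs.zipIdx.map (fun x => ν ^ F * (x.2 * (Q * X0) + Q + ψ x.1))).zipIdx =
        bs.zipIdx.map (fun x => (ν ^ F * (x.2 * (Q * X0) + Q + ψ x.1), x.2)) := by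
      refine List.ext_getElem (by simp) fun i hi hi' => ?_
      simp
    rw [h4, h5, hsurv, h6, List.map_map]
    refine List.map_congr_left fun x _ => ?_
    simp only [Function.comp]
    obtain ⟨y, hy⟩ : ∃ y, X0 = y + 1 := ⟨X0 - 1, by omega⟩
    rw [hy, Nat.add_sub_cancel]
    have h7 : ν ^ F * (x.2 * (Q * (y + 1)) + Q + ψ x.1) =
        ν ^ F * (x.2 * (Q * y) + Q + ψ x.1) + Q * (ν ^ F * x.2) := by ring
    rw [h7, Nat.add_sub_cancel, Nat.mul_div_cancel_left _ hνF]
  have hfinal : W' = cells Q X0 ψ bs ++ List.replicate z false := by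
    apply eq_of_pos
    · rw [pos_append, pos_replicate, List.map_nil, List.append_nil, Run_pos_cells hX hg.psi_lt,
        hposW']
    · rw [List.length_append, List.length_replicate, Run_cells_length hX hg.psi_lt, hW'len]
  rw [← hfinal]
  exact h1

/-- evolution of a table from age `0` on, if all letters `V` disappear -/
theorem run_dies (hν : 3 ≤ ν) (hg : Good ν n cont trail M X0 N h ψ ℓ) {Y F E : ℕ}
    (hp : Dies ν (Qd ν M) N ℓ Y F E) {W : List Bool}
    (hW : pos W = (List.range N).map fun e => Y + ℓ e)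
    (hl : W.length = Qd ν M * E) :
    ∃ L, blockRun ν (vw ν M N ℓ) (List.replicate F 0) W (List.replicate L false) := by
  obtain ⟨lam, life, spw, hfate, hsurv, hpop⟩ := hp
  obtain ⟨hlen, hfin⟩ := evol hν hfate
  rw [← hW] at hlen hfin
  set Q := Qd ν M with hQ
  set T := nxt ν Q ((List.range N).map ℓ) 0 with hT
  have hdvd : ∀ i < F, ν ^ (i + 1) ∣ W.length + Q * ∑ j ∈ range (i + 1),
      ν ^ j * (T^[j] (pos W)).length := by
    intro i hi
    have h1 : ∑ j ∈ range (i + 1), ν ^ j * (T^[j] (pos W)).length =
        ∑ j ∈ range (i + 1), ν ^ j * ∑ e ∈ range N, pop N lam life spw e j := by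
      refine Finset.sum_congr rfl fun j hj => ?_
      rw [hlen j (by have := Finset.mem_range.1 hj; omega)]
    rw [h1, hl, ← Nat.mul_add]
    exact Dvd.dvd.mul_left (hpop i hi) _
  obtain ⟨W', h1, h2, h3⟩ := Run_iter hν hg F hdvd
  have h4 : pos W' = [] := by
    rw [h2, hfin]
    have : (List.range N).filter (fun e => decide (F ≤ life e)) = [] := by
      rw [List.filter_eq_nil_iff]
      intro e he
      have := hsurv e (List.mem_range.1 he)
      simp only [decide_eq_true_eq, not_le]
      exact this
    rw [this, List.map_nil]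
  refine ⟨W'.length, ?_⟩
  have h5 : W' = List.replicate W'.length false := by
    apply eq_of_pos
    · rw [h4, pos_replicate]
    · simp
  rw [← h5]
  exact h1

/-- zeros at the end of the word, mode `normal` -/
theorem zeros_normal (hν : 3 ≤ ν) (z k : ℕ) :
    tailRun ν (vw ν M N ℓ) 0 (List.replicate k 0) (List.replicate (ν ^ k * z) false)
      (List.replicate z false) := by
  induction k with
  | zero => simp [tailRun]
  | succ k ih =>
    rw [List.replicate_succ (n := k)]
    have h1 : ν ^ (k + 1) * z = ν * (ν ^ k * z) := by ring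
    rw [h1]
    obtain ⟨h2, h3⟩ := Run_zeros ν (by omega) (vw ν M N ℓ) (ν ^ k * z)
    refine ⟨h2, ?_⟩
    rw [h3]
    exact ih

/-- zeros at the end of the word, mode `event` -/
theorem zeros_event (hν : 3 ≤ ν) (hM : 2 ≤ M) :
    tailRun ν (vw ν M N ℓ) 0 (1 :: List.replicate (M - 1) 0) (List.replicate (ν - 1) false)
      [] := by
  set v := vw ν M N ℓ with hv
  obtain ⟨k, rfl⟩ : ∃ k, ν = k + 3 := ⟨ν - 3, by omega⟩
  obtain ⟨m, rfl⟩ : ∃ m, M = m + 2 := ⟨M - 2, by omega⟩
  have h1 : ∀ (ν s : ℕ), out ν (s + 1) (List.replicate s false) = 1 ∧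
      read ν (s + 1) (List.replicate s false) = [] := by
    intro ν s
    induction s with
    | zero => simp [out, read]
    | succ s ih =>
      rw [List.replicate_succ]
      exact ⟨ih.1, ih.2⟩
  have h2 : ost (k + 3) v 0 (List.replicate (k + 3 - 1) false) = 1 ∧
      tr (k + 3) v 0 (List.replicate (k + 3 - 1) false) = [false] := by
    unfold ost tr
    rw [Run_phys_replicate]
    have h3 : k + 3 - 1 = (k + 1) + 1 := by omega
    rw [h3, List.replicate_succ]
    refine ⟨?_, ?_⟩
    · show out (k + 3) (k + 3 - 1) (List.replicate (k + 1) false) = 1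
      exact (h1 (k + 3) (k + 1)).1
    · show false :: read (k + 3) (k + 3 - 1) (List.replicate (k + 1) false) = [false]
      have := (h1 (k + 3) (k + 1)).2
      have h4 : k + 3 - 1 = k + 1 + 1 := by omega
      rw [h4, this]
  have h5 : ost (k + 3) v 1 [false] = 0 ∧ tr (k + 3) v 1 [false] = [] := by
    constructor <;> rfl
  have h6 : ∀ j : ℕ, tailRun (k + 3) v 0 (List.replicate j 0) [] [] := by
    intro j
    induction j with
    | zero => rfl
    | succ j ih =>
      rw [List.replicate_succ]
      exact ⟨rfl, ih⟩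
  refine ⟨h2.1, ?_⟩
  rw [h2.2]
  have h7 : m + 2 - 1 = m + 1 := by omega
  rw [h7, List.replicate_succ]
  refine ⟨h5.1, ?_⟩
  rw [h5.2]
  exact h6 m

end

end Pool.Agent.Lib.MP_b40757_lc
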