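import Mathlib

set_option autoImplicit false

/-!
# Copies of symbols
-/

namespace Pool.Agent.Lib.MP_b40757_lc

/-- Given productions over a finite alphabet, there are copies of the symbols (numbered from `0`
to `n - 1`) and productions in terms of the copies which are strictly increasing lists. -/
theorem exists_copies {A : Type} [Fintype A] (prod : Bool → A → List A) :
    ∃ (n : ℕ) (mean : Fin n → A) (cont : Bool → Fin n → List (Fin n)),
      Function.Surjective mean ∧ (∀ ε a, (cont ε a).map mean = prod ε (mean a)) ∧
      ∀ ε a, (cont ε a).Pairwise (· < ·) := by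
  classical
  -- an infix of `L` is the image of an increasing list of indices
  have key : ∀ (L W : List A), W <:+: L →
      ∃ I : List (Fin L.length), I.map L.get = W ∧ I.Pairwise (· < ·) := by
    intro L W hW
    have hs : W.Sublist L := hW.sublist
    obtain ⟨I, hI, hI2⟩ := List.sublist_eq_map_getElem hs
    exact ⟨I, by rw [hI]; rfl, hI2⟩
  set B : List (Bool × A) := (Finset.univ : Finset (Bool × A)).toList with hB
  set L : List A := (Finset.univ : Finset A).toList ++ B.flatMap fun p => prod p.1 p.2 with hL
  have hmem : ∀ (ε : Bool) (a : A), prod ε a <:+: L := by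
    intro ε a
    have h1 : (ε, a) ∈ B := by simp [hB]
    obtain ⟨s, t, h2⟩ := List.append_of_mem h1
    refine ⟨(Finset.univ : Finset A).toList ++ s.flatMap (fun p => prod p.1 p.2),
      t.flatMap (fun p => prod p.1 p.2), ?_⟩
    rw [hL, h2]
    simp
  choose f hf1 hf2 using fun (ε : Bool) (a : A) => key L (prod ε a) (hmem ε a)
  refine ⟨L.length, L.get, fun ε i => f ε (L.get i), ?_, fun ε i => hf1 _ _, fun ε i => hf2 _ _⟩
  intro a
  have h1 : a ∈ L := by simp [hL]
  obtain ⟨i, hi⟩ := List.mem_iff_get.mp h1
  exact ⟨i, hi⟩

end Pool.Agent.Lib.MP_b40757_lc
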