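import Pool.Agent.Lib.MP_b40757_lc.TabIdx

set_option autoImplicit false

/-!
# The table: lives of the own entries
-/

namespace Pool.Agent.Lib.MP_b40757_lc.Tab

open Finset

variable {ν n H : ℕ} {cf : Bool → ℕ → List ℕ}

/-! ## geometric sums -/

private theorem Lives_g_succ (ν a : ℕ) : g ν (a + 1) = g ν a + ν ^ a := by
  unfold g
  rw [sum_range_succ]

private theorem Lives_g_add (ν a b : ℕ) : g ν (a + b) = g ν a + ν ^ a * g ν b := by
  induction b with
  | zero => simp [g]
  | succ b ih =>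
    rw [← add_assoc, Lives_g_succ, ih, Lives_g_succ, pow_add]
    ring

private theorem Lives_g_mono (ν : ℕ) {a b : ℕ} (h : a ≤ b) : g ν a ≤ g ν b := by
  obtain ⟨c, rfl⟩ := Nat.exists_eq_add_of_le h
  rw [Lives_g_add]
  exact Nat.le_add_right _ _

private theorem Lives_g_le (hν : 2 ≤ ν) (t : ℕ) : g ν t ≤ ν ^ t := by
  induction t with
  | zero => simp [g]
  | succ t ih =>
    rw [Lives_g_succ, pow_succ]
    nlinarith [Nat.zero_le (ν ^ t)]

private theorem Lives_sum_ind (ν : ℕ) {l F : ℕ} (h : l ≤ F) :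
    ∑ i ∈ range (F + 1), ν ^ i * (if i ≤ l then 1 else 0) = g ν (l + 1) := by
  unfold g
  have h1 : ∀ i ∈ range (F + 1), ν ^ i * (if i ≤ l then 1 else 0) = if i ≤ l then ν ^ i else 0 := by
    intro i _
    split_ifs <;> simp
  rw [sum_congr rfl h1, ← sum_filter]
  congr 1
  ext i
  simp only [mem_filter, mem_range]
  omega

private theorem Lives_sum_pop (ν N lam F : ℕ) (life : ℕ → ℕ) (spw : ℕ → Bool) (e : ℕ)
    (h1 : life e ≤ F) (h2 : lam ≤ F) :
    ∑ i ∈ range (F + 1), ν ^ i * pop N lam life spw e i =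
      g ν (life e + 1) + if spw e then N * (g ν (lam + 1) - g ν (life e + 1)) else 0 := by
  by_cases hs : spw e = true
  · rcases le_or_gt lam (life e) with h3 | h3
    · have h4 : g ν (lam + 1) - g ν (life e + 1) = 0 :=
        Nat.sub_eq_zero_of_le (Lives_g_mono ν (by omega))
      rw [h4]
      simp only [mul_zero, ite_self, add_zero]
      rw [← Lives_sum_ind ν h1]
      apply sum_congr rfl
      intro i _
      unfold pop
      split_ifs with h5 h6
      · rfl
      · exfalso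
        simp at h6
        omega
      · rfl
    · have h4 : g ν (life e + 1) ≤ g ν (lam + 1) := Lives_g_mono ν (by omega)
      have h5 : ∑ i ∈ range (F + 1), ν ^ i * pop N lam life spw e i + N * g ν (life e + 1) =
          g ν (life e + 1) + N * g ν (lam + 1) := by
        rw [← Lives_sum_ind ν h1, ← Lives_sum_ind ν h2, mul_sum, mul_sum, ← sum_add_distrib,
          ← sum_add_distrib]
        apply sum_congr rfl
        intro i _
        unfold pop
        by_cases h6 : i ≤ life e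
        · have h7 : i ≤ lam := by omega
          simp [h6, h7]
          try ring
        · by_cases h7 : i ≤ lam
          · simp [h6, h7, hs]
            try ring
          · simp [h6, h7]
      rw [if_pos hs]
      have h6 : N * (g ν (lam + 1) - g ν (life e + 1)) + N * g ν (life e + 1)
          = N * g ν (lam + 1) := by
        rw [← mul_add]
        congr 1
        omega
      omega
  · rw [if_neg hs, add_zero, ← Lives_sum_ind ν h1]
    apply sum_congr rfl
    intro i _
    unfold pop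
    simp only [Bool.not_eq_true] at hs
    simp [hs]

private theorem Lives_sum_two (K : ℕ) (f : ℕ → ℕ) :
    ∑ u ∈ range (2 * K), f u = ∑ k ∈ range K, (f (2 * k) + f (2 * k + 1)) := by
  induction K with
  | zero => simp
  | succ K ih =>
    rw [show 2 * (K + 1) = 2 * K + 1 + 1 by ring, sum_range_succ, sum_range_succ, ih,
      sum_range_succ]
    ring

private theorem Lives_lam_le (h : Ass ν n H cf) {a : ℕ} (ha : a < n) (ε : Bool) :
    lam n a ε ≤ Fn H ε ∧ 4 * n + 3 ≤ Fn H ε ∧ 8 * H ≤ Fn H ε + 2 ∧ Fn H ε + 1 ≤ 8 * H := by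
  have h1 := lam_lt ha ε
  have h2 := (bounds h).2.2.2.1
  have h3 : 8 * H ≤ Fn H ε + 2 ∧ Fn H ε + 1 ≤ 8 * H := by
    unfold Fn M
    split_ifs <;> omega
  omega

/-- weight of a superblock -/
private theorem Lives_Wt (L : ℕ → ℕ → ℕ) (h : Ass ν n H cf) {a : ℕ} (ha : a < n) (ε : Bool)
    {s : ℕ} (hL : lv n s = lam n a ε → ∀ k < K ν H, L s k ≤ Fn H ε) :
    Wt ν n H L a ε s = ∑ k ∈ range (K ν H),
      ((g ν ((if lv n s = lam n a ε then L s k else min (lam n a ε) (lv n s)) + 1) +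
        if lv n s < lam n a ε then
          N ν n H * (g ν (lam n a ε + 1) -
            g ν ((if lv n s = lam n a ε then L s k else min (lam n a ε) (lv n s)) + 1)) else 0) +
        g ν (lam n a ε + 1)) := by
  have hF := (Lives_lam_le h ha ε).1
  unfold Wt
  rw [Lives_sum_two]
  apply sum_congr rfl
  intro k hk
  rw [mem_range] at hk
  have e1 : (2 * K ν H * s + 2 * k) / (2 * K ν H) = s := by
    rw [Nat.mul_add_div (by omega), Nat.div_eq_of_lt (by omega), add_zero]
  have e2 : (2 * K ν H * s + (2 * k + 1)) / (2 * K ν H) = s := by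
    rw [Nat.mul_add_div (by omega), Nat.div_eq_of_lt (by omega), add_zero]
  have e3 : (2 * K ν H * s + 2 * k) % (2 * K ν H) = 2 * k := by
    rw [Nat.mul_add_mod, Nat.mod_eq_of_lt (by omega)]
  have e4 : (2 * K ν H * s + 2 * k) % 2 = 0 := by
    rw [mul_assoc]; omega
  have e5 : (2 * K ν H * s + (2 * k + 1)) % 2 = 1 := by
    rw [mul_assoc]; omega
  have l1 : lifeL ν n H L (lam n a ε) (2 * K ν H * s + 2 * k) =
      if lv n s = lam n a ε then L s k else min (lam n a ε) (lv n s) := by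
    unfold lifeL
    rw [e1, e3, e4, if_neg (by omega), Nat.mul_div_cancel_left k (by omega)]
  have l2 : lifeL ν n H L (lam n a ε) (2 * K ν H * s + (2 * k + 1)) = lam n a ε := by
    unfold lifeL
    rw [e5, if_pos rfl]
  have s1 : spwL ν n H (lam n a ε) (2 * K ν H * s + 2 * k) = decide (lv n s < lam n a ε) := by
    unfold spwL
    rw [e1, e4]
    simp
  have s2 : spwL ν n H (lam n a ε) (2 * K ν H * s + (2 * k + 1)) = false := by
    unfold spwL
    rw [e5]
    simp
  congr 1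
  · rw [Lives_sum_pop _ _ _ _ _ _ _ _ hF, l1, s1]
    · simp only [decide_eq_true_eq]
    · rw [l1]
      split_ifs with h1
      · exact hL h1 k hk
      · omega
  · rw [Lives_sum_pop _ _ _ _ _ _ _ _ hF, l2, s2]
    · simp
    · rw [l2]
      exact hF

/-- weight of a superblock of another key -/
theorem Wt_other (L : ℕ → ℕ → ℕ) (h : Ass ν n H cf) {a : ℕ} (ha : a < n) (ε : Bool) {s : ℕ}
    (ho : lv n s ≠ lam n a ε) :
    Wt ν n H L a ε s =
      if lam n a ε < lv n s then 2 * K ν H * g ν (lam n a ε + 1)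
      else 2 * K ν H * g ν (lv n s + 1) + (N ν n H + 1) * K ν H *
        (g ν (lam n a ε + 1) - g ν (lv n s + 1)) := by
  rw [Lives_Wt L h ha ε (fun h1 => absurd h1 ho)]
  simp only [if_neg ho]
  rw [sum_const, card_range, smul_eq_mul]
  rcases lt_or_gt_of_ne ho with h1 | h1
  · rw [if_pos h1, if_neg (by omega), min_eq_right (by omega)]
    have h3 : g ν (lv n s + 1) ≤ g ν (lam n a ε + 1) := Lives_g_mono ν (by omega)
    obtain ⟨c, hc⟩ := Nat.exists_eq_add_of_le h3
    rw [hc, Nat.add_sub_cancel_left]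
    ring
  · rw [if_neg (by omega), if_pos h1, min_eq_left (by omega)]
    ring

/-- weight of a superblock of the key itself -/
theorem Wt_own (L : ℕ → ℕ → ℕ) (h : Ass ν n H cf) {a : ℕ} (ha : a < n) (ε : Bool) {s : ℕ}
    (ho : lv n s = lam n a ε) (hL : ∀ k < K ν H, L s k ≤ Fn H ε) :
    Wt ν n H L a ε s =
      K ν H * g ν (lam n a ε + 1) + ∑ k ∈ range (K ν H), g ν (L s k + 1) := by
  rw [Lives_Wt L h ha ε (fun _ => hL)]
  simp only [if_pos ho]
  rw [sum_add_distrib, sum_const, card_range, smul_eq_mul, add_comm]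
  congr 1
  apply sum_congr rfl
  intro k _
  rw [if_neg (by omega), add_zero]

/-! ## prescribing prefix sums -/

private theorem Lives_mono {c d : ℕ → ℕ} {m : ℕ}
    (hc : ∀ j < m, c j ≤ d (j + 1) ∧ d (j + 1) < c (j + 1)) {i j : ℕ} (hij : i ≤ j)
    (hj : j ≤ m) : c i ≤ c j := by
  induction j, hij using Nat.le_induction with
  | base => exact le_rfl
  | succ j _ ih =>
    have h1 := hc j (by omega)
    have h2 := ih (by omega)
    omega

private theorem Lives_prefix (w c d T : ℕ → ℕ) (good : ℕ → Prop) (m : ℕ)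
    (h0 : d 0 < c 0) (hc : ∀ j < m, c j ≤ d (j + 1) ∧ d (j + 1) < c (j + 1))
    (hx0 : ∃ x, x + ∑ s ∈ (range (c 0)).erase (d 0), w s = T 0 ∧ good x)
    (hx : ∀ j < m, ∃ x, T j + (x + ∑ s ∈ (Ico (c j) (c (j + 1))).erase (d (j + 1)), w s) =
      T (j + 1) ∧ good x) :
    ∃ W : ℕ → ℕ, (∀ j ≤ m, ∑ s ∈ range (c j), W s = T j) ∧
      (∀ s, (∀ j ≤ m, s ≠ d j) → W s = w s) ∧ ∀ j ≤ m, good (W (d j)) := by
  induction m with
  | zero =>
    obtain ⟨x, hx1, hx2⟩ := hx0
    refine ⟨Function.update w (d 0) x, ?_, ?_, ?_⟩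
    · intro j hj
      obtain rfl : j = 0 := by omega
      rw [← add_sum_erase _ _ (mem_range.2 h0), Function.update_self, ← hx1]
      congr 1
      apply sum_congr rfl
      intro s hs
      rw [Function.update_of_ne (ne_of_mem_erase hs)]
    · intro s hs
      rw [Function.update_of_ne (hs 0 le_rfl)]
    · intro j hj
      obtain rfl : j = 0 := by omega
      rw [Function.update_self]
      exact hx2
  | succ m ih =>
    obtain ⟨W, h1, h2, h3⟩ := ih (fun j hj => hc j (by omega)) (fun j hj => hx j (by omega))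
    obtain ⟨x, hx1, hx2⟩ := hx m (by omega)
    have hm := hc m (by omega)
    have hdc : ∀ j ≤ m, d j < c j := by
      intro j hj
      rcases j with _ | j
      · exact h0
      · exact (hc j (by omega)).2
    have hdd : ∀ j ≤ m, d j < d (m + 1) := by
      intro j hj
      have := hdc j hj
      have := Lives_mono (fun j hj => hc j (by omega)) hj (le_refl m)
      omega
    refine ⟨Function.update W (d (m + 1)) x, ?_, ?_, ?_⟩
    · have h4 : ∀ j ≤ m, ∑ s ∈ range (c j), Function.update W (d (m + 1)) x s = T j := by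
        intro j hj
        rw [← h1 j hj]
        apply sum_congr rfl
        intro s hs
        rw [mem_range] at hs
        have := Lives_mono (fun j hj => hc j (by omega)) hj (le_refl m)
        rw [Function.update_of_ne (by omega)]
      intro j hj
      rcases Nat.lt_or_ge j (m + 1) with hj' | hj'
      · exact h4 j (by omega)
      · obtain rfl : j = m + 1 := by omega
        rw [← sum_range_add_sum_Ico _ (show c m ≤ c (m + 1) by omega), h4 m le_rfl, ← hx1]
        congr 1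
        rw [← add_sum_erase _ _ (mem_Ico.2 hm), Function.update_self]
        congr 1
        apply sum_congr rfl
        intro s hs
        rw [Function.update_of_ne (ne_of_mem_erase hs)]
        apply h2
        intro j hj
        have h5 := mem_Ico.1 (mem_of_mem_erase hs)
        have h6 := hdc j hj
        have h7 := Lives_mono (fun j hj => hc j (by omega)) hj (le_refl m)
        omega
    · intro s hs
      rw [Function.update_of_ne (hs (m + 1) le_rfl)]
      exact h2 s (fun j hj => hs j (by omega))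
    · intro j hj
      rcases Nat.lt_or_ge j (m + 1) with hj' | hj'
      · have := hdd j (by omega)
        rw [Function.update_of_ne (by omega)]
        exact h3 j (by omega)
      · obtain rfl : j = m + 1 := by omega
        rw [Function.update_self]
        exact hx2

/-! ## the default lives -/

private def Lives_L0 (n H : ℕ) (cf : Bool → ℕ → List ℕ) (s k : ℕ) : ℕ :=
  if ph n s = 1 ∧ bb n s ∈ cf (ep n s) (aa n s) ∧ k = 0 then Fn H (ep n s) else 4 * n

private theorem Lives_L0_ge (h : Ass ν n H cf) (s k : ℕ) : 4 * n ≤ Lives_L0 n H cf s k := by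
  unfold Lives_L0
  split_ifs
  · have := (Lives_lam_le h h.hn (ep n s)).2.1
    omega
  · exact le_rfl

private theorem Lives_L0_le (h : Ass ν n H cf) (s k : ℕ) :
    Lives_L0 n H cf s k ≤ Fn H (ep n s) := by
  unfold Lives_L0
  split_ifs
  · exact le_rfl
  · have := (Lives_lam_le h h.hn (ep n s)).2.1
    omega

private theorem Lives_P_dvd_K (h : Ass ν n H cf) : ν ^ (4 * n + 2) ∣ K ν H := by
  have := (bounds h).2.2.2.1
  unfold K
  exact pow_dvd_pow _ (by omega)

private theorem Lives_P_dvd (h : Ass ν n H cf) : ν ^ (4 * n + 1) ∣ K ν H :=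
  (pow_dvd_pow _ (by omega)).trans (Lives_P_dvd_K h)

private theorem Lives_sum_dvd (h : Ass ν n H cf) (f : ℕ → ℕ) (hf : ∀ k < K ν H, 4 * n ≤ f k) :
    ν ^ (4 * n + 1) ∣ ∑ k ∈ range (K ν H), g ν (f k + 1) := by
  have h1 : ∑ k ∈ range (K ν H), g ν (f k + 1) = K ν H * g ν (4 * n + 1) +
      ν ^ (4 * n + 1) * ∑ k ∈ range (K ν H), g ν (f k - 4 * n) := by
    have h2 : ∀ k ∈ range (K ν H), g ν (f k + 1) =
        g ν (4 * n + 1) + ν ^ (4 * n + 1) * g ν (f k - 4 * n) := by
      intro k hk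
      have h3 := hf k (mem_range.1 hk)
      rw [← Lives_g_add]
      congr 1
      omega
    rw [sum_congr rfl h2, sum_add_distrib, sum_const, card_range, smul_eq_mul, mul_sum]
  rw [h1]
  exact dvd_add (Dvd.dvd.mul_right (Lives_P_dvd h) _) (Dvd.intro _ rfl)

private theorem Lives_w_dvd (h : Ass ν n H cf) {a : ℕ} (ha : a < n) (ε : Bool) (s : ℕ) :
    ν ^ (4 * n + 1) ∣ Wt ν n H (Lives_L0 n H cf) a ε s := by
  have hK := Lives_P_dvd h
  by_cases ho : lv n s = lam n a ε
  · have h1 := (lv_eq_iff.1 ho).2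
    rw [Wt_own _ h ha ε ho (fun k _ => h1 ▸ Lives_L0_le h s k)]
    exact dvd_add (Dvd.dvd.mul_right hK _) (Lives_sum_dvd h _ (fun k _ => Lives_L0_ge h s k))
  · rw [Wt_other _ h ha ε ho]
    split_ifs
    · exact Dvd.dvd.mul_right (Dvd.dvd.mul_left hK _) _
    · exact dvd_add (Dvd.dvd.mul_right (Dvd.dvd.mul_left hK _) _)
        (Dvd.dvd.mul_right (Dvd.dvd.mul_left hK _) _)

private def Lives_sm (ν n H : ℕ) : ℕ := (N ν n H + 3) * K ν H * g ν (4 * n + 1)

private theorem Lives_w_le_aux (h : Ass ν n H cf) {a : ℕ} (ha : a < n) (ε : Bool) (s Z : ℕ)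
    (hZ : lv n s = lam n a ε → ph n s = 1 → bb n s ∈ cf ε a → g ν (Fn H ε + 1) ≤ Z) :
    Wt ν n H (Lives_L0 n H cf) a ε s ≤ Lives_sm ν n H + Z := by
  have hg : g ν (lam n a ε + 1) ≤ g ν (4 * n + 1) :=
    Lives_g_mono ν (by have := lam_lt ha ε; omega)
  by_cases ho : lv n s = lam n a ε
  · obtain ⟨h1, h2⟩ := lv_eq_iff.1 ho
    rw [Wt_own _ h ha ε ho (fun k _ => h2 ▸ Lives_L0_le h s k)]
    have h3 : ∑ k ∈ range (K ν H), g ν (Lives_L0 n H cf s k + 1) ≤
        K ν H * g ν (4 * n + 1) + Z := by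
      have h4 : ∀ k ∈ range (K ν H), g ν (Lives_L0 n H cf s k + 1) ≤
          g ν (4 * n + 1) + if k = 0 then Z else 0 := by
        intro k _
        unfold Lives_L0
        split_ifs with h5 h6 h6
        · rw [h2, h1] at h5
          have := hZ ho h5.1 h5.2.1
          rw [h2]
          omega
        · exact absurd h5.2.2 h6
        · omega
        · omega
      refine (sum_le_sum h4).trans ?_
      rw [sum_add_distrib, sum_const, card_range, smul_eq_mul, sum_ite_eq']
      split_ifs <;> omega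
    have h5 : K ν H * g ν (lam n a ε + 1) ≤ K ν H * g ν (4 * n + 1) := Nat.mul_le_mul_left _ hg
    have h6 : Lives_sm ν n H = K ν H * g ν (4 * n + 1) + K ν H * g ν (4 * n + 1) +
        (N ν n H + 1) * (K ν H * g ν (4 * n + 1)) := by
      unfold Lives_sm
      ring
    omega
  · rw [Wt_other _ h ha ε ho]
    split_ifs with h1
    · have h5 : 2 * K ν H * g ν (lam n a ε + 1) ≤ 2 * K ν H * g ν (4 * n + 1) :=
        Nat.mul_le_mul_left _ hg
      have h6 : Lives_sm ν n H = 2 * K ν H * g ν (4 * n + 1) +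
          (N ν n H + 1) * (K ν H * g ν (4 * n + 1)) := by
        unfold Lives_sm
        ring
      omega
    · have h2 : g ν (lv n s + 1) ≤ g ν (4 * n + 1) :=
        Lives_g_mono ν (by have := lv_lt h.hn s; omega)
      have h3 : 2 * K ν H * g ν (lv n s + 1) ≤ 2 * K ν H * g ν (4 * n + 1) :=
        Nat.mul_le_mul_left _ h2
      have h4 : (N ν n H + 1) * K ν H * (g ν (lam n a ε + 1) - g ν (lv n s + 1)) ≤
          (N ν n H + 1) * K ν H * g ν (4 * n + 1) :=
        Nat.mul_le_mul_left _ (by omega)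
      have h6 : Lives_sm ν n H = 2 * K ν H * g ν (4 * n + 1) +
          (N ν n H + 1) * K ν H * g ν (4 * n + 1) := by
        unfold Lives_sm
        ring
      omega

private theorem Lives_w_le (h : Ass ν n H cf) {a : ℕ} (ha : a < n) (ε : Bool) (s : ℕ) :
    Wt ν n H (Lives_L0 n H cf) a ε s ≤ Lives_sm ν n H + ν * ν ^ Fn H ε := by
  apply Lives_w_le_aux h ha
  intro _ _ _
  have := Lives_g_le (ν := ν) (by have := h.hν; omega) (Fn H ε + 1)
  rwa [pow_succ'] at this

private theorem Lives_w_le' (h : Ass ν n H cf) {a : ℕ} (ha : a < n) (ε : Bool) (s : ℕ)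
    (hs : ¬ (lv n s = lam n a ε ∧ ph n s = 1 ∧ bb n s ∈ cf ε a)) :
    Wt ν n H (Lives_L0 n H cf) a ε s ≤ Lives_sm ν n H := by
  have := Lives_w_le_aux h ha ε s 0 (fun h1 h2 h3 => absurd ⟨h1, h2, h3⟩ hs)
  omega

/-! ## numerical bounds -/

private theorem Lives_num (h : Ass ν n H cf) (tl : ℕ → Bool) {a : ℕ} (ha : a < n) (ε : Bool) :
    ∃ E, B n * Lives_sm ν n H ≤ E ∧
      K ν H * g ν (lam n a ε + 1) + K ν H * g ν (4 * n + 1) ≤ E ∧ Gc ν n H ε ≤ E ∧
      Ec ν n H tl a ε ≤ E ∧ 9 * E ≤ ν ^ Fn H ε ∧ B n * ν + 7 ≤ X0 ν H := by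
  obtain ⟨hb1, hb2, hb3, hb4, hb5⟩ := bounds h
  obtain ⟨f1, f2, f3, f4⟩ := Lives_lam_le h ha ε
  have hν := h.hν
  have hpos : 0 < ν := by omega
  have pm : ∀ {i j : ℕ}, i ≤ j → ν ^ i ≤ ν ^ j := fun hij => Nat.pow_le_pow_right hpos hij
  have hN : N ν n H + 3 ≤ ν ^ (2 * H + 3) := by
    have h1 : ν ^ (2 * H + 3) = ν * ν ^ (2 * H + 2) := by rw [← pow_succ']
    have h2 : 3 * ν ^ (2 * H + 2) ≤ ν * ν ^ (2 * H + 2) := Nat.mul_le_mul_right _ hν
    omega
  have hG : g ν (4 * n + 1) ≤ ν ^ (H - 9) :=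
    (Lives_g_le (by omega) _).trans (pm (by omega))
  have hG' : g ν (lam n a ε + 1) ≤ ν ^ (H - 9) :=
    (Lives_g_mono ν (by have := lam_lt ha ε; omega)).trans hG
  have hsm : Lives_sm ν n H ≤ ν ^ (4 * H - 5) := by
    unfold Lives_sm
    calc (N ν n H + 3) * K ν H * g ν (4 * n + 1) ≤ ν ^ (2 * H + 3) * ν ^ (H + 1) * ν ^ (H - 9) := by
          unfold K
          gcongr
      _ = ν ^ (4 * H - 5) := by
          rw [← pow_add, ← pow_add]
          congr 1
          omega
  refine ⟨ν ^ (5 * H), ?_, ?_, ?_, ?_, ?_, ?_⟩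
  · calc B n * Lives_sm ν n H ≤ ν ^ H * ν ^ (4 * H - 5) := by gcongr
      _ = ν ^ (5 * H - 5) := by
          rw [← pow_add]
          congr 1
          omega
      _ ≤ ν ^ (5 * H) := pm (by omega)
  · have h1 : K ν H * g ν (lam n a ε + 1) ≤ ν ^ (2 * H) := by
      calc K ν H * g ν (lam n a ε + 1) ≤ ν ^ (H + 1) * ν ^ (H - 9) := by
            unfold K
            gcongr
        _ ≤ ν ^ (2 * H) := by
            rw [← pow_add]
            exact pm (by omega)
    have h2 : K ν H * g ν (4 * n + 1) ≤ ν ^ (2 * H) := by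
      calc K ν H * g ν (4 * n + 1) ≤ ν ^ (H + 1) * ν ^ (H - 9) := by
            unfold K
            gcongr
        _ ≤ ν ^ (2 * H) := by
            rw [← pow_add]
            exact pm (by omega)
    have h3 : ν * ν ^ (2 * H) ≤ ν ^ (5 * H) := by
      rw [← pow_succ']
      exact pm (by omega)
    have h4 : 3 * ν ^ (2 * H) ≤ ν * ν ^ (2 * H) := Nat.mul_le_mul_right _ hν
    omega
  · have h1 : N ν n H / ν ≤ N ν n H := Nat.div_le_self _ _
    have h2 : ν ^ (H - 2) ≤ ν ^ (2 * H + 2) := pm (by omega)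
    have h3 : ν * ν ^ (2 * H + 2) ≤ ν ^ (5 * H) := by
      rw [← pow_succ']
      exact pm (by omega)
    have h4 : 3 * ν ^ (2 * H + 2) ≤ ν * ν ^ (2 * H + 2) := Nat.mul_le_mul_right _ hν
    unfold Gc
    split_ifs
    · exact Nat.zero_le _
    · omega
  · have h2 : ν ^ H ≤ ν ^ (2 * H + 2) := pm (by omega)
    have h3 : ν * ν ^ (2 * H + 2) ≤ ν ^ (5 * H) := by
      rw [← pow_succ']
      exact pm (by omega)
    have h4 : 3 * ν ^ (2 * H + 2) ≤ ν * ν ^ (2 * H + 2) := Nat.mul_le_mul_right _ hν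
    have h5 : 0 < ν ^ H := pow_pos hpos _
    have h6 : X0 ν H + 1 = ν ^ H := by
      unfold X0
      omega
    unfold Ec
    split_ifs
    · have : (ν - 1) * (X0 ν H + 1) / ν ≤ X0 ν H + 1 := by
        apply Nat.div_le_of_le_mul
        exact Nat.mul_le_mul_right _ (by omega)
      omega
    · omega
    · have : (X0 ν H + N ν n H + 1) / ν ≤ X0 ν H + N ν n H + 1 := Nat.div_le_self _ _
      omega
  · calc 9 * ν ^ (5 * H) ≤ ν ^ 2 * ν ^ (5 * H) := by
          apply Nat.mul_le_mul_right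
          nlinarith
      _ = ν ^ (2 + 5 * H) := by rw [← pow_add]
      _ ≤ ν ^ Fn H ε := pm (by omega)
  · have h1 : B n ≤ H := by
      have := h.hH
      unfold B
      omega
    have h2 : 6 ≤ B n := by
      have := h.hn
      unfold B
      nlinarith
    have h3 : ν ^ H = ν * ν ^ (H - 1) := by
      rw [← pow_succ']
      congr 1
      omega
    have h4 : ν * (8 * B n) ≤ ν * ν ^ (H - 1) := Nat.mul_le_mul_left _ (by omega)
    have h5 : 18 ≤ B n * ν := by nlinarith
    have h6 : ν * (8 * B n) = 8 * (B n * ν) := by ring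
    unfold X0
    omega

private theorem Lives_dvd_div {P y : ℕ} (hν : 0 < ν) (hy : P * ν ∣ y) : P ∣ y / ν := by
  obtain ⟨z, rfl⟩ := hy
  rw [mul_comm P ν, mul_assoc, Nat.mul_div_cancel_left _ hν]
  exact Dvd.intro _ rfl

private theorem Lives_dvd_cst (h : Ass ν n H cf) (tl : ℕ → Bool) (a : ℕ) (ε : Bool) :
    ν ^ (4 * n + 1) ∣ Gc ν n H ε ∧ ν ^ (4 * n + 1) ∣ Ec ν n H tl a ε := by
  obtain ⟨hb1, hb2, hb3, hb4, hb5⟩ := bounds h
  have hν := h.hν
  have hpos : 0 < ν := by omega
  have hN : ν ^ (4 * n + 1) * ν ∣ N ν n H := by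
    rw [← pow_succ]
    exact (pow_dvd_pow _ (by omega)).trans K_dvd_N
  have hX : X0 ν H + 1 = ν ^ H := by
    have h5 : 0 < ν ^ H := pow_pos hpos _
    unfold X0
    omega
  have hH : ν ^ (4 * n + 1) * ν ∣ ν ^ H := by
    rw [← pow_succ]
    exact pow_dvd_pow _ (by omega)
  constructor
  · unfold Gc
    split_ifs
    · exact dvd_zero _
    · exact dvd_add (pow_dvd_pow _ (by omega)) (Lives_dvd_div hpos hN)
  · unfold Ec
    split_ifs
    · apply Lives_dvd_div hpos
      rw [hX]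
      exact Dvd.dvd.mul_left hH _
    · rw [hX]
      exact (Dvd.intro _ rfl : ν ^ (4 * n + 1) ∣ ν ^ (4 * n + 1) * ν).trans hH
    · apply Lives_dvd_div hpos
      rw [show X0 ν H + N ν n H + 1 = ν ^ H + N ν n H by omega]
      exact dvd_add hH hN

/-! ## one key -/

/-- `x` is the weight of a superblock of the key with suitable lives -/
private def Lives_good (ν n H a : ℕ) (ε : Bool) (x : ℕ) : Prop :=
  ∃ f : ℕ → ℕ, (∀ k < K ν H, 4 * n ≤ f k ∧ f k < Fn H ε) ∧
    K ν H * g ν (lam n a ε + 1) + ∑ k ∈ range (K ν H), g ν (f k + 1) = x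

private theorem Lives_good_of (h : Ass ν n H cf) {a : ℕ} (ha : a < n) (ε : Bool) {x : ℕ}
    (h1 : ν ^ (4 * n + 1) ∣ x)
    (h2 : K ν H * g ν (lam n a ε + 1) + K ν H * g ν (4 * n + 1) ≤ x)
    (h3 : x ≤ ν ^ Fn H ε * X0 ν H) : Lives_good ν n H a ε x := by
  obtain ⟨hb1, hb2, hb3, hb4, hb5⟩ := bounds h
  obtain ⟨f1, f2, f3, f4⟩ := Lives_lam_le h ha ε
  have hν := h.hν
  have hpos : 0 < ν := by omega
  have hP := Lives_P_dvd h
  obtain ⟨f, hf1, hf2⟩ := exists_lives ν (by omega) (4 * n) (Fn H ε) (K ν H)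
    (x - K ν H * g ν (lam n a ε + 1)) (X0 ν H) f2 (by omega)
    (Nat.dvd_sub (Nat.dvd_sub h1 (Dvd.dvd.mul_right hP _)) (Dvd.dvd.mul_right hP _))
    (by omega) (by
      obtain ⟨r, rfl⟩ : ∃ r, ν = r + 1 := ⟨ν - 1, by omega⟩
      have hK : K (r + 1) H = (r + 1) ^ 2 * (r + 1) ^ (H - 1) := by
        unfold K
        rw [← pow_add]
        congr 1
        omega
      have hX : X0 (r + 1) H + 1 = (r + 1) * (r + 1) ^ (H - 1) := by
        have h5 : 0 < (r + 1) ^ H := pow_pos hpos _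
        rw [← pow_succ', show H - 1 + 1 = H by omega]
        unfold X0
        omega
      rw [hK, Nat.mul_div_cancel_left _ (by positivity)]
      generalize (r + 1) ^ (H - 1) = q at *
      have h6 : Fn H ε + 1 ≤ q := by omega
      have h7 : r * (Fn H ε + 1) ≤ r * q := Nat.mul_le_mul_left _ h6
      have h8 : r * (X0 (r + 1) H + 1) = r * ((r + 1) * q) := by rw [hX]
      have h9 : (r + 1) ^ 2 * q = r * ((r + 1) * q) + r * q + q := by ring
      rw [h9, ← h8, Nat.add_sub_cancel]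
      rw [mul_add] at h7
      rw [mul_add]
      omega)
  exact ⟨f, hf1, by omega⟩

/-- the properties of the lives which concern one key -/
private structure Lives_Key (ν n H : ℕ) (cf : Bool → ℕ → List ℕ) (tl : ℕ → Bool) (a : ℕ)
    (ε : Bool) (L : ℕ → ℕ → ℕ) : Prop where
  ge : ∀ s < B n, ∀ k < K ν H, lv n s = lam n a ε → 4 * n ≤ L s k
  content : ∀ s < B n, lv n s = lam n a ε → ph n s = 1 → bb n s ∈ cf ε a → L s 0 = Fn H ε
  lt : ∀ s < B n, ∀ k < K ν H, lv n s = lam n a ε →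
    ¬ (ph n s = 1 ∧ bb n s ∈ cf ε a ∧ k = 0) → L s k < Fn H ε
  short : ∀ s < B n, lv n s = lam n a ε → ph n s = 1 → ∀ k < K ν H,
    (k ≠ 0 ∨ bb n s ∉ cf ε a) → L s k = 4 * n
  none : ∀ s < B n, lv n s = lam n a ε → cf ε a = [] → ∀ k < K ν H, L s k = 4 * n
  sum : ∀ j b, (cf ε a)[j]? = some b →
    ∑ s ∈ range (idx n ε b 1 a), Wt ν n H L a ε s + Gc ν n H ε =
      ν ^ Fn H ε * (j * X0 ν H + 1)
  tot : cf ε a ≠ [] →
    ∑ s ∈ range (B n), Wt ν n H L a ε s + Ec ν n H tl a ε =
      ν ^ Fn H ε * ((cf ε a).length * X0 ν H)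

private theorem Lives_Key_nil (h : Ass ν n H cf) (tl : ℕ → Bool) {a : ℕ} (ha : a < n) (ε : Bool)
    (hcf : cf ε a = []) : Lives_Key ν n H cf tl a ε fun _ _ => 4 * n := by
  obtain ⟨f1, f2, f3, f4⟩ := Lives_lam_le h ha ε
  constructor
  · intro s _ k _ _
    exact le_rfl
  · intro s _ _ _ hb
    rw [hcf] at hb
    simp at hb
  · intro s _ k _ _ _
    show 4 * n < _
    omega
  · intro s _ _ _ k _ _
    rfl
  · intro s _ _ _ k _
    rfl
  · intro j b hb
    rw [hcf] at hb
    simp at hb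
  · intro hne
    exact absurd hcf hne

private theorem Lives_Key_cons (h : Ass ν n H cf) (tl : ℕ → Bool) {a : ℕ} (ha : a < n)
    (ε : Bool) (hcf : cf ε a ≠ []) : ∃ L, Lives_Key ν n H cf tl a ε L := by
  classical
  obtain ⟨f1, f2, f3, f4⟩ := Lives_lam_le h ha ε
  obtain ⟨E, hE1, hE2, hE3, hE4, hE5, hE6⟩ := Lives_num h tl ha ε
  obtain ⟨hG, hEc⟩ := Lives_dvd_cst h tl a ε
  have hD : ν ^ (4 * n + 1) ∣ ν ^ Fn H ε := pow_dvd_pow _ (by omega)
  set D := ν ^ Fn H ε with hDdef
  obtain ⟨m, hm⟩ : ∃ m, m = (cf ε a).length := ⟨_, rfl⟩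
  have hm0 : 0 < m := by
    rw [hm]
    exact List.length_pos_iff.2 hcf
  obtain ⟨b, hb⟩ : ∃ b : ℕ → ℕ, ∀ j < m, (cf ε a)[j]? = some (b j) := by
    refine ⟨fun j => (cf ε a).getD j 0, fun j hj => ?_⟩
    show (cf ε a)[j]? = some ((cf ε a).getD j 0)
    rw [List.getD_eq_getElem?_getD, List.getElem?_eq_getElem (hm ▸ hj)]
    rfl
  have hbmem : ∀ j < m, b j ∈ cf ε a := fun j hj => List.mem_of_getElem? (hb j hj)
  have hbn : ∀ j < m, b j < n := fun j hj => h.lt ε a _ (hbmem j hj)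
  have hblt : ∀ i j, i < j → j < m → b i < b j := by
    intro i j hij hj
    have h1 := List.pairwise_iff_getElem.1 (h.sorted ε a) i j (by omega) (by omega) hij
    have h2 := hb i (by omega)
    have h3 := hb j hj
    rw [List.getElem?_eq_getElem (by omega)] at h2 h3
    simp only [Option.some.injEq] at h2 h3
    rwa [h2, h3] at h1
  have hmemb : ∀ x ∈ cf ε a, ∃ j < m, x = b j := by
    intro x hx
    obtain ⟨j, hj1, hj2⟩ := List.getElem_of_mem hx
    refine ⟨j, by omega, ?_⟩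
    have h2 := hb j (by omega)
    rw [List.getElem?_eq_getElem hj1] at h2
    simp only [Option.some.injEq] at h2
    rw [← h2, hj2]
  obtain ⟨c, hc1, hc2⟩ : ∃ c : ℕ → ℕ, (∀ j < m, c j = idx n ε (b j) 1 a) ∧ c m = B n :=
    ⟨fun j => if j < m then idx n ε (b j) 1 a else B n, fun j hj => if_pos hj,
      if_neg (lt_irrefl m)⟩
  obtain ⟨d, hd0, hd1⟩ : ∃ d : ℕ → ℕ, d 0 = idx n ε (b 0) 0 a ∧
      ∀ j, d (j + 1) = idx n ε (b j) 2 a :=
    ⟨fun j => if j = 0 then idx n ε (b 0) 0 a else idx n ε (b (j - 1)) 2 a, if_pos rfl,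
      fun j => if_neg (by omega)⟩
  obtain ⟨T, hT1, hT2⟩ : ∃ T : ℕ → ℕ, (∀ j < m, T j + Gc ν n H ε = D * (j * X0 ν H + 1)) ∧
      T m + Ec ν n H tl a ε = D * (m * X0 ν H) := by
    refine ⟨fun j => if j < m then D * (j * X0 ν H + 1) - Gc ν n H ε
      else D * (m * X0 ν H) - Ec ν n H tl a ε, ?_, ?_⟩
    · intro j hj
      simp only [if_pos hj]
      have : D * 1 ≤ D * (j * X0 ν H + 1) := Nat.mul_le_mul_left _ (by omega)
      omega
    · simp only [lt_irrefl, if_false]
      have h1 : 1 ≤ m * X0 ν H := Nat.mul_pos hm0 (by omega)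
      have : D * 1 ≤ D * (m * X0 ν H) := Nat.mul_le_mul_left _ h1
      omega
  have hTd1 : ∀ j < m, ν ^ (4 * n + 1) ∣ T j := by
    intro j hj
    have h1 : ν ^ (4 * n + 1) ∣ T j + Gc ν n H ε := by
      rw [hT1 j hj]
      exact Dvd.dvd.mul_right hD _
    exact (Nat.dvd_add_iff_left hG).2 h1
  have hTd2 : ν ^ (4 * n + 1) ∣ T m := by
    have h1 : ν ^ (4 * n + 1) ∣ T m + Ec ν n H tl a ε := by
      rw [hT2]
      exact Dvd.dvd.mul_right hD _
    exact (Nat.dvd_add_iff_left hEc).2 h1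
  have hTd : ∀ j ≤ m, ν ^ (4 * n + 1) ∣ T j := by
    intro j hj
    rcases Nat.lt_or_ge j m with h1 | h1
    · exact hTd1 j h1
    · obtain rfl : j = m := by omega
      exact hTd2
  have hT0 : T 0 + Gc ν n H ε = D := by
    rw [hT1 0 hm0]
    ring
  have hTs : ∀ j < m, T j + D * X0 ν H ≤ T (j + 1) + D + Ec ν n H tl a ε ∧
      T (j + 1) ≤ T j + D * X0 ν H := by
    intro j hj
    have h1 := hT1 j hj
    have h2 : D * (j * X0 ν H + 1) = D * (j * X0 ν H) + D := by ring
    have h3 : D * ((j + 1) * X0 ν H) = D * (j * X0 ν H) + D * X0 ν H := by ring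
    rcases Nat.lt_or_ge (j + 1) m with h4 | h4
    · have h5 := hT1 (j + 1) h4
      have h6 : D * ((j + 1) * X0 ν H + 1) = D * (j * X0 ν H) + D * X0 ν H + D := by ring
      omega
    · obtain h5 : j + 1 = m := by omega
      have h6 := hT2
      rw [← h5] at h6
      omega
  have hcle : ∀ j ≤ m, c j ≤ B n := by
    intro j hj
    rcases Nat.lt_or_ge j m with h1 | h1
    · rw [hc1 j h1]
      exact (idx_lt ε (hbn j h1) (by omega)).le
    · obtain rfl : j = m := by omega
      exact hc2.le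
  have hw1 : ∀ S : Finset ℕ, (∀ s ∈ S, s < B n) →
      ∑ s ∈ S, Wt ν n H (Lives_L0 n H cf) a ε s ≤ E + B n * ν * D := by
    intro S hS
    have h1 : S.card ≤ B n := by
      have : S ⊆ range (B n) := fun s hs => mem_range.2 (hS s hs)
      simpa using card_le_card this
    calc ∑ s ∈ S, Wt ν n H (Lives_L0 n H cf) a ε s ≤ S.card • (Lives_sm ν n H + ν * D) :=
          sum_le_card_nsmul _ _ _ (fun s _ => Lives_w_le h ha ε s)
      _ ≤ B n * (Lives_sm ν n H + ν * D) := by
          rw [smul_eq_mul]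
          exact Nat.mul_le_mul_right _ h1
      _ ≤ E + B n * ν * D := by
          rw [mul_add, ← mul_assoc]
          omega
  have hw0 : ∑ s ∈ (range (c 0)).erase (d 0), Wt ν n H (Lives_L0 n H cf) a ε s ≤ E := by
    have h1 : ((range (c 0)).erase (d 0)).card ≤ B n := by
      have h2 := card_erase_le (s := range (c 0)) (a := d 0)
      have h3 := hcle 0 (by omega)
      rw [card_range] at h2
      omega
    have h4 : ∀ s ∈ (range (c 0)).erase (d 0),
        Wt ν n H (Lives_L0 n H cf) a ε s ≤ Lives_sm ν n H := by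
      intro s hs
      apply Lives_w_le' h ha ε
      rintro ⟨h5, h6, h7⟩
      have h8 := mem_range.1 (mem_of_mem_erase hs)
      have h9 := hcle 0 (by omega)
      obtain ⟨i1, i2, i3, i4⟩ := idx_data h.hn (show s < B n by omega)
      obtain ⟨j1, j2⟩ := lv_eq_iff.1 h5
      rw [j1, j2, h6] at i1
      rw [hc1 0 hm0, ← i1, idx_lt_idx ε ha ha (by omega) (by omega) i2 (hbn 0 hm0)] at h8
      obtain ⟨j, hj1, hj2⟩ := hmemb _ h7
      rcases j with _ | j
      · omega
      · have := hblt 0 (j + 1) (by omega) hj1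
        omega
    calc ∑ s ∈ (range (c 0)).erase (d 0), Wt ν n H (Lives_L0 n H cf) a ε s
        ≤ ((range (c 0)).erase (d 0)).card • Lives_sm ν n H := sum_le_card_nsmul _ _ _ h4
      _ ≤ B n * Lives_sm ν n H := by
          rw [smul_eq_mul]
          exact Nat.mul_le_mul_right _ h1
      _ ≤ E := hE1
  have hDX : D * (B n * ν + 7) ≤ D * X0 ν H := Nat.mul_le_mul_left _ hE6
  have hDX' : D * (B n * ν + 7) = B n * ν * D + 7 * D := by ring
  obtain ⟨W, hW1, hW2, hW3⟩ := Lives_prefix (Wt ν n H (Lives_L0 n H cf) a ε) c d T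
    (Lives_good ν n H a ε) m
    (by
      rw [hc1 0 hm0, hd0, idx_lt_idx ε ha ha (by omega) (by omega) (hbn 0 hm0) (hbn 0 hm0)]
      omega)
    (by
      intro j hj
      rw [hc1 j hj, hd1 j]
      constructor
      · apply le_of_lt
        rw [idx_lt_idx ε ha ha (by omega) (by omega) (hbn j hj) (hbn j hj)]
        omega
      · rcases Nat.lt_or_ge (j + 1) m with h4 | h4
        · rw [hc1 (j + 1) h4,
            idx_lt_idx ε ha ha (by omega) (by omega) (hbn j hj) (hbn (j + 1) h4)]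
          left
          exact hblt j (j + 1) (by omega) h4
        · obtain h5 : j + 1 = m := by omega
          rw [h5, hc2]
          exact idx_lt ε (hbn j hj) (by omega))
    (by
      refine ⟨T 0 - ∑ s ∈ (range (c 0)).erase (d 0), Wt ν n H (Lives_L0 n H cf) a ε s, ?_, ?_⟩
      · omega
      · apply Lives_good_of h ha ε
        · exact Nat.dvd_sub (hTd 0 (by omega)) (dvd_sum fun s _ => Lives_w_dvd h ha ε s)
        · omega
        · rw [← hDdef]
          omega)
    (by
      intro j hj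
      have h1 := hw1 ((Ico (c j) (c (j + 1))).erase (d (j + 1))) (by
        intro s hs
        have h2 := mem_Ico.1 (mem_of_mem_erase hs)
        have h3 := hcle (j + 1) (by omega)
        omega)
      obtain ⟨h2, h3⟩ := hTs j hj
      refine ⟨T (j + 1) - T j - ∑ s ∈ (Ico (c j) (c (j + 1))).erase (d (j + 1)),
        Wt ν n H (Lives_L0 n H cf) a ε s, ?_, ?_⟩
      · omega
      · apply Lives_good_of h ha ε
        · exact Nat.dvd_sub (Nat.dvd_sub (hTd (j + 1) (by omega)) (hTd j (by omega)))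
            (dvd_sum fun s _ => Lives_w_dvd h ha ε s)
        · omega
        · rw [← hDdef]
          omega)
  have hch : ∀ s, ∃ f : ℕ → ℕ, (∃ j ≤ m, s = d j) →
      ((∀ k < K ν H, 4 * n ≤ f k ∧ f k < Fn H ε) ∧
        K ν H * g ν (lam n a ε + 1) + ∑ k ∈ range (K ν H), g ν (f k + 1) = W s) := by
    intro s
    by_cases h1 : ∃ j ≤ m, s = d j
    · obtain ⟨j, hj1, hj2⟩ := h1
      obtain ⟨f, hf⟩ := hW3 j hj1
      rw [← hj2] at hf
      exact ⟨f, fun _ => hf⟩
    · exact ⟨fun _ => 0, fun h2 => absurd h2 h1⟩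
  choose f hf using hch
  have hdl : ∀ j ≤ m, lv n (d j) = lam n a ε ∧ ph n (d j) ≠ 1 := by
    intro j hj
    rcases j with _ | j
    · rw [hd0, ph_idx ε (hbn 0 hm0) (by omega) ha]
      refine ⟨lv_eq_iff.2 ⟨aa_idx ε (hbn 0 hm0) (by omega) ha, ep_idx ε (hbn 0 hm0) (by omega) ha⟩,
        by omega⟩
    · have h1 := hbn j (by omega)
      rw [hd1, ph_idx ε h1 (by omega) ha]
      exact ⟨lv_eq_iff.2 ⟨aa_idx ε h1 (by omega) ha, ep_idx ε h1 (by omega) ha⟩, by omega⟩
  obtain ⟨L, hL1, hL2⟩ : ∃ L : ℕ → ℕ → ℕ, (∀ s, (∃ j ≤ m, s = d j) → ∀ k, L s k = f s k) ∧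
      ∀ s, ¬ (∃ j ≤ m, s = d j) → ∀ k, L s k = Lives_L0 n H cf s k :=
    ⟨fun s k => if ∃ j ≤ m, s = d j then f s k else Lives_L0 n H cf s k,
      fun s hs k => if_pos hs, fun s hs k => if_neg hs⟩
  have hWt : ∀ s, Wt ν n H L a ε s = W s := by
    intro s
    by_cases h1 : ∃ j ≤ m, s = d j
    · obtain ⟨h2, h3⟩ := hf s h1
      have h4 : lv n s = lam n a ε := by
        obtain ⟨j, hj1, rfl⟩ := h1
        exact (hdl j hj1).1
      rw [Wt_own L h ha ε h4 (fun k hk => by
        rw [hL1 s h1]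
        exact (h2 k hk).2.le), ← h3]
      congr 1
      apply sum_congr rfl
      intro k _
      rw [hL1 s h1]
    · rw [hW2 s (fun j hj hs => h1 ⟨j, hj, hs⟩)]
      by_cases h4 : lv n s = lam n a ε
      · have h5 : ∀ k < K ν H, Lives_L0 n H cf s k ≤ Fn H ε := fun k _ =>
          (lv_eq_iff.1 h4).2 ▸ Lives_L0_le h s k
        rw [Wt_own _ h ha ε h4 h5, Wt_own L h ha ε h4 (fun k hk => by
          rw [hL2 s h1]
          exact h5 k hk)]
        congr 1
        apply sum_congr rfl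
        intro k _
        rw [hL2 s h1]
      · rw [Wt_other _ h ha ε h4, Wt_other _ h ha ε h4]
  refine ⟨L, ?_, ?_, ?_, ?_, ?_, ?_, ?_⟩
  · intro s _ k hk _
    by_cases h1 : ∃ j ≤ m, s = d j
    · rw [hL1 s h1]
      exact ((hf s h1).1 k hk).1
    · rw [hL2 s h1]
      exact Lives_L0_ge h s k
  · intro s _ h4 h5 h6
    obtain ⟨j1, j2⟩ := lv_eq_iff.1 h4
    have h1 : ¬ ∃ j ≤ m, s = d j := by
      rintro ⟨j, hj1, rfl⟩
      exact (hdl j hj1).2 h5
    rw [hL2 s h1]
    unfold Lives_L0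
    rw [j1, j2, if_pos ⟨h5, h6, rfl⟩]
  · intro s _ k hk h4 h5
    obtain ⟨j1, j2⟩ := lv_eq_iff.1 h4
    by_cases h1 : ∃ j ≤ m, s = d j
    · rw [hL1 s h1]
      exact ((hf s h1).1 k hk).2
    · rw [hL2 s h1]
      unfold Lives_L0
      rw [j1, j2, if_neg h5]
      omega
  · intro s _ h4 h5 k hk h6
    obtain ⟨j1, j2⟩ := lv_eq_iff.1 h4
    have h1 : ¬ ∃ j ≤ m, s = d j := by
      rintro ⟨j, hj1, rfl⟩
      exact (hdl j hj1).2 h5
    rw [hL2 s h1]
    unfold Lives_L0
    rw [j1, j2, if_neg]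
    rintro ⟨_, h7, h8⟩
    rcases h6 with h6 | h6
    · exact h6 h8
    · exact h6 h7
  · intro s _ _ h5
    exact absurd h5 hcf
  · intro j x hx
    have hj : j < m := by
      rw [hm]
      exact (List.getElem?_eq_some_iff.1 hx).1
    have hbx : x = b j := by
      rw [hb j hj] at hx
      simpa using hx.symm
    rw [sum_congr rfl (fun s _ => hWt s), hbx, ← hc1 j hj, hW1 j hj.le]
    exact hT1 j hj
  · intro _
    rw [sum_congr rfl (fun s _ => hWt s), ← hc2, hW1 m le_rfl, ← hm]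
    exact hT2

private theorem Lives_Key_exists (h : Ass ν n H cf) (tl : ℕ → Bool) (a : ℕ) (ε : Bool) :
    ∃ L, a < n → Lives_Key ν n H cf tl a ε L := by
  by_cases ha : a < n
  · by_cases hcf : cf ε a = []
    · exact ⟨_, fun _ => Lives_Key_nil h tl ha ε hcf⟩
    · obtain ⟨L, hL⟩ := Lives_Key_cons h tl ha ε hcf
      exact ⟨L, fun _ => hL⟩
  · exact ⟨fun _ _ => 0, fun h1 => absurd h1 ha⟩

theorem exists_L (h : Ass ν n H cf) (tl : ℕ → Bool) : ∃ L, Lives ν n H cf tl L := by
  choose Lk hLk using Lives_Key_exists h tl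
  have haa : ∀ s, aa n s < n := by
    intro s
    have := h.hn
    unfold aa
    omega
  have key : ∀ s, Lives_Key ν n H cf tl (aa n s) (ep n s) (Lk (aa n s) (ep n s)) :=
    fun s => hLk _ _ (haa s)
  have hWt : ∀ a < n, ∀ ε, ∀ s < B n,
      Wt ν n H (fun s k => Lk (aa n s) (ep n s) s k) a ε s = Wt ν n H (Lk a ε) a ε s := by
    intro a ha ε s hs
    by_cases h4 : lv n s = lam n a ε
    · obtain ⟨j1, j2⟩ := lv_eq_iff.1 h4
      have h5 : ∀ k < K ν H, Lk a ε s k ≤ Fn H ε := by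
        intro k hk
        by_cases h6 : ph n s = 1 ∧ bb n s ∈ cf ε a ∧ k = 0
        · rw [h6.2.2, (hLk a ε ha).content s hs h4 h6.1 h6.2.1]
        · exact ((hLk a ε ha).lt s hs k hk h4 h6).le
      rw [Wt_own _ h ha ε h4 h5, Wt_own _ h ha ε h4 (by rw [j1, j2]; exact h5), j1, j2]
    · rw [Wt_other _ h ha ε h4, Wt_other _ h ha ε h4]
  refine ⟨fun s k => Lk (aa n s) (ep n s) s k, ?_, ?_, ?_, ?_, ?_, ?_, ?_⟩
  · intro s hs k hk
    exact (key s).ge s hs k hk rfl
  · intro s hs h1 h2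
    exact (key s).content s hs rfl h1 h2
  · intro s hs k hk h1
    exact (key s).lt s hs k hk rfl h1
  · intro s hs h1 k hk h2
    exact (key s).short s hs rfl h1 k hk h2
  · intro s hs h1 k hk
    exact (key s).none s hs rfl h1 k hk
  · intro ε a ha j b hb
    rw [← (hLk a ε ha).sum j b hb]
    congr 1
    apply sum_congr rfl
    intro s hs
    apply hWt a ha ε s
    have h1 : b < n := h.lt ε a b (List.mem_of_getElem? hb)
    have h2 := idx_lt (a := a) ε h1 (show 1 < 3 by omega)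
    have h3 := mem_range.1 hs
    omega
  · intro ε a ha hne
    rw [← (hLk a ε ha).tot hne]
    congr 1
    apply sum_congr rfl
    intro s hs
    exact hWt a ha ε s (mem_range.1 hs)

end Pool.Agent.Lib.MP_b40757_lc.Tab
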