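import Pool.Agent.Lib.MP_b40757_lc.TabIdx

set_option autoImplicit false

/-!
# The table: positions of the entries
-/

namespace Pool.Agent.Lib.MP_b40757_lc.Tab

open Finset

variable {ν n H : ℕ} {cf : Bool → ℕ → List ℕ}

/-- lower end of the phase -/
private def plo (c p : ℕ) : ℕ := if p = 0 then 0 else if p = 1 then c else c + 2

/-- upper end of the phase -/
private def phi' (c p : ℕ) : ℕ := if p = 0 then c else if p = 1 then c + 2 else 2 * c + 2

private theorem Fn_le (ε : Bool) : Fn H ε ≤ 8 * H - 1 ∧ 8 * H - 2 ≤ Fn H ε := by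
  unfold Fn M
  cases ε <;> simp <;> omega

private theorem len_le (h : Ass ν n H cf) (ε : Bool) :
    2 * K ν H * ν ^ (4 * n + 1) ≤ ν ^ Fn H ε := by
  have hν := h.hν
  have hH := h.hH
  have hF := (Fn_le (H := H) ε).2
  have h1 : 2 * K ν H * ν ^ (4 * n + 1) ≤ ν * ν ^ (H + 1) * ν ^ (4 * n + 1) := by
    unfold K
    gcongr
    omega
  have h2 : ν * ν ^ (H + 1) * ν ^ (4 * n + 1) = ν ^ (1 + (H + 1) + (4 * n + 1)) := by
    rw [pow_add ν (1 + (H + 1)) (4 * n + 1), pow_add ν 1 (H + 1), pow_one]
  refine h1.trans ?_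
  rw [h2]
  apply Nat.pow_le_pow_right (by omega)
  omega

/-- the superblock in coordinates -/
private theorem base_coord (h : Ass ν n H cf) {s : ℕ} (hs : s < B n) :
    ∃ y, xi ν n H (bb n s) = y + ν + 2 * K ν H * n ∧
      (ph n s = 0 → base ν n H s = Off ν H (ep n s) + ν ^ Fn H (ep n s) *
        (y + 2 * K ν H * (s % n))) ∧
      (ph n s = 1 → base ν n H s + fine ν n H (aa n s) (ep n s) =
        Off ν H (ep n s) + ν ^ Fn H (ep n s) * (y + ν + 2 * K ν H * n)) ∧
      (ph n s = 2 → base ν n H s = Off ν H (ep n s) + ν ^ Fn H (ep n s) *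
        (y + 2 * K ν H * n + 2 + 2 * K ν H * (s % n))) := by
  obtain ⟨-, hb, hp, ha⟩ := idx_data h.hn hs
  obtain ⟨h1, -, -⟩ := xi_bounds h hb
  obtain ⟨y, hy⟩ : ∃ y, xi ν n H (bb n s) = y + ν + 2 * K ν H * n :=
    ⟨xi ν n H (bb n s) - (ν + 2 * K ν H * n), by omega⟩
  have hmod : s % n < n := Nat.mod_lt _ h.hn
  refine ⟨y, hy, ?_, ?_, ?_⟩
  · intro hp0
    unfold base
    rw [if_pos hp0, hy]
    congr 2
    have h2 : 2 * K ν H * n = 2 * K ν H * (n - s % n) + 2 * K ν H * (s % n) := by
      rw [← Nat.mul_add]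
      congr 1
      omega
    omega
  · intro hp1
    unfold base
    rw [if_neg (by omega), if_pos hp1, hy]
    apply Nat.sub_add_cancel
    have h3 := (fine_bounds h ha (ep n s)).2
    have h4 : ν ^ (Fn H (ep n s) + 1) ≤ ν ^ Fn H (ep n s) * (y + ν + 2 * K ν H * n) := by
      rw [pow_succ]
      apply Nat.mul_le_mul_left
      omega
    omega
  · intro hp2
    unfold base
    rw [if_neg (by omega), if_neg (by omega), hy]
    congr 2
    omega

private theorem base_bounds (h : Ass ν n H cf) {s y : ℕ} (hs : s < B n)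
    (hy : xi ν n H (bb n s) = y + ν + 2 * K ν H * n) :
    Off ν H (ep n s) + ν ^ Fn H (ep n s) * (y + plo (2 * K ν H * n) (ph n s)) ≤ base ν n H s ∧
    base ν n H s + 2 * K ν H * ν ^ gu n H s ≤
      Off ν H (ep n s) + ν ^ Fn H (ep n s) * (y + phi' (2 * K ν H * n) (ph n s)) := by
  obtain ⟨-, hb, hp, ha⟩ := idx_data h.hn hs
  obtain ⟨y', hy', h0, h1, h2⟩ := base_coord h hs
  have hyy : y' = y := by omega
  subst hyy
  have hmod : s % n < n := Nat.mod_lt _ h.hn
  have hmul : 2 * K ν H * (s % n) + 2 * K ν H ≤ 2 * K ν H * n := by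
    have : 2 * K ν H * (s % n) + 2 * K ν H = 2 * K ν H * (s % n + 1) := by ring
    rw [this]
    exact Nat.mul_le_mul_left _ hmod
  have hcases : ph n s = 0 ∨ ph n s = 1 ∨ ph n s = 2 := by omega
  rcases hcases with hp | hp | hp
  · have g0 : gu n H s = Fn H (ep n s) := if_neg (by omega)
    have p0 : plo (2 * K ν H * n) 0 = 0 := rfl
    have p1 : phi' (2 * K ν H * n) 0 = 2 * K ν H * n := rfl
    rw [hp, h0 hp, g0, p0, p1]
    refine ⟨?_, ?_⟩
    · apply Nat.add_le_add_left
      apply Nat.mul_le_mul_left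
      omega
    · have e : Off ν H (ep n s) + ν ^ Fn H (ep n s) * (y' + 2 * K ν H * (s % n)) +
          2 * K ν H * ν ^ Fn H (ep n s) =
          Off ν H (ep n s) + ν ^ Fn H (ep n s) * (y' + (2 * K ν H * (s % n) + 2 * K ν H)) := by
        ring
      rw [e]
      apply Nat.add_le_add_left
      apply Nat.mul_le_mul_left
      omega
  · have hb1 := h1 hp
    have hf := fine_bounds h ha (ep n s)
    have hl := len_le h (ep n s)
    have g0 : gu n H s = 4 * n + 1 := if_pos hp
    have p0 : plo (2 * K ν H * n) 1 = 2 * K ν H * n := rfl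
    have p1 : phi' (2 * K ν H * n) 1 = 2 * K ν H * n + 2 := rfl
    rw [hp, g0, p0, p1]
    set P := ν ^ Fn H (ep n s) with hP
    have e1 : ν ^ (Fn H (ep n s) + 1) = P * ν := by rw [pow_succ]
    rw [e1] at hf
    have e2 : P * (y' + ν + 2 * K ν H * n) = P * (y' + 2 * K ν H * n) + P * ν := by ring
    have e3 : P * (y' + (2 * K ν H * n + 2)) = P * (y' + 2 * K ν H * n) + P + P := by ring
    have hν := h.hν
    have e4 : P * ν = (ν - 1) * P + P := by
      obtain ⟨m, rfl⟩ : ∃ m, ν = m + 1 := ⟨ν - 1, by omega⟩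
      rw [Nat.add_sub_cancel]
      ring
    rw [e2] at hb1
    rw [e3]
    omega
  · have g0 : gu n H s = Fn H (ep n s) := if_neg (by omega)
    have p0 : plo (2 * K ν H * n) 2 = 2 * K ν H * n + 2 := rfl
    have p1 : phi' (2 * K ν H * n) 2 = 2 * (2 * K ν H * n) + 2 := rfl
    rw [hp, h2 hp, g0, p0, p1]
    refine ⟨?_, ?_⟩
    · apply Nat.add_le_add_left
      apply Nat.mul_le_mul_left
      omega
    · have e : Off ν H (ep n s) + ν ^ Fn H (ep n s) * (y' + 2 * K ν H * n + 2 +
          2 * K ν H * (s % n)) + 2 * K ν H * ν ^ Fn H (ep n s) =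
          Off ν H (ep n s) + ν ^ Fn H (ep n s) * (y' + 2 * K ν H * n + 2 +
            (2 * K ν H * (s % n) + 2 * K ν H)) := by
        ring
      rw [e]
      apply Nat.add_le_add_left
      apply Nat.mul_le_mul_left
      omega

private theorem base_up (h : Ass ν n H cf) {s : ℕ} (hs : s < B n) :
    base ν n H s + 2 * K ν H * ν ^ gu n H s ≤
      Off ν H (ep n s) + ν ^ (Fn H (ep n s) + 3 * H) := by
  obtain ⟨-, hb, hp, ha⟩ := idx_data h.hn hs
  obtain ⟨y, hy, -⟩ := base_coord h hs
  obtain ⟨-, h2⟩ := base_bounds h hs hy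
  obtain ⟨-, h3, -⟩ := xi_bounds h hb
  refine h2.trans ?_
  apply Nat.add_le_add_left
  rw [pow_add]
  apply Nat.mul_le_mul_left
  have h4 : phi' (2 * K ν H * n) (ph n s) ≤ 2 * (2 * K ν H * n) + 2 := by
    unfold phi'
    split_ifs <;> omega
  have := h.hν
  omega

private theorem xi_mono (h : Ass ν n H cf) {b b' : ℕ} (hbb : b < b') (hb' : b' ≤ n) :
    xi ν n H b + 4 * K ν H * n + ν + 4 ≤ xi ν n H b' := by
  induction b' with
  | zero => omega
  | succ b' ih =>
    rcases Nat.eq_or_lt_of_le (Nat.lt_succ_iff.1 hbb) with h1 | h1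
    · subst h1
      exact (xi_bounds h (by omega)).2.2
    · have h2 := ih h1 (by omega)
      have h3 := (xi_bounds h (b := b') (by omega)).2.2
      omega

private theorem mod_aa (hn : 0 < n) (s : ℕ) : s % n + aa n s + 1 = n := by
  unfold aa
  have := Nat.mod_lt s hn
  omega

/-- the superblocks are disjoint -/
theorem base_add_le (h : Ass ν n H cf) {s s' : ℕ} (hss : s < s') (hs' : s' < B n) :
    base ν n H s + 2 * K ν H * ν ^ gu n H s ≤ base ν n H s' := by
  have hs : s < B n := hss.trans hs'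
  obtain ⟨d1, hb, hp, ha⟩ := idx_data h.hn hs
  obtain ⟨d1', hb', hp', ha'⟩ := idx_data h.hn hs'
  obtain ⟨y, hy, c0, c1, c2⟩ := base_coord h hs
  obtain ⟨y', hy', c0', c1', c2'⟩ := base_coord h hs'
  have hB := base_bounds h hs hy
  have hB' := base_bounds h hs' hy'
  have hm := mod_aa h.hn s
  have hm' := mod_aa h.hn s'
  have hν := h.hν
  by_cases hε : ep n s = ep n s'
  · have hlt := (idx_lt_idx (n := n) (ep n s) ha ha' hp hp' hb hb').1 (by
      rw [d1, hε, d1']; exact hss)
    rw [← hε] at hB' c0' c1' c2'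
    rcases hlt with hbb | ⟨hbb, hpp | ⟨hpp, haa⟩⟩
    · -- different contents
      have hx := xi_mono h hbb hb'.le
      refine hB.2.trans (le_trans ?_ hB'.1)
      apply Nat.add_le_add_left
      apply Nat.mul_le_mul_left
      have e1 : phi' (2 * K ν H * n) (ph n s) ≤ 2 * (2 * K ν H * n) + 2 := by
        unfold phi'
        split_ifs <;> omega
      have e2 : 4 * K ν H * n = 2 * (2 * K ν H * n) := by ring
      omega
    · -- different phases
      have hyy : y = y' := by
        rw [hbb] at hy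
        omega
      refine hB.2.trans (le_trans ?_ hB'.1)
      apply Nat.add_le_add_left
      apply Nat.mul_le_mul_left
      rw [hyy]
      apply Nat.add_le_add_left
      have h3 : ph n s = 0 ∨ ph n s = 1 := by omega
      unfold phi' plo
      rcases h3 with h3 | h3
      · rw [if_pos h3, if_neg (by omega)]
        split_ifs <;> omega
      · rw [if_neg (by omega), if_pos h3, if_neg (by omega), if_neg (by omega)]
    · -- same phase
      have hyy : y = y' := by
        rw [hbb] at hy
        omega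
      subst hyy
      have hmm : s % n + 1 ≤ s' % n := by omega
      have hcases : ph n s = 0 ∨ ph n s = 1 ∨ ph n s = 2 := by omega
      have hmul : 2 * K ν H * (s % n) + 2 * K ν H ≤ 2 * K ν H * (s' % n) := by
        have : 2 * K ν H * (s % n) + 2 * K ν H = 2 * K ν H * (s % n + 1) := by ring
        rw [this]
        exact Nat.mul_le_mul_left _ hmm
      rcases hcases with hq | hq | hq
      · rw [c0 hq, c0' (by omega)]
        unfold gu
        rw [if_neg (by omega)]
        have e : Off ν H (ep n s) + ν ^ Fn H (ep n s) * (y + 2 * K ν H * (s % n)) +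
          2 * K ν H * ν ^ Fn H (ep n s) =
          Off ν H (ep n s) + ν ^ Fn H (ep n s) * (y + (2 * K ν H * (s % n) + 2 * K ν H)) := by
          ring
        rw [e]
        apply Nat.add_le_add_left
        apply Nat.mul_le_mul_left
        omega
      · have e1 := c1 hq
        have e2 := c1' (by omega)
        have hfl := fine_lt h haa ha (ep n s)
        unfold gu
        rw [if_pos hq]
        omega
      · rw [c2 hq, c2' (by omega)]
        unfold gu
        rw [if_neg (by omega)]
        have e : Off ν H (ep n s) + ν ^ Fn H (ep n s) * (y + 2 * K ν H * n + 2 +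
          2 * K ν H * (s % n)) + 2 * K ν H * ν ^ Fn H (ep n s) =
          Off ν H (ep n s) + ν ^ Fn H (ep n s) * (y + 2 * K ν H * n + 2 +
            (2 * K ν H * (s % n) + 2 * K ν H)) := by
          ring
        rw [e]
        apply Nat.add_le_add_left
        apply Nat.mul_le_mul_left
        omega
  · -- different modes
    have h1 : ep n s = true ∧ ep n s' = false := by
      unfold ep at hε ⊢
      simp only [decide_eq_true_eq, decide_eq_false_iff_not]
      by_cases e1 : s < 3 * n ^ 2
      · refine ⟨e1, fun e2 => hε ?_⟩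
        simp [e1, e2]
      · exfalso
        apply hε
        have e2 : ¬ s' < 3 * n ^ 2 := by omega
        simp [e1, e2]
    have h2 := base_up h hs
    rw [h1.1] at h2
    refine h2.trans (le_trans ?_ hB'.1)
    rw [h1.2]
    have hH := h.hH
    have h3 : Off ν H true = 0 := rfl
    have h4 : Off ν H false = (ν - 1) * ν ^ (2 * M H - 2) := rfl
    have h5 : Fn H true = M H - 1 := rfl
    rw [h3, h4, h5, Nat.zero_add]
    refine le_trans ?_ (Nat.le_add_right _ _)
    have h6 : ν ^ (M H - 1 + 3 * H) ≤ ν ^ (2 * M H - 2) := by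
      apply Nat.pow_le_pow_right (by omega)
      unfold M
      omega
    refine h6.trans ?_
    exact Nat.le_mul_of_pos_left _ (by omega)

theorem base_lt (h : Ass ν n H cf) {s : ℕ} (hs : s < B n) :
    base ν n H s + 2 * K ν H * ν ^ gu n H s ≤ md ν (M H) := by
  refine (base_up h hs).trans ?_
  have hν := h.hν
  have hH := h.hH
  unfold md
  refine le_trans ?_ (Nat.le_succ _)
  have h1 : 2 * M H - 1 = (2 * M H - 2) + 1 := by unfold M; omega
  rw [h1, pow_succ]
  have h2 : ν ^ (Fn H (ep n s) + 3 * H) ≤ ν ^ (2 * M H - 2) := by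
    apply Nat.pow_le_pow_right (by omega)
    have := (Fn_le (H := H) (ep n s)).1
    unfold M
    omega
  have h3 : Off ν H (ep n s) ≤ (ν - 1) * ν ^ (2 * M H - 2) := by
    unfold Off
    split_ifs
    · exact Nat.zero_le _
    · exact le_rfl
  set P := ν ^ (2 * M H - 2) with hP
  calc Off ν H (ep n s) + ν ^ (Fn H (ep n s) + 3 * H) ≤ (ν - 1) * P + P := Nat.add_le_add h3 h2
    _ ≤ (ν - 1) * P + (ν - 1) * P := by
        apply Nat.add_le_add_left
        exact Nat.le_mul_of_pos_left _ (by omega)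
    _ = (ν - 1) * (P * 2) := by ring
    _ ≤ (ν - 1) * (P * ν) := by
        apply Nat.mul_le_mul_left
        apply Nat.mul_le_mul_left
        omega

/-- positions with prescribed residues -/
theorem exists_pos (h : Ass ν n H cf) (C : ℕ → Prop) (c μ : ℕ → ℕ)
    (hC : ∀ e, C e → e % (2 * K ν H) = 0)
    (hμ : ∀ e < N ν n H, 0 < μ e ∧ μ e ≤ ν ^ gu n H (e / (2 * K ν H))) :
    ∃ ℓ : ℕ → ℕ, (∀ e e', e < e' → e' < N ν n H → ℓ e < ℓ e') ∧
      (∀ e < N ν n H, ℓ e < md ν (M H)) ∧
      (∀ e < N ν n H, C e → ℓ e = base ν n H (e / (2 * K ν H))) ∧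
      (∀ e < N ν n H, ¬ C e → ℓ e ≡ c e [MOD μ e]) := by
  classical
  have hν := h.hν
  have hK : 0 < 2 * K ν H := by
    unfold K
    positivity
  -- the corrections
  have ht : ∀ e, ∃ t, (e < N ν n H → t < ν ^ gu n H (e / (2 * K ν H))) ∧ (C e → t = 0) ∧
      (e < N ν n H → ¬ C e → base ν n H (e / (2 * K ν H)) +
        (e % (2 * K ν H)) * ν ^ gu n H (e / (2 * K ν H)) + t ≡ c e [MOD μ e]) := by
    intro e
    by_cases hCe : C e
    · exact ⟨0, fun _ => by positivity, fun _ => rfl, fun _ hn => absurd hCe hn⟩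
    · by_cases he : e < N ν n H
      · obtain ⟨h1, h2⟩ := hμ e he
        set A := base ν n H (e / (2 * K ν H)) +
          (e % (2 * K ν H)) * ν ^ gu n H (e / (2 * K ν H)) with hA
        refine ⟨(c e + (μ e - 1) * A) % μ e, fun _ => ?_, fun hn => absurd hn hCe, fun _ _ => ?_⟩
        · exact lt_of_lt_of_le (Nat.mod_lt _ h1) h2
        · have h3 : A + (c e + (μ e - 1) * A) % μ e ≡ A + (c e + (μ e - 1) * A) [MOD μ e] :=
            Nat.ModEq.add_left _ (Nat.mod_modEq _ _)
          refine h3.trans ?_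
          have h4 : A + (c e + (μ e - 1) * A) = c e + μ e * A := by
            obtain ⟨m, hm⟩ : ∃ m, μ e = m + 1 := ⟨μ e - 1, by omega⟩
            rw [hm, Nat.add_sub_cancel]
            ring
          rw [h4]
          unfold Nat.ModEq
          rw [Nat.add_mul_mod_self_left]
      · exact ⟨0, fun hn => absurd hn he, fun _ => rfl, fun hn => absurd hn he⟩
  choose t ht1 ht2 ht3 using ht
  have hub : ∀ e < N ν n H, base ν n H (e / (2 * K ν H)) +
      (e % (2 * K ν H)) * ν ^ gu n H (e / (2 * K ν H)) + t e <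
      base ν n H (e / (2 * K ν H)) +
      (e % (2 * K ν H) + 1) * ν ^ gu n H (e / (2 * K ν H)) := by
    intro e he
    have := ht1 e he
    rw [Nat.add_mul, Nat.one_mul]
    omega
  have hub2 : ∀ e < N ν n H, base ν n H (e / (2 * K ν H)) +
      (e % (2 * K ν H)) * ν ^ gu n H (e / (2 * K ν H)) + t e <
      base ν n H (e / (2 * K ν H)) + 2 * K ν H * ν ^ gu n H (e / (2 * K ν H)) := by
    intro e he
    refine lt_of_lt_of_le (hub e he) ?_
    apply Nat.add_le_add_left
    apply Nat.mul_le_mul_right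
    exact Nat.mod_lt _ hK
  have hdiv : ∀ e < N ν n H, e / (2 * K ν H) < B n := by
    intro e he
    rw [Nat.div_lt_iff_lt_mul hK, Nat.mul_comm]
    exact he
  refine ⟨fun e => base ν n H (e / (2 * K ν H)) +
      (e % (2 * K ν H)) * ν ^ gu n H (e / (2 * K ν H)) + t e, ?_, ?_, ?_, ?_⟩
  · intro e e' hee he'
    have he : e < N ν n H := hee.trans he'
    simp only
    have h1 : e / (2 * K ν H) ≤ e' / (2 * K ν H) := Nat.div_le_div_right hee.le
    rcases Nat.eq_or_lt_of_le h1 with h2 | h2
    · -- same superblock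
      have h3 : e % (2 * K ν H) + 1 ≤ e' % (2 * K ν H) := by
        have e1 := Nat.div_add_mod e (2 * K ν H)
        have e2 := Nat.div_add_mod e' (2 * K ν H)
        rw [← h2] at e2
        omega
      refine lt_of_lt_of_le (hub e he) ?_
      rw [h2]
      refine le_trans ?_ (Nat.le_add_right _ _)
      apply Nat.add_le_add_left
      exact Nat.mul_le_mul_right _ h3
    · refine lt_of_lt_of_le (hub2 e he) ?_
      refine (base_add_le h h2 (hdiv e' he')).trans ?_
      rw [Nat.add_assoc]
      exact Nat.le_add_right _ _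
  · intro e he
    exact lt_of_lt_of_le (hub2 e he) (base_lt h (hdiv e he))
  · intro e he hCe
    simp only
    rw [hC e hCe, ht2 e hCe]
    simp
  · intro e he hCe
    exact ht3 e he hCe

theorem exists_ℓ (h : Ass ν n H cf) {tl : ℕ → Bool} {L : ℕ → ℕ → ℕ}
    (hL : Lives ν n H cf tl L) : ∃ ℓ, Positions ν n H cf L ℓ := by
  classical
  have hν := h.hν
  have hH := h.hH
  have hK : 0 < 2 * K ν H := by
    unfold K
    positivity
  have hdiv : ∀ e < N ν n H, e / (2 * K ν H) < B n := by
    intro e he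
    rw [Nat.div_lt_iff_lt_mul hK, Nat.mul_comm]
    exact he
  have hmod : ∀ e, e % (2 * K ν H) / 2 < K ν H := by
    intro e
    have := Nat.mod_lt e hK
    omega
  have hpar : ∀ e, e % (2 * K ν H) % 2 = e % 2 := fun e => Nat.mod_mul_right_mod e 2 (K ν H)
  -- residues: `ℓ e + R e ≡ T e [MOD μ e]`
  set μ : ℕ → ℕ := fun e => if isC ν n H cf e then 1 else if e % 2 = 1 then ν ^ (4 * n)
    else ν ^ (L (e / (2 * K ν H)) (e % (2 * K ν H) / 2) + 1) with hμdef
  set R : ℕ → ℕ := fun e => if e % 2 = 1 then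
      ν ^ (lv n (e / (2 * K ν H)) + 1) * (e % (2 * K ν H) / 2 + 1)
    else SS ν (Qd ν (M H)) (N ν n H) (fun _ => 0)
        (Yk ν n H (aa n (e / (2 * K ν H))) (ep n (e / (2 * K ν H))))
        (lv n (e / (2 * K ν H))) (lifeL ν n H L (lv n (e / (2 * K ν H))))
        (spwL ν n H (lv n (e / (2 * K ν H)))) e
        (L (e / (2 * K ν H)) (e % (2 * K ν H) / 2)) with hRdef
  set T : ℕ → ℕ := fun e => if e % 2 = 1 then g ν (4 * n) + e % (2 * K ν H)
    else ν ^ L (e / (2 * K ν H)) (e % (2 * K ν H) / 2) with hTdef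
  have hμ : ∀ e < N ν n H, 0 < μ e ∧ μ e ≤ ν ^ gu n H (e / (2 * K ν H)) := by
    intro e he
    rw [hμdef]
    simp only
    split_ifs with h1 h2
    · exact ⟨Nat.one_pos, Nat.one_le_pow _ _ (by omega)⟩
    · refine ⟨by positivity, ?_⟩
      apply Nat.pow_le_pow_right (by omega)
      unfold gu
      split_ifs with h3
      · omega
      · have := (Fn_le (H := H) (ep n (e / (2 * K ν H)))).2
        omega
    · refine ⟨by positivity, ?_⟩
      apply Nat.pow_le_pow_right (by omega)
      have hk := hmod e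
      have h0 : ¬ (ph n (e / (2 * K ν H)) = 1 ∧
          bb n (e / (2 * K ν H)) ∈ cf (ep n (e / (2 * K ν H))) (aa n (e / (2 * K ν H))) ∧
          e % (2 * K ν H) / 2 = 0) := by
        rintro ⟨c1, c2, c3⟩
        apply h1
        refine ⟨?_, c1, c2⟩
        have := hpar e
        omega
      unfold gu
      split_ifs with h3
      · have h4 : e % (2 * K ν H) / 2 ≠ 0 ∨
            bb n (e / (2 * K ν H)) ∉ cf (ep n (e / (2 * K ν H))) (aa n (e / (2 * K ν H))) := by
          by_contra hcon
          push Not at hcon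
          exact h0 ⟨h3, hcon.2, hcon.1⟩
        rw [hL.short _ (hdiv e he) h3 _ hk h4]
      · exact hL.lt _ (hdiv e he) _ hk h0
  obtain ⟨ℓ, hm, hlt, hc, hr⟩ := exists_pos h (isC ν n H cf)
    (fun e => T e + (μ e - 1) * R e) μ (fun e he => he.1) hμ
  have hr' : ∀ e < N ν n H, ¬ isC ν n H cf e → ℓ e + R e ≡ T e [MOD μ e] := by
    intro e he hCe
    have h1 := (hr e he hCe).add_right (R e)
    refine h1.trans ?_
    have h2 := (hμ e he).1
    have h4 : T e + (μ e - 1) * R e + R e = T e + μ e * R e := by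
      obtain ⟨m, hm⟩ : ∃ m, μ e = m + 1 := ⟨μ e - 1, by omega⟩
      rw [hm, Nat.add_sub_cancel]
      ring
    rw [h4]
    unfold Nat.ModEq
    rw [Nat.add_mul_mod_self_left]
  refine ⟨ℓ, hm, hlt, hc, ?_, ?_⟩
  · intro e he hodd
    have hnC : ¬ isC ν n H cf e := by
      rintro ⟨h1, -⟩
      have := hpar e
      omega
    have h1 := hr' e he hnC
    rw [hμdef, hRdef, hTdef] at h1
    simp only [if_neg hnC, if_pos hodd] at h1
    exact h1
  · intro e he heven hnC
    have h1 := hr' e he hnC
    have hodd : ¬ e % 2 = 1 := by omega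
    rw [hμdef, hRdef, hTdef] at h1
    simp only [if_neg hnC, if_neg hodd] at h1
    have h2 : ∀ (Q' N' Y lam : ℕ) (life : ℕ → ℕ) (spw : ℕ → Bool) (i : ℕ),
        SS ν Q' N' ℓ Y lam life spw e i = ℓ e + SS ν Q' N' (fun _ => 0) Y lam life spw e i := by
      intro Q' N' Y lam life spw i
      unfold SS
      ring
    rw [h2]
    exact h1

end Pool.Agent.Lib.MP_b40757_lc.Tab
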