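import Pool.Agent.Lib.MP_b40757_lc.TabFate
import Pool.Agent.Lib.MP_b40757_lc.TabLives
import Pool.Agent.Lib.MP_b40757_lc.TabPos

set_option autoImplicit false

/-!
# Existence of good tables
-/

namespace Pool.Agent.Lib.MP_b40757_lc

namespace Tab

open Finset

variable {ν n H : ℕ} {cf : Bool → ℕ → List ℕ} {L : ℕ → ℕ → ℕ} {tl : ℕ → Bool} {ℓ : ℕ → ℕ}

private theorem Table_Kpos (h : Ass ν n H cf) : 0 < K ν H :=
  Nat.pow_pos (by have := h.hν; omega)

private theorem Table_div_lt (h : Ass ν n H cf) {e : ℕ} (he : e < N ν n H) :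
    e / (2 * K ν H) < B n := by
  have hK := Table_Kpos h
  exact Nat.div_lt_of_lt_mul he

private theorem Table_slot_lt (h : Ass ν n H cf) (e : ℕ) :
    e % (2 * K ν H) / 2 < K ν H := by
  have hK := Table_Kpos h
  have : e % (2 * K ν H) < 2 * K ν H := Nat.mod_lt _ (by omega)
  omega

private theorem Table_lam_lt_Fn (h : Ass ν n H cf) {a : ℕ} (ha : a < n) (ε ε' : Bool) :
    4 * n + 1 < Fn H ε' ∧ lam n a ε < 4 * n := by
  refine ⟨?_, lam_lt ha ε⟩
  have h1 := h.hH
  unfold Fn M
  split <;> omega

/-- the entries which survive -/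
private theorem Table_surv (h : Ass ν n H cf) (hL : Lives ν n H cf tl L) {a : ℕ} (ha : a < n)
    (ε : Bool) (e : ℕ) :
    (e < N ν n H ∧ Fn H ε ≤ lifeL ν n H L (lam n a ε) e) ↔
      ∃ b ∈ cf ε a, 2 * K ν H * idx n ε b 1 a = e := by
  have hK := Table_Kpos h
  obtain ⟨hF, hlam⟩ := Table_lam_lt_Fn h ha ε ε
  constructor
  · rintro ⟨he, hl⟩
    have hs := Table_div_lt h he
    have hk := Table_slot_lt h e
    unfold lifeL at hl
    split at hl
    · omega
    · rename_i he2
      split at hl
      · rename_i hlv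
        have hae := lv_eq_iff.1 hlv
        by_contra hcon
        have hne : ¬ (ph n (e / (2 * K ν H)) = 1 ∧ bb n (e / (2 * K ν H)) ∈
            cf (ep n (e / (2 * K ν H))) (aa n (e / (2 * K ν H))) ∧
            e % (2 * K ν H) / 2 = 0) := by
          rintro ⟨h1, h2, h3⟩
          rw [hae.1, hae.2] at h2
          refine hcon ⟨_, h2, ?_⟩
          obtain ⟨h4, -⟩ := idx_data h.hn hs
          rw [hae.1, hae.2, h1] at h4
          rw [h4]
          have h5 : e % (2 * K ν H) % 2 = e % 2 := Nat.mod_mod_of_dvd _ ⟨_, rfl⟩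
          have h6 : e % (2 * K ν H) = 0 := by omega
          exact Nat.mul_div_cancel' (Nat.dvd_of_mod_eq_zero h6)
        have := hL.lt _ hs _ hk hne
        rw [hae.2] at this
        omega
      · have := min_le_left (lam n a ε) (lv n (e / (2 * K ν H)))
        omega
  · rintro ⟨b, hb, rfl⟩
    have hbn : b < n := h.lt ε a b hb
    have hs : idx n ε b 1 a < B n := idx_lt ε hbn (by norm_num)
    have h1 : 2 * K ν H * idx n ε b 1 a / (2 * K ν H) = idx n ε b 1 a :=
      Nat.mul_div_cancel_left _ (by omega)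
    have h2 : 2 * K ν H * idx n ε b 1 a % (2 * K ν H) = 0 := Nat.mul_mod_right _ _
    refine ⟨?_, ?_⟩
    · exact Nat.mul_lt_mul_of_pos_left hs (by omega)
    · have h3 : 2 * K ν H * idx n ε b 1 a % 2 ≠ 1 := by
        rw [mul_assoc, Nat.mul_mod_right]
        norm_num
      unfold lifeL
      rw [if_neg h3, h1, h2]
      have h4 : lv n (idx n ε b 1 a) = lam n a ε :=
        lv_eq_iff.2 ⟨aa_idx ε hbn (by norm_num) ha, ep_idx ε hbn (by norm_num) ha⟩
      rw [if_pos h4]
      have h5 := hL.content (idx n ε b 1 a) hs (ph_idx ε hbn (by norm_num) ha) (by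
        rw [ep_idx ε hbn (by norm_num) ha, aa_idx ε hbn (by norm_num) ha,
          bb_idx ε hbn (by norm_num) ha]
        exact hb)
      rw [ep_idx ε hbn (by norm_num) ha] at h5
      exact h5.ge

private theorem Table_filter (h : Ass ν n H cf) (hL : Lives ν n H cf tl L) {a : ℕ} (ha : a < n)
    (ε : Bool) :
    ((List.range (N ν n H)).filter fun e => decide (Fn H ε ≤ lifeL ν n H L (lam n a ε) e)) =
      (cf ε a).map fun b => 2 * K ν H * idx n ε b 1 a := by
  have hK := Table_Kpos h
  apply List.Pairwise.eq_of_mem_iff (r := (· < ·))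
  · exact List.Pairwise.filter _ List.pairwise_lt_range
  · rw [List.pairwise_map]
    refine List.Pairwise.imp_of_mem ?_ (h.sorted ε a)
    intro b b' hb hb' hbb
    refine Nat.mul_lt_mul_of_pos_left ?_ (by omega)
    exact (idx_lt_idx ε ha ha (by norm_num) (by norm_num) (h.lt ε a b hb)
      (h.lt ε a b' hb')).2 (Or.inl hbb)
  · intro e
    rw [List.mem_filter, List.mem_range, List.mem_map, decide_eq_true_iff]
    exact Table_surv h hL ha ε e

private theorem Table_produces (h : Ass ν n H cf) (hL : Lives ν n H cf tl L)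
    (hP : Positions ν n H cf L ℓ) {a : ℕ} (ha : a < n) (ε : Bool) (bs : List (Fin n))
    (hbs : cf ε a = bs.map Fin.val) (hne : bs ≠ []) :
    Produces ν (Qd ν (M H)) (X0 ν H) (N ν n H) (fun b : Fin n => psi ν n H b) ℓ
      (Yk ν n H a ε) (Fn H ε) (Ec ν n H tl a ε) bs := by
  refine ⟨lam n a ε, lifeL ν n H L (lam n a ε), spwL ν n H (lam n a ε),
    fate h hL hP ha ε, ?_, ?_⟩
  · rw [Table_filter h hL ha ε, List.map_map]
    apply List.ext_getElem?
    intro j
    rw [hbs, List.map_map, List.getElem?_map, List.getElem?_map, List.getElem?_zipIdx]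
    rcases hj : bs[j]? with _ | b
    · rfl
    · simp only [Option.map_some, Function.comp, zero_add, Option.some.injEq]
      refine content_SS h hL hP ha ?_
      rw [hbs, List.getElem?_map, hj]
      rfl
  · have h1 := hL.tot ε a ha (by rw [hbs]; simpa using hne)
    rw [sum_Wt, hbs, List.length_map] at h1
    rw [add_comm]
    exact h1

private theorem Table_dies (h : Ass ν n H cf) (hL : Lives ν n H cf tl L)
    (hP : Positions ν n H cf L ℓ) {a : ℕ} (ha : a < n) (hne : cf false a = []) :
    Dies ν (Qd ν (M H)) (N ν n H) ℓ (Yk ν n H a false) (4 * n + 1)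
      ((X0 ν H + N ν n H + 1) / ν) := by
  have hK := Table_Kpos h
  obtain ⟨hF, hlam⟩ := Table_lam_lt_Fn h ha false false
  have hf := fate h hL hP ha false
  have hlife : ∀ e < N ν n H, lifeL ν n H L (lam n a false) e < 4 * n + 1 := by
    intro e he
    unfold lifeL
    split
    · omega
    · split
      · rename_i hlv
        have hae := lv_eq_iff.1 hlv
        have := hL.none _ (Table_div_lt h he) (by rw [hae.1, hae.2]; exact hne) _
          (Table_slot_lt h e)
        omega
      · have := min_le_left (lam n a false) (lv n (e / (2 * K ν H)))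
        omega
  refine ⟨lam n a false, lifeL ν n H L (lam n a false), spwL ν n H (lam n a false),
    ⟨by omega, ?_, ?_, hf.spawn⟩, hlife, ?_⟩
  · intro e he i hi hi'
    exact hf.idle e he i hi (by omega)
  · intro e he hi hs
    exact hf.die e he (by omega) hs
  · intro i hi
    have h1 := h.hH
    have hν := h.hν
    refine dvd_add ?_ ?_
    · have h2 : ν ^ (H + 1) ∣ N ν n H := K_dvd_N
      obtain ⟨c, hc⟩ := h2
      have h3 : X0 ν H + N ν n H + 1 = ν * (ν ^ (H - 1) * (1 + ν * c)) := by
        have h4 : 0 < ν ^ H := Nat.pow_pos (by omega)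
        have h5 : ν ^ H = ν * ν ^ (H - 1) := by
          rw [← pow_succ']
          congr 1
          omega
        unfold X0
        have h6 : ν ^ H - 1 + N ν n H + 1 = ν ^ H + N ν n H := by omega
        rw [h6, hc, pow_succ, h5]
        ring
      rw [h3, Nat.mul_div_cancel_left _ (by omega)]
      exact Dvd.dvd.mul_right (pow_dvd_pow _ (by omega)) _
    · refine Finset.dvd_sum fun j hj => ?_
      rw [Finset.mem_range] at hj
      refine Dvd.dvd.mul_left ?_ _
      have h2 := pop_dvd h hL.ge (l := lam n a false) (by omega) (s := B n) (i := j) le_rfl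
        (by omega)
      refine dvd_trans ?_ h2
      exact pow_dvd_pow _ (by omega)

end Tab

open Tab in
theorem exists_good (ν : ℕ) (hν : 3 ≤ ν) (n : ℕ) (hn : 0 < n)
    (cont : Bool → Fin n → List (Fin n)) (hc : ∀ ε a, (cont ε a).Pairwise (· < ·))
    (trail : Fin n → Bool) :
    ∃ (M X0 N h : ℕ) (ψ : Fin n → ℕ) (ℓ : ℕ → ℕ), Good ν n cont trail M X0 N h ψ ℓ := by
  set H := 6 * n ^ 2 + 4 * n + 10 with hH
  set cf : Bool → ℕ → List ℕ := fun ε a =>
    if h : a < n then (cont ε ⟨a, h⟩).map Fin.val else [] with hcf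
  set tl : ℕ → Bool := fun a => if h : a < n then trail ⟨a, h⟩ else false with htl
  have hcf1 : ∀ ε (a : Fin n), cf ε a = (cont ε a).map Fin.val := by
    intro ε a
    simp [hcf]
  have htl1 : ∀ a : Fin n, tl a = trail a := by
    intro a
    simp [htl]
  have ass : Ass ν n H cf := by
    refine ⟨hν, hn, hH.ge, ?_, ?_⟩
    · intro ε a
      simp only [hcf]
      split
      · rw [List.pairwise_map]
        exact hc ε _
      · exact List.Pairwise.nil
    · intro ε a b hb
      simp only [hcf] at hb
      split at hb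
      · rw [List.mem_map] at hb
        obtain ⟨c, -, rfl⟩ := hb
        exact c.2
      · simp at hb
  obtain ⟨L, hL⟩ := exists_L ass tl
  obtain ⟨ℓ, hP⟩ := exists_ℓ ass hL
  have hνH : ν ^ 3 ∣ ν ^ H := pow_dvd_pow _ (by omega)
  have hνpos : 0 < ν ^ H := Nat.pow_pos (by omega)
  refine ⟨Tab.M H, Tab.X0 ν H, Tab.N ν n H, 4 * n + 1, fun b => psi ν n H b, ℓ, ?_⟩
  refine
    { hM := by unfold Tab.M; omega
      hh := by unfold Tab.M; omega
      mono := hP.mono
      lt := hP.lt
      dvdN := dvd_trans (pow_dvd_pow _ (by omega)) K_dvd_N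
      dvdX := ?_
      X0_ge := ?_
      psi_dvd := fun a => psi_dvd ass a.2
      psi_lt := fun a => psi_lt ass a.2
      res := ?_
      normal := ?_
      event := ?_
      trailing := ?_
      dies := ?_ }
  · have : Tab.X0 ν H + 1 = ν ^ H := by unfold Tab.X0; omega
    rw [this]
    exact hνH
  · have h1 : ν ^ 2 ≤ ν ^ H := Nat.pow_le_pow_right (by omega) (by omega)
    have h2 : 3 ^ 2 ≤ ν ^ 2 := Nat.pow_le_pow_left hν 2
    unfold Tab.X0
    omega
  · intro e he
    have h1 := (all_mod ass hL hP he).of_dvd (dvd_pow_self ν (show 2 * n ≠ 0 by omega))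
    refine h1.trans ?_
    rw [add_comm e 1]
    refine Nat.ModEq.add_right e ?_
    have h2 : g ν (2 * n) = 1 + ν * g ν (2 * n - 1) := by
      obtain ⟨m, hm⟩ : ∃ m, 2 * n = m + 1 := ⟨2 * n - 1, by omega⟩
      rw [hm, Nat.add_sub_cancel]
      unfold g
      rw [Finset.sum_range_succ', Finset.mul_sum, pow_zero, add_comm]
      congr 1
      refine Finset.sum_congr rfl fun i _ => ?_
      rw [pow_succ']
    rw [h2]
    exact (Nat.modEq_of_dvd (by simp) : 1 + ν * g ν (2 * n - 1) ≡ 1 [MOD ν])
  · intro a ha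
    have := Table_produces ass hL hP a.2 false (cont false a) (hcf1 _ _) ha
    simpa [Yk, Fn, Ec] using this
  · intro a ha hta
    have := Table_produces ass hL hP a.2 true (cont true a) (hcf1 _ _) ha
    simpa [Yk, Fn, Ec, htl1, hta] using this
  · intro a ha hta
    have := Table_produces ass hL hP a.2 true (cont true a) (hcf1 _ _) ha
    simpa [Yk, Fn, Ec, htl1, hta] using this
  · intro a ha
    have := Table_dies ass hL hP a.2 (by rw [hcf1, ha]; rfl)
    simpa [Yk] using this

end Pool.Agent.Lib.MP_b40757_lc
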