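import Pool.Agent.Lib.MP_b40757_lc.Round
import Pool.Agent.Lib.MP_b40757_lc.Symb
import Pool.Agent.Lib.MP_b40757_lc.Table

set_option autoImplicit false

/-!
# The abstract system which is simulated by a binary tag system
-/

namespace Pool.Agent.Lib.MP_b40757_lc

open Relation

/-- what a group `g` of symbols produces if its symbol number `i` is read in the mode `ε` -/
def cts {A : Type} (prod : Bool → A → List A) (ε : Bool) (i : ℕ) (g : List A) : List A :=
  (g[i]?).elim [] (prod ε)

/-- A binary tag system which simulates the productions `prod`. `Enc X p w` means that the word `w`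
represents the word `X` of symbols, followed by
no zeros if `p = 0`; few zeros which cause the mode `event` in the next round if `p = 1`;
many zeros which lead to the case `p = 1` in the next round if `p = 2`. -/
structure Simulates (ν : ℕ) (A : Type) (prod : Bool → A → List A) (tl : A → Bool)
    (v : List Bool) (Enc : List A → ℕ → List Bool → Prop) (enc : A → List Bool) : Prop where
  v_len : v.length ≡ 1 [MOD ν - 1]
  v_ne : v ≠ []
  enc_len : ∀ a, (enc a).length ≡ 0 [MOD ν - 1]
  enc_ne : ∀ a, enc a ≠ []
  init : ∀ X, Enc X 0 (X.flatMap enc)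
  /-- mode `normal` -/
  normal : ∀ (G : List (List A)) (w : List Bool) (p : ℕ), G ≠ [] →
    (∀ g ∈ G, g.length = ν ∧ cts prod false 1 g ≠ []) → (p = 0 ∨ p = 2) → Enc G.flatten p w →
    ∃ w', Enc (G.flatMap (cts prod false 1)) (p - 1) w' ∧ TransGen (Step ν v) w w'
  /-- mode `event`, because of a group of `ν - 1` symbols at the end -/
  event : ∀ (G : List (List A)) (t : List A) (w : List Bool),
    (∀ g ∈ G, g.length = ν ∧ cts prod true 0 g ≠ [] ∧ (∀ a ∈ g.head?, tl a = false)) →
    t.length = ν - 1 → cts prod true 0 t ≠ [] → (∀ a ∈ t.head?, tl a = true) →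
    Enc (G.flatten ++ t) 0 w →
    ∃ w', Enc (G.flatMap (cts prod true 0) ++ cts prod true 0 t) 2 w' ∧
      TransGen (Step ν v) w w'
  /-- mode `event`, because of zeros at the end -/
  echo : ∀ (G : List (List A)) (w : List Bool), G ≠ [] →
    (∀ g ∈ G, g.length = ν ∧ cts prod true 0 g ≠ [] ∧ (∀ a ∈ g.head?, tl a = false)) →
    Enc G.flatten 1 w →
    ∃ w', Enc (G.flatMap (cts prod true 0)) 0 w' ∧ TransGen (Step ν v) w w'
  /-- nothing is produced -/
  halt : ∀ (G : List (List A)) (w : List Bool) (p : ℕ),
    (∀ g ∈ G, g.length = ν ∧ cts prod false 1 g = []) → (p = 0 ∨ p = 2) → Enc G.flatten p w →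
    ∃ r < ν, ReflTransGen (Step ν v) w (List.replicate r false)

/-- cutting a word of copies into groups -/
private theorem System_split {A : Type} {n : ℕ} (mean : Fin n → A) (ν : ℕ) (hν : 3 ≤ ν)
    (t : List A) : ∀ (G : List (List A)) (x : List (Fin n)), (∀ g ∈ G, g.length = ν) →
    x.map mean = G.flatten ++ t →
    ∃ (Gx : List (Fin n × Fin n × List (Fin n))) (xt : List (Fin n)),
      x = Gx.flatMap flat ++ xt ∧ xt.map mean = t ∧ (∀ g ∈ Gx, g.2.2.length = ν - 2) ∧
      Gx.map (fun g => (flat g).map mean) = G := by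
  intro G
  induction G with
  | nil =>
    intro x _ hx
    exact ⟨[], x, by simp, by simpa using hx, by simp, rfl⟩
  | cons g G ih =>
    intro x hG hx
    rw [List.flatten_cons, List.append_assoc, List.map_eq_append_iff] at hx
    obtain ⟨l₁, l₂, rfl, h₁, h₂⟩ := hx
    obtain ⟨Gx, xt, rfl, hxt, hlen, hmap⟩ := ih l₂ (fun g' hg' => hG g' (List.mem_cons_of_mem _ hg')) h₂
    have hl : l₁.length = ν := by
      rw [← List.length_map (f := mean), h₁]
      exact hG g List.mem_cons_self
    rcases l₁ with _ | ⟨a, _ | ⟨b, r⟩⟩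
    · simp at hl
      omega
    · simp at hl
      omega
    · refine ⟨(a, b, r) :: Gx, xt, ?_, hxt, ?_, ?_⟩
      · simp [flat]
      · intro g' hg'
        rcases List.mem_cons.1 hg' with rfl | h
        · simp only [List.length_cons] at hl
          show r.length = ν - 2
          omega
        · exact hlen g' h
      · rw [List.map_cons, hmap]
        congr 1

private theorem System_ct {A : Type} {n : ℕ} {mean : Fin n → A} {prod : Bool → A → List A}
    {cont : Bool → Fin n → List (Fin n)}
    (hc : ∀ ε a, (cont ε a).map mean = prod ε (mean a)) (f : Fin n × Fin n × List (Fin n) → Fin n)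
    (ε : Bool) (i : ℕ) (hf : ∀ g, ((flat g).map mean)[i]? = some (mean (f g)))
    (g : Fin n × Fin n × List (Fin n)) :
    cts prod ε i ((flat g).map mean) = (cont ε (f g)).map mean := by
  rw [cts, hf, hc]
  rfl

private theorem System_cts {A : Type} {n : ℕ} {mean : Fin n → A} {prod : Bool → A → List A}
    {cont : Bool → Fin n → List (Fin n)}
    (hc : ∀ ε a, (cont ε a).map mean = prod ε (mean a)) (f : Fin n × Fin n × List (Fin n) → Fin n)
    (ε : Bool) (i : ℕ) (hf : ∀ g, ((flat g).map mean)[i]? = some (mean (f g)))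
    (Gx : List (Fin n × Fin n × List (Fin n))) :
    (Gx.flatMap fun g => cont ε (f g)).map mean
      = (Gx.map fun g => (flat g).map mean).flatMap (cts prod ε i) := by
  rw [List.map_flatMap, List.flatMap_map]
  congr 1
  funext g
  exact (System_ct hc f ε i hf g).symm

private theorem System_v_length {ν n : ℕ} {cont : Bool → Fin n → List (Fin n)}
    {trail : Fin n → Bool} {M X0 N h : ℕ} {ψ : Fin n → ℕ} {ℓ : ℕ → ℕ} (hν : 3 ≤ ν)
    (hg : Good ν n cont trail M X0 N h ψ ℓ) : (vw ν M N ℓ).length = 1 + Qd ν M := by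
  rw [vw, mkv_length ν _ (by omega), ← md_Qd hν (by have := hg.hM; omega)]
  have : 1 ≤ md ν M := Nat.le_add_left _ _
  have : 1 ≤ ν * md ν M := Nat.one_le_iff_ne_zero.2 (Nat.mul_ne_zero (by omega) (by omega))
  omega

private theorem System_cell_length {ν n : ℕ} {cont : Bool → Fin n → List (Fin n)}
    {trail : Fin n → Bool} {M X0 N h : ℕ} {ψ : Fin n → ℕ} {ℓ : ℕ → ℕ} (hν : 3 ≤ ν)
    (hg : Good ν n cont trail M X0 N h ψ ℓ) (a : Fin n) :
    (phys (vw ν M N ℓ) (cell (Qd ν M) X0 (ψ a))).length = Qd ν M * X0 := by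
  rw [vw, phys_mkv_length ν (md ν M) (by omega) (Nat.succ_pos _),
    md_Qd hν (by have := hg.hM; omega)]
  have h1 : (pos (cell (Qd ν M) X0 (ψ a))).length = 1 := by
    rw [cell, pos_append, pos_replicate]
    simp [pos, pos_replicate]
  have h2 := hg.psi_lt a
  obtain ⟨y, rfl⟩ : ∃ y, X0 = y + 4 := ⟨X0 - 4, by have := hg.X0_ge; omega⟩
  have h3 : (cell (Qd ν M) (y + 4) (ψ a)).length = Qd ν M * (y + 3) := by
    have h4 : Qd ν M * (y + 4 - 1) = Qd ν M * y + 3 * Qd ν M := by
      rw [show y + 4 - 1 = y + 3 by omega]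
      ring
    have h5 : Qd ν M * (y + 3) = Qd ν M * y + 3 * Qd ν M := by ring
    rw [h5]
    simp only [cell, List.length_append, List.length_cons, List.length_replicate, h4]
    omega
  rw [h1, h3]
  ring

theorem exists_system (ν : ℕ) (hν : 3 ≤ ν) (A : Type) [Fintype A] [Nonempty A]
    (prod : Bool → A → List A) (tl : A → Bool) :
    ∃ (v : List Bool) (Enc : List A → ℕ → List Bool → Prop) (enc : A → List Bool),
      Simulates ν A prod tl v Enc enc := by
  obtain ⟨n, mean, cont, hsurj, hc, hpw⟩ := exists_copies prod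
  have hn : 0 < n := by
    obtain ⟨a⟩ := (inferInstance : Nonempty A)
    obtain ⟨i, _⟩ := hsurj a
    exact lt_of_le_of_lt (Nat.zero_le _) i.2
  obtain ⟨M, X0, N, h, ψ, ℓ, hg⟩ := exists_good ν hν n hn cont hpw fun a => tl (mean a)
  choose sec hsec using hsurj
  have hQ1 : ν - 1 ∣ Qd ν M := Dvd.intro _ rfl
  have hQpos : 0 < Qd ν M := Nat.mul_pos (by omega) (Nat.succ_pos _)
  have hne : ∀ ε a, prod ε (mean a) ≠ [] → cont ε a ≠ [] := by
    intro ε a h0 h1
    apply h0
    rw [← hc, h1]
    rfl
  have hne' : ∀ ε a, prod ε (mean a) = [] → cont ε a = [] := by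
    intro ε a h0
    rw [← hc] at h0
    exact List.map_eq_nil_iff.1 h0
  have hf0 : ∀ g : Fin n × Fin n × List (Fin n),
      ((flat g).map mean)[0]? = some (mean g.1) := fun g => by simp [flat]
  have hf1 : ∀ g : Fin n × Fin n × List (Fin n),
      ((flat g).map mean)[1]? = some (mean g.2.1) := fun g => by simp [flat]
  refine ⟨vw ν M N ℓ, fun X p w => ∃ x : List (Fin n), x.map mean = X ∧
    w = phys (vw ν M N ℓ) (cells (Qd ν M) X0 ψ x ++
      List.replicate (if p = 0 then 0 else if p = 1 then ν - 1 else (ν - 1) * ν ^ M) false),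
    fun a => phys (vw ν M N ℓ) (cell (Qd ν M) X0 (ψ (sec a))), ?_⟩
  constructor
  · rw [System_v_length hν hg]
    have : 1 + Qd ν M ≡ 1 + 0 [MOD ν - 1] := Nat.ModEq.add_left _ (Nat.modEq_zero_iff_dvd.2 hQ1)
    rwa [add_zero] at this
  · intro h0
    have := System_v_length hν hg
    rw [h0] at this
    simp at this
    omega
  · intro a
    rw [System_cell_length hν hg]
    exact Nat.modEq_zero_iff_dvd.2 (Dvd.dvd.mul_right hQ1 _)
  · intro a h0
    have h1 := System_cell_length hν hg (sec a)
    rw [h0] at h1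
    have h2 : 0 < Qd ν M * X0 := Nat.mul_pos hQpos (by have := hg.X0_ge; omega)
    rw [← h1] at h2
    exact absurd h2 (lt_irrefl _)
  · intro X
    refine ⟨X.map sec, ?_, ?_⟩
    · rw [List.map_map]
      conv_rhs => rw [← List.map_id X]
      apply List.map_congr_left
      intro a _
      exact hsec a
    · simp only [if_true, List.replicate_zero, List.append_nil, cells, phys]
      rw [List.flatMap_map, List.flatMap_assoc]
  · -- normal
    rintro G w p hGne hG hp ⟨x, hx, rfl⟩
    rw [← List.append_nil G.flatten] at hx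
    obtain ⟨Gx, xt, rfl, hxt, hlen, rfl⟩ :=
      System_split mean ν hν [] G x (fun g hg' => (hG g hg').1) hx
    have hxt0 : xt = [] := List.map_eq_nil_iff.1 hxt
    subst hxt0
    rw [List.append_nil]
    have hGx : ∀ g ∈ Gx, g.2.2.length = ν - 2 ∧ cont false g.2.1 ≠ [] := by
      intro g hgm
      refine ⟨hlen g hgm, ?_⟩
      have h1 := (hG _ (List.mem_map_of_mem (f := fun g => (flat g).map mean) hgm)).2
      intro h0
      apply h1
      show cts prod false 1 ((flat g).map mean) = []
      rw [System_ct hc (fun g => g.2.1) false 1 hf1 g, h0]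
      rfl
    have hGxne : Gx ≠ [] := by
      rintro rfl
      exact hGne rfl
    rcases hp with rfl | rfl
    · refine ⟨_, ⟨Gx.flatMap fun g => cont false g.2.1,
        System_cts hc (fun g => g.2.1) false 1 hf1 Gx, rfl⟩, ?_⟩
      have := round_normal hν hg Gx hGxne hGx 0
      simpa using this
    · refine ⟨_, ⟨Gx.flatMap fun g => cont false g.2.1,
        System_cts hc (fun g => g.2.1) false 1 hf1 Gx, rfl⟩, ?_⟩
      have := round_normal hν hg Gx hGxne hGx (ν - 1)
      rw [mul_comm] at this
      simpa using this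
  · -- event
    rintro G t w hG ht1 ht2 ht3 ⟨x, hx, rfl⟩
    obtain ⟨Gx, xt, rfl, hxt, hlen, rfl⟩ :=
      System_split mean ν hν t G x (fun g hg' => (hG g hg').1) hx
    have hxtl : xt.length = ν - 1 := by
      rw [← List.length_map (f := mean), hxt, ht1]
    rcases xt with _ | ⟨a, _ | ⟨b, r⟩⟩
    · simp at hxtl
      omega
    · simp at hxtl
      omega
    have hr : r.length = ν - 3 := by
      simp only [List.length_cons] at hxtl
      omega
    subst hxt
    have hct : cts prod true 0 (List.map mean (a :: b :: r)) = (cont true a).map mean :=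
      System_ct hc (fun g => g.1) true 0 hf0 (a, b, r)
    have hGx : ∀ g ∈ Gx, g.2.2.length = ν - 2 ∧ cont true g.1 ≠ [] ∧ tl (mean g.1) = false := by
      intro g hgm
      have h1 := (hG _ (List.mem_map_of_mem (f := fun g => (flat g).map mean) hgm)).2
      refine ⟨hlen g hgm, ?_, h1.2 _ (by simp [flat])⟩
      intro h0
      apply h1.1
      show cts prod true 0 ((flat g).map mean) = []
      rw [System_ct hc (fun g => g.1) true 0 hf0 g, h0]
      rfl
    refine ⟨_, ⟨(Gx.flatMap fun g => cont true g.1) ++ cont true a, ?_, rfl⟩, ?_⟩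
    · rw [List.map_append, System_cts hc (fun g => g.1) true 0 hf0 Gx, hct]
    · have ha : cont true a ≠ [] := by
        intro h0
        apply ht2
        rw [hct, h0]
        rfl
      have := round_event hν hg Gx hGx a b r hr ha (ht3 _ (by simp))
      simpa using this
  · -- echo
    rintro G w hGne hG ⟨x, hx, rfl⟩
    rw [← List.append_nil G.flatten] at hx
    obtain ⟨Gx, xt, rfl, hxt, hlen, rfl⟩ :=
      System_split mean ν hν [] G x (fun g hg' => (hG g hg').1) hx
    have hxt0 : xt = [] := List.map_eq_nil_iff.1 hxt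
    subst hxt0
    rw [List.append_nil]
    have hGx : ∀ g ∈ Gx, g.2.2.length = ν - 2 ∧ cont true g.1 ≠ [] ∧ tl (mean g.1) = false := by
      intro g hgm
      have h1 := (hG _ (List.mem_map_of_mem (f := fun g => (flat g).map mean) hgm)).2
      refine ⟨hlen g hgm, ?_, h1.2 _ (by simp [flat])⟩
      intro h0
      apply h1.1
      show cts prod true 0 ((flat g).map mean) = []
      rw [System_ct hc (fun g => g.1) true 0 hf0 g, h0]
      rfl
    have hGxne : Gx ≠ [] := by
      rintro rfl
      exact hGne rfl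
    refine ⟨_, ⟨Gx.flatMap fun g => cont true g.1,
      System_cts hc (fun g => g.1) true 0 hf0 Gx, rfl⟩, ?_⟩
    have := round_echo hν hg Gx hGxne hGx
    simpa using this
  · -- halt
    rintro G w p hG hp ⟨x, hx, rfl⟩
    rw [← List.append_nil G.flatten] at hx
    obtain ⟨Gx, xt, rfl, hxt, hlen, rfl⟩ :=
      System_split mean ν hν [] G x (fun g hg' => (hG g hg').1) hx
    have hxt0 : xt = [] := List.map_eq_nil_iff.1 hxt
    subst hxt0
    rw [List.append_nil]
    have hGx : ∀ g ∈ Gx, g.2.2.length = ν - 2 ∧ cont false g.2.1 = [] := by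
      intro g hgm
      refine ⟨hlen g hgm, ?_⟩
      have h1 := (hG _ (List.mem_map_of_mem (f := fun g => (flat g).map mean) hgm)).2
      change cts prod false 1 ((flat g).map mean) = [] at h1
      rw [System_ct hc (fun g => g.2.1) false 1 hf1 g] at h1
      exact List.map_eq_nil_iff.1 h1
    rcases hp with rfl | rfl
    · have := round_halt hν hg Gx hGx 0
      simpa using this
    · have := round_halt hν hg Gx hGx (ν - 1)
      rw [mul_comm] at this
      simpa using this

end Pool.Agent.Lib.MP_b40757_lc
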