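import Pool.Agent.Lib.MP_b40757_lc.Good
import Pool.Agent.Lib.MP_b40757_lc.Rep

set_option autoImplicit false

/-!
# The table: definitions

`n` symbols (numbers `< n`), `cf ε a` = list of contents of the symbol `a` in the mode `ε`
(`true` = event). The table consists of `6 n ^ 2` superblocks `s`; a superblock consists of
`K` packets, a packet consists of an own entry and a null entry. So the entries of the table are
`e = 2 K s + 2 k + slot`, `k < K`, `slot < 2` (`slot = 0`: own entry, `slot = 1`: null entry).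
-/

namespace Pool.Agent.Lib.MP_b40757_lc.Tab

open Finset

/-- number of packets in a superblock -/
def K (ν H : ℕ) : ℕ := ν ^ (H + 1)

/-- number of superblocks -/
def B (n : ℕ) : ℕ := 6 * n ^ 2

/-- number of entries -/
def N (ν n H : ℕ) : ℕ := 2 * K ν H * B n

/-- length of a cell, divided by `Q` -/
def X0 (ν H : ℕ) : ℕ := ν ^ H - 1

/-- number of passes in a round -/
def M (H : ℕ) : ℕ := 8 * H

/-- distance between the parameters of the symbols -/
def sg (ν H : ℕ) : ℕ := ν ^ (2 * H + 4)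

/-- mode of the superblock `s` -/
def ep (n s : ℕ) : Bool := decide (s < 3 * n ^ 2)

/-- symbol (as a content) of the superblock `s` -/
def bb (n s : ℕ) : ℕ := (s % (3 * n ^ 2)) / (3 * n)

/-- phase of the superblock `s`: `1` for the superblocks with contents -/
def ph (n s : ℕ) : ℕ := (s % (3 * n)) / n

/-- symbol (as a key) of the superblock `s` -/
def aa (n s : ℕ) : ℕ := n - 1 - s % n

/-- index of the superblock of phase `p` for the key `(a, ε)` and the content `b` -/
def idx (n : ℕ) (ε : Bool) (b p a : ℕ) : ℕ :=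
  (if ε then 0 else 3 * n ^ 2) + 3 * n * b + n * p + (n - 1 - a)

/-- level of the key `(a, ε)` -/
def lam (n a : ℕ) (ε : Bool) : ℕ := 2 * n + 2 * a + (if ε then 1 else 0)

/-- level of the superblock `s` -/
def lv (n s : ℕ) : ℕ := lam n (aa n s) (ep n s)

/-- position parameter of the symbol `b`, reduced -/
def xi (ν n H b : ℕ) : ℕ := sg ν H * (b + 1) + (ν ^ (H + 1) - ν * g ν (2 * n + 2 * b + 1))

/-- position parameter of the symbol `b` -/
def psi (ν n H b : ℕ) : ℕ := (ν - 1) * ν ^ M H + xi ν n H b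

/-- number of passes of a table in the mode `ε` -/
def Fn (H : ℕ) (ε : Bool) : ℕ := if ε then M H - 1 else M H - 2

/-- origin of the part of the table of the mode `ε` -/
def Off (ν H : ℕ) (ε : Bool) : ℕ := if ε then 0 else (ν - 1) * ν ^ (2 * M H - 2)

/-- fine position of the contents of the key `(a, ε)` -/
def fine (ν n H a : ℕ) (ε : Bool) : ℕ :=
  if ε then psi ν n H a / ν else (psi ν n H a + ν) / ν ^ 2

/-- offset of the table of the key `(a, ε)` -/
def Yk (ν n H a : ℕ) (ε : Bool) : ℕ :=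
  if ε then Ye ν (M H) (psi ν n H a) else Yn ν (M H) (X0 ν H) (N ν n H) (psi ν n H a)

/-- position of the superblock `s` -/
def base (ν n H s : ℕ) : ℕ :=
  if ph n s = 0 then
    Off ν H (ep n s) +
      ν ^ Fn H (ep n s) * (xi ν n H (bb n s) - ν - 2 * K ν H * (n - s % n))
  else if ph n s = 1 then
    Off ν H (ep n s) + ν ^ Fn H (ep n s) * xi ν n H (bb n s) - fine ν n H (aa n s) (ep n s)
  else
    Off ν H (ep n s) +
      ν ^ Fn H (ep n s) * (xi ν n H (bb n s) - ν + 2 + 2 * K ν H * (s % n))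

/-- exponent of the unit of length in the superblock `s` -/
def gu (n H s : ℕ) : ℕ := if ph n s = 1 then 4 * n + 1 else Fn H (ep n s)

/-- life of the entry `e` in the table of level `l` -/
def lifeL (ν n H : ℕ) (L : ℕ → ℕ → ℕ) (l e : ℕ) : ℕ :=
  if e % 2 = 1 then l
  else if lv n (e / (2 * K ν H)) = l then L (e / (2 * K ν H)) (e % (2 * K ν H) / 2)
  else min l (lv n (e / (2 * K ν H)))

/-- the entry `e` spawns a spurious table in the table of level `l` -/
def spwL (ν n H l e : ℕ) : Bool :=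
  decide (e % 2 = 0) && decide (lv n (e / (2 * K ν H)) < l)

/-- weight of the superblock `s` in the table of the key `(a, ε)` -/
def Wt (ν n H : ℕ) (L : ℕ → ℕ → ℕ) (a : ℕ) (ε : Bool) (s : ℕ) : ℕ :=
  ∑ u ∈ range (2 * K ν H), ∑ i ∈ range (Fn H ε + 1), ν ^ i *
    pop (N ν n H) (lam n a ε) (lifeL ν n H L (lam n a ε)) (spwL ν n H (lam n a ε))
      (2 * K ν H * s + u) i

/-- constant in the condition for the contents -/
def Gc (ν n H : ℕ) (ε : Bool) : ℕ := if ε then 0 else ν ^ (H - 2) + N ν n H / ν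

/-- constant in the condition for the total population -/
def Ec (ν n H : ℕ) (tl : ℕ → Bool) (a : ℕ) (ε : Bool) : ℕ :=
  if ε then (if tl a then (ν - 1) * (X0 ν H + 1) / ν else X0 ν H + 1)
  else (X0 ν H + N ν n H + 1) / ν

/-- the entry `e` is a content -/
def isC (ν n H : ℕ) (cf : Bool → ℕ → List ℕ) (e : ℕ) : Prop :=
  e % (2 * K ν H) = 0 ∧ ph n (e / (2 * K ν H)) = 1 ∧
    bb n (e / (2 * K ν H)) ∈ cf (ep n (e / (2 * K ν H))) (aa n (e / (2 * K ν H)))

/-- standing assumptions -/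
structure Ass (ν n H : ℕ) (cf : Bool → ℕ → List ℕ) : Prop where
  hν : 3 ≤ ν
  hn : 0 < n
  hH : 6 * n ^ 2 + 4 * n + 10 ≤ H
  sorted : ∀ ε a, (cf ε a).Pairwise (· < ·)
  lt : ∀ ε a, ∀ b ∈ cf ε a, b < n

/-- properties of the lives of the own entries: `L s k` is the life of the own entry number `k` of
the superblock `s` -/
structure Lives (ν n H : ℕ) (cf : Bool → ℕ → List ℕ) (tl : ℕ → Bool) (L : ℕ → ℕ → ℕ) : Prop where
  ge : ∀ s < B n, ∀ k < K ν H, 4 * n ≤ L s k
  content : ∀ s < B n, ph n s = 1 → bb n s ∈ cf (ep n s) (aa n s) → L s 0 = Fn H (ep n s)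
  lt : ∀ s < B n, ∀ k < K ν H, ¬ (ph n s = 1 ∧ bb n s ∈ cf (ep n s) (aa n s) ∧ k = 0) →
    L s k < Fn H (ep n s)
  short : ∀ s < B n, ph n s = 1 → ∀ k < K ν H, (k ≠ 0 ∨ bb n s ∉ cf (ep n s) (aa n s)) →
    L s k = 4 * n
  none : ∀ s < B n, cf (ep n s) (aa n s) = [] → ∀ k < K ν H, L s k = 4 * n
  sum : ∀ ε, ∀ a < n, ∀ j b, (cf ε a)[j]? = some b →
    ∑ s ∈ range (idx n ε b 1 a), Wt ν n H L a ε s + Gc ν n H ε =
      ν ^ Fn H ε * (j * X0 ν H + 1)
  tot : ∀ ε, ∀ a < n, cf ε a ≠ [] →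
    ∑ s ∈ range (B n), Wt ν n H L a ε s + Ec ν n H tl a ε =
      ν ^ Fn H ε * ((cf ε a).length * X0 ν H)

/-- properties of the positions of the entries -/
structure Positions (ν n H : ℕ) (cf : Bool → ℕ → List ℕ) (L : ℕ → ℕ → ℕ) (ℓ : ℕ → ℕ) : Prop where
  mono : ∀ e e', e < e' → e' < N ν n H → ℓ e < ℓ e'
  lt : ∀ e < N ν n H, ℓ e < md ν (M H)
  content : ∀ e < N ν n H, isC ν n H cf e → ℓ e = base ν n H (e / (2 * K ν H))
  null : ∀ e < N ν n H, e % 2 = 1 →
    ℓ e + ν ^ (lv n (e / (2 * K ν H)) + 1) * (e % (2 * K ν H) / 2 + 1) ≡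
      g ν (4 * n) + e % (2 * K ν H) [MOD ν ^ (4 * n)]
  own : ∀ e < N ν n H, e % 2 = 0 → ¬ isC ν n H cf e →
    SS ν (Qd ν (M H)) (N ν n H) ℓ
        (Yk ν n H (aa n (e / (2 * K ν H))) (ep n (e / (2 * K ν H))))
        (lv n (e / (2 * K ν H))) (lifeL ν n H L (lv n (e / (2 * K ν H))))
        (spwL ν n H (lv n (e / (2 * K ν H)))) e
        (L (e / (2 * K ν H)) (e % (2 * K ν H) / 2)) ≡
      ν ^ L (e / (2 * K ν H)) (e % (2 * K ν H) / 2)
        [MOD ν ^ (L (e / (2 * K ν H)) (e % (2 * K ν H) / 2) + 1)]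

end Pool.Agent.Lib.MP_b40757_lc.Tab
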