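import Pool.Agent.Lib.MP_b40757_lc.TabRank

set_option autoImplicit false

/-!
# The table: evolution
-/

namespace Pool.Agent.Lib.MP_b40757_lc.Tab

open Finset

variable {ν n H : ℕ} {cf : Bool → ℕ → List ℕ} {L : ℕ → ℕ → ℕ} {tl : ℕ → Bool} {ℓ : ℕ → ℕ}

private theorem TabFate_eq {a b m : ℤ} (h : a = b) : a ≡ b [ZMOD m] := by rw [h]

private theorem TabFate_g (t : ℕ) : ((ν : ℤ) - 1) * (g ν t : ℕ) = (ν : ℤ) ^ t - 1 := by
  unfold g
  induction t with
  | zero => simp
  | succ t ih =>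
    rw [sum_range_succ]
    push_cast at ih ⊢
    rw [mul_add, ih]
    ring

private theorem TabFate_g_sub {x l : ℕ} (h : l ≤ x) :
    g ν x = g ν l + ν ^ l * g ν (x - l) := by
  obtain ⟨d, rfl⟩ : ∃ d, x = l + d := ⟨x - l, by omega⟩
  unfold g
  rw [Nat.add_sub_cancel_left, sum_range_add, mul_sum]
  congr 1
  apply sum_congr rfl
  intro i _
  rw [pow_add]

private theorem TabFate_g_succ (d : ℕ) : g ν (d + 1) = 1 + ν * g ν d := by
  rw [TabFate_g_sub (x := d + 1) (l := 1) (by omega)]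
  simp [g]

/-- sums of a constant -/
private theorem TabFate_const (r : ℕ) (i : ℕ) :
    ((ν : ℤ) - 1) * ((∑ j ∈ range i, ν ^ j * r : ℕ) : ℤ) = ((ν : ℤ) ^ i - 1) * r := by
  rw [← TabFate_g]
  unfold g
  push_cast
  rw [mul_assoc, sum_mul]

/-- replacing ranks by their residues -/
private theorem TabFate_sum (h : Ass ν n H cf) {R r : ℕ → ℕ} {i : ℕ}
    (hr : ∀ j < i, R j ≡ r j [MOD K ν H]) :
    ((Qd ν (M H) * ∑ j ∈ range i, ν ^ j * R j : ℕ) : ℤ) ≡
      ((ν : ℤ) - 1) * ((∑ j ∈ range i, ν ^ j * r j : ℕ) : ℤ) [ZMOD (ν : ℤ) ^ (4 * n)] := by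
  have hH := h.hH
  have h1 : ((∑ j ∈ range i, ν ^ j * R j : ℕ) : ℤ) ≡
      ((∑ j ∈ range i, ν ^ j * r j : ℕ) : ℤ) [ZMOD (ν : ℤ) ^ (4 * n)] := by
    have h2 : (∑ j ∈ range i, ν ^ j * R j) ≡ (∑ j ∈ range i, ν ^ j * r j) [MOD ν ^ (4 * n)] := by
      have : ∀ k ≤ i, (∑ j ∈ range k, ν ^ j * R j) ≡
          (∑ j ∈ range k, ν ^ j * r j) [MOD ν ^ (4 * n)] := by
        intro k
        induction k with
        | zero => intro _; exact Nat.ModEq.refl _
        | succ k ih =>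
          intro hk
          rw [sum_range_succ, sum_range_succ]
          refine Nat.ModEq.add (ih (by omega)) (Nat.ModEq.mul_left _ ?_)
          exact (hr k (by omega)).of_dvd (pow_dvd_pow ν (by omega))
      exact this i le_rfl
    have := (Int.natCast_modEq_iff).2 h2
    push_cast at this ⊢
    exact this
  have h3 : ((Qd ν (M H) : ℕ) : ℤ) ≡ (ν : ℤ) - 1 [ZMOD (ν : ℤ) ^ (4 * n)] := by
    unfold Qd
    have hν := h.hν
    push_cast [Nat.cast_sub (show 1 ≤ ν by omega)]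
    have h4 : (ν : ℤ) ^ (4 * n) ∣ (ν : ℤ) ^ (2 * M H) := pow_dvd_pow _ (by unfold M; omega)
    have h5 : ((ν : ℤ) - 1) * ((ν : ℤ) ^ (2 * M H) + 1) - ((ν : ℤ) - 1) =
      ((ν : ℤ) - 1) * (ν : ℤ) ^ (2 * M H) := by ring
    apply Int.ModEq.symm
    rw [Int.modEq_iff_dvd, h5]
    exact Dvd.dvd.mul_left h4 _
  rw [Nat.cast_mul]
  exact Int.ModEq.mul h3 h1

/-- the cast of `SS` -/
private theorem TabFate_SS (h : Ass ν n H cf) {a : ℕ} (ha : a < n) (ε : Bool) {e i : ℕ}
    {r : ℕ → ℕ}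
    (hr : ∀ j < i + 1, rkL ν n H L (lam n a ε) e j ≡ r j [MOD K ν H]) :
    ((SS ν (Qd ν (M H)) (N ν n H) ℓ (Yk ν n H a ε) (lam n a ε)
      (lifeL ν n H L (lam n a ε)) (spwL ν n H (lam n a ε)) e i : ℕ) : ℤ) ≡
      - (g ν (lam n a ε) : ℤ) + ℓ e +
        ((ν : ℤ) - 1) * ((∑ j ∈ range (i + 1), ν ^ j * r j : ℕ) : ℤ)
        [ZMOD (ν : ℤ) ^ (4 * n)] := by
  unfold SS
  rw [Nat.cast_add, Nat.cast_add]
  refine Int.ModEq.add (Int.ModEq.add_right _ ?_) (TabFate_sum h hr)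
  obtain ⟨c, hc⟩ := Yk_mod h ha ε
  have hc' : ((Yk ν n H a ε : ℕ) : ℤ) + (g ν (lam n a ε) : ℕ) = (ν : ℤ) ^ (4 * n + 1) * c := by
    exact_mod_cast hc
  apply Int.ModEq.symm
  rw [Int.modEq_iff_dvd]
  refine ⟨ν * c, ?_⟩
  rw [sub_neg_eq_add, hc']
  ring

/-- null entries and own entries of other levels: position modulo `ν ^ (i + 1)` -/
private theorem TabFate_main (h : Ass ν n H cf) (hL : Lives ν n H cf tl L)
    (hP : Positions ν n H cf L ℓ) {a : ℕ} (ha : a < n) (ε : Bool) {e i : ℕ} (he : e < N ν n H)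
    (ho : e % 2 = 1 ∨ lv n (e / (2 * K ν H)) ≠ lam n a ε)
    (hi : i ≤ lifeL ν n H L (lam n a ε) e) :
    ((SS ν (Qd ν (M H)) (N ν n H) ℓ (Yk ν n H a ε) (lam n a ε)
      (lifeL ν n H L (lam n a ε)) (spwL ν n H (lam n a ε)) e i : ℕ) : ℤ) ≡
      (if e % 2 = 1 then (g ν (4 * n) : ℤ) else (g ν (lv n (e / (2 * K ν H))) : ℤ)) -
        (g ν (lam n a ε) : ℤ) + (ν : ℤ) ^ (i + 1) *
        (if e % 2 = 1 ∧ i ≤ lv n (e / (2 * K ν H)) then
          ((e % (2 * K ν H) : ℕ) : ℤ) - (ν : ℤ) ^ (lv n (e / (2 * K ν H)) - i) *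
            ((e % (2 * K ν H) / 2 + 1 : ℕ) : ℤ)
        else if e % 2 = 1 then ((e % (2 * K ν H) / 2 : ℕ) : ℤ)
        else ((e % (2 * K ν H) : ℕ) : ℤ) - (ν : ℤ) ^ (lv n (e / (2 * K ν H)) - i) *
            ((e % (2 * K ν H) / 2 : ℕ) : ℤ))
        [ZMOD (ν : ℤ) ^ (4 * n)] := by
  have hν := h.hν
  have hν1 : 1 ≤ ν := by omega
  have hlam := lam_lt ha ε
  have hge : ∀ s < B n, ∀ k < K ν H, 4 * n ≤ L s k := hL.ge
  set L0 := lv n (e / (2 * K ν H)) with hL0
  set u := e % (2 * K ν H) with hu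
  set l := lam n a ε with hl
  have hpar : u % 2 = e % 2 := by
    rw [hu]
    exact Nat.mod_mul_right_mod e 2 (K ν H)
  by_cases hodd : e % 2 = 1
  · have hlife : lifeL ν n H L l e = l := by
      unfold lifeL
      rw [if_pos hodd]
    rw [hlife] at hi
    have hnull := hP.null e he hodd
    rw [← hL0, ← hu] at hnull
    have hnull' : (ℓ e : ℤ) ≡ (g ν (4 * n) : ℤ) + u - (ν : ℤ) ^ (L0 + 1) * ((u / 2 + 1 : ℕ) : ℤ)
        [ZMOD (ν : ℤ) ^ (4 * n)] := by
      have h1 := (Int.natCast_modEq_iff).2 hnull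
      push_cast at h1
      have h2 := Int.ModEq.sub_right ((ν : ℤ) ^ (L0 + 1) * ((u / 2 + 1 : ℕ) : ℤ)) h1
      push_cast at h2 ⊢
      rw [add_sub_cancel_right] at h2
      exact h2
    rw [if_pos hodd]
    by_cases hiL : i ≤ L0
    · rw [if_pos ⟨hodd, hiL⟩]
      have h1 := TabFate_SS (L := L) (ℓ := ℓ) h ha ε (e := e) (i := i) (r := fun _ => u)
        (fun j hj => rk_mod1 h hge hlam he (by omega) (by omega))
      rw [TabFate_const] at h1
      refine h1.trans ?_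
      have h2 := (hnull'.add_left (-(g ν l : ℤ))).add_right (((ν : ℤ) ^ (i + 1) - 1) * u)
      refine h2.trans ?_
      obtain ⟨d, hd⟩ : ∃ d, L0 = i + d := ⟨L0 - i, by omega⟩
      have h3 : L0 - i = d := by omega
      rw [h3, hd]
      apply TabFate_eq
      ring
    · rw [if_neg (fun hh => hiL hh.2), if_pos hodd]
      have h1 := TabFate_SS (L := L) (ℓ := ℓ) h ha ε (e := e) (i := i)
        (r := fun j => if j ≤ L0 then u else u / 2)
        (fun j hj => by
          show rkL ν n H L l e j ≡ (if j ≤ L0 then u else u / 2) [MOD K ν H]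
          split_ifs with hjL
          · exact rk_mod1 h hge hlam he (by omega) (by omega)
          · exact rk_mod2 h hge hlam he (by omega) (by omega))
      have hu2 : u = 2 * (u / 2) + 1 := by omega
      have hsum : ((ν : ℤ) - 1) * ((∑ j ∈ range (i + 1), ν ^ j * (if j ≤ L0 then u else u / 2) : ℕ) : ℤ)
          = ((ν : ℤ) ^ (L0 + 1) - 1) * u + ((ν : ℤ) ^ (i + 1) - (ν : ℤ) ^ (L0 + 1)) * (u / 2 : ℕ) := by
        have e1 : (∑ j ∈ range (i + 1), ν ^ j * (if j ≤ L0 then u else u / 2)) + ∑ j ∈ range (L0 + 1), ν ^ j * (u / 2)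
            = ∑ j ∈ range (L0 + 1), ν ^ j * u + ∑ j ∈ range (i + 1), ν ^ j * (u / 2) := by
          obtain ⟨d, hd⟩ : ∃ d, i + 1 = L0 + 1 + d := ⟨i - L0, by omega⟩
          rw [hd, sum_range_add, sum_range_add _ (L0 + 1) d]
          have e2 : ∑ j ∈ range (L0 + 1), ν ^ j * (if j ≤ L0 then u else u / 2) =
              ∑ j ∈ range (L0 + 1), ν ^ j * u := by
            apply sum_congr rfl
            intro j hj
            rw [mem_range] at hj
            rw [if_pos (by omega)]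
          have e3 : ∑ j ∈ range d, ν ^ (L0 + 1 + j) * (if L0 + 1 + j ≤ L0 then u else u / 2) =
              ∑ j ∈ range d, ν ^ (L0 + 1 + j) * (u / 2) := by
            apply sum_congr rfl
            intro j hj
            rw [if_neg (by omega)]
          rw [e2, e3]
          ring
        have e4 : (((∑ j ∈ range (i + 1), ν ^ j * (if j ≤ L0 then u else u / 2)) + ∑ j ∈ range (L0 + 1), ν ^ j * (u / 2) : ℕ) : ℤ)
            = ((∑ j ∈ range (L0 + 1), ν ^ j * u + ∑ j ∈ range (i + 1), ν ^ j * (u / 2) : ℕ) : ℤ) := by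
          rw [e1]
        rw [Nat.cast_add, Nat.cast_add] at e4
        have e5 := TabFate_const (ν := ν) (u / 2) (L0 + 1)
        have e6 := TabFate_const (ν := ν) u (L0 + 1)
        have e7 := TabFate_const (ν := ν) (u / 2) (i + 1)
        have e8 : ((ν : ℤ) - 1) * ((∑ j ∈ range (i + 1), ν ^ j * (if j ≤ L0 then u else u / 2) : ℕ) : ℤ)
          = ((ν : ℤ) - 1) * ((∑ j ∈ range (L0 + 1), ν ^ j * u : ℕ) : ℤ)
            + ((ν : ℤ) - 1) * ((∑ j ∈ range (i + 1), ν ^ j * (u / 2) : ℕ) : ℤ)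
            - ((ν : ℤ) - 1) * ((∑ j ∈ range (L0 + 1), ν ^ j * (u / 2) : ℕ) : ℤ) := by
          rw [← mul_add, ← mul_sub, ← e4]
          ring
        rw [e8, e5, e6, e7]
        ring
      rw [hsum] at h1
      refine h1.trans ?_
      have h2 := (hnull'.add_left (-(g ν l : ℤ))).add_right
        (((ν : ℤ) ^ (L0 + 1) - 1) * u + ((ν : ℤ) ^ (i + 1) - (ν : ℤ) ^ (L0 + 1)) * (u / 2 : ℕ))
      refine h2.trans ?_
      apply TabFate_eq
      have hu3 : (u : ℤ) = 2 * ((u / 2 : ℕ) : ℤ) + 1 := by exact_mod_cast hu2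
      rw [hu3]
      push_cast
      ring
  · have hev : e % 2 = 0 := by omega
    have hne : L0 ≠ l := by
      rcases ho with h1 | h1
      · omega
      · exact h1
    have hlife : lifeL ν n H L l e = min l L0 := by
      unfold lifeL
      rw [if_neg hodd, if_neg hne]
    rw [hlife] at hi
    have hown := own_mod h hL hP he hev
    rw [← hL0, ← hu] at hown
    have hown' : (ℓ e : ℤ) ≡ (g ν L0 : ℤ) + u - (ν : ℤ) ^ (L0 + 1) * ((u / 2 : ℕ) : ℤ)
        [ZMOD (ν : ℤ) ^ (4 * n)] := by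
      have h1 := (Int.natCast_modEq_iff).2 hown
      push_cast at h1
      have h2 := Int.ModEq.sub_right ((ν : ℤ) ^ (L0 + 1) * ((u / 2 : ℕ) : ℤ)) h1
      push_cast at h2 ⊢
      rw [add_sub_cancel_right] at h2
      exact h2
    rw [if_neg hodd, if_neg (fun hh => hodd hh.1), if_neg hodd]
    have h1 := TabFate_SS (L := L) (ℓ := ℓ) h ha ε (e := e) (i := i) (r := fun _ => u)
      (fun j hj => rk_mod1 h hge hlam he (by omega) (by omega))
    rw [TabFate_const] at h1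
    refine h1.trans ?_
    have h2 := (hown'.add_left (-(g ν l : ℤ))).add_right (((ν : ℤ) ^ (i + 1) - 1) * u)
    refine h2.trans ?_
    obtain ⟨d, hd⟩ : ∃ d, L0 = i + d := ⟨L0 - i, by omega⟩
    have h3 : L0 - i = d := by omega
    rw [h3, hd]
    apply TabFate_eq
    ring

/-- congruence modulo `ν ^ (i + 1)`, bounds -/
private theorem TabFate_main' (h : Ass ν n H cf) (hL : Lives ν n H cf tl L)
    (hP : Positions ν n H cf L ℓ) {a : ℕ} (ha : a < n) (ε : Bool) {e i : ℕ} (he : e < N ν n H)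
    (ho : e % 2 = 1 ∨ lv n (e / (2 * K ν H)) ≠ lam n a ε)
    (hi : i ≤ lifeL ν n H L (lam n a ε) e) :
    ((SS ν (Qd ν (M H)) (N ν n H) ℓ (Yk ν n H a ε) (lam n a ε)
      (lifeL ν n H L (lam n a ε)) (spwL ν n H (lam n a ε)) e i : ℕ) : ℤ) ≡
      (if e % 2 = 1 then (g ν (4 * n) : ℤ) else (g ν (lv n (e / (2 * K ν H))) : ℤ)) -
        (g ν (lam n a ε) : ℤ) [ZMOD (ν : ℤ) ^ (i + 1)] := by
  have hlam := lam_lt ha ε
  have hi4 : i + 1 ≤ 4 * n := by
    have : lifeL ν n H L (lam n a ε) e ≤ lam n a ε := by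
      unfold lifeL
      split_ifs with h1 h2
      · exact le_rfl
      · rcases ho with h3 | h3
        · exact absurd h3 h1
        · exact absurd h2 h3
      · exact min_le_left _ _
    omega
  have h1 := (TabFate_main h hL hP ha ε he ho hi).of_dvd
    (pow_dvd_pow (ν : ℤ) hi4)
  refine h1.trans ?_
  apply Int.ModEq.symm
  rw [Int.modEq_iff_dvd, add_sub_cancel_left]
  exact dvd_mul_right _ _

/-- null entries and own entries of other levels before they are eliminated -/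
theorem idle_other (h : Ass ν n H cf) (hL : Lives ν n H cf tl L)
    (hP : Positions ν n H cf L ℓ) {a : ℕ} (ha : a < n) (ε : Bool) {e i : ℕ} (he : e < N ν n H)
    (ho : e % 2 = 1 ∨ lv n (e / (2 * K ν H)) ≠ lam n a ε)
    (hi : i < lifeL ν n H L (lam n a ε) e) :
    ν ^ (i + 1) ∣ SS ν (Qd ν (M H)) (N ν n H) ℓ (Yk ν n H a ε) (lam n a ε)
      (lifeL ν n H L (lam n a ε)) (spwL ν n H (lam n a ε)) e i := by
  have h1 := TabFate_main' h hL hP ha ε he ho hi.le
  have hlam := lam_lt ha ε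
  have h2 : (ν : ℤ) ^ (i + 1) ∣ (if e % 2 = 1 then (g ν (4 * n) : ℤ)
      else (g ν (lv n (e / (2 * K ν H))) : ℤ)) - (g ν (lam n a ε) : ℤ) := by
    by_cases hodd : e % 2 = 1
    · have hlife : lifeL ν n H L (lam n a ε) e = lam n a ε := by
        unfold lifeL
        rw [if_pos hodd]
      rw [hlife] at hi
      rw [if_pos hodd, TabFate_g_sub (ν := ν) hlam.le]
      push_cast
      rw [add_sub_cancel_left]
      exact Dvd.dvd.mul_right (pow_dvd_pow _ (by omega)) _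
    · have hne : lv n (e / (2 * K ν H)) ≠ lam n a ε := by
        rcases ho with h1 | h1
        · omega
        · exact h1
      have hlife : lifeL ν n H L (lam n a ε) e = min (lam n a ε) (lv n (e / (2 * K ν H))) := by
        unfold lifeL
        rw [if_neg hodd, if_neg hne]
      rw [hlife] at hi
      rw [if_neg hodd, TabFate_g_sub (ν := ν) (x := lv n (e / (2 * K ν H))) (l := i + 1) (by omega),
        TabFate_g_sub (ν := ν) (x := lam n a ε) (l := i + 1) (by omega)]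
      push_cast
      rw [add_sub_add_left_eq_sub, ← mul_sub]
      exact dvd_mul_right _ _
  have h3 := (Int.ModEq.dvd_iff h1).2 h2
  exact_mod_cast h3

/-- from a congruence to a quotient -/
private theorem TabFate_quot (hν : 3 ≤ ν) {S l : ℕ} (hS : (S : ℤ) ≡ (ν : ℤ) ^ l [ZMOD (ν : ℤ) ^ (l + 1)]) :
    ∃ t, S = ν ^ l * t ∧ t % ν = 1 := by
  have h1 : S ≡ ν ^ l [MOD ν ^ (l + 1)] := by
    apply (Int.natCast_modEq_iff).1
    push_cast
    exact hS
  have h2 : ν ^ l ∣ S := by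
    refine (Nat.ModEq.dvd_iff h1 (pow_dvd_pow ν (by omega))).2 (dvd_refl _)
  obtain ⟨t, rfl⟩ := h2
  refine ⟨t, rfl, ?_⟩
  have h3 : ν ^ l * t ≡ ν ^ l * 1 [MOD ν ^ l * ν] := by
    rw [mul_one, ← pow_succ]
    exact h1
  have h4 : t ≡ 1 [MOD ν] := Nat.ModEq.mul_left_cancel' (pow_pos (by omega) l).ne' h3
  have h5 : t % ν = 1 % ν := h4
  rw [h5]
  exact Nat.mod_eq_of_lt (by omega)

/-- null entries and own entries of higher level die -/
theorem die_other (h : Ass ν n H cf) (hL : Lives ν n H cf tl L)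
    (hP : Positions ν n H cf L ℓ) {a : ℕ} (ha : a < n) (ε : Bool) {e : ℕ} (he : e < N ν n H)
    (ho : e % 2 = 1 ∨ lam n a ε < lv n (e / (2 * K ν H))) :
    ∃ t, SS ν (Qd ν (M H)) (N ν n H) ℓ (Yk ν n H a ε) (lam n a ε)
      (lifeL ν n H L (lam n a ε)) (spwL ν n H (lam n a ε)) e (lam n a ε) =
      ν ^ lam n a ε * t ∧ t % ν = 1 := by
  have hν := h.hν
  have hlam := lam_lt ha ε
  have ho' : e % 2 = 1 ∨ lv n (e / (2 * K ν H)) ≠ lam n a ε := by
    rcases ho with h1 | h1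
    · exact Or.inl h1
    · exact Or.inr (by omega)
  have hlife : lifeL ν n H L (lam n a ε) e = lam n a ε := by
    unfold lifeL
    split_ifs with h1 h2
    · rfl
    · omega
    · exact min_eq_left (by omega)
  apply TabFate_quot hν
  refine (TabFate_main' h hL hP ha ε he ho' (by rw [hlife])).trans ?_
  obtain ⟨x, hx, hxeq⟩ : ∃ x, lam n a ε < x ∧ (if e % 2 = 1 then (g ν (4 * n) : ℤ)
      else (g ν (lv n (e / (2 * K ν H))) : ℤ)) = g ν x := by
    by_cases hodd : e % 2 = 1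
    · exact ⟨4 * n, hlam, by rw [if_pos hodd]⟩
    · exact ⟨lv n (e / (2 * K ν H)), by omega, by rw [if_neg hodd]⟩
  rw [hxeq, TabFate_g_sub (ν := ν) hx.le]
  obtain ⟨d, hd⟩ : ∃ d, x - lam n a ε = d + 1 := ⟨x - lam n a ε - 1, by omega⟩
  rw [hd, TabFate_g_succ]
  push_cast
  rw [add_sub_cancel_left]
  apply Int.ModEq.symm
  rw [Int.modEq_iff_dvd]
  exact ⟨(g ν d : ℤ), by ring⟩

/-- own entries of lower level spawn spurious tables, which die at age `lam n a ε` -/
theorem spawn_other (h : Ass ν n H cf) (hL : Lives ν n H cf tl L)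
    (hP : Positions ν n H cf L ℓ) {a : ℕ} (ha : a < n) (ε : Bool) {e : ℕ} (he : e < N ν n H)
    (he2 : e % 2 = 0) (ho : lv n (e / (2 * K ν H)) < lam n a ε) :
    ∃ y, SS ν (Qd ν (M H)) (N ν n H) ℓ (Yk ν n H a ε) (lam n a ε)
        (lifeL ν n H L (lam n a ε)) (spwL ν n H (lam n a ε)) e (lv n (e / (2 * K ν H))) +
        ν ^ lv n (e / (2 * K ν H)) = ν ^ (lv n (e / (2 * K ν H)) + 1) * y ∧
      ∀ e' < N ν n H,
        (∀ i, lv n (e / (2 * K ν H)) + 1 + i < lam n a ε →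
          ν ^ (i + 1) ∣ ST ν (Qd ν (M H)) (N ν n H) ℓ (lam n a ε)
            (lifeL ν n H L (lam n a ε)) (spwL ν n H (lam n a ε)) y e e' i) ∧
        ∃ t, ST ν (Qd ν (M H)) (N ν n H) ℓ (lam n a ε)
            (lifeL ν n H L (lam n a ε)) (spwL ν n H (lam n a ε)) y e e'
            (lam n a ε - 1 - lv n (e / (2 * K ν H))) =
          ν ^ (lam n a ε - 1 - lv n (e / (2 * K ν H))) * t ∧ t % ν = 1 := by
  have hν := h.hν
  have hν1 : 1 ≤ ν := by omega
  have hlam := lam_lt ha ε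
  have hge : ∀ s < B n, ∀ k < K ν H, 4 * n ≤ L s k := hL.ge
  have hne : lv n (e / (2 * K ν H)) ≠ lam n a ε := by omega
  have hL0ge : 2 * n ≤ lv n (e / (2 * K ν H)) := lam_ge _ _
  have hlife : lifeL ν n H L (lam n a ε) e = lv n (e / (2 * K ν H)) := by
    unfold lifeL
    rw [if_neg (by omega), if_neg hne]
    exact min_eq_right ho.le
  have hmain := TabFate_main h hL hP ha ε he (Or.inr hne) hlife.ge
  rw [if_neg (by omega), if_neg (by omega), if_neg (by omega)] at hmain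
  rw [Nat.sub_self, pow_zero, one_mul] at hmain
  set L0 := lv n (e / (2 * K ν H)) with hL0
  set u := e % (2 * K ν H) with hu
  set l := lam n a ε with hl
  have hpar : u % 2 = e % 2 := by
    rw [hu]
    exact Nat.mod_mul_right_mod e 2 (K ν H)
  have hu2 : u = 2 * (u / 2) := by omega
  obtain ⟨d, hd⟩ : ∃ d, l = L0 + (d + 1) := ⟨l - L0 - 1, by omega⟩
  have hgl : g ν l = g ν L0 + ν ^ L0 * (1 + ν * g ν d) := by
    rw [TabFate_g_sub (ν := ν) (x := l) (l := L0) (by omega), show l - L0 = d + 1 by omega,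
      TabFate_g_succ]
  set S := SS ν (Qd ν (M H)) (N ν n H) ℓ (Yk ν n H a ε) l
        (lifeL ν n H L l) (spwL ν n H l) e L0 with hS
  have hu3 : (u : ℤ) = 2 * ((u / 2 : ℕ) : ℤ) := by exact_mod_cast hu2
  have hS1 : ((S + ν ^ L0 : ℕ) : ℤ) ≡ (ν : ℤ) ^ (L0 + 1) * (((u / 2 : ℕ) : ℤ) - (g ν d : ℤ))
      [ZMOD (ν : ℤ) ^ (4 * n)] := by
    have h1 := hmain.add_right ((ν : ℤ) ^ L0)
    rw [Nat.cast_add, Nat.cast_pow]
    refine h1.trans (TabFate_eq ?_)
    rw [hgl, hu3]
    simp only [Nat.cast_add, Nat.cast_mul, Nat.cast_pow, Nat.cast_one]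
    ring
  have hpL : (0 : ℤ) < (ν : ℤ) ^ (L0 + 1) := by
    have : (0 : ℤ) < ν := by exact_mod_cast hν1
    positivity
  have hdiv : ν ^ (L0 + 1) ∣ S + ν ^ L0 := by
    have h1 : ((ν ^ (L0 + 1) : ℕ) : ℤ) ∣ ((S + ν ^ L0 : ℕ) : ℤ) := by
      have h2 := hS1.of_dvd (pow_dvd_pow (ν : ℤ) (show L0 + 1 ≤ 4 * n by omega))
      rw [Nat.cast_pow]
      exact (Int.ModEq.dvd_iff h2).2 (dvd_mul_right _ _)
    exact_mod_cast h1
  obtain ⟨y, hy⟩ := hdiv
  have hy1 : (y : ℤ) ≡ ((u / 2 : ℕ) : ℤ) - (g ν d : ℤ) [ZMOD (ν : ℤ) ^ (4 * n - L0 - 1)] := by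
    rw [hy] at hS1
    rw [Nat.cast_mul, Nat.cast_pow, Int.modEq_iff_dvd, ← mul_sub] at hS1
    rw [Int.modEq_iff_dvd]
    have e1 : (ν : ℤ) ^ (4 * n) = (ν : ℤ) ^ (L0 + 1) * (ν : ℤ) ^ (4 * n - L0 - 1) := by
      rw [← pow_add]
      congr 1
      omega
    rw [e1] at hS1
    exact (mul_dvd_mul_iff_left hpL.ne').1 hS1
  refine ⟨y, hy, ?_⟩
  intro e' he'
  have hST : ∀ i, i ≤ d → ((ST ν (Qd ν (M H)) (N ν n H) ℓ l
      (lifeL ν n H L l) (spwL ν n H l) y e e' i : ℕ) : ℤ) ≡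
      (g ν (2 * n) : ℤ) - (g ν d : ℤ) [ZMOD (ν : ℤ) ^ (i + 1)] := by
    intro i hi
    unfold ST
    rw [hlife, Nat.cast_add, Nat.cast_add]
    have h1 := TabFate_sum h (i := i + 1)
      (R := fun j => rk (N ν n H) l (lifeL ν n H L l) (spwL ν n H l) e (L0 + 1 + j) + e')
      (r := fun _ => u / 2 + e')
      (fun j hj => Nat.ModEq.add_right _ (rk_mod2 h hge hlam he (by omega) (by omega)))
    rw [TabFate_const] at h1
    have h2 := h1.of_dvd (pow_dvd_pow (ν : ℤ) (show i + 1 ≤ 4 * n by omega))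
    have h3 := hy1.of_dvd (pow_dvd_pow (ν : ℤ) (show i + 1 ≤ 4 * n - L0 - 1 by omega))
    have h4 : (ℓ e' : ℤ) ≡ (g ν (2 * n) : ℤ) + e' [ZMOD (ν : ℤ) ^ (i + 1)] := by
      have h5 := (Int.natCast_modEq_iff).2 (all_mod h hL hP he')
      push_cast at h5
      exact h5.of_dvd (pow_dvd_pow (ν : ℤ) (show i + 1 ≤ 2 * n by omega))
    refine ((h3.add h4).add h2).trans ?_
    apply Int.ModEq.symm
    rw [Int.modEq_iff_dvd]
    refine ⟨((u / 2 + e' : ℕ) : ℤ), ?_⟩
    push_cast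
    ring
  constructor
  · intro i hi
    have h1 := hST i (by omega)
    have h2 : ((ν ^ (i + 1) : ℕ) : ℤ) ∣ ((ST ν (Qd ν (M H)) (N ν n H) ℓ l
      (lifeL ν n H L l) (spwL ν n H l) y e e' i : ℕ) : ℤ) := by
      rw [Nat.cast_pow]
      refine (Int.ModEq.dvd_iff h1).2 ?_
      rw [TabFate_g_sub (ν := ν) (x := 2 * n) (l := d) (by omega)]
      push_cast
      rw [add_sub_cancel_left]
      exact Dvd.dvd.mul_right (pow_dvd_pow _ (by omega)) _
    exact_mod_cast h2
  · have hd2 : l - 1 - L0 = d := by omega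
    rw [hd2]
    apply TabFate_quot hν
    refine (hST d le_rfl).trans ?_
    obtain ⟨c, hc⟩ : ∃ c, 2 * n - d = c + 1 := ⟨2 * n - d - 1, by omega⟩
    rw [TabFate_g_sub (ν := ν) (x := 2 * n) (l := d) (by omega), hc, TabFate_g_succ]
    push_cast
    rw [add_sub_cancel_left]
    apply Int.ModEq.symm
    rw [Int.modEq_iff_dvd]
    exact ⟨(g ν c : ℤ), by ring⟩

/-- later positions determine earlier ones -/
private theorem TabFate_later {Q N' Y l : ℕ} {life : ℕ → ℕ} {spw : ℕ → Bool} {e i j : ℕ}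
    (hij : i ≤ j) : ν ^ (i + 1) ∣ SS ν Q N' ℓ Y l life spw e i ↔
      ν ^ (i + 1) ∣ SS ν Q N' ℓ Y l life spw e j := by
  unfold SS
  obtain ⟨d, rfl⟩ : ∃ d, j = i + d := ⟨j - i, by omega⟩
  have h0 : ∑ x ∈ range (i + d + 1), ν ^ x * rk N' l life spw e x =
      ∑ x ∈ range (i + 1), ν ^ x * rk N' l life spw e x +
        ∑ x ∈ range d, ν ^ (i + 1 + x) * rk N' l life spw e (i + 1 + x) := by
    rw [show i + d + 1 = (i + 1) + d by ring, sum_range_add]
  rw [h0, mul_add, ← add_assoc]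
  have h1 : ν ^ (i + 1) ∣ Q * ∑ x ∈ range d, ν ^ (i + 1 + x) * rk N' l life spw e (i + 1 + x) := by
    apply Dvd.dvd.mul_left
    apply dvd_sum
    intro x _
    exact Dvd.dvd.mul_right (pow_dvd_pow _ (by omega)) _
  exact (Nat.dvd_add_left h1).symm

theorem fate (h : Ass ν n H cf) (hL : Lives ν n H cf tl L)
    (hP : Positions ν n H cf L ℓ) {a : ℕ} (ha : a < n) (ε : Bool) :
    Fate ν (Qd ν (M H)) (N ν n H) ℓ (Yk ν n H a ε) (lam n a ε) (Fn H ε)
      (lifeL ν n H L (lam n a ε)) (spwL ν n H (lam n a ε)) := by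
  have hν := h.hν
  have hn := h.hn
  have hH := h.hH
  have hlam := lam_lt ha ε
  have hF : 4 * n < Fn H ε := by
    unfold Fn M
    split_ifs <;> omega
  have hKpos : 0 < 2 * K ν H := by
    unfold K
    have : 0 < ν ^ (H + 1) := pow_pos (by omega) _
    omega
  have hsB : ∀ e < N ν n H, e / (2 * K ν H) < B n := by
    intro e he
    exact Nat.div_lt_of_lt_mul he
  have ht : ∀ t : ℕ, t % ν = 1 → t % ν ≠ 0 ∧ (t + 1) % ν ≠ 0 := by
    intro t ht
    constructor
    · omega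
    · rw [Nat.add_mod, ht, Nat.mod_eq_of_lt (show 1 < ν by omega), Nat.mod_eq_of_lt (by omega)]
      omega
  -- own entries
  have hownC : ∀ e < N ν n H, lv n (e / (2 * K ν H)) = lam n a ε → e % 2 = 0 →
      isC ν n H cf e → lifeL ν n H L (lam n a ε) e = Fn H ε ∧
        ν ^ Fn H ε ∣ SS ν (Qd ν (M H)) (N ν n H) ℓ (Yk ν n H a ε) (lam n a ε)
          (lifeL ν n H L (lam n a ε)) (spwL ν n H (lam n a ε)) e (Fn H ε) := by
    intro e he hlv he2 hC
    obtain ⟨hC1, hC2, hC3⟩ := hC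
    obtain ⟨haa, hep⟩ := lv_eq_iff.1 hlv
    obtain ⟨hidx, hbb, hph, -⟩ := idx_data hn (hsB e he)
    constructor
    · unfold lifeL
      rw [if_neg (by omega), if_pos hlv, hC1]
      have := hL.content _ (hsB e he) hC2 hC3
      rw [hep] at this
      exact this
    · rw [haa, hep] at hC3
      obtain ⟨j, hj⟩ := List.mem_iff_getElem?.1 hC3
      have h1 := content_SS h hL hP ha hj
      rw [hep, hC2, haa] at hidx
      rw [hidx] at h1
      have h2 : 2 * K ν H * (e / (2 * K ν H)) = e := by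
        have := Nat.div_add_mod e (2 * K ν H)
        omega
      rw [h2] at h1
      rw [h1]
      exact dvd_mul_right _ _
  have hownD : ∀ e < N ν n H, lv n (e / (2 * K ν H)) = lam n a ε → e % 2 = 0 →
      ¬ isC ν n H cf e →
        ∃ t, SS ν (Qd ν (M H)) (N ν n H) ℓ (Yk ν n H a ε) (lam n a ε)
          (lifeL ν n H L (lam n a ε)) (spwL ν n H (lam n a ε)) e
            (lifeL ν n H L (lam n a ε) e) = ν ^ (lifeL ν n H L (lam n a ε) e) * t ∧
          t % ν = 1 := by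
    intro e he hlv he2 hC
    obtain ⟨haa, hep⟩ := lv_eq_iff.1 hlv
    have h1 := hP.own e he he2 hC
    rw [haa, hep, hlv] at h1
    have hlife : lifeL ν n H L (lam n a ε) e =
        L (e / (2 * K ν H)) (e % (2 * K ν H) / 2) := by
      unfold lifeL
      rw [if_neg (by omega), if_pos hlv]
    rw [hlife]
    apply TabFate_quot hν
    have h2 := (Int.natCast_modEq_iff).2 h1
    push_cast at h2 ⊢
    exact h2
  constructor
  · omega
  · intro e he i hi hiF
    by_cases ho : e % 2 = 1 ∨ lv n (e / (2 * K ν H)) ≠ lam n a ε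
    · exact idle_other h hL hP ha ε he ho hi
    · push Not at ho
      obtain ⟨ho1, ho2⟩ := ho
      by_cases hC : isC ν n H cf e
      · obtain ⟨h1, h2⟩ := hownC e he ho2 (by omega) hC
        rw [TabFate_later hiF.le]
        exact dvd_trans (pow_dvd_pow _ (by omega)) h2
      · obtain ⟨t, ht1, -⟩ := hownD e he ho2 (by omega) hC
        rw [TabFate_later hi.le, ht1]
        exact Dvd.dvd.mul_right (pow_dvd_pow _ (by omega)) _
  · intro e he hlF hspw
    by_cases hodd : e % 2 = 1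
    · have hlife : lifeL ν n H L (lam n a ε) e = lam n a ε := by
        unfold lifeL
        rw [if_pos hodd]
      rw [hlife]
      obtain ⟨t, ht1, ht2⟩ := die_other h hL hP ha ε he (Or.inl hodd)
      exact ⟨t, ht1, ht t ht2⟩
    · have hev : e % 2 = 0 := by omega
      have hge : lam n a ε ≤ lv n (e / (2 * K ν H)) := by
        unfold spwL at hspw
        rw [Bool.and_eq_false_iff, decide_eq_false_iff_not, decide_eq_false_iff_not] at hspw
        rcases hspw with h1 | h1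
        · exact absurd hev h1
        · omega
      rcases Nat.lt_or_ge (lam n a ε) (lv n (e / (2 * K ν H))) with hlt | hle
      · have hlife : lifeL ν n H L (lam n a ε) e = lam n a ε := by
          unfold lifeL
          rw [if_neg hodd, if_neg (by omega)]
          exact min_eq_left hge
        rw [hlife]
        obtain ⟨t, ht1, ht2⟩ := die_other h hL hP ha ε he (Or.inr hlt)
        exact ⟨t, ht1, ht t ht2⟩
      · have hlv : lv n (e / (2 * K ν H)) = lam n a ε := by omega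
        have hC : ¬ isC ν n H cf e := by
          intro hC
          have := (hownC e he hlv hev hC).1
          omega
        obtain ⟨t, ht1, ht2⟩ := hownD e he hlv hev hC
        exact ⟨t, ht1, ht t ht2⟩
  · intro e he hspw
    unfold spwL at hspw
    rw [Bool.and_eq_true, decide_eq_true_eq, decide_eq_true_eq] at hspw
    obtain ⟨hev, hlt⟩ := hspw
    have hlife : lifeL ν n H L (lam n a ε) e = lv n (e / (2 * K ν H)) := by
      unfold lifeL
      rw [if_neg (by omega), if_neg (by omega)]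
      exact min_eq_right hlt.le
    rw [hlife]
    refine ⟨hlt, ?_⟩
    obtain ⟨y, hy1, hy2⟩ := spawn_other h hL hP ha ε he hev hlt
    refine ⟨y, hy1, fun e' he' => ?_⟩
    obtain ⟨h1, t, ht1, ht2⟩ := hy2 e' he'
    exact ⟨h1, t, ht1, ht t ht2⟩

end Pool.Agent.Lib.MP_b40757_lc.Tab
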