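import Pool.Agent.Lib.MP_b40757_lc.TabDefs

set_option autoImplicit false

/-!
# The table: indices of superblocks, levels, offsets
-/

namespace Pool.Agent.Lib.MP_b40757_lc.Tab

open Finset

variable {ν n H : ℕ} {cf : Bool → ℕ → List ℕ}

private theorem r_lt {b p a : ℕ} (hb : b < n) (hp : p < 3) :
    n * p + (n - 1 - a) < 3 * n ∧ 3 * n * b + (n * p + (n - 1 - a)) < 3 * n ^ 2 := by
  have h1 : n * (b + 1) ≤ n * n := Nat.mul_le_mul_left _ hb
  have h2 : n * (p + 1) ≤ n * 3 := Nat.mul_le_mul_left _ hp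
  have h3 : n ^ 2 = n * n := by ring
  have h4 : 3 * n * b = 3 * (n * b) := by ring
  rw [Nat.mul_succ] at h1 h2
  constructor
  · omega
  · rw [h3, h4]; omega

private theorem idx_eq (ε : Bool) (b p a : ℕ) :
    idx n ε b p a = 3 * n ^ 2 * (if ε then 0 else 1) + (3 * n * b + (n * p + (n - 1 - a))) := by
  unfold idx
  cases ε <;> simp <;> ring

theorem idx_lt (ε : Bool) {b p a : ℕ} (hb : b < n) (hp : p < 3) : idx n ε b p a < B n := by
  have h := (r_lt (a := a) hb hp).2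
  rw [idx_eq]
  unfold B
  cases ε <;> simp <;> omega

theorem ep_idx (ε : Bool) {b p a : ℕ} (hb : b < n) (hp : p < 3) (ha : a < n) :
    ep n (idx n ε b p a) = ε := by
  have h := (r_lt (a := a) hb hp).2
  rw [idx_eq]
  unfold ep
  cases ε <;> simp <;> omega

private theorem mod1 (ε : Bool) {b p a : ℕ} (hb : b < n) (hp : p < 3) :
    idx n ε b p a % (3 * n ^ 2) = 3 * n * b + (n * p + (n - 1 - a)) := by
  rw [idx_eq, Nat.mul_add_mod, Nat.mod_eq_of_lt (r_lt (a := a) hb hp).2]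

private theorem mod2 (ε : Bool) {b p a : ℕ} (hb : b < n) (hp : p < 3) :
    idx n ε b p a % (3 * n) = n * p + (n - 1 - a) := by
  have h1 : 3 * n ^ 2 * (if ε then 0 else 1) + (3 * n * b + (n * p + (n - 1 - a))) =
      3 * n * (n * (if ε then 0 else 1) + b) + (n * p + (n - 1 - a)) := by ring
  rw [idx_eq, h1, Nat.mul_add_mod, Nat.mod_eq_of_lt (r_lt (a := a) hb hp).1]

theorem bb_idx (ε : Bool) {b p a : ℕ} (hb : b < n) (hp : p < 3) (ha : a < n) :
    bb n (idx n ε b p a) = b := by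
  unfold bb
  rw [mod1 ε hb hp, Nat.mul_add_div (by omega), Nat.div_eq_of_lt (r_lt (a := a) hb hp).1,
    Nat.add_zero]

theorem ph_idx (ε : Bool) {b p a : ℕ} (hb : b < n) (hp : p < 3) (ha : a < n) :
    ph n (idx n ε b p a) = p := by
  unfold ph
  rw [mod2 ε hb hp, Nat.mul_add_div (by omega), Nat.div_eq_of_lt (by omega), Nat.add_zero]

theorem mod_idx (ε : Bool) {b p a : ℕ} (ha : a < n) : idx n ε b p a % n = n - 1 - a := by
  have h1 : 3 * n ^ 2 * (if ε then 0 else 1) + (3 * n * b + (n * p + (n - 1 - a))) =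
      n * (3 * n * (if ε then 0 else 1) + 3 * b + p) + (n - 1 - a) := by ring
  rw [idx_eq, h1, Nat.mul_add_mod, Nat.mod_eq_of_lt (by omega)]

theorem aa_idx (ε : Bool) {b p a : ℕ} (hb : b < n) (hp : p < 3) (ha : a < n) :
    aa n (idx n ε b p a) = a := by
  unfold aa
  rw [mod_idx ε ha]
  omega

/-- every superblock is given by its data -/
theorem idx_data (hn : 0 < n) {s : ℕ} (hs : s < B n) :
    idx n (ep n s) (bb n s) (ph n s) (aa n s) = s ∧ bb n s < n ∧ ph n s < 3 ∧ aa n s < n := by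
  have hn2 : 0 < n ^ 2 := by positivity
  have h1 : s % (3 * n ^ 2) < 3 * n ^ 2 := Nat.mod_lt _ (by omega)
  have h2 : s % (3 * n) < 3 * n := Nat.mod_lt _ (by omega)
  have h3 : s % n < n := Nat.mod_lt _ hn
  have hbb : bb n s < n := by
    unfold bb
    apply Nat.div_lt_of_lt_mul
    calc s % (3 * n ^ 2) < 3 * n ^ 2 := h1
      _ = 3 * n * n := by ring
  have hph : ph n s < 3 := by
    unfold ph
    apply Nat.div_lt_of_lt_mul
    omega
  have haa : aa n s < n := by unfold aa; omega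
  refine ⟨?_, hbb, hph, haa⟩
  have e1 : s % (3 * n ^ 2) % (3 * n) = s % (3 * n) :=
    Nat.mod_mod_of_dvd _ ⟨n, by ring⟩
  have e2 : s % (3 * n) % n = s % n := Nat.mod_mod_of_dvd _ ⟨3, by ring⟩
  have e3 := Nat.div_add_mod (s % (3 * n ^ 2)) (3 * n)
  have e4 := Nat.div_add_mod (s % (3 * n)) n
  rw [e1] at e3
  rw [e2] at e4
  have e5 : n - 1 - aa n s = s % n := by unfold aa; omega
  rw [idx_eq, e5]
  have e6 : 3 * n * bb n s + (n * ph n s + s % n) = s % (3 * n ^ 2) := by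
    unfold bb ph
    rw [e4, e3]
  rw [e6]
  unfold B at hs
  by_cases h : s < 3 * n ^ 2
  · have : ep n s = true := by unfold ep; simpa using h
    rw [this, Nat.mod_eq_of_lt h]; simp
  · have : ep n s = false := by unfold ep; simpa using h
    rw [this]
    have h5 : s % (3 * n ^ 2) = s - 3 * n ^ 2 := by
      rw [Nat.mod_eq_sub_mod (by omega), Nat.mod_eq_of_lt (by omega)]
    rw [h5]; simp; omega

/-- the order of the superblocks is lexicographic -/
theorem idx_lt_idx (ε : Bool) {b p a b' p' a' : ℕ} (ha : a < n) (ha' : a' < n) (hp : p < 3)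
    (hp' : p' < 3) (hb : b < n) (hb' : b' < n) :
    idx n ε b p a < idx n ε b' p' a' ↔ b < b' ∨ (b = b' ∧ (p < p' ∨ (p = p' ∧ a' < a))) := by
  rw [idx_eq, idx_eq, Nat.add_lt_add_iff_left]
  have h1 := (r_lt (a := a) hb hp).1
  have h2 := (r_lt (a := a') hb' hp').1
  have aux : ∀ x y : ℕ, x < y → n * x + n ≤ n * y := fun x y hxy => by
    have := Nat.mul_le_mul_left n (Nat.succ_le_of_lt hxy)
    rwa [Nat.mul_succ] at this
  have e1 : 3 * n * b = 3 * (n * b) := by ring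
  have e2 : 3 * n * b' = 3 * (n * b') := by ring
  rw [e1, e2]
  rcases lt_trichotomy b b' with hbb | hbb | hbb
  · have := aux _ _ hbb
    constructor
    · intro _; exact Or.inl hbb
    · intro _; omega
  · subst hbb
    rcases lt_trichotomy p p' with hpp | hpp | hpp
    · have := aux _ _ hpp
      constructor
      · intro _; exact Or.inr ⟨rfl, Or.inl hpp⟩
      · intro _; omega
    · subst hpp
      constructor
      · intro h; exact Or.inr ⟨rfl, Or.inr ⟨rfl, by omega⟩⟩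
      · intro h; omega
    · have := aux _ _ hpp
      constructor
      · intro h; omega
      · intro h; omega
  · have := aux _ _ hbb
    constructor
    · intro h; omega
    · intro h; omega

theorem lam_inj {a a' : ℕ} {ε ε' : Bool} (h : lam n a ε = lam n a' ε') : a = a' ∧ ε = ε' := by
  unfold lam at h
  cases ε <;> cases ε' <;> simp at h ⊢ <;> omega

theorem lam_ge (a : ℕ) (ε : Bool) : 2 * n ≤ lam n a ε := by
  unfold lam; omega

theorem lam_lt {a : ℕ} (ha : a < n) (ε : Bool) : lam n a ε < 4 * n := by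
  unfold lam
  cases ε <;> simp <;> omega

theorem lv_lt (hn : 0 < n) (s : ℕ) : lv n s < 4 * n := by
  unfold lv
  exact lam_lt (by unfold aa; omega) _

/-- the only superblocks of a given level are those of the key -/
theorem lv_eq_iff {s a : ℕ} {ε : Bool} : lv n s = lam n a ε ↔ aa n s = a ∧ ep n s = ε := by
  unfold lv
  constructor
  · exact lam_inj
  · rintro ⟨rfl, rfl⟩; rfl

theorem K_dvd_N : ν ^ (H + 1) ∣ N ν n H := by
  unfold N K
  exact ⟨2 * B n, by ring⟩

private theorem g_succ (ν t : ℕ) : g ν (t + 1) = g ν t + ν ^ t := by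
  unfold g; rw [Finset.sum_range_succ]

private theorem g_succ' (ν t : ℕ) : g ν (t + 1) = 1 + ν * g ν t := by
  unfold g
  rw [Finset.sum_range_succ', Finset.mul_sum, add_comm]
  congr 1
  apply Finset.sum_congr rfl
  intro i _
  ring

private theorem g_lt {ν : ℕ} (hν : 2 ≤ ν) (t : ℕ) : g ν t < ν ^ t := by
  induction t with
  | zero => simp [g]
  | succ t ih =>
    rw [g_succ, pow_succ]
    nlinarith [Nat.pos_of_ne_zero (pow_ne_zero t (by omega : ν ≠ 0))]

private theorem eight (k : ℕ) (hk : 4 ≤ k) : 8 * (k + 1) ≤ 3 ^ k := by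
  induction k, hk using Nat.le_induction with
  | base => norm_num
  | succ k _ ih => rw [pow_succ]; omega

/-- simple bounds -/
theorem bounds (h : Ass ν n H cf) : 12 * n ^ 2 ≤ ν ^ H ∧ 8 * H ≤ ν ^ (H - 1) ∧
    N ν n H + 2 ≤ ν ^ (2 * H + 2) ∧ 4 * n + 10 ≤ H ∧ B n ≤ ν ^ H := by
  have hν := h.hν
  have hn := h.hn
  have hH := h.hH
  have h0 : 1 ≤ n ^ 2 := Nat.one_le_pow _ _ hn
  have hH2 : 2 * H ≤ ν ^ H := by
    have h1 : H - 1 < 2 ^ (H - 1) := Nat.lt_two_pow_self
    have h2 : 2 ^ H = 2 * 2 ^ (H - 1) := by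
      rw [← pow_succ']; congr 1; omega
    have h3 : 2 ^ H ≤ ν ^ H := Nat.pow_le_pow_left (by omega) _
    omega
  have h1 : 12 * n ^ 2 ≤ ν ^ H := by omega
  refine ⟨h1, ?_, ?_, by omega, by unfold B; omega⟩
  · have h2 := eight (H - 1) (by omega)
    have h3 : 3 ^ (H - 1) ≤ ν ^ (H - 1) := Nat.pow_le_pow_left hν _
    omega
  · have h2 : N ν n H ≤ ν ^ (2 * H + 1) := by
      unfold N K B
      calc 2 * ν ^ (H + 1) * (6 * n ^ 2) = 12 * n ^ 2 * ν ^ (H + 1) := by ring
        _ ≤ ν ^ H * ν ^ (H + 1) := Nat.mul_le_mul_right _ h1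
        _ = ν ^ (2 * H + 1) := by rw [← pow_add]; congr 1; omega
    have h3 : 1 ≤ ν ^ (2 * H + 1) := Nat.one_le_pow _ _ (by omega)
    have h4 : ν ^ (2 * H + 2) = ν ^ (2 * H + 1) * ν := pow_succ _ _
    have h5 : ν ^ (2 * H + 1) * 3 ≤ ν ^ (2 * H + 1) * ν := Nat.mul_le_mul_left _ hν
    omega

private theorem res_le (h : Ass ν n H cf) {b : ℕ} (hb : b ≤ n) :
    ν * g ν (2 * n + 2 * b + 1) ≤ ν ^ (H + 1) := by
  have hν := h.hν
  have hH := (bounds h).2.2.2.1
  calc ν * g ν (2 * n + 2 * b + 1) ≤ ν * ν ^ (2 * n + 2 * b + 1) :=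
        Nat.mul_le_mul_left _ (g_lt (by omega) _).le
    _ = ν ^ (2 * n + 2 * b + 2) := by rw [← pow_succ']
    _ ≤ ν ^ (H + 1) := Nat.pow_le_pow_right (by omega) (by omega)

private theorem xi_eq (h : Ass ν n H cf) {b : ℕ} (hb : b ≤ n) :
    xi ν n H b + ν * g ν (2 * n + 2 * b + 1) = ν ^ (2 * H + 4) * (b + 1) + ν ^ (H + 1) := by
  have := res_le h hb
  unfold xi sg
  omega

private theorem xi_mono (h : Ass ν n H cf) {a a' : ℕ} (haa : a < a') (ha' : a' ≤ n) :
    xi ν n H a + ν ^ (2 * H + 4) ≤ xi ν n H a' + ν ^ (H + 1) := by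
  have h1 := xi_eq h (b := a) (by omega)
  have h2 := xi_eq h ha'
  have h3 := res_le h ha'
  have h4 : ν ^ (2 * H + 4) * (a + 1) + ν ^ (2 * H + 4) ≤ ν ^ (2 * H + 4) * (a' + 1) := by
    rw [← Nat.mul_succ]
    exact Nat.mul_le_mul_left _ (by omega)
  omega

private theorem Kn_le (h : Ass ν n H cf) : 4 * K ν H * n ≤ ν ^ (2 * H + 1) := by
  have h1 := (bounds h).1
  have hn := h.hn
  unfold K
  calc 4 * ν ^ (H + 1) * n = 4 * n * ν ^ (H + 1) := by ring
    _ ≤ 12 * n ^ 2 * ν ^ (H + 1) := Nat.mul_le_mul_right _ (by nlinarith)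
    _ ≤ ν ^ H * ν ^ (H + 1) := Nat.mul_le_mul_right _ h1
    _ = ν ^ (2 * H + 1) := by rw [← pow_add]; congr 1; omega

private theorem pow_three {ν : ℕ} (hν : 3 ≤ ν) {x y : ℕ} (hxy : x < y) : 3 * ν ^ x ≤ ν ^ y := by
  calc 3 * ν ^ x ≤ ν * ν ^ x := Nat.mul_le_mul_right _ hν
    _ = ν ^ (x + 1) := by rw [← pow_succ']
    _ ≤ ν ^ y := Nat.pow_le_pow_right (by omega) hxy

theorem xi_bounds (h : Ass ν n H cf) {b : ℕ} (hb : b < n) :
    ν + 2 * K ν H * n ≤ xi ν n H b ∧ xi ν n H b + 2 + 2 * K ν H * n ≤ ν ^ (3 * H) ∧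
    xi ν n H b + 4 * K ν H * n + ν + 4 ≤ xi ν n H (b + 1) := by
  have hν := h.hν
  have hH := (bounds h).2.2.2.1
  have hK := Kn_le h
  have h1 := xi_eq h (b := b) (by omega)
  have h2 := res_le h (b := b) (by omega)
  have h3 : xi ν n H b + ν ^ (2 * H + 4) ≤ xi ν n H (b + 1) + ν ^ (H + 1) :=
    xi_mono h (Nat.lt_succ_self b) (by omega)
  have e1 : ν ^ 1 * 3 ≤ ν ^ 2 := by rw [mul_comm]; exact pow_three hν (by omega)
  have e2 : 3 * ν ^ 2 ≤ ν ^ (H + 1) := pow_three hν (by omega)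
  have e3 : 3 * ν ^ (H + 1) ≤ ν ^ (2 * H + 1) := pow_three hν (by omega)
  have e4 : 3 * ν ^ (2 * H + 1) ≤ ν ^ (2 * H + 4) := pow_three hν (by omega)
  have e5 : 3 * ν ^ (2 * H + 4) ≤ ν ^ (2 * H + 5) := pow_three hν (by omega)
  have e6 : 4 * K ν H * n = 2 * (2 * K ν H * n) := by ring
  have e7 : ν ^ (2 * H + 4) ≤ ν ^ (2 * H + 4) * (b + 1) := Nat.le_mul_of_pos_right _ (by omega)
  have e8 : ν ^ (2 * H + 4) * (b + 1) * 3 ≤ ν ^ (3 * H) := by
    calc ν ^ (2 * H + 4) * (b + 1) * 3 ≤ ν ^ (2 * H + 4) * ν ^ (H - 4) := by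
          rw [mul_assoc]
          apply Nat.mul_le_mul_left
          have hx : (b + 1) * 3 ≤ H - 4 := by
            have := h.hH
            have h7 : n ≤ n ^ 2 := by nlinarith
            omega
          have hy : H - 4 < 2 ^ (H - 4) := Nat.lt_two_pow_self
          have hz : 2 ^ (H - 4) ≤ ν ^ (H - 4) := Nat.pow_le_pow_left (by omega) _
          omega
      _ = ν ^ (3 * H) := by rw [← pow_add]; congr 1; omega
  simp only [pow_one] at e1
  rw [e6] at hK ⊢
  refine ⟨by omega, by omega, by omega⟩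

private theorem xi_lt (h : Ass ν n H cf) {a : ℕ} (ha : a < n) : xi ν n H a + ν < ν ^ M H := by
  have h1 := (xi_bounds h ha).2.1
  have hν := h.hν
  have h2 : 3 * ν ^ (3 * H) ≤ ν ^ M H := pow_three hν (by unfold M; have := h.hH; omega)
  have h3 : ν ≤ ν ^ (3 * H) := by
    calc ν = ν ^ 1 := (pow_one ν).symm
      _ ≤ ν ^ (3 * H) := Nat.pow_le_pow_right (by omega) (by have := h.hH; omega)
  have h4 : 0 < ν ^ (3 * H) := by positivity
  omega

theorem fine_bounds (h : Ass ν n H cf) {a : ℕ} (ha : a < n) (ε : Bool) :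
    (ν - 1) * ν ^ Fn H ε ≤ fine ν n H a ε ∧ fine ν n H a ε < ν ^ (Fn H ε + 1) := by
  have hν := h.hν
  have h1 := xi_lt h ha
  have hM : 2 ≤ M H := by unfold M; have := h.hH; omega
  have e1 : ν ^ (M H + 1) = (ν - 1) * ν ^ M H + ν ^ M H := by
    obtain ⟨k, rfl⟩ : ∃ k, ν = k + 1 := ⟨ν - 1, by omega⟩
    rw [pow_succ]; simp only [Nat.add_sub_cancel]; ring
  cases ε with
  | true =>
    simp only [Fn, fine, if_true]
    have e2 : M H - 1 + 1 = M H := by omega
    constructor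
    · rw [Nat.le_div_iff_mul_le (by omega), mul_assoc, ← pow_succ, e2]
      unfold psi; omega
    · rw [Nat.div_lt_iff_lt_mul (by omega), ← pow_succ, e2]
      unfold psi; omega
  | false =>
    simp only [Fn, fine, Bool.false_eq_true, if_false]
    have e2 : M H - 2 + 2 = M H := by omega
    have e3 : M H - 2 + 1 + 2 = M H + 1 := by omega
    constructor
    · rw [Nat.le_div_iff_mul_le (by positivity), mul_assoc, ← pow_add, e2]
      unfold psi; omega
    · rw [Nat.div_lt_iff_lt_mul (by positivity), ← pow_add, e3]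
      unfold psi; omega

/-- the contents of different keys with the same content symbol have some distance -/
theorem fine_lt (h : Ass ν n H cf) {a a' : ℕ} (haa : a < a') (ha' : a' < n) (ε : Bool) :
    fine ν n H a ε + 2 * K ν H * ν ^ (4 * n + 1) ≤ fine ν n H a' ε := by
  have hν := h.hν
  have hH := (bounds h).2.2.2.1
  have h3 := xi_mono h haa ha'.le
  have e0 : ν ^ 2 * (2 * K ν H * ν ^ (4 * n + 1)) ≤ ν ^ (2 * H) := by
    unfold K
    calc ν ^ 2 * (2 * ν ^ (H + 1) * ν ^ (4 * n + 1)) = 2 * ν ^ (2 + (H + 1) + (4 * n + 1)) := by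
          rw [pow_add, pow_add]; ring
      _ ≤ 3 * ν ^ (2 + (H + 1) + (4 * n + 1)) := Nat.mul_le_mul_right _ (by omega)
      _ ≤ ν ^ (2 * H) := pow_three hν (by omega)
  have e1 : 3 * ν ^ (H + 1) ≤ ν ^ (2 * H) := pow_three hν (by omega)
  have e2 : 3 * ν ^ (2 * H) ≤ ν ^ (2 * H + 4) := pow_three hν (by omega)
  have e3 : psi ν n H a + ν ^ 2 * (2 * K ν H * ν ^ (4 * n + 1)) ≤ psi ν n H a' := by
    unfold psi; omega
  cases ε with
  | true =>
    simp only [fine, if_true]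
    rw [← Nat.add_mul_div_left _ _ (by omega : 0 < ν)]
    apply Nat.div_le_div_right
    have : ν * (2 * K ν H * ν ^ (4 * n + 1)) ≤ ν ^ 2 * (2 * K ν H * ν ^ (4 * n + 1)) :=
      Nat.mul_le_mul_right _ (by nlinarith)
    omega
  | false =>
    simp only [fine, Bool.false_eq_true, if_false]
    rw [← Nat.add_mul_div_left _ _ (by positivity : 0 < ν ^ 2)]
    apply Nat.div_le_div_right
    omega

private theorem Gc_eq (h : Ass ν n H cf) :
    X0 ν H + 1 + ν * N ν n H = ν ^ 2 * (ν ^ (H - 2) + N ν n H / ν) ∧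
    ν ^ (4 * n + 1) ∣ ν ^ (H - 2) + N ν n H / ν := by
  have hν := h.hν
  have hH := (bounds h).2.2.2.1
  have h1 : X0 ν H + 1 = ν ^ H := by
    unfold X0
    have : 0 < ν ^ H := by positivity
    omega
  have h2 : N ν n H = ν * (ν ^ H * (2 * B n)) := by
    unfold N K
    rw [pow_succ]; ring
  have h3 : N ν n H / ν = ν ^ H * (2 * B n) := by
    rw [h2, Nat.mul_div_cancel_left _ (by omega)]
  constructor
  · rw [h3, h1, h2]
    have : ν ^ H = ν ^ 2 * ν ^ (H - 2) := by rw [← pow_add]; congr 1; omega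
    rw [mul_add, ← this]; ring
  · rw [h3]
    apply Dvd.dvd.add
    · exact pow_dvd_pow _ (by omega)
    · exact Dvd.dvd.mul_right (pow_dvd_pow _ (by omega)) _

private theorem Yn_eq (h : Ass ν n H cf) (a : ℕ) :
    Yk ν n H a false = Qd ν (M H) * (ν ^ (H - 2) + N ν n H / ν) + fine ν n H a false := by
  have hν := h.hν
  simp only [Yk, Bool.false_eq_true, if_false, Yn, fine]
  rw [(Gc_eq h).1, add_assoc]
  have : Qd ν (M H) * (ν ^ 2 * (ν ^ (H - 2) + N ν n H / ν)) =
      ν ^ 2 * (Qd ν (M H) * (ν ^ (H - 2) + N ν n H / ν)) := by ring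
  rw [this, Nat.mul_add_div (by positivity)]

private theorem Ye_eq (a : ℕ) :
    Yk ν n H a true = (ν - 1) * ν ^ (2 * M H - 1) + fine ν n H a true := by
  simp only [Yk, if_true, Ye, fine, md]
  rw [add_right_comm, Nat.add_sub_cancel]

/-- offset plus position of a content -/
theorem Yk_add (h : Ass ν n H cf) {a b : ℕ} (ha : a < n) (hb : b < n) (ε : Bool) :
    Yk ν n H a ε + (Off ν H ε + ν ^ Fn H ε * xi ν n H b - fine ν n H a ε) =
      ν ^ Fn H ε * psi ν n H b + Qd ν (M H) * Gc ν n H ε ∧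
    fine ν n H a ε ≤ Off ν H ε + ν ^ Fn H ε * xi ν n H b := by
  have hν := h.hν
  have h1 := (fine_bounds h ha ε).2
  have h2 := (xi_bounds h hb).1
  have hle : fine ν n H a ε ≤ Off ν H ε + ν ^ Fn H ε * xi ν n H b := by
    have : ν ^ (Fn H ε + 1) ≤ ν ^ Fn H ε * xi ν n H b := by
      rw [pow_succ]; exact Nat.mul_le_mul_left _ (by omega)
    omega
  have hM : 2 ≤ M H := by unfold M; have := h.hH; omega
  refine ⟨?_, hle⟩
  cases ε with
  | true =>
    rw [Ye_eq]
    simp only [Off, if_true, Fn, Gc, Nat.zero_add, Nat.mul_zero, Nat.add_zero] at hle ⊢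
    have e1 : ν ^ (M H - 1) * psi ν n H b = (ν - 1) * ν ^ (2 * M H - 1) +
        ν ^ (M H - 1) * xi ν n H b := by
      unfold psi
      have : ν ^ (2 * M H - 1) = ν ^ (M H - 1) * ν ^ M H := by
        rw [← pow_add]; congr 1; omega
      rw [this]; ring
    rw [e1]; omega
  | false =>
    rw [Yn_eq h]
    simp only [Off, Bool.false_eq_true, if_false, Fn, Gc] at hle ⊢
    have e1 : ν ^ (M H - 2) * psi ν n H b = (ν - 1) * ν ^ (2 * M H - 2) +
        ν ^ (M H - 2) * xi ν n H b := by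
      unfold psi
      have : ν ^ (2 * M H - 2) = ν ^ (M H - 2) * ν ^ M H := by
        rw [← pow_add]; congr 1; omega
      rw [this]; ring
    rw [e1]; omega

private theorem psi_eq (h : Ass ν n H cf) {a : ℕ} (ha : a < n) :
    psi ν n H a + ν * g ν (2 * n + 2 * a + 1) =
      (ν - 1) * ν ^ M H + ν ^ (2 * H + 4) * (a + 1) + ν ^ (H + 1) := by
  have := xi_eq h ha.le
  unfold psi; omega

private theorem psi_eq' (h : Ass ν n H cf) {a : ℕ} (ha : a < n) :
    psi ν n H a + ν + ν ^ 2 * g ν (2 * n + 2 * a) =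
      (ν - 1) * ν ^ M H + ν ^ (2 * H + 4) * (a + 1) + ν ^ (H + 1) := by
  rw [← psi_eq h ha, g_succ']; ring

/-- the offsets of the tables -/
theorem Yk_mod (h : Ass ν n H cf) {a : ℕ} (ha : a < n) (ε : Bool) :
    ν ^ (4 * n + 1) ∣ Yk ν n H a ε + g ν (lam n a ε) := by
  have hν := h.hν
  have hH := (bounds h).2.2.2.1
  have hM : M H = 8 * H := rfl
  cases ε with
  | true =>
    rw [Ye_eq, add_assoc]
    apply Dvd.dvd.add
    · exact Dvd.dvd.mul_left (pow_dvd_pow _ (by omega)) _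
    · have e1 : fine ν n H a true + g ν (lam n a true) =
          (ν - 1) * ν ^ (M H - 1) + ν ^ (2 * H + 3) * (a + 1) + ν ^ H := by
        simp only [fine, if_true, lam]
        rw [← Nat.add_mul_div_left _ _ (by omega : 0 < ν), psi_eq h ha]
        have : (ν - 1) * ν ^ M H + ν ^ (2 * H + 4) * (a + 1) + ν ^ (H + 1) =
            ν * ((ν - 1) * ν ^ (M H - 1) + ν ^ (2 * H + 3) * (a + 1) + ν ^ H) := by
          have e : ν ^ M H = ν * ν ^ (M H - 1) := by rw [← pow_succ']; congr 1; omega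
          rw [e, pow_succ ν H, pow_succ ν (2 * H + 3)]; ring
        rw [this, Nat.mul_div_cancel_left _ (by omega)]
      rw [e1]
      refine Dvd.dvd.add (Dvd.dvd.add ?_ ?_) ?_
      · exact Dvd.dvd.mul_left (pow_dvd_pow _ (by omega)) _
      · exact Dvd.dvd.mul_right (pow_dvd_pow _ (by omega)) _
      · exact pow_dvd_pow _ (by omega)
  | false =>
    rw [Yn_eq h, add_assoc]
    apply Dvd.dvd.add
    · exact Dvd.dvd.mul_left (Gc_eq h).2 _
    · have e1 : fine ν n H a false + g ν (lam n a false) =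
          (ν - 1) * ν ^ (M H - 2) + ν ^ (2 * H + 2) * (a + 1) + ν ^ (H - 1) := by
        simp only [fine, Bool.false_eq_true, if_false, lam, Nat.add_zero]
        rw [← Nat.add_mul_div_left _ _ (by positivity : 0 < ν ^ 2), psi_eq' h ha]
        have : (ν - 1) * ν ^ M H + ν ^ (2 * H + 4) * (a + 1) + ν ^ (H + 1) =
            ν ^ 2 * ((ν - 1) * ν ^ (M H - 2) + ν ^ (2 * H + 2) * (a + 1) + ν ^ (H - 1)) := by
          have e : ν ^ M H = ν ^ 2 * ν ^ (M H - 2) := by rw [← pow_add]; congr 1; omega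
          have e' : ν ^ (H + 1) = ν ^ 2 * ν ^ (H - 1) := by rw [← pow_add]; congr 1; omega
          have e'' : ν ^ (2 * H + 4) = ν ^ 2 * ν ^ (2 * H + 2) := by
            rw [← pow_add]; congr 1; omega
          rw [e, e', e'']; ring
        rw [this, Nat.mul_div_cancel_left _ (by positivity)]
      rw [e1]
      refine Dvd.dvd.add (Dvd.dvd.add ?_ ?_) ?_
      · exact Dvd.dvd.mul_left (pow_dvd_pow _ (by omega)) _
      · exact Dvd.dvd.mul_right (pow_dvd_pow _ (by omega)) _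
      · exact pow_dvd_pow _ (by omega)

theorem psi_dvd (h : Ass ν n H cf) {a : ℕ} (ha : a < n) : ν ^ 2 ∣ psi ν n H a + ν := by
  have hH := (bounds h).2.2.2.1
  have hM : M H = 8 * H := rfl
  have h1 := psi_eq' h ha
  have h2 : ν ^ 2 ∣ (ν - 1) * ν ^ M H + ν ^ (2 * H + 4) * (a + 1) + ν ^ (H + 1) := by
    refine Dvd.dvd.add (Dvd.dvd.add ?_ ?_) ?_
    · exact Dvd.dvd.mul_left (pow_dvd_pow _ (by omega)) _
    · exact Dvd.dvd.mul_right (pow_dvd_pow _ (by omega)) _
    · exact pow_dvd_pow _ (by omega)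
  rw [← h1] at h2
  exact (Nat.dvd_add_left (Dvd.intro _ rfl)).1 h2

theorem psi_lt (h : Ass ν n H cf) {a : ℕ} (ha : a < n) : psi ν n H a < Qd ν (M H) := by
  have hν := h.hν
  have h1 := xi_lt h ha
  have hM : M H = 8 * H := rfl
  have hH := h.hH
  have e1 : 3 * ν ^ M H ≤ ν ^ (2 * M H) := pow_three hν (by omega)
  have e2 : (ν - 1) * (3 * ν ^ M H) ≤ (ν - 1) * ν ^ (2 * M H) := Nat.mul_le_mul_left _ e1
  have e3 : 1 * ν ^ M H ≤ (ν - 1) * ν ^ M H := Nat.mul_le_mul_right _ (by omega)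
  unfold psi Qd
  rw [mul_add]
  have e4 : (ν - 1) * (3 * ν ^ M H) = 3 * ((ν - 1) * ν ^ M H) := by ring
  rw [e4] at e2
  omega

end Pool.Agent.Lib.MP_b40757_lc.Tab
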