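import Pool.Agent.Lib.MP_b40757_lc.TabIdx

set_option autoImplicit false

/-!
# The table: ranks of entries modulo `K`, congruences
-/

namespace Pool.Agent.Lib.MP_b40757_lc.Tab

open Finset

variable {ν n H : ℕ} {cf : Bool → ℕ → List ℕ} {L : ℕ → ℕ → ℕ}

/-- rank of the entry `e` at age `i` in the table of level `l` -/
abbrev rkL (ν n H : ℕ) (L : ℕ → ℕ → ℕ) (l e i : ℕ) : ℕ :=
  rk (N ν n H) l (lifeL ν n H L l) (spwL ν n H l) e i

/-- the population of an own entry -/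
private def px (ν n H l lv i : ℕ) : ℕ :=
  if lv = l then 1 else if lv < l then (if i ≤ lv then 1 else if i ≤ l then N ν n H else 0)
  else if i ≤ l then 1 else 0

/-- the population of a null entry -/
private def py (l i : ℕ) : ℕ := if i ≤ l then 1 else 0

private theorem K_pos (h : Ass ν n H cf) : 0 < K ν H := by
  have := h.hν
  exact pow_pos (by omega) _

private theorem div_add (h : Ass ν n H cf) {s u : ℕ} (hu : u < 2 * K ν H) :
    (2 * K ν H * s + u) / (2 * K ν H) = s := by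
  have hK := K_pos h
  rw [Nat.mul_add_div (by omega), Nat.div_eq_of_lt hu, add_zero]

private theorem mod_add {s u : ℕ} (hu : u < 2 * K ν H) :
    (2 * K ν H * s + u) % (2 * K ν H) = u := by
  rw [Nat.mul_add_mod, Nat.mod_eq_of_lt hu]

private theorem pop_even (h : Ass ν n H cf) (hL : ∀ s < B n, ∀ k < K ν H, 4 * n ≤ L s k) {l : ℕ}
    (hl : l < 4 * n) {s i u : ℕ} (hs : s < B n) (hi : i ≤ 4 * n) (hu : u < 2 * K ν H)
    (he : u % 2 = 0) :
    pop (N ν n H) l (lifeL ν n H L l) (spwL ν n H l) (2 * K ν H * s + u) i =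
      px ν n H l (lv n s) i := by
  have h0 : (2 * K ν H * s + u) % 2 = 0 := by
    rw [mul_assoc, Nat.mul_add_mod, he]
  have hLk := hL s hs (u / 2) (by omega)
  have hlife : lifeL ν n H L l (2 * K ν H * s + u) =
      if lv n s = l then L s (u / 2) else min l (lv n s) := by
    unfold lifeL
    rw [h0, div_add h hu, mod_add hu, if_neg (by norm_num)]
  have hspw : spwL ν n H l (2 * K ν H * s + u) = decide (lv n s < l) := by
    unfold spwL
    rw [h0, div_add h hu]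
    simp
  unfold pop px
  rw [hlife, hspw]
  rcases lt_trichotomy (lv n s) l with h1 | h1 | h1
  · rw [if_neg h1.ne, if_neg h1.ne, if_pos h1, Nat.min_eq_right h1.le]
    simp [h1]
  · rw [if_pos h1, if_pos h1, if_pos (by omega)]
  · have h2 : ¬ lv n s < l := by omega
    have h3 : ¬ lv n s = l := by omega
    simp [h2, h3, Nat.min_eq_left h1.le]

private theorem pop_odd (h : Ass ν n H cf) {l : ℕ} {s i u : ℕ}
    (hu : u < 2 * K ν H) (he : u % 2 = 1) :
    pop (N ν n H) l (lifeL ν n H L l) (spwL ν n H l) (2 * K ν H * s + u) i = py l i := by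
  have h0 : (2 * K ν H * s + u) % 2 = 1 := by
    rw [mul_assoc, Nat.mul_add_mod, he]
  unfold pop lifeL spwL py
  rw [h0, div_add h hu, mod_add hu]
  simp

/-- rank inside a superblock -/
private theorem rk_in (h : Ass ν n H cf) (hL : ∀ s < B n, ∀ k < K ν H, 4 * n ≤ L s k) {l : ℕ}
    (hl : l < 4 * n) {s i : ℕ} (hs : s < B n) (hi : i ≤ 4 * n) (u : ℕ) (hu : u ≤ 2 * K ν H) :
    rkL ν n H L l (2 * K ν H * s + u) i = rkL ν n H L l (2 * K ν H * s) i +
      (u + 1) / 2 * px ν n H l (lv n s) i + u / 2 * py l i := by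
  induction u with
  | zero => simp
  | succ u ih =>
    have ih' := ih (by omega)
    have hstep : rkL ν n H L l (2 * K ν H * s + (u + 1)) i =
        rkL ν n H L l (2 * K ν H * s + u) i +
          pop (N ν n H) l (lifeL ν n H L l) (spwL ν n H l) (2 * K ν H * s + u) i := by
      unfold rkL rk
      rw [← add_assoc, Finset.sum_range_succ]
    rw [hstep, ih']
    rcases Nat.mod_two_eq_zero_or_one u with h1 | h1
    · rw [pop_even h hL hl hs hi (by omega) h1]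
      have h2 : (u + 1 + 1) / 2 = (u + 1) / 2 + 1 := by omega
      have h3 : (u + 1) / 2 = u / 2 := by omega
      rw [h2, h3]
      ring
    · rw [pop_odd h (by omega) h1]
      have h2 : (u + 1 + 1) / 2 = (u + 1) / 2 := by omega
      have h3 : (u + 1) / 2 = u / 2 + 1 := by omega
      rw [h2, h3]
      ring

/-- the population at ages `≤ 4 n` is divisible by `K` -/
theorem pop_dvd (h : Ass ν n H cf) (hL : ∀ s < B n, ∀ k < K ν H, 4 * n ≤ L s k) {l : ℕ}
    (hl : l < 4 * n) {s i : ℕ} (hs : s ≤ B n) (hi : i ≤ 4 * n) :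
    K ν H ∣ rkL ν n H L l (2 * K ν H * s) i := by
  induction s with
  | zero => simp [rkL, rk]
  | succ s ih =>
    have h1 := rk_in h hL hl (s := s) (by omega) hi (2 * K ν H) le_rfl
    have h2 : 2 * K ν H * (s + 1) = 2 * K ν H * s + 2 * K ν H := by ring
    rw [h2, h1]
    have h3 : (2 * K ν H + 1) / 2 = K ν H := by omega
    have h4 : 2 * K ν H / 2 = K ν H := by omega
    rw [h3, h4]
    exact Dvd.dvd.add (Dvd.dvd.add (ih (by omega)) (Dvd.intro _ rfl)) (Dvd.intro _ rfl)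

private theorem rk_mod (h : Ass ν n H cf) (hL : ∀ s < B n, ∀ k < K ν H, 4 * n ≤ L s k) {l : ℕ}
    (hl : l < 4 * n) {e i : ℕ} (he : e < N ν n H) (hi : i ≤ 4 * n) :
    rkL ν n H L l e i ≡ (e % (2 * K ν H) + 1) / 2 * px ν n H l (lv n (e / (2 * K ν H))) i +
      e % (2 * K ν H) / 2 * py l i [MOD K ν H] := by
  have hK := K_pos h
  have hs : e / (2 * K ν H) < B n := by
    rw [Nat.div_lt_iff_lt_mul (by omega)]
    unfold N at he
    rw [mul_comm (B n)]
    exact he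
  have hu : e % (2 * K ν H) < 2 * K ν H := Nat.mod_lt _ (by omega)
  have h1 := rk_in h hL hl hs hi (e % (2 * K ν H)) hu.le
  rw [Nat.div_add_mod] at h1
  rw [h1]
  have h2 := pop_dvd h hL hl hs.le hi
  rw [← Nat.modEq_zero_iff_dvd] at h2
  have h3 := (h2.add_right ((e % (2 * K ν H) + 1) / 2 * px ν n H l (lv n (e / (2 * K ν H))) i)).add_right
    (e % (2 * K ν H) / 2 * py l i)
  rwa [zero_add] at h3

theorem rk_mod1 (h : Ass ν n H cf) (hL : ∀ s < B n, ∀ k < K ν H, 4 * n ≤ L s k) {l : ℕ}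
    (hl : l < 4 * n) {e i : ℕ} (he : e < N ν n H) (hi : i ≤ l)
    (hi' : i ≤ lv n (e / (2 * K ν H))) :
    rkL ν n H L l e i ≡ e % (2 * K ν H) [MOD K ν H] := by
  have h1 := rk_mod h hL hl he (i := i) (by omega)
  have h2 : px ν n H l (lv n (e / (2 * K ν H))) i = 1 := by
    unfold px
    split_ifs <;> omega
  have h3 : py l i = 1 := if_pos hi
  rw [h2, h3, mul_one, mul_one] at h1
  have h4 : (e % (2 * K ν H) + 1) / 2 + e % (2 * K ν H) / 2 = e % (2 * K ν H) := by omega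
  rwa [h4] at h1

theorem rk_mod2 (h : Ass ν n H cf) (hL : ∀ s < B n, ∀ k < K ν H, 4 * n ≤ L s k) {l : ℕ}
    (hl : l < 4 * n) {e i : ℕ} (he : e < N ν n H) (hi : i ≤ l)
    (hi' : lv n (e / (2 * K ν H)) < i) :
    rkL ν n H L l e i ≡ e % (2 * K ν H) / 2 [MOD K ν H] := by
  have h1 := rk_mod h hL hl he (i := i) (by omega)
  have h2 : px ν n H l (lv n (e / (2 * K ν H))) i = N ν n H := by
    unfold px
    rw [if_neg (by omega), if_pos (by omega), if_neg (by omega), if_pos hi]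
  have h3 : py l i = 1 := if_pos hi
  rw [h2, h3, mul_one] at h1
  refine h1.trans ?_
  have h5 : K ν H ∣ (e % (2 * K ν H) + 1) / 2 * N ν n H :=
    Dvd.dvd.mul_left (K_dvd_N (ν := ν) (n := n) (H := H)) _
  rw [← Nat.modEq_zero_iff_dvd] at h5
  have h6 := h5.add_right (e % (2 * K ν H) / 2)
  rwa [zero_add] at h6

theorem rk_mod3 (h : Ass ν n H cf) (hL : ∀ s < B n, ∀ k < K ν H, 4 * n ≤ L s k) {l : ℕ}
    (hl : l < 4 * n) {e i : ℕ} (he : e < N ν n H) (hlv : lv n (e / (2 * K ν H)) = l)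
    (hi : l < i) (hi' : i ≤ 4 * n) (he' : e % 2 = 0) :
    rkL ν n H L l e i ≡ e % (2 * K ν H) / 2 [MOD K ν H] := by
  have h1 := rk_mod h hL hl he (i := i) hi'
  have h2 : px ν n H l (lv n (e / (2 * K ν H))) i = 1 := if_pos hlv
  have h3 : py l i = 0 := if_neg (by omega)
  rw [h2, h3, mul_one, mul_zero, add_zero] at h1
  have h4 : e % (2 * K ν H) % 2 = 0 := by
    rw [Nat.mod_mul_right_mod, he']
  have h5 : (e % (2 * K ν H) + 1) / 2 = e % (2 * K ν H) / 2 := by omega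
  rwa [h5] at h1

private theorem sum_blocks (f : ℕ → ℕ) (m s : ℕ) :
    ∑ e ∈ range (m * s), f e = ∑ s' ∈ range s, ∑ u ∈ range m, f (m * s' + u) := by
  induction s with
  | zero => simp
  | succ s ih =>
    rw [Finset.sum_range_succ, ← ih, Nat.mul_succ, Finset.sum_range_add]

/-- the weights of the superblocks are the weighted ranks -/
theorem sum_Wt (a : ℕ) (ε : Bool) (s : ℕ) :
    ∑ s' ∈ range s, Wt ν n H L a ε s' =
      ∑ i ∈ range (Fn H ε + 1), ν ^ i * rkL ν n H L (lam n a ε) (2 * K ν H * s) i := by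
  unfold Wt rkL rk
  have h1 : ∀ i ∈ range (Fn H ε + 1),
      ν ^ i * ∑ e' ∈ range (2 * K ν H * s), pop (N ν n H) (lam n a ε)
        (lifeL ν n H L (lam n a ε)) (spwL ν n H (lam n a ε)) e' i =
      ∑ s' ∈ range s, ∑ u ∈ range (2 * K ν H), ν ^ i * pop (N ν n H) (lam n a ε)
        (lifeL ν n H L (lam n a ε)) (spwL ν n H (lam n a ε)) (2 * K ν H * s' + u) i := by
    intro i _
    rw [sum_blocks, Finset.mul_sum]
    refine Finset.sum_congr rfl fun s' _ => ?_
    rw [Finset.mul_sum]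
  refine Eq.trans ?_ (Finset.sum_congr rfl h1).symm
  rw [Finset.sum_comm (s := range (Fn H ε + 1))]
  refine Finset.sum_congr rfl fun s' _ => ?_
  exact Finset.sum_comm

/-- the final position of a content -/
private theorem content_SS' {tl : ℕ → Bool} {ℓ : ℕ → ℕ} (h : Ass ν n H cf)
    (hL : Lives ν n H cf tl L)
    (hP : Positions ν n H cf L ℓ) {a j b : ℕ} {ε : Bool} (ha : a < n)
    (hj : (cf ε a)[j]? = some b) :
    SS ν (Qd ν (M H)) (N ν n H) ℓ (Yk ν n H a ε) (lam n a ε) (lifeL ν n H L (lam n a ε))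
      (spwL ν n H (lam n a ε)) (2 * K ν H * idx n ε b 1 a) (Fn H ε) =
    ν ^ Fn H ε * (j * (Qd ν (M H) * X0 ν H) + Qd ν (M H) + psi ν n H b) := by
  have hK := K_pos h
  have hbm : b ∈ cf ε a := List.mem_of_getElem? hj
  have hb : b < n := h.lt ε a b hbm
  have hidx : idx n ε b 1 a < B n := idx_lt ε hb (by norm_num)
  have heN : 2 * K ν H * idx n ε b 1 a < N ν n H := by
    unfold N
    exact Nat.mul_lt_mul_of_pos_left hidx (by omega)
  have hdiv : 2 * K ν H * idx n ε b 1 a / (2 * K ν H) = idx n ε b 1 a :=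
    Nat.mul_div_cancel_left _ (by omega)
  have hep := ep_idx (n := n) ε (p := 1) hb (by norm_num) ha
  have hbb := bb_idx (n := n) ε (p := 1) hb (by norm_num) ha
  have hph := ph_idx (n := n) ε (p := 1) hb (by norm_num) ha
  have haa := aa_idx (n := n) ε (p := 1) hb (by norm_num) ha
  have hC : isC ν n H cf (2 * K ν H * idx n ε b 1 a) := by
    refine ⟨Nat.mul_mod_right _ _, ?_, ?_⟩
    · rw [hdiv, hph]
    · rw [hdiv, hbb, hep, haa]
      exact hbm
  have hpos := hP.content _ heN hC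
  rw [hdiv] at hpos
  unfold base at hpos
  rw [hph, if_neg (by norm_num), if_pos rfl, hep, hbb, haa] at hpos
  obtain ⟨hY, -⟩ := Yk_add h ha hb ε
  have hsum := hL.sum ε a ha j b hj
  rw [sum_Wt] at hsum
  unfold SS
  rw [hpos]
  have e1 : Yk ν n H a ε + (Off ν H ε + ν ^ Fn H ε * xi ν n H b - fine ν n H a ε) +
      Qd ν (M H) * ∑ j ∈ range (Fn H ε + 1), ν ^ j * rk (N ν n H) (lam n a ε)
        (lifeL ν n H L (lam n a ε)) (spwL ν n H (lam n a ε)) (2 * K ν H * idx n ε b 1 a) j =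
      ν ^ Fn H ε * psi ν n H b + Qd ν (M H) * (∑ j ∈ range (Fn H ε + 1), ν ^ j *
        rk (N ν n H) (lam n a ε)
        (lifeL ν n H L (lam n a ε)) (spwL ν n H (lam n a ε)) (2 * K ν H * idx n ε b 1 a) j +
        Gc ν n H ε) := by
    rw [hY]
    ring
  rw [e1, hsum]
  ring

/-- the common argument for own entries -/
private theorem own_aux (h : Ass ν n H cf) (hL : ∀ s < B n, ∀ k < K ν H, 4 * n ≤ L s k)
    {ℓ : ℕ → ℕ} {e : ℕ} (he : e < N ν n H) (he' : e % 2 = 0) {t : ℕ} (ht : 4 * n ≤ t + 1)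
    (hSS : ν ^ (4 * n) ∣ SS ν (Qd ν (M H)) (N ν n H) ℓ
        (Yk ν n H (aa n (e / (2 * K ν H))) (ep n (e / (2 * K ν H))))
        (lv n (e / (2 * K ν H))) (lifeL ν n H L (lv n (e / (2 * K ν H))))
        (spwL ν n H (lv n (e / (2 * K ν H)))) e t) :
    ℓ e + ν ^ (lv n (e / (2 * K ν H)) + 1) * (e % (2 * K ν H) / 2) ≡
      g ν (lv n (e / (2 * K ν H))) + e % (2 * K ν H) [MOD ν ^ (4 * n)] := by
  obtain ⟨-, -, -, hHn, -⟩ := bounds h
  have hK := K_pos h
  have hn := h.hn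
  have hlv : lv n (e / (2 * K ν H)) < 4 * n := lv_lt hn _
  have hs : e / (2 * K ν H) < B n := by
    rw [Nat.div_lt_iff_lt_mul (by omega)]
    unfold N at he
    rw [mul_comm (B n)]
    exact he
  obtain ⟨-, -, -, haa⟩ := idx_data hn hs
  have hY := Yk_mod h haa (ep n (e / (2 * K ν H)))
  have hlam : lam n (aa n (e / (2 * K ν H))) (ep n (e / (2 * K ν H))) =
      lv n (e / (2 * K ν H)) := rfl
  rw [hlam] at hY
  have hu2 : e % (2 * K ν H) % 2 = 0 := by
    rw [Nat.mod_mul_right_mod, he']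
  obtain ⟨k, hk⟩ : ∃ k, e % (2 * K ν H) = 2 * k := ⟨e % (2 * K ν H) / 2, by omega⟩
  have hk2 : 2 * k / 2 = k := by omega
  rw [hk, hk2]
  have hr1 : ∀ i ≤ lv n (e / (2 * K ν H)), rkL ν n H L (lv n (e / (2 * K ν H))) e i ≡ 2 * k
      [MOD K ν H] := by
    intro i hi
    have := rk_mod1 h hL hlv he hi hi
    rwa [hk] at this
  have hr2 : ∀ i, lv n (e / (2 * K ν H)) < i → i ≤ 4 * n →
      rkL ν n H L (lv n (e / (2 * K ν H))) e i ≡ k [MOD K ν H] := by
    intro i hi hi'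
    have := rk_mod3 h hL hlv he rfl hi hi' he'
    rwa [hk, hk2] at this
  set l := lv n (e / (2 * K ν H)) with hldef
  have hν1 : 1 ≤ ν := by have := h.hν; omega
  -- work in the ring `ZMod (ν ^ (4 n))`
  have z0 : ((ν : ℕ) : ZMod (ν ^ (4 * n))) ^ (4 * n) = 0 := by
    have := ZMod.natCast_self (ν ^ (4 * n))
    rwa [Nat.cast_pow] at this
  have zpow : ∀ j, 4 * n ≤ j → ((ν : ℕ) : ZMod (ν ^ (4 * n))) ^ j = 0 := by
    intro j hj
    obtain ⟨c, rfl⟩ := Nat.exists_eq_add_of_le hj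
    rw [pow_add, z0, zero_mul]
  have hdvdK : ν ^ (4 * n) ∣ K ν H := pow_dvd_pow _ (by omega)
  have zr1 : ∀ i ≤ l, ((rkL ν n H L l e i : ℕ) : ZMod (ν ^ (4 * n))) = 2 * (k : ℕ) := by
    intro i hi
    have h1 := (hr1 i hi).of_dvd hdvdK
    have h2 := (ZMod.natCast_eq_natCast_iff _ _ _).2 h1
    rw [h2]; push_cast; ring
  have zr2 : ∀ i, l < i → i ≤ 4 * n →
      ((rkL ν n H L l e i : ℕ) : ZMod (ν ^ (4 * n))) = (k : ℕ) := by
    intro i hi hi'
    exact (ZMod.natCast_eq_natCast_iff _ _ _).2 ((hr2 i hi hi').of_dvd hdvdK)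
  have zQ : ((Qd ν (M H) : ℕ) : ZMod (ν ^ (4 * n))) = (ν : ℕ) - 1 := by
    unfold Qd M
    rw [Nat.cast_mul, Nat.cast_sub hν1, Nat.cast_add, Nat.cast_pow, zpow _ (by omega)]
    push_cast
    ring
  have zY : ((Yk ν n H (aa n (e / (2 * K ν H))) (ep n (e / (2 * K ν H))) : ℕ) :
      ZMod (ν ^ (4 * n))) + ((g ν l : ℕ) : ZMod (ν ^ (4 * n))) = 0 := by
    rw [← Nat.cast_add, ZMod.natCast_eq_zero_iff]
    exact (pow_dvd_pow _ (by omega)).trans hY
  have zSS : ((SS ν (Qd ν (M H)) (N ν n H) ℓ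
        (Yk ν n H (aa n (e / (2 * K ν H))) (ep n (e / (2 * K ν H))))
        l (lifeL ν n H L l) (spwL ν n H l) e t : ℕ) : ZMod (ν ^ (4 * n))) = 0 := by
    rw [ZMod.natCast_eq_zero_iff]
    exact hSS
  unfold SS at zSS
  push_cast at zSS
  have zsum : ∑ j ∈ range (t + 1), ((ν : ℕ) : ZMod (ν ^ (4 * n))) ^ j *
      ((rk (N ν n H) l (lifeL ν n H L l) (spwL ν n H l) e j : ℕ) : ZMod (ν ^ (4 * n))) =
      (k : ℕ) * ∑ j ∈ range (4 * n), ((ν : ℕ) : ZMod (ν ^ (4 * n))) ^ j +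
      (k : ℕ) * ∑ j ∈ range (l + 1), ((ν : ℕ) : ZMod (ν ^ (4 * n))) ^ j := by
    have h1 : ∑ j ∈ range (t + 1), ((ν : ℕ) : ZMod (ν ^ (4 * n))) ^ j *
        ((rk (N ν n H) l (lifeL ν n H L l) (spwL ν n H l) e j : ℕ) : ZMod (ν ^ (4 * n))) =
        ∑ j ∈ range (4 * n), ((ν : ℕ) : ZMod (ν ^ (4 * n))) ^ j *
        ((rk (N ν n H) l (lifeL ν n H L l) (spwL ν n H l) e j : ℕ) : ZMod (ν ^ (4 * n))) := by
      symm
      apply Finset.sum_subset
      · intro x hx
        rw [Finset.mem_range] at hx ⊢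
        omega
      · intro x _ hx
        rw [Finset.mem_range, not_lt] at hx
        rw [zpow x hx, zero_mul]
    rw [h1]
    obtain ⟨c, hc⟩ : ∃ c, 4 * n = (l + 1) + c := ⟨4 * n - (l + 1), by omega⟩
    have h2 : ∀ (f : ℕ → ZMod (ν ^ (4 * n))), ∑ j ∈ range (4 * n), f j =
        ∑ j ∈ range (l + 1), f j + ∑ j ∈ range c, f (l + 1 + j) := by
      intro f
      rw [← Finset.sum_range_add]
      congr 2
    rw [h2, h2]
    have h3 : ∀ j ∈ range (l + 1), ((ν : ℕ) : ZMod (ν ^ (4 * n))) ^ j *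
        ((rk (N ν n H) l (lifeL ν n H L l) (spwL ν n H l) e j : ℕ) : ZMod (ν ^ (4 * n))) =
        ((ν : ℕ) : ZMod (ν ^ (4 * n))) ^ j * (2 * (k : ℕ)) := by
      intro j hj
      rw [Finset.mem_range] at hj
      rw [zr1 j (by omega)]
    have h4 : ∀ j ∈ range c, ((ν : ℕ) : ZMod (ν ^ (4 * n))) ^ (l + 1 + j) *
        ((rk (N ν n H) l (lifeL ν n H L l) (spwL ν n H l) e (l + 1 + j) : ℕ) :
          ZMod (ν ^ (4 * n))) =
        ((ν : ℕ) : ZMod (ν ^ (4 * n))) ^ (l + 1 + j) * (k : ℕ) := by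
      intro j hj
      rw [Finset.mem_range] at hj
      rw [zr2 (l + 1 + j) (by omega) (by omega)]
    rw [Finset.sum_congr rfl h3, Finset.sum_congr rfl h4, ← Finset.sum_mul, ← Finset.sum_mul]
    ring
  rw [zsum, zQ] at zSS
  have g1 := mul_geom_sum ((ν : ℕ) : ZMod (ν ^ (4 * n))) (4 * n)
  have g2 := mul_geom_sum ((ν : ℕ) : ZMod (ν ^ (4 * n))) (l + 1)
  rw [z0] at g1
  rw [← ZMod.natCast_eq_natCast_iff]
  push_cast
  have g3 : (((ν : ℕ) : ZMod (ν ^ (4 * n))) - 1) *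
      ((k : ℕ) * ∑ j ∈ range (4 * n), ((ν : ℕ) : ZMod (ν ^ (4 * n))) ^ j +
      (k : ℕ) * ∑ j ∈ range (l + 1), ((ν : ℕ) : ZMod (ν ^ (4 * n))) ^ j) =
      (k : ℕ) * (((ν : ℕ) : ZMod (ν ^ (4 * n))) ^ (l + 1) - 2) := by
    calc _ = (k : ℕ) * ((((ν : ℕ) : ZMod (ν ^ (4 * n))) - 1) *
          ∑ j ∈ range (4 * n), ((ν : ℕ) : ZMod (ν ^ (4 * n))) ^ j) +
          (k : ℕ) * ((((ν : ℕ) : ZMod (ν ^ (4 * n))) - 1) *
          ∑ j ∈ range (l + 1), ((ν : ℕ) : ZMod (ν ^ (4 * n))) ^ j) := by ring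
      _ = _ := by rw [g1, g2]; ring
  rw [g3] at zSS
  linear_combination zSS - zY

/-- own entries: congruence modulo `ν ^ (4 n)` -/
theorem own_mod {tl : ℕ → Bool} {ℓ : ℕ → ℕ} (h : Ass ν n H cf) (hL : Lives ν n H cf tl L)
    (hP : Positions ν n H cf L ℓ) {e : ℕ} (he : e < N ν n H) (he' : e % 2 = 0) :
    ℓ e + ν ^ (lv n (e / (2 * K ν H)) + 1) * (e % (2 * K ν H) / 2) ≡
      g ν (lv n (e / (2 * K ν H))) + e % (2 * K ν H) [MOD ν ^ (4 * n)] := by
  obtain ⟨-, -, -, hHn, -⟩ := bounds h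
  have hK := K_pos h
  have hn := h.hn
  have hs : e / (2 * K ν H) < B n := by
    rw [Nat.div_lt_iff_lt_mul (by omega)]
    unfold N at he
    rw [mul_comm (B n)]
    exact he
  by_cases hC : isC ν n H cf e
  · obtain ⟨hC1, hC2, hC3⟩ := hC
    obtain ⟨hd1, hd2, hd3, hd4⟩ := idx_data hn hs
    obtain ⟨j, hj⟩ := List.mem_iff_getElem?.1 hC3
    have h1 := content_SS' h hL hP hd4 hj
    have h2 : 2 * K ν H * idx n (ep n (e / (2 * K ν H))) (bb n (e / (2 * K ν H))) 1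
        (aa n (e / (2 * K ν H))) = e := by
      rw [← hC2, hd1]
      exact Nat.mul_div_cancel' (Nat.dvd_of_mod_eq_zero hC1)
    rw [h2] at h1
    have hF : 4 * n ≤ Fn H (ep n (e / (2 * K ν H))) := by
      unfold Fn M
      split_ifs <;> omega
    apply own_aux h hL.ge he he' (t := Fn H (ep n (e / (2 * K ν H)))) (by omega)
    have h3 : lv n (e / (2 * K ν H)) = lam n (aa n (e / (2 * K ν H))) (ep n (e / (2 * K ν H))) :=
      rfl
    rw [h3, h1]
    exact (pow_dvd_pow _ hF).mul_right _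
  · have h1 := hP.own e he he' hC
    have hLk : 4 * n ≤ L (e / (2 * K ν H)) (e % (2 * K ν H) / 2) := by
      apply hL.ge _ hs
      have := Nat.mod_lt e (show 0 < 2 * K ν H by omega)
      omega
    apply own_aux h hL.ge he he' (t := L (e / (2 * K ν H)) (e % (2 * K ν H) / 2)) (by omega)
    have h2 := h1.of_dvd (pow_dvd_pow ν (show 4 * n ≤ L (e / (2 * K ν H))
      (e % (2 * K ν H) / 2) + 1 by omega))
    have h3 := Nat.modEq_zero_iff_dvd.2 (pow_dvd_pow ν hLk)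
    exact Nat.modEq_zero_iff_dvd.1 (h2.trans h3)

/-- all entries: congruence modulo `ν ^ (2 n)` -/
theorem all_mod {tl : ℕ → Bool} {ℓ : ℕ → ℕ} (h : Ass ν n H cf) (hL : Lives ν n H cf tl L)
    (hP : Positions ν n H cf L ℓ) {e : ℕ} (he : e < N ν n H) :
    ℓ e ≡ g ν (2 * n) + e [MOD ν ^ (2 * n)] := by
  obtain ⟨-, -, -, hHn, -⟩ := bounds h
  have hlvge : 2 * n ≤ lv n (e / (2 * K ν H)) := lam_ge _ _
  have z0 : ((ν : ℕ) : ZMod (ν ^ (2 * n))) ^ (2 * n) = 0 := by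
    have := ZMod.natCast_self (ν ^ (2 * n))
    rwa [Nat.cast_pow] at this
  have zpow : ∀ j, 2 * n ≤ j → ((ν : ℕ) : ZMod (ν ^ (2 * n))) ^ j = 0 := by
    intro j hj
    obtain ⟨c, rfl⟩ := Nat.exists_eq_add_of_le hj
    rw [pow_add, z0, zero_mul]
  have zg : ∀ t, 2 * n ≤ t → ((g ν t : ℕ) : ZMod (ν ^ (2 * n))) = ((g ν (2 * n) : ℕ) :
      ZMod (ν ^ (2 * n))) := by
    intro t ht
    unfold g
    push_cast
    symm
    apply Finset.sum_subset
    · intro x hx
      rw [Finset.mem_range] at hx ⊢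
      omega
    · intro x _ hx
      rw [Finset.mem_range, not_lt] at hx
      exact zpow x hx
  have ze : ((e % (2 * K ν H) : ℕ) : ZMod (ν ^ (2 * n))) = ((e : ℕ) : ZMod (ν ^ (2 * n))) := by
    rw [ZMod.natCast_eq_natCast_iff]
    apply (Nat.mod_modEq e (2 * K ν H)).of_dvd
    exact Dvd.dvd.mul_left (pow_dvd_pow ν (by omega)) 2
  have hd : ν ^ (2 * n) ∣ ν ^ (4 * n) := pow_dvd_pow _ (by omega)
  rw [← ZMod.natCast_eq_natCast_iff]
  rcases Nat.mod_two_eq_zero_or_one e with h1 | h1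
  · have h2 := (own_mod h hL hP he h1).of_dvd hd
    rw [← ZMod.natCast_eq_natCast_iff] at h2
    push_cast at h2 ⊢
    rw [zpow _ (by omega), zero_mul, add_zero, zg _ hlvge] at h2
    rw [h2]
    congr 1
  · have h2 := (hP.null e he h1).of_dvd hd
    rw [← ZMod.natCast_eq_natCast_iff] at h2
    push_cast at h2 ⊢
    rw [zpow _ (by omega), zero_mul, add_zero, zg _ (by omega)] at h2
    rw [h2]
    congr 1

/-- the final position of a content -/
theorem content_SS {tl : ℕ → Bool} {ℓ : ℕ → ℕ} (h : Ass ν n H cf) (hL : Lives ν n H cf tl L)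
    (hP : Positions ν n H cf L ℓ) {a j b : ℕ} {ε : Bool} (ha : a < n)
    (hj : (cf ε a)[j]? = some b) :
    SS ν (Qd ν (M H)) (N ν n H) ℓ (Yk ν n H a ε) (lam n a ε) (lifeL ν n H L (lam n a ε))
      (spwL ν n H (lam n a ε)) (2 * K ν H * idx n ε b 1 a) (Fn H ε) =
    ν ^ Fn H ε * (j * (Qd ν (M H) * X0 ν H) + Qd ν (M H) + psi ν n H b) :=
  content_SS' h hL hP ha hj

end Pool.Agent.Lib.MP_b40757_lc.Tab
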