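import Pool.Agent.Lib.MP_b40757_lc.Pass

set_option autoImplicit false

/-!
# One pass on words of letters `0`, `V` in terms of the positions of the letters `V`
-/

namespace Pool.Agent.Lib.MP_b40757_lc

open Relation

/-- the word `v`: `m` blocks of length `ν`; a single `1` on track `0`, the table on track `1` -/
def mkv (ν m : ℕ) (tab : List ℕ) : List Bool :=
  (List.range m).flatMap fun i =>
    decide (i = 0) :: decide (i ∈ tab) :: List.replicate (ν - 2) false

/-- positions of the letters `V = true` -/
def pos : List Bool → List ℕ
  | [] => []
  | b :: W => (if b then [0] else []) ++ (pos W).map (· + 1)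

/-- the letters `V` produced by a letter `V` at physical position `R` in a pass with state `s` -/
def child (ν : ℕ) (tab : List ℕ) (s R : ℕ) : List ℕ :=
  if R % ν = s then [R / ν] else if (R + 1) % ν = s then tab.map (· + (R + 1) / ν) else []

/-- one pass on positions of letters, the rank of the first one being `r` -/
def nxtFrom (ν Q : ℕ) (tab : List ℕ) (s r : ℕ) (ps : List ℕ) : List ℕ :=
  (ps.zipIdx r).flatMap fun x => child ν tab s (x.1 + Q * x.2)

/-- one pass on positions of letters -/
def nxt (ν Q : ℕ) (tab : List ℕ) (s : ℕ) (ps : List ℕ) : List ℕ := nxtFrom ν Q tab s 0 ps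

theorem pos_append (W₁ W₂ : List Bool) :
    pos (W₁ ++ W₂) = pos W₁ ++ (pos W₂).map (· + W₁.length) := by
  induction W₁ with
  | nil => simp [pos]
  | cons b W ih =>
    simp only [List.cons_append, pos, ih, List.map_append, List.map_map, List.length_cons,
      List.append_assoc]
    congr 2

theorem pos_replicate (n : ℕ) : pos (List.replicate n false) = [] := by
  induction n with
  | zero => rfl
  | succ n ih => simp [List.replicate_succ, pos, ih]

/-- a word is determined by its length and the positions of the letters `V` -/
theorem eq_of_pos {W₁ W₂ : List Bool} (h : pos W₁ = pos W₂) (hl : W₁.length = W₂.length) :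
    W₁ = W₂ := by
  induction W₁ generalizing W₂ with
  | nil =>
    cases W₂ with
    | nil => rfl
    | cons b W => simp at hl
  | cons a W ih =>
    cases W₂ with
    | nil => simp at hl
    | cons b W₂ =>
      have hinj : Function.Injective (fun x : ℕ => x + 1) := fun x y hxy => by simpa using hxy
      have h0 : ∀ V : List Bool, 0 ∉ (pos V).map (· + 1) := by
        intro V hV
        simp at hV
      simp only [List.length_cons, Nat.add_right_cancel_iff] at hl
      cases a <;> cases b
      · simp only [pos] at h
        have h' : (pos W).map (· + 1) = (pos W₂).map (· + 1) := by simpa using h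
        rw [ih (List.map_injective_iff.2 hinj h') hl]
      · exfalso
        simp only [pos] at h
        apply h0 W
        have : (pos W).map (· + 1) = 0 :: (pos W₂).map (· + 1) := by simpa using h
        rw [this]
        simp
      · exfalso
        simp only [pos] at h
        apply h0 W₂
        have : 0 :: (pos W).map (· + 1) = (pos W₂).map (· + 1) := by simpa using h
        rw [← this]
        simp
      · simp only [pos] at h
        have h' : (pos W).map (· + 1) = (pos W₂).map (· + 1) := by simpa using h
        rw [ih (List.map_injective_iff.2 hinj h') hl]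

theorem nxtFrom_append (ν Q : ℕ) (tab : List ℕ) (s r : ℕ) (ps qs : List ℕ) :
    nxtFrom ν Q tab s r (ps ++ qs) = nxtFrom ν Q tab s r ps
      ++ nxtFrom ν Q tab s (r + ps.length) qs := by
  simp [nxtFrom, List.zipIdx_append]

theorem mkv_length (ν m : ℕ) (hν : 2 ≤ ν) (tab : List ℕ) : (mkv ν m tab).length = ν * m := by
  have h : ∀ L : List ℕ, (L.flatMap fun i =>
      decide (i = 0) :: decide (i ∈ tab) :: List.replicate (ν - 2) false).length
        = ν * L.length := by
    intro L
    induction L with
    | nil => simp
    | cons a L ih =>
      rw [List.flatMap_cons, List.length_append, ih]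
      simp only [List.length_cons, List.length_replicate, Nat.mul_add]
      omega
  rw [mkv, h, List.length_range]

theorem phys_mkv_length (ν m : ℕ) (hν : 2 ≤ ν) (hm : 0 < m) (tab : List ℕ) (W : List Bool) :
    (phys (mkv ν m tab) W).length = W.length + (ν * m - 1) * (pos W).length := by
  have hpos : 0 < ν * m := Nat.mul_pos (by omega) hm
  induction W with
  | nil => simp [phys, pos]
  | cons b W ih =>
    have h1 : phys (mkv ν m tab) (b :: W)
        = rule [false] (mkv ν m tab) b ++ phys (mkv ν m tab) W := by
      simp [phys]
    rw [h1, List.length_append, ih]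
    cases b
    · simp only [rule, pos, List.length_cons, List.length_append, List.length_map]
      simp
      omega
    · simp only [rule, pos, mkv_length ν m hν tab, List.length_cons, List.length_append,
        List.length_map]
      simp only [if_true, List.length_cons, List.length_nil]
      rw [Nat.mul_add]
      omega

theorem Trans_skip (ν : ℕ) (w : List Bool) (s : ℕ) (h : w.length ≤ s) :
    read ν s w = [] ∧ out ν s w = s - w.length := by
  induction w generalizing s with
  | nil => cases s <;> simp [read, out]
  | cons b w ih =>
    cases s with
    | zero => simp at h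
    | succ s =>
      simp only [List.length_cons, Nat.add_le_add_iff_right] at h
      obtain ⟨h1, h2⟩ := ih s h
      simp [read, out, h1, h2]

theorem Trans_read (ν : ℕ) (w₁ : List Bool) (b : Bool) (w₂ : List Bool) :
    read ν w₁.length (w₁ ++ b :: w₂) = b :: read ν (ν - 1) w₂ ∧
      out ν w₁.length (w₁ ++ b :: w₂) = out ν (ν - 1) w₂ := by
  induction w₁ with
  | nil => simp [read, out]
  | cons a w₁ ih => simpa [read, out] using ih

theorem Trans_block (ν : ℕ) (w : List Bool) (s : ℕ) (hs : s < ν) (hw : w.length = ν) :
    read ν s w = [w[s]'(by omega)] ∧ out ν s w = s := by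
  have hsw : s < w.length := by omega
  have hsplit : w = w.take s ++ w[s] :: w.drop (s + 1) := by
    rw [List.getElem_cons_drop, List.take_append_drop]
  have hlen : (w.take s).length = s := by rw [List.length_take]; omega
  obtain ⟨h1, h2⟩ := Trans_read ν (w.take s) (w[s]) (w.drop (s + 1))
  rw [hlen, ← hsplit] at h1 h2
  obtain ⟨h3, h4⟩ := Trans_skip ν (w.drop (s + 1)) (ν - 1) (by rw [List.length_drop]; omega)
  rw [h1, h2, h3, h4, List.length_drop]
  refine ⟨rfl, ?_⟩
  omega

/-- the symbol read in the block with index `i` -/
def Trans_sym (tab : List ℕ) (s i : ℕ) : Bool :=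
  if s = 0 then decide (i = 0) else if s = 1 then decide (i ∈ tab) else false

theorem Trans_blocks (ν : ℕ) (hν : 2 ≤ ν) (tab : List ℕ) (s : ℕ) (hs : s < ν) (L : List ℕ) :
    read ν s (L.flatMap fun i =>
      decide (i = 0) :: decide (i ∈ tab) :: List.replicate (ν - 2) false)
        = L.map (Trans_sym tab s) ∧
    out ν s (L.flatMap fun i =>
      decide (i = 0) :: decide (i ∈ tab) :: List.replicate (ν - 2) false) = s := by
  induction L with
  | nil => cases s <;> simp [read, out]
  | cons a L ih =>
    have hlen : (decide (a = 0) :: decide (a ∈ tab) :: List.replicate (ν - 2) false).length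
        = ν := by
      simp only [List.length_cons, List.length_replicate]
      omega
    obtain ⟨h1, h2⟩ := Trans_block ν _ s hs hlen
    rw [List.flatMap_cons, read_append, out_append, h1, h2, ih.1, ih.2]
    refine ⟨?_, rfl⟩
    rw [List.map_cons, List.singleton_append]
    congr 1
    rcases s with _ | _ | s
    · simp [Trans_sym]
    · simp [Trans_sym]
    · simp [Trans_sym]

theorem Trans_pos_range (f : ℕ → Bool) (m : ℕ) :
    pos ((List.range m).map f) = (List.range m).filter f := by
  induction m with
  | zero => rfl
  | succ m ih =>
    rw [List.range_succ, List.map_append, pos_append, ih, List.filter_append, List.map_singleton]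
    congr 1
    cases h : f m
    · simp [pos, h]
    · simp [pos, h]

theorem Trans_filter_mem (m : ℕ) (tab : List ℕ) (hs : tab.Pairwise (· < ·))
    (hlt : ∀ x ∈ tab, x < m) : (List.range m).filter (fun i => decide (i ∈ tab)) = tab := by
  have h1 : ((List.range m).filter (fun i => decide (i ∈ tab))).Pairwise (· < ·) :=
    List.Pairwise.filter _ List.pairwise_lt_range
  have hp : ((List.range m).filter (fun i => decide (i ∈ tab))).Perm tab := by
    rw [List.perm_ext_iff_of_nodup]
    · intro x
      simp only [List.mem_filter, List.mem_range, decide_eq_true_eq]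
      exact ⟨fun h => h.2, fun h => ⟨hlt x h, h⟩⟩
    · exact h1.imp (fun h => ne_of_lt h)
    · exact hs.imp (fun h => ne_of_lt h)
  exact hp.eq_of_pairwise (fun a b _ _ h h' => absurd h' (not_lt_of_gt h)) h1 hs

theorem Trans_pos_sym (m : ℕ) (hm : 0 < m) (tab : List ℕ) (hs : tab.Pairwise (· < ·))
    (hlt : ∀ x ∈ tab, x < m) (s : ℕ) :
    pos ((List.range m).map (Trans_sym tab s))
      = if s = 0 then [0] else if s = 1 then tab else [] := by
  rw [Trans_pos_range]
  rcases s with _ | _ | s
  · have h0 : Trans_sym tab 0 = fun i => decide (i = 0) := by
      funext i; simp [Trans_sym]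
    rw [h0]
    obtain ⟨k, rfl⟩ : ∃ k, m = k + 1 := ⟨m - 1, by omega⟩
    rw [List.range_succ_eq_map, List.filter_cons]
    simp [List.filter_map, Function.comp_def]
  · have h1 : Trans_sym tab (0 + 1) = fun i => decide (i ∈ tab) := by
      funext i; simp [Trans_sym]
    rw [h1]
    simpa using Trans_filter_mem m tab hs hlt
  · simp [Trans_sym]

/-- one pass in terms of positions -/
theorem trans (ν : ℕ) (hν : 3 ≤ ν) (m : ℕ) (hm : 0 < m) (tab : List ℕ)
    (hs : tab.Pairwise (· < ·)) (hlt : ∀ x ∈ tab, x < m) (s : ℕ) (hsν : s < ν) (W : List Bool) :
    pos (tr ν (mkv ν m tab) s W) = nxt ν (ν * m - 1) tab s (pos W) ∧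
    ν * (tr ν (mkv ν m tab) s W).length + s =
      (W.length + (ν * m - 1) * (pos W).length) + ost ν (mkv ν m tab) s W ∧
    ost ν (mkv ν m tab) s W < ν := by
  have hpos : 0 < ν * m := Nat.mul_pos (by omega) hm
  induction W using List.reverseRecOn with
  | nil =>
    have h1 : tr ν (mkv ν m tab) s [] = [] := by cases s <;> simp [tr, phys, read]
    have h2 : ost ν (mkv ν m tab) s [] = s := by cases s <;> simp [ost, phys, out]
    rw [h1, h2]
    refine ⟨by simp [pos, nxt, nxtFrom], by simp [pos], hsν⟩
  | append_singleton W b ih =>
    obtain ⟨ih1, ih2, ih3⟩ := ih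
    rw [tr_append, ost_append, pos_append, pos_append, ih1]
    set σ := ost ν (mkv ν m tab) s W with hσ
    set T := tr ν (mkv ν m tab) s W with hT
    cases b with
    | false =>
      have hp : pos [false] = [] := by simp [pos]
      have hph : phys (mkv ν m tab) [false] = [false] := by simp [phys, rule]
      rw [hp]
      have htr : tr ν (mkv ν m tab) σ [false] = if σ = 0 then [false] else [] := by
        rw [tr, hph]
        rcases σ with _ | σ
        · simp [read]
        · simp [read]
      have hos : ost ν (mkv ν m tab) σ [false] = if σ = 0 then ν - 1 else σ - 1 := by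
        rw [ost, hph]
        rcases σ with _ | σ
        · simp [out]
        · simp [out]
      rw [htr, hos]
      refine ⟨?_, ?_, ?_⟩
      · by_cases h0 : σ = 0
        · simp [h0, pos]
        · simp [h0, pos]
      · by_cases h0 : σ = 0
        · simp only [h0, if_true, List.length_append, List.length_cons, List.length_nil,
            List.map_nil, List.append_nil, Nat.mul_add]
          rw [h0] at ih2
          omega
        · simp only [h0, if_false, List.length_append, List.length_cons, List.length_nil,
            List.map_nil, List.append_nil, Nat.mul_add]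
          omega
      · by_cases h0 : σ = 0
        · simp only [h0, if_true]; omega
        · simp only [h0, if_false]; omega
    | true =>
      have hp : pos [true] = [0] := by simp [pos]
      have hph : phys (mkv ν m tab) [true] = mkv ν m tab := by simp [phys, rule]
      obtain ⟨h1, h2⟩ := Trans_blocks ν (by omega) tab σ ih3 (List.range m)
      have htr : tr ν (mkv ν m tab) σ [true] = (List.range m).map (Trans_sym tab σ) := by
        rw [tr, hph]; exact h1
      have hos : ost ν (mkv ν m tab) σ [true] = σ := by
        rw [ost, hph]; exact h2
      rw [htr, hos, hp, Trans_pos_sym m hm tab hs hlt σ]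
      refine ⟨?_, ?_, ih3⟩
      · rw [nxt, nxt, nxtFrom_append]
        congr 1
        have hc : nxtFrom ν (ν * m - 1) tab s (0 + (pos W).length) (List.map (· + W.length) [0])
            = child ν tab s (W.length + (ν * m - 1) * (pos W).length) := by
          simp [nxtFrom]
        rw [hc]
        generalize hR : W.length + (ν * m - 1) * (pos W).length = R at ih2
        rw [child]
        rcases Nat.lt_or_ge σ 1 with h0 | h0
        · have h0' : σ = 0 := by omega
          have e1 : R = s + ν * T.length := by omega
          have e2 : R % ν = s := by rw [e1, Nat.add_mul_mod_self_left, Nat.mod_eq_of_lt hsν]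
          have e3 : R / ν = T.length := by
            rw [e1, Nat.add_mul_div_left _ _ (by omega), Nat.div_eq_of_lt hsν, Nat.zero_add]
          simp [h0', e2, e3]
        · rcases Nat.lt_or_ge σ 2 with h2' | h2'
          · have h0' : σ = 1 := by omega
            have e1 : R + 1 = s + ν * T.length := by omega
            have e2 : (R + 1) % ν = s := by rw [e1, Nat.add_mul_mod_self_left, Nat.mod_eq_of_lt hsν]
            have e3 : (R + 1) / ν = T.length := by
              rw [e1, Nat.add_mul_div_left _ _ (by omega), Nat.div_eq_of_lt hsν, Nat.zero_add]
            have e4 : R % ν ≠ s := by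
              intro h
              have h5 := Nat.mod_add_div R ν
              have h6 : ν * (R / ν) + 1 = ν * T.length := by omega
              have h7 : ν ∣ 1 := by
                have : ν ∣ ν * (R / ν) + 1 := h6 ▸ Dvd.intro _ rfl
                exact (Nat.dvd_add_right (Dvd.intro _ rfl)).1 this
              have := Nat.le_of_dvd (by norm_num) h7
              omega
            simp [h0', e2, e3, e4]
          · have e4 : R % ν ≠ s := by
              intro h
              have h5 := Nat.mod_add_div R ν
              have h6 : ν * (R / ν) + σ = ν * T.length := by omega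
              have h7 : ν ∣ σ := by
                have : ν ∣ ν * (R / ν) + σ := h6 ▸ Dvd.intro _ rfl
                exact (Nat.dvd_add_right (Dvd.intro _ rfl)).1 this
              have := Nat.le_of_dvd (by omega) h7
              omega
            have e5 : (R + 1) % ν ≠ s := by
              intro h
              have h5 := Nat.mod_add_div (R + 1) ν
              have h6 : ν * ((R + 1) / ν) + (σ - 1) = ν * T.length := by omega
              have h7 : ν ∣ σ - 1 := by
                have : ν ∣ ν * ((R + 1) / ν) + (σ - 1) := h6 ▸ Dvd.intro _ rfl
                exact (Nat.dvd_add_right (Dvd.intro _ rfl)).1 this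
              have := Nat.le_of_dvd (by omega) h7
              omega
            have e6 : σ ≠ 0 := by omega
            have e7 : σ ≠ 1 := by omega
            simp [e4, e5, e6, e7]
      · simp only [List.length_append, List.length_map, List.length_range, List.length_cons,
          List.length_nil, Nat.mul_add]
        omega

end Pool.Agent.Lib.MP_b40757_lc
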